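import Pool.Agent.H31.QH.Dfs

/-!
Row BesA (MP_b924dd_QH): the Bessel integral.

STATEMENT.  `u : ℝ → ℝ` continuous, `v ∈ l2(PI;E)` fixed, `κ > 0` (`κ = Tp ε`): `∫_0^T e^{-u(t)} ‖d(u(t), t/κ) · v‖² dt ≤ 30 κ ‖v‖²`.
PROOF.  For `c : ℤ × ℤ` let `N c = Σ'_n ‖v (c,n)‖²`, so `Σ_c N c = ‖v‖²` (`HasSum.prod_fiberwise`-type regrouping of `hasSum_sq v`).
`‖mul (fun p => d u τ p.1) v‖² = Σ_c (d u τ c)² N c` (cl1_of_abs_le as `0 ≤ d ≤ 1`), and by `C.supp`, `0 ≤ d ≤ 1`:
`e^{-u} (d u τ (k,c))² ≤ e^{2-k} 1[|τ e^{-k} - c| < 2]`.  So with `τ = t/κ` the integrand is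
`≤ Σ_{(k,c)} e^{2-k} 1[|t e^{-k}/κ - c| < 2] N(k,c)` for every `t`, pointwise in `[0,∞]`.
Pass to `lintegral`: `∫_0^T F = ∫_{Ioc 0 T} F` (T ≥ 0), `= ENNReal.toReal (∫⁻ ofReal F)` for `F ≥ 0` measurable
(`integral_eq_lintegral_of_nonneg_ae`; the integrand is continuous: `mul` with weights continuous in `t` — or only measurable: it
is a countable sum of measurable functions; use `norm_mul_sub_mul_le` and `C.d_lip` for continuity), and
`∫⁻ Σ' = Σ' ∫⁻` (`lintegral_tsum`), `∫⁻ 1[|t e^{-k}/κ - c| < 2] dt = volume (interval of length 4 κ e^k) = ofReal (4κe^k)`.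
Total `Σ_{(k,c)} e^{2-k}·4κe^k·N(k,c) = 4e²κ‖v‖² ≤ 30κ‖v‖²` (`e² ≤ 7.3891`, `4e² ≤ 29.6`).
The second statement (continuity of the integrand) is used by other rows.
-/

namespace Pool.Agent.H31.QH

open Filter Topology MeasureTheory

variable {E : Type*} [NormedAddCommGroup E] [InnerProductSpace ℝ E] [CompleteSpace E]

theorem besA_cont (C : Col) (u : ℝ → ℝ) (hu : Continuous u) (v : XX E) (κ : ℝ) (hκ : 0 < κ) :
    Continuous (fun t => ‖mul (fun p : PI => C.d (u t) (t / κ) p.1) v‖) := by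
  rw [continuous_iff_continuousAt]
  intro s
  rw [ContinuousAt, tendsto_iff_norm_sub_tendsto_zero]
  have hb : ∀ t, ‖‖mul (fun p : PI => C.d (u t) (t / κ) p.1) v‖ -
      ‖mul (fun p : PI => C.d (u s) (s / κ) p.1) v‖‖ ≤
      (2 * |u t - u s| + 15 * Real.exp (-(u s)) * |t / κ - s / κ|) * ‖v‖ := by
    intro t
    rw [Real.norm_eq_abs]
    refine (abs_norm_sub_norm_le _ _).trans ?_
    exact norm_mul_sub_mul_le _ _ v (by positivity) (fun p => C.d_lip (u s) (u t) (s / κ) (t / κ) p.1)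
  have hlim : Tendsto (fun t => (2 * |u t - u s| + 15 * Real.exp (-(u s)) * |t / κ - s / κ|) * ‖v‖)
      (𝓝 s) (𝓝 0) := by
    have hc : Continuous
        (fun t => (2 * |u t - u s| + 15 * Real.exp (-(u s)) * |t / κ - s / κ|) * ‖v‖) := by
      fun_prop
    have h := hc.tendsto s
    simpa using h
  exact squeeze_zero (fun t => norm_nonneg _) hb hlim

theorem besA (C : Col) (u : ℝ → ℝ) (hu : Continuous u) (v : XX E) (κ : ℝ) (hκ : 0 < κ) (T : ℝ)
    (hT : 0 ≤ T) :
    ∫ t in (0:ℝ)..T, Real.exp (-(u t)) * ‖mul (fun p : PI => C.d (u t) (t / κ) p.1) v‖ ^ 2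
      ≤ 30 * κ * ‖v‖ ^ 2 := by
  set F : ℝ → ℝ := fun t => Real.exp (-(u t)) * ‖mul (fun p : PI => C.d (u t) (t / κ) p.1) v‖ ^ 2
    with hF
  have hFc : Continuous F :=
    (Real.continuous_exp.comp hu.neg).mul ((besA_cont C u hu v κ hκ).pow 2)
  have hF0 : ∀ t, 0 ≤ F t := fun t => by
    simp only [hF]
    positivity
  rw [intervalIntegral.integral_of_le hT,
    integral_eq_lintegral_of_nonneg_ae (Filter.Eventually.of_forall hF0) hFc.aestronglyMeasurable]
  apply ENNReal.toReal_le_of_le_ofReal (by positivity)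
  refine (setLIntegral_le_lintegral _ _).trans ?_
  set I : PI → Set ℝ := fun p => Set.Ioo (((p.1.2 : ℝ) - 2) * (κ * Real.exp (p.1.1 : ℝ)))
    (((p.1.2 : ℝ) + 2) * (κ * Real.exp (p.1.1 : ℝ))) with hI
  have hpt : ∀ t, ENNReal.ofReal (F t) ≤ ∑' p : PI, (I p).indicator
      (fun _ => ENNReal.ofReal (Real.exp (2 - (p.1.1 : ℝ)) * ‖v p‖ ^ 2)) t := by
    intro t
    have hs := hasSum_sq (mul (fun p : PI => C.d (u t) (t / κ) p.1) v)
    have h1 : F t = ∑' p : PI, Real.exp (-(u t)) *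
        ‖(mul (fun p : PI => C.d (u t) (t / κ) p.1) v) p‖ ^ 2 := by
      rw [tsum_mul_left, hs.tsum_eq]
    rw [h1, ENNReal.ofReal_tsum_of_nonneg (fun p => by positivity) (hs.summable.mul_left _)]
    refine ENNReal.tsum_le_tsum (fun p => ?_)
    by_cases hd : C.d (u t) (t / κ) p.1 = 0
    · have h0 : (mul (fun p : PI => C.d (u t) (t / κ) p.1) v) p = 0 := by
        rw [mul_apply, hd]
        simp [cl1]
      rw [h0]
      simp
    · obtain ⟨h2, h3⟩ := C.supp (u t) (t / κ) p.1 hd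
      have hpos : 0 < κ * Real.exp (p.1.1 : ℝ) := mul_pos hκ (Real.exp_pos _)
      have e1 : t / κ * Real.exp (-(p.1.1 : ℝ)) * (κ * Real.exp (p.1.1 : ℝ)) = t := by
        rw [Real.exp_neg]
        have := Real.exp_ne_zero (p.1.1 : ℝ)
        field_simp
      rw [abs_lt] at h3
      have hmem : t ∈ I p := by
        simp only [hI, Set.mem_Ioo]
        constructor
        · have h4 := mul_lt_mul_of_pos_right
            (show (p.1.2 : ℝ) - 2 < t / κ * Real.exp (-(p.1.1 : ℝ)) by linarith [h3.1]) hpos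
          rwa [e1] at h4
        · have h4 := mul_lt_mul_of_pos_right
            (show t / κ * Real.exp (-(p.1.1 : ℝ)) < (p.1.2 : ℝ) + 2 by linarith [h3.2]) hpos
          rwa [e1] at h4
      rw [Set.indicator_of_mem hmem]
      apply ENNReal.ofReal_le_ofReal
      refine mul_le_mul h2 ?_ (by positivity) (Real.exp_pos _).le
      rw [mul_apply, norm_smul]
      have h5 : ‖cl1 (C.d (u t) (t / κ) p.1)‖ ≤ 1 := abs_cl1_le _
      have h6 : ‖cl1 (C.d (u t) (t / κ) p.1)‖ * ‖v p‖ ≤ ‖v p‖ := by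
        have := mul_le_mul_of_nonneg_right h5 (norm_nonneg (v p))
        linarith
      exact pow_le_pow_left₀ (by positivity) h6 2
  have hsv := summable_sq v
  calc ∫⁻ t, ENNReal.ofReal (F t)
      ≤ ∫⁻ t, ∑' p : PI, (I p).indicator
        (fun _ => ENNReal.ofReal (Real.exp (2 - (p.1.1 : ℝ)) * ‖v p‖ ^ 2)) t := lintegral_mono hpt
    _ = ∑' p : PI, ∫⁻ t, (I p).indicator
        (fun _ => ENNReal.ofReal (Real.exp (2 - (p.1.1 : ℝ)) * ‖v p‖ ^ 2)) t :=
        lintegral_tsum (fun p => (measurable_const.indicator measurableSet_Ioo).aemeasurable)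
    _ = ∑' p : PI, ENNReal.ofReal (4 * Real.exp 2 * κ * ‖v p‖ ^ 2) := by
        refine tsum_congr (fun p => ?_)
        rw [lintegral_indicator_const measurableSet_Ioo, Real.volume_Ioo,
          ← ENNReal.ofReal_mul (by positivity)]
        congr 1
        have := Real.exp_ne_zero (p.1.1 : ℝ)
        rw [Real.exp_sub]
        field_simp
        ring
    _ = ENNReal.ofReal (∑' p : PI, 4 * Real.exp 2 * κ * ‖v p‖ ^ 2) :=
        (ENNReal.ofReal_tsum_of_nonneg (fun p => by positivity) (hsv.mul_left _)).symm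
    _ ≤ ENNReal.ofReal (30 * κ * ‖v‖ ^ 2) := by
        apply ENNReal.ofReal_le_ofReal
        rw [tsum_mul_left, ← norm_sq_eq]
        have h7 : Real.exp 2 ≤ 7.5 := by
          have h8 := Real.exp_one_lt_d9
          have h9 : Real.exp 2 = Real.exp 1 * Real.exp 1 := by
            rw [← Real.exp_add]
            norm_num
          rw [h9]
          nlinarith [Real.exp_pos 1]
        have h10 : 4 * Real.exp 2 * κ ≤ 30 * κ := by nlinarith
        exact mul_le_mul_of_nonneg_right h10 (by positivity)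

end Pool.Agent.H31.QH
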