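import Pool.Agent.H31.QH.Dfs

/-!
Row ColA (MP_b924dd_QH): a path through the unit vectors `e_n`, `n ∈ ℤ`.

`p u n = cos ((π/2) min(|u-n|, 1))`, so `p u n = 0` unless `|u - n| < 1`, i.e. `n ∈ {⌊u⌋, ⌊u⌋+1}` (finite support, so in `l2`).
PROOF.  With `n = ⌊u⌋`, `θ = (π/2)(u - n) ∈ [0, π/2)`: `p u n = cos θ`, `p u (n+1) = cos(π/2 - θ) = sin θ`, all the others vanish
(for integers `m ≠ n, n+1`, `|u - m| ≥ 1`; if `θ = 0` also `p u (n+1) = 0`).  `‖p u‖² = cos² + sin² = 1`.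
Lipschitz: each coordinate is `π/2`-Lipschitz (`cos` is 1-Lipschitz, `min(|u-n|,1)` is 1-Lipschitz), and `p u' - p u` has at most four
non-zero coordinates (`⌊u⌋, ⌊u⌋+1, ⌊u'⌋, ⌊u'⌋+1`): `‖p u' - p u‖² ≤ 4 (π/2)² |u'-u|² ≤ 16|u'-u|²` (`π ≤ 4`).
(`norm_sq_eq`, `tsum_eq_sum` with a finset of card ≤ 4.)
-/

namespace Pool.Agent.H31.QH

open Filter Topology

/-- the coordinate function -/
noncomputable def pcoA (u : ℝ) (n : ℤ) : ℝ := Real.cos ((Real.pi / 2) * min (|u - n|) 1)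

theorem pcoA_zero {u : ℝ} {n : ℤ} (h : 1 ≤ |u - n|) : pcoA u n = 0 := by
  unfold pcoA
  rw [min_eq_right h, mul_one, Real.cos_pi_div_two]

theorem pcoA_far {u : ℝ} {n : ℤ} (h1 : n ≠ ⌊u⌋) (h2 : n ≠ ⌊u⌋ + 1) : pcoA u n = 0 := by
  apply pcoA_zero
  have ha : ((⌊u⌋ : ℤ) : ℝ) ≤ u := Int.floor_le u
  have hb : u < ((⌊u⌋ : ℤ) : ℝ) + 1 := Int.lt_floor_add_one u
  rcases lt_trichotomy n ⌊u⌋ with h | h | h
  · have h3 : (n : ℝ) + 1 ≤ ((⌊u⌋ : ℤ) : ℝ) := by exact_mod_cast h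
    rw [le_abs]
    left
    linarith
  · exact absurd h h1
  · have h4 : ⌊u⌋ + 2 ≤ n := by omega
    have h5 : ((⌊u⌋ : ℤ) : ℝ) + 2 ≤ (n : ℝ) := by exact_mod_cast h4
    rw [le_abs]
    right
    linarith

theorem pcoA_lip (u u' : ℝ) (n : ℤ) : |pcoA u' n - pcoA u n| ≤ 2 * |u' - u| := by
  unfold pcoA
  have h1 : |Real.cos ((Real.pi / 2) * min (|u' - n|) 1) - Real.cos ((Real.pi / 2) * min (|u - n|) 1)|
      ≤ |(Real.pi / 2) * min (|u' - n|) 1 - (Real.pi / 2) * min (|u - n|) 1| := by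
    have := Real.abs_cos_sub_cos_le ((Real.pi / 2) * min (|u' - n|) 1) ((Real.pi / 2) * min (|u - n|) 1)
    exact this
  have h2 : |min (|u' - n|) 1 - min (|u - n|) 1| ≤ |u' - u| := by
    have h3 := abs_min_sub_min_le_max (|u' - n|) 1 (|u - n|) 1
    have h4 : |(|u' - (n : ℝ)|) - (|u - (n : ℝ)|)| ≤ |u' - u| := by
      have := abs_abs_sub_abs_le_abs_sub (u' - (n : ℝ)) (u - n)
      have e : (u' - (n : ℝ)) - (u - n) = u' - u := by ring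
      rwa [e] at this
    refine h3.trans ?_
    rw [sub_self, abs_zero]
    exact max_le h4 (abs_nonneg _)
  have hpi : Real.pi ≤ 4 := Real.pi_le_four
  have hpi0 : 0 ≤ Real.pi := Real.pi_pos.le
  calc _ ≤ |(Real.pi / 2) * min (|u' - n|) 1 - (Real.pi / 2) * min (|u - n|) 1| := h1
    _ = (Real.pi / 2) * |min (|u' - n|) 1 - min (|u - n|) 1| := by
        rw [← _root_.mul_sub, abs_mul, abs_of_nonneg (by positivity)]
    _ ≤ 2 * |u' - u| := by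
        have : Real.pi / 2 ≤ 2 := by linarith
        exact mul_le_mul this h2 (abs_nonneg _) (by norm_num)

theorem pcoA_sq (u : ℝ) : pcoA u ⌊u⌋ ^ 2 + pcoA u (⌊u⌋ + 1) ^ 2 = 1 := by
  have ha : ((⌊u⌋ : ℤ) : ℝ) ≤ u := Int.floor_le u
  have hb : u < ((⌊u⌋ : ℤ) : ℝ) + 1 := Int.lt_floor_add_one u
  unfold pcoA
  have e1 : min (|u - ((⌊u⌋ : ℤ) : ℝ)|) 1 = u - ((⌊u⌋ : ℤ) : ℝ) := by
    rw [abs_of_nonneg (by linarith), min_eq_left (by linarith)]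
  have e2 : min (|u - (((⌊u⌋ + 1 : ℤ)) : ℝ)|) 1 = 1 - (u - ((⌊u⌋ : ℤ) : ℝ)) := by
    push_cast
    rw [abs_of_nonpos (by linarith), min_eq_left (by linarith)]
    ring
  rw [e1, e2]
  have e3 : (Real.pi / 2) * (1 - (u - ((⌊u⌋ : ℤ) : ℝ))) = Real.pi / 2 - (Real.pi / 2) * (u - ((⌊u⌋ : ℤ) : ℝ)) := by ring
  rw [e3, Real.cos_pi_div_two_sub]
  exact Real.cos_sq_add_sin_sq _

theorem pcoA_mem (u : ℝ) : Memℓp (fun n : ℤ => pcoA u n) 2 := by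
  apply mem2
  apply summable_of_ne_finset_zero (s := {⌊u⌋, ⌊u⌋ + 1})
  intro n hn
  rw [Finset.mem_insert, Finset.mem_singleton, not_or] at hn
  rw [pcoA_far hn.1 hn.2]
  norm_num

theorem colA : ∃ p : ℝ → l2R ℤ, (∀ u, ‖p u‖ = 1) ∧ (∀ u u', ‖p u' - p u‖ ≤ 4 * |u' - u|) ∧
    ∀ u (n : ℤ), p u n ≠ 0 → |u - n| < 1 := by
  refine ⟨fun u => ⟨fun n => pcoA u n, pcoA_mem u⟩, fun u => ?_, fun u u' => ?_, fun u n hn => ?_⟩
  · have h1 : ‖(⟨fun n => pcoA u n, pcoA_mem u⟩ : l2R ℤ)‖ ^ 2 = 1 := by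
      rw [norm_sq_eq]
      rw [tsum_eq_sum (s := {⌊u⌋, ⌊u⌋ + 1})]
      · rw [Finset.sum_pair (by omega)]
        have := pcoA_sq u
        simpa [Real.norm_eq_abs, sq_abs] using this
      · intro n hn
        rw [Finset.mem_insert, Finset.mem_singleton, not_or] at hn
        show ‖pcoA u n‖ ^ 2 = 0
        rw [pcoA_far hn.1 hn.2]
        norm_num
    have h2 : (0 : ℝ) ≤ ‖(⟨fun n => pcoA u n, pcoA_mem u⟩ : l2R ℤ)‖ := norm_nonneg _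
    nlinarith
  · set z : l2R ℤ := (⟨fun n => pcoA u' n, pcoA_mem u'⟩ : l2R ℤ) - ⟨fun n => pcoA u n, pcoA_mem u⟩ with hz
    have hzc : ∀ n, z n = pcoA u' n - pcoA u n := fun n => rfl
    have h1 : ‖z‖ ^ 2 ≤ (4 * |u' - u|) ^ 2 := by
      rw [norm_sq_eq]
      rw [tsum_eq_sum (s := {⌊u⌋, ⌊u⌋ + 1, ⌊u'⌋, ⌊u'⌋ + 1})]
      · have h2 : ∀ n ∈ ({⌊u⌋, ⌊u⌋ + 1, ⌊u'⌋, ⌊u'⌋ + 1} : Finset ℤ), ‖z n‖ ^ 2 ≤ (2 * |u' - u|) ^ 2 := by
          intro n _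
          rw [hzc, Real.norm_eq_abs]
          exact pow_le_pow_left₀ (abs_nonneg _) (pcoA_lip u u' n) 2
        have h3 := Finset.sum_le_card_nsmul _ _ _ h2
        have h4 : ({⌊u⌋, ⌊u⌋ + 1, ⌊u'⌋, ⌊u'⌋ + 1} : Finset ℤ).card ≤ 4 := Finset.card_le_four
        have h5 : (({⌊u⌋, ⌊u⌋ + 1, ⌊u'⌋, ⌊u'⌋ + 1} : Finset ℤ).card : ℝ) ≤ 4 := by exact_mod_cast h4
        rw [nsmul_eq_mul] at h3
        have h6 : (0 : ℝ) ≤ (2 * |u' - u|) ^ 2 := sq_nonneg _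
        nlinarith
      · intro n hn
        simp only [Finset.mem_insert, Finset.mem_singleton, not_or] at hn
        rw [hzc, pcoA_far hn.1 hn.2.1, pcoA_far hn.2.2.1 hn.2.2.2]
        norm_num
    exact le_of_sq_le_sq h1 (by positivity)
  · by_contra hcon
    exact hn (pcoA_zero (not_lt.mp hcon))

end Pool.Agent.H31.QH
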