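import Pool.Agent.H31.QH.ColA

/-!
Row ColB (MP_b924dd_QH): the colours.  Uses only the statement of ColA (and file L2).

Take `p` from colA.  `Γ u τ (k,c) = p u k * p (τ e^{-k}) c`, `w r = c01 (4 - 2|r|)` (`1` for `|r| ≤ 3/2`, `0` for `|r| ≥ 2`,
2-Lipschitz), `d u τ (k,c) = w (u - k) * w (τ e^{-k} - c)`.
LEMMA (twisted tensor): for `a : l2R ℤ`, `f : ℤ → l2R ℤ`, `M ≥ 0` with `a k ≠ 0 → ‖f k‖ ≤ M`: the family `(k,c) ↦ a k * f k c` is
square summable with sum `Σ_k a_k² ‖f k‖² ≤ M² ‖a‖²` (`summable_prod_of_nonneg`, `Summable.tsum_prod'`).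
(unit) `f k = p (τ e^{-k})`, all of norm 1: `‖Γ‖² = Σ_k (p u k)² = 1`.
(lip) `Γ u' τ' - Γ u τ = A + B`, `A (k,c) = (p u' k - p u k) p (τ' e^{-k}) c`: `‖A‖ = ‖p u' - p u‖ ≤ 4|u'-u|`;
 `B (k,c) = p u k (p (τ' e^{-k}) c - p (τ e^{-k}) c)`: `p u k ≠ 0` gives `|u - k| < 1`, `e^{-k} ≤ e^{1-u}`, so
 `‖p (τ' e^{-k}) - p (τ e^{-k})‖ ≤ 4 e^{-k}|τ'-τ| ≤ 4 e · e^{-u}|τ'-τ|`, `4e ≤ 11` (`Real.exp_one_lt_d9`).
(d_lip) `|d' - d| ≤ |w(u'-k) - w(u-k)| + w(u-k)|w(τ'e^{-k}-c) - w(τe^{-k}-c)| ≤ 2|u'-u| + 2 e^{-k}|τ'-τ|` (second part only if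
 `|u-k| < 2`, then `e^{-k} ≤ e^{2-u}`), `2e² ≤ 15`.
(marg) `Γ u τ (k,c) ≠ 0` gives `|u-k| < 1`, `|τ e^{-k} - c| < 1`; then `|u'-k| ≤ 3/2`, and `|τ' e^{-k} - c| ≤ 1 + e^{-k}|τ'-τ| ≤
 1 + e^{1-u}|τ'-τ| ≤ 3/2`: both factors are 1.
(supp) `d ≠ 0` gives `|u-k| < 2`, so `-u ≤ 2-k`, and `|τ e^{-k} - c| < 2`.
-/

namespace Pool.Agent.H31.QH

open Filter Topology

theorem colB_inner (a : ℝ) (g : l2R ℤ) :
    HasSum (fun c => ‖a * g c‖ ^ 2) (‖a‖ ^ 2 * ‖g‖ ^ 2) := by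
  have e : (fun c => ‖a * g c‖ ^ 2) = fun c => ‖a‖ ^ 2 * ‖g c‖ ^ 2 := by
    funext c
    rw [norm_mul, mul_pow]
  rw [e]
  exact (hasSum_sq g).mul_left _

theorem colB_term (a : l2R ℤ) (f : ℤ → l2R ℤ) (M : ℝ) (hM : ∀ k, a k ≠ 0 → ‖f k‖ ≤ M) (k : ℤ) :
    ‖a k‖ ^ 2 * ‖f k‖ ^ 2 ≤ M ^ 2 * ‖a k‖ ^ 2 := by
  by_cases h : a k = 0
  · simp [h]
  · have h1 : ‖f k‖ ^ 2 ≤ M ^ 2 := pow_le_pow_left₀ (norm_nonneg _) (hM k h) 2
    rw [mul_comm]
    exact mul_le_mul_of_nonneg_right h1 (by positivity)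

theorem colB_summ (a : l2R ℤ) (f : ℤ → l2R ℤ) (M : ℝ) (hM : ∀ k, a k ≠ 0 → ‖f k‖ ≤ M) :
    Summable (fun q : ℤ × ℤ => ‖a q.1 * f q.1 q.2‖ ^ 2) := by
  rw [summable_prod_of_nonneg (fun q => by positivity)]
  refine ⟨fun k => (colB_inner (a k) (f k)).summable, ?_⟩
  have e : (fun k => ∑' c, ‖a k * f k c‖ ^ 2) = fun k => ‖a k‖ ^ 2 * ‖f k‖ ^ 2 := by
    funext k
    exact (colB_inner (a k) (f k)).tsum_eq
  show Summable (fun k => ∑' c, ‖a k * f k c‖ ^ 2)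
  rw [e]
  exact Summable.of_nonneg_of_le (fun k => by positivity) (colB_term a f M hM)
    ((summable_sq a).mul_left _)

theorem colB_tsum (a : l2R ℤ) (f : ℤ → l2R ℤ) (M : ℝ) (hM : ∀ k, a k ≠ 0 → ‖f k‖ ≤ M) :
    ∑' q : ℤ × ℤ, ‖a q.1 * f q.1 q.2‖ ^ 2 = ∑' k, ‖a k‖ ^ 2 * ‖f k‖ ^ 2 := by
  rw [(colB_summ a f M hM).tsum_prod' (fun k => (colB_inner (a k) (f k)).summable)]
  congr 1
  funext k
  exact (colB_inner (a k) (f k)).tsum_eq

/-- twisted tensor product -/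
noncomputable def colB_tw (a : l2R ℤ) (f : ℤ → l2R ℤ) (M : ℝ) (hM : ∀ k, a k ≠ 0 → ‖f k‖ ≤ M) :
    l2R (ℤ × ℤ) :=
  ⟨fun q => a q.1 * f q.1 q.2, mem2 (colB_summ a f M hM)⟩

theorem colB_tw_apply (a : l2R ℤ) (f : ℤ → l2R ℤ) (M : ℝ) (hM : ∀ k, a k ≠ 0 → ‖f k‖ ≤ M)
    (q : ℤ × ℤ) : colB_tw a f M hM q = a q.1 * f q.1 q.2 := rfl

theorem colB_tw_norm_sq (a : l2R ℤ) (f : ℤ → l2R ℤ) (M : ℝ) (hM : ∀ k, a k ≠ 0 → ‖f k‖ ≤ M) :
    ‖colB_tw a f M hM‖ ^ 2 = ∑' k, ‖a k‖ ^ 2 * ‖f k‖ ^ 2 := by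
  rw [norm_sq_eq]
  exact colB_tsum a f M hM

theorem colB_tw_norm_le (a : l2R ℤ) (f : ℤ → l2R ℤ) (M : ℝ) (hM : ∀ k, a k ≠ 0 → ‖f k‖ ≤ M)
    (h0 : 0 ≤ M) : ‖colB_tw a f M hM‖ ≤ M * ‖a‖ := by
  have h1 : ‖colB_tw a f M hM‖ ^ 2 ≤ (M * ‖a‖) ^ 2 := by
    rw [colB_tw_norm_sq, mul_pow, norm_sq_eq, ← tsum_mul_left]
    refine Summable.tsum_le_tsum (colB_term a f M hM) ?_ ((summable_sq a).mul_left _)
    exact Summable.of_nonneg_of_le (fun k => by positivity) (colB_term a f M hM)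
      ((summable_sq a).mul_left _)
  exact le_of_sq_le_sq h1 (by positivity)

theorem colB_tw_unit (a : l2R ℤ) (f : ℤ → l2R ℤ) (M : ℝ) (hM : ∀ k, a k ≠ 0 → ‖f k‖ ≤ M)
    (ha : ‖a‖ = 1) (hf : ∀ k, ‖f k‖ = 1) : ‖colB_tw a f M hM‖ = 1 := by
  have h1 : ‖colB_tw a f M hM‖ ^ 2 = 1 ^ 2 := by
    rw [colB_tw_norm_sq, ← ha, norm_sq_eq]
    congr 1
    funext k
    rw [hf k]
    ring
  exact (pow_left_inj₀ (norm_nonneg _) (by norm_num) two_ne_zero).mp h1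

/-- the cut-off -/
noncomputable def colB_w (r : ℝ) : ℝ := c01 (4 - 2 * |r|)

theorem colB_c01_lip (r s : ℝ) : |c01 r - c01 s| ≤ |r - s| := by
  unfold c01
  have h1 : |max 0 (min r 1) - max 0 (min s 1)| ≤ |min r 1 - min s 1| := by
    have := abs_max_sub_max_le_max (0 : ℝ) (min r 1) 0 (min s 1)
    simpa using this
  have h2 : |min r 1 - min s 1| ≤ |r - s| := by
    have := abs_min_sub_min_le_max r 1 s 1
    simpa using this
  exact h1.trans h2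

theorem colB_w_nonneg (r : ℝ) : 0 ≤ colB_w r := le_max_left _ _

theorem colB_w_le (r : ℝ) : colB_w r ≤ 1 := max_le (by norm_num) (min_le_right _ _)

theorem colB_w_lip (r s : ℝ) : |colB_w r - colB_w s| ≤ 2 * |r - s| := by
  refine (colB_c01_lip _ _).trans ?_
  have e : (4 - 2 * |r|) - (4 - 2 * |s|) = 2 * (|s| - |r|) := by ring
  rw [e, abs_mul, abs_two]
  have h := abs_abs_sub_abs_le_abs_sub s r
  rw [abs_sub_comm s r] at h
  linarith

theorem colB_w_one {r : ℝ} (h : |r| ≤ 3 / 2) : colB_w r = 1 := by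
  unfold colB_w c01
  rw [min_eq_right (by linarith), max_eq_right (by norm_num)]

theorem colB_w_supp {r : ℝ} (h : colB_w r ≠ 0) : |r| < 2 := by
  by_contra h'
  push Not at h'
  apply h
  unfold colB_w c01
  exact max_eq_left ((min_le_left _ _).trans (by linarith))

theorem colB_e1 : 4 * Real.exp 1 ≤ 11 := by
  have := Real.exp_one_lt_d9
  linarith

theorem colB_e2 : 2 * Real.exp 2 ≤ 15 := by
  have h := Real.exp_one_lt_d9
  have e : Real.exp 2 = Real.exp 1 * Real.exp 1 := by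
    rw [← Real.exp_add]
    norm_num
  rw [e]
  have h0 := Real.exp_pos 1
  nlinarith

theorem colB : Nonempty Col := by
  obtain ⟨p, hp1, hp2, hp3⟩ := colA
  have hM1 : ∀ (a : l2R ℤ) (τ : ℝ) (k : ℤ), a k ≠ 0 → ‖p (τ * Real.exp (-(k : ℝ)))‖ ≤ 1 :=
    fun a τ k _ => (hp1 _).le
  have hexp : ∀ (u : ℝ) (k : ℤ), |u - k| < 1 → Real.exp (-(k : ℝ)) ≤ Real.exp (1 - u) := by
    intro u k h
    apply Real.exp_le_exp.mpr
    have := (abs_lt.mp h).2
    linarith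
  refine ⟨{
    Γ := fun u τ => colB_tw (p u) (fun k => p (τ * Real.exp (-(k : ℝ)))) 1 (hM1 (p u) τ)
    d := fun u τ c => colB_w (u - c.1) * colB_w (τ * Real.exp (-(c.1 : ℝ)) - c.2)
    unit := fun u τ => colB_tw_unit _ _ _ _ (hp1 u) (fun k => hp1 _)
    lip := ?_
    d_nonneg := fun u τ c => mul_nonneg (colB_w_nonneg _) (colB_w_nonneg _)
    d_le := fun u τ c => mul_le_one₀ (colB_w_le _) (colB_w_nonneg _) (colB_w_le _)
    d_lip := ?_
    marg := ?_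
    supp := ?_ }⟩
  · intro u u' τ τ'
    have hB : ∀ k, (p u) k ≠ 0 →
        ‖p (τ' * Real.exp (-(k : ℝ))) - p (τ * Real.exp (-(k : ℝ)))‖
          ≤ 11 * Real.exp (-u) * |τ' - τ| := by
      intro k hk
      have h1 := hp2 (τ * Real.exp (-(k : ℝ))) (τ' * Real.exp (-(k : ℝ)))
      have e : τ' * Real.exp (-(k : ℝ)) - τ * Real.exp (-(k : ℝ))
          = Real.exp (-(k : ℝ)) * (τ' - τ) := by ring
      rw [e, abs_mul, abs_of_pos (Real.exp_pos _)] at h1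
      have h2 := hexp u k (hp3 u k hk)
      have e2 : Real.exp (1 - u) = Real.exp 1 * Real.exp (-u) := by
        rw [← Real.exp_add]
        congr 1
      rw [e2] at h2
      have h3 : 4 * Real.exp (-(k : ℝ)) ≤ 11 * Real.exp (-u) := by
        have := colB_e1
        have h4 := Real.exp_pos (-u)
        nlinarith
      calc ‖p (τ' * Real.exp (-(k : ℝ))) - p (τ * Real.exp (-(k : ℝ)))‖
          ≤ 4 * (Real.exp (-(k : ℝ)) * |τ' - τ|) := h1
        _ = (4 * Real.exp (-(k : ℝ))) * |τ' - τ| := by ring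
        _ ≤ (11 * Real.exp (-u)) * |τ' - τ| :=
            mul_le_mul_of_nonneg_right h3 (abs_nonneg _)
    have e : colB_tw (p u') (fun k => p (τ' * Real.exp (-(k : ℝ)))) 1 (hM1 (p u') τ')
        - colB_tw (p u) (fun k => p (τ * Real.exp (-(k : ℝ)))) 1 (hM1 (p u) τ)
        = colB_tw (p u' - p u) (fun k => p (τ' * Real.exp (-(k : ℝ)))) 1 (hM1 _ τ')
          + colB_tw (p u) (fun k => p (τ' * Real.exp (-(k : ℝ))) - p (τ * Real.exp (-(k : ℝ))))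
            (11 * Real.exp (-u) * |τ' - τ|) hB := by
      apply lp.ext
      funext q
      rw [lp.coeFn_sub, lp.coeFn_add, Pi.sub_apply, Pi.add_apply, colB_tw_apply, colB_tw_apply,
        colB_tw_apply, colB_tw_apply, lp.coeFn_sub, lp.coeFn_sub, Pi.sub_apply, Pi.sub_apply]
      ring
    rw [e]
    have h1 := colB_tw_norm_le (p u' - p u) (fun k => p (τ' * Real.exp (-(k : ℝ)))) 1 (hM1 _ τ')
      zero_le_one
    have h2 := colB_tw_norm_le (p u)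
      (fun k => p (τ' * Real.exp (-(k : ℝ))) - p (τ * Real.exp (-(k : ℝ))))
      (11 * Real.exp (-u) * |τ' - τ|) hB (by positivity)
    rw [hp1 u, mul_one] at h2
    rw [one_mul] at h1
    exact (norm_add_le _ _).trans (add_le_add (h1.trans (hp2 u u')) h2)
  · intro u u' τ τ' c
    obtain ⟨k, c⟩ := c
    show |colB_w (u' - k) * colB_w (τ' * Real.exp (-(k : ℝ)) - c)
      - colB_w (u - k) * colB_w (τ * Real.exp (-(k : ℝ)) - c)| ≤ _
    have e : colB_w (u' - k) * colB_w (τ' * Real.exp (-(k : ℝ)) - c)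
        - colB_w (u - k) * colB_w (τ * Real.exp (-(k : ℝ)) - c)
        = (colB_w (u' - k) - colB_w (u - k)) * colB_w (τ' * Real.exp (-(k : ℝ)) - c)
          + colB_w (u - k) * (colB_w (τ' * Real.exp (-(k : ℝ)) - c)
            - colB_w (τ * Real.exp (-(k : ℝ)) - c)) := by ring
    rw [e]
    refine (abs_add_le _ _).trans (add_le_add ?_ ?_)
    · rw [abs_mul, abs_of_nonneg (colB_w_nonneg (τ' * Real.exp (-(k : ℝ)) - c))]
      have h1 := colB_w_lip (u' - k) (u - k)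
      have e1 : (u' - (k : ℝ)) - (u - k) = u' - u := by ring
      rw [e1] at h1
      calc |colB_w (u' - k) - colB_w (u - k)| * colB_w (τ' * Real.exp (-(k : ℝ)) - c)
          ≤ |colB_w (u' - k) - colB_w (u - k)| * 1 :=
            mul_le_mul_of_nonneg_left (colB_w_le _) (abs_nonneg _)
        _ = |colB_w (u' - k) - colB_w (u - k)| := mul_one _
        _ ≤ 2 * |u' - u| := h1
    · rw [abs_mul, abs_of_nonneg (colB_w_nonneg (u - (k : ℝ)))]
      by_cases hz : colB_w (u - (k : ℝ)) = 0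
      · rw [hz, zero_mul]
        positivity
      · have h0 := (abs_lt.mp (colB_w_supp hz)).2
        have h1 := colB_w_lip (τ' * Real.exp (-(k : ℝ)) - c) (τ * Real.exp (-(k : ℝ)) - c)
        have e1 : (τ' * Real.exp (-(k : ℝ)) - c) - (τ * Real.exp (-(k : ℝ)) - c)
            = Real.exp (-(k : ℝ)) * (τ' - τ) := by ring
        rw [e1, abs_mul, abs_of_pos (Real.exp_pos _)] at h1
        have h2 : Real.exp (-(k : ℝ)) ≤ Real.exp 2 * Real.exp (-u) := by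
          rw [← Real.exp_add]
          apply Real.exp_le_exp.mpr
          linarith
        have h3 : 2 * Real.exp (-(k : ℝ)) ≤ 15 * Real.exp (-u) := by
          have := colB_e2
          have h4 := Real.exp_pos (-u)
          nlinarith
        calc colB_w (u - k) * |colB_w (τ' * Real.exp (-(k : ℝ)) - c)
              - colB_w (τ * Real.exp (-(k : ℝ)) - c)|
            ≤ 1 * |colB_w (τ' * Real.exp (-(k : ℝ)) - c)
              - colB_w (τ * Real.exp (-(k : ℝ)) - c)| :=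
              mul_le_mul_of_nonneg_right (colB_w_le _) (abs_nonneg _)
          _ = |colB_w (τ' * Real.exp (-(k : ℝ)) - c)
              - colB_w (τ * Real.exp (-(k : ℝ)) - c)| := one_mul _
          _ ≤ 2 * (Real.exp (-(k : ℝ)) * |τ' - τ|) := h1
          _ = (2 * Real.exp (-(k : ℝ))) * |τ' - τ| := by ring
          _ ≤ (15 * Real.exp (-u)) * |τ' - τ| :=
              mul_le_mul_of_nonneg_right h3 (abs_nonneg _)
  · intro u u' τ τ' c hΓ hu hτ
    obtain ⟨k, c⟩ := c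
    have hΓ' : p u k * p (τ * Real.exp (-(k : ℝ))) c ≠ 0 := hΓ
    have hk := hp3 u k (left_ne_zero_of_mul hΓ')
    have hc := hp3 _ c (right_ne_zero_of_mul hΓ')
    show colB_w (u' - k) * colB_w (τ' * Real.exp (-(k : ℝ)) - c) = 1
    have h1 : colB_w (u' - (k : ℝ)) = 1 := by
      apply colB_w_one
      have e : u' - (k : ℝ) = (u' - u) + (u - k) := by ring
      rw [e]
      have := abs_add_le (u' - u) (u - (k : ℝ))
      linarith
    have h2 : colB_w (τ' * Real.exp (-(k : ℝ)) - c) = 1 := by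
      apply colB_w_one
      have e : τ' * Real.exp (-(k : ℝ)) - c
          = Real.exp (-(k : ℝ)) * (τ' - τ) + (τ * Real.exp (-(k : ℝ)) - c) := by ring
      rw [e]
      have h3 := abs_add_le (Real.exp (-(k : ℝ)) * (τ' - τ)) (τ * Real.exp (-(k : ℝ)) - c)
      rw [abs_mul, abs_of_pos (Real.exp_pos _)] at h3
      have h4 := mul_le_mul_of_nonneg_right (hexp u k hk) (abs_nonneg (τ' - τ))
      linarith
    rw [h1, h2, mul_one]
  · intro u τ c hd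
    obtain ⟨k, c⟩ := c
    have hd' : colB_w (u - k) * colB_w (τ * Real.exp (-(k : ℝ)) - c) ≠ 0 := hd
    have h1 := colB_w_supp (left_ne_zero_of_mul hd')
    have h2 := colB_w_supp (right_ne_zero_of_mul hd')
    refine ⟨Real.exp_le_exp.mpr ?_, h2⟩
    have := (abs_lt.mp h1).1
    show -u ≤ 2 - (k : ℝ)
    linarith

end Pool.Agent.H31.QH
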