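import Pool.Agent.H31.QH.Dfs

/-!
Row CorA (MP_b924dd_QH): the model differential is exactly conformal.

Symbols: `Q* = adj Q`, `R = RR Q = 1 - QQ*`, `K = KK D Q z = J R`, `J = D.J (R z)`.

PROOF.  `hQ` gives `<Qe,Qe'> = <e,e'>` (polarisation; e.g. `LinearMap.isometryOfInner` or
`LinearIsometry.inner_map_map` for the `LinearIsometry` with underlying map `Q`), i.e. `Q* Q = 1`.
Likewise `J* J = 1` on `X` from `D.iso`.  `R` is self-adjoint (`adjoint R = R`), `R (Q e) = 0`, `Q* (R h) = 0`,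
`R (R h) = R h`.
(1) `K (Q e) = J (R (Q e)) = 0`.   (2) `K* K = R* J* J R = R* R = R` (as maps).
(3) `R (K* e) = K* e`, since `K* e = R* (J* e) = R (J* e)`; hence `Q* (K* e) = 0`.
Let `e = Q* h`, `r = R h = h - Q e`, so `h = Q e + r`, `K h = K r`, `Q* r = 0`, `R r = r`.
Let `e1 = K (K* e)`, `e2 = e - e1`.  `K* e2 = K* e - K* K K* e = K* e - R K* e = 0`, so `<e2, K w> = 0` for all `w`.
`Tm h = h + α Q (K h) - α K* e + (s-1) Q e2 = Q (e1 + s e2 + α K r) + (r - α K* e)`   [`e + (s-1) e2 = e1 + s e2`].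
The two summands are orthogonal (`Q* r = 0`, `Q* K* e = 0`), so
`‖Tm h‖^2 = ‖e1 + s e2 + α K r‖^2 + ‖r - α K* e‖^2`, and `e2` is orthogonal to `e1 = K(K* e)` and to `K r`:
`= ‖e1 + α K r‖^2 + s^2 ‖e2‖^2 + ‖r - α K* e‖^2`
`= ‖e1‖^2 + 2α<e1,K r> + α^2 ‖K r‖^2 + s^2 ‖e2‖^2 + ‖r‖^2 - 2α<r,K* e> + α^2 ‖K* e‖^2`.
Now `‖K r‖ = ‖R r‖ = ‖r‖`; `<e1, K r> = <K K* e, K r> = <K* K K* e, r> = <K* e, r>`;
`‖e1‖^2 = <K K* e, K K* e> = <K* e, K* K K* e> = ‖K* e‖^2`.  So the cross terms cancel and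
`= (1+α^2)‖e1‖^2 + (1+α^2)‖r‖^2 + s^2 ‖e2‖^2 = s^2 (‖e1‖^2 + ‖e2‖^2 + ‖r‖^2) = s^2 ‖h‖^2`
(`‖e1‖^2+‖e2‖^2 = ‖e‖^2`, `‖e‖^2 + ‖r‖^2 = ‖Q e + r‖^2 = ‖h‖^2`).  `s = sq1 α = √(1+α²) ≥ 0`.
The second statement: `‖R‖ ≤ 1`, `‖K‖ ≤ 1`, `‖K* e‖ ≤ ‖e‖` (used by the rows CorB, CorC).
-/

namespace Pool.Agent.H31.QH

open Filter Topology

variable {X E : Type*} [NormedAddCommGroup X] [InnerProductSpace ℝ X] [CompleteSpace X]
  [NormedAddCommGroup E] [InnerProductSpace ℝ E] [CompleteSpace E]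

theorem corA_inner (Q : E →L[ℝ] X) (hQ : ∀ e, ‖Q e‖ = ‖e‖) (e e' : E) :
    inner ℝ (Q e) (Q e') = inner ℝ e e' := by
  let U : E →ₗᵢ[ℝ] X := ⟨Q.toLinearMap, hQ⟩
  exact U.inner_map_map e e'

theorem corA_QQ (Q : E →L[ℝ] X) (hQ : ∀ e, ‖Q e‖ = ‖e‖) (e : E) : adj Q (Q e) = e := by
  refine ext_inner_right ℝ fun e' => ?_
  rw [ContinuousLinearMap.adjoint_inner_left]
  exact corA_inner Q hQ e e'

theorem corA_R (Q : E →L[ℝ] X) (h : X) : RR Q h = h - Q (adj Q h) := by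
  simp [RR]

theorem corA_QR (Q : E →L[ℝ] X) (hQ : ∀ e, ‖Q e‖ = ‖e‖) (h : X) : adj Q (RR Q h) = 0 := by
  rw [corA_R, map_sub, corA_QQ Q hQ, sub_self]

theorem corA_orth (Q : E →L[ℝ] X) (e : E) (y : X) (hy : adj Q y = 0) : inner ℝ (Q e) y = 0 := by
  rw [← ContinuousLinearMap.adjoint_inner_right, hy, inner_zero_right]

theorem corA_pyth (Q : E →L[ℝ] X) (hQ : ∀ e, ‖Q e‖ = ‖e‖) (e : E) (y : X) (hy : adj Q y = 0) :
    ‖Q e + y‖ ^ 2 = ‖e‖ ^ 2 + ‖y‖ ^ 2 := by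
  rw [norm_add_sq_real, corA_orth Q e y hy, hQ e]
  ring

theorem corA_split (Q : E →L[ℝ] X) (hQ : ∀ e, ‖Q e‖ = ‖e‖) (h : X) :
    ‖h‖ ^ 2 = ‖adj Q h‖ ^ 2 + ‖RR Q h‖ ^ 2 := by
  have h1 := corA_pyth Q hQ (adj Q h) (RR Q h) (corA_QR Q hQ h)
  have h2 : Q (adj Q h) + RR Q h = h := by
    rw [corA_R]
    abel
  rw [h2] at h1
  exact h1

theorem corA_RR (Q : E →L[ℝ] X) (hQ : ∀ e, ‖Q e‖ = ‖e‖) (h w : X) :
    inner ℝ (RR Q h) (RR Q w) = inner ℝ (RR Q h) w := by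
  have h1 : inner ℝ (RR Q h) (Q (adj Q w)) = 0 := by
    rw [real_inner_comm]
    exact corA_orth Q _ _ (corA_QR Q hQ h)
  rw [corA_R Q w, inner_sub_right, h1, sub_zero]

theorem corA_Kin (D : Wd X E) (Q : E →L[ℝ] X) (z h w : X) :
    inner ℝ (KK D Q z h) (KK D Q z w) = inner ℝ (RR Q h) (RR Q w) := by
  let U : X →ₗᵢ[ℝ] E := ⟨(D.J (RR Q z)).toLinearMap, D.iso (RR Q z)⟩
  exact U.inner_map_map (RR Q h) (RR Q w)

theorem corA_KQ (D : Wd X E) (Q : E →L[ℝ] X) (hQ : ∀ e, ‖Q e‖ = ‖e‖) (z : X) (e : E) :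
    KK D Q z (Q e) = 0 := by
  have h1 : RR Q (Q e) = 0 := by
    rw [corA_R, corA_QQ Q hQ, sub_self]
  change D.J (RR Q z) (RR Q (Q e)) = 0
  rw [h1, map_zero]

theorem corA_Qk (D : Wd X E) (Q : E →L[ℝ] X) (hQ : ∀ e, ‖Q e‖ = ‖e‖) (z : X) (e : E) :
    adj Q (ContinuousLinearMap.adjoint (KK D Q z) e) = 0 := by
  refine ext_inner_right ℝ fun e' => ?_
  rw [ContinuousLinearMap.adjoint_inner_left, ContinuousLinearMap.adjoint_inner_left,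
    corA_KQ D Q hQ, inner_zero_right, inner_zero_left]

theorem corA_Rk (D : Wd X E) (Q : E →L[ℝ] X) (hQ : ∀ e, ‖Q e‖ = ‖e‖) (z : X) (e : E) :
    RR Q (ContinuousLinearMap.adjoint (KK D Q z) e) =
      ContinuousLinearMap.adjoint (KK D Q z) e := by
  rw [corA_R, corA_Qk D Q hQ, map_zero, sub_zero]

theorem corA_KK (D : Wd X E) (Q : E →L[ℝ] X) (hQ : ∀ e, ‖Q e‖ = ‖e‖) (z w : X) :
    ContinuousLinearMap.adjoint (KK D Q z) (KK D Q z w) = RR Q w := by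
  refine ext_inner_right ℝ fun w' => ?_
  rw [ContinuousLinearMap.adjoint_inner_left, corA_Kin, corA_RR Q hQ]

theorem corA_Kn (D : Wd X E) (Q : E →L[ℝ] X) (z h : X) : ‖KK D Q z h‖ = ‖RR Q h‖ :=
  D.iso (RR Q z) (RR Q h)

/-- elementary facts on `Q`, `R`, `K` -/
theorem corA_basic (D : Wd X E) (Q : E →L[ℝ] X) (hQ : ∀ e, ‖Q e‖ = ‖e‖) (z : X) :
    (∀ e, adj Q (Q e) = e) ∧ (∀ h, ‖adj Q h‖ ≤ ‖h‖) ∧ (∀ h, ‖RR Q h‖ ≤ ‖h‖) ∧
    (∀ h, ‖KK D Q z h‖ ≤ ‖h‖) ∧ (∀ e, ‖ContinuousLinearMap.adjoint (KK D Q z) e‖ ≤ ‖e‖) ∧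
    (∀ e, ‖e - KK D Q z (ContinuousLinearMap.adjoint (KK D Q z) e)‖ ≤ ‖e‖) := by
  have hR : ∀ h, ‖RR Q h‖ ≤ ‖h‖ := by
    intro h
    have h1 := corA_split Q hQ h
    refine le_of_sq_le_sq ?_ (norm_nonneg _)
    nlinarith [sq_nonneg ‖adj Q h‖]
  have hK : ∀ h, ‖KK D Q z h‖ ≤ ‖h‖ := fun h => (corA_Kn D Q z h).trans_le (hR h)
  -- splitting of `e`
  have hs : ∀ e, ‖e‖ ^ 2 = ‖ContinuousLinearMap.adjoint (KK D Q z) e‖ ^ 2 +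
      ‖e - KK D Q z (ContinuousLinearMap.adjoint (KK D Q z) e)‖ ^ 2 := by
    intro e
    set k := ContinuousLinearMap.adjoint (KK D Q z) e with hk
    have h1 : inner ℝ (KK D Q z k) (e - KK D Q z k) = 0 := by
      rw [← ContinuousLinearMap.adjoint_inner_right, map_sub, corA_KK D Q hQ,
        corA_Rk D Q hQ, ← hk, sub_self, inner_zero_right]
    have h2 : e = KK D Q z k + (e - KK D Q z k) := by abel
    have h3 : ‖KK D Q z k‖ = ‖k‖ := by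
      rw [corA_Kn, hk, corA_Rk D Q hQ]
    have h4 := norm_add_sq_real (KK D Q z k) (e - KK D Q z k)
    rw [← h2, h1, h3] at h4
    linarith
  refine ⟨corA_QQ Q hQ, fun h => ?_, hR, hK, fun e => ?_, fun e => ?_⟩
  · have h1 := corA_split Q hQ h
    refine le_of_sq_le_sq ?_ (norm_nonneg _)
    nlinarith [sq_nonneg ‖RR Q h‖]
  · refine le_of_sq_le_sq ?_ (norm_nonneg _)
    nlinarith [hs e, sq_nonneg ‖e - KK D Q z (ContinuousLinearMap.adjoint (KK D Q z) e)‖]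
  · refine le_of_sq_le_sq ?_ (norm_nonneg _)
    nlinarith [hs e, sq_nonneg ‖ContinuousLinearMap.adjoint (KK D Q z) e‖]

theorem corA (D : Wd X E) (α : ℝ) (Q : E →L[ℝ] X) (hQ : ∀ e, ‖Q e‖ = ‖e‖) (z h : X) :
    ‖Tm D α Q z h‖ = sq1 α * ‖h‖ := by
  have hs0 : 0 ≤ sq1 α := Real.sqrt_nonneg _
  have hs2 : sq1 α ^ 2 = 1 + α ^ 2 := Real.sq_sqrt (by positivity)
  obtain ⟨s, hs⟩ : ∃ s, s = sq1 α := ⟨_, rfl⟩
  obtain ⟨e, he⟩ : ∃ e, e = adj Q h := ⟨_, rfl⟩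
  obtain ⟨r, hr⟩ : ∃ r, r = RR Q h := ⟨_, rfl⟩
  obtain ⟨k, hk⟩ : ∃ k, k = ContinuousLinearMap.adjoint (KK D Q z) e := ⟨_, rfl⟩
  obtain ⟨e1, he1⟩ : ∃ e1, e1 = KK D Q z k := ⟨_, rfl⟩
  obtain ⟨e2, he2⟩ : ∃ e2, e2 = e - e1 := ⟨_, rfl⟩
  obtain ⟨g, hg⟩ : ∃ g, g = KK D Q z h := ⟨_, rfl⟩
  have hRk : RR Q k = k := by rw [hk, corA_Rk D Q hQ]
  have hT : Tm D α Q z h = Q (e1 + s • e2 + α • g) + (r - α • k) := by
    have h1 : Tm D α Q z h = h + α • Q g - α • k + (s - 1) • Q (e - e1) := by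
      rw [hg, he1, hk, he, hs]
      simp [Tm]
    have h2 : h = Q (e1 + e2) + r := by
      rw [he2, hr, corA_R, ← he]
      have : e1 + (e - e1) = e := by abel
      rw [this]
      abel
    rw [h1, ← he2]
    conv_lhs => rw [h2]
    simp only [map_add, map_smul]
    module
  have hy : adj Q (r - α • k) = 0 := by
    rw [map_sub, map_smul, hr, corA_QR Q hQ, hk, corA_Qk D Q hQ, smul_zero, sub_zero]
  have i1 : inner ℝ e1 e2 = 0 := by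
    rw [he1, he2, ← ContinuousLinearMap.adjoint_inner_right, map_sub, ← hk, he1,
      corA_KK D Q hQ, hRk, sub_self, inner_zero_right]
  have i2 : inner ℝ e2 g = 0 := by
    rw [hg, ← ContinuousLinearMap.adjoint_inner_left, he2, map_sub, ← hk, he1,
      corA_KK D Q hQ, hRk, sub_self, inner_zero_left]
  have i3 : inner ℝ e1 g = inner ℝ r k := by
    rw [he1, hg, corA_Kin, hRk, ← hr, real_inner_comm]
  have n1 : ‖e1‖ ^ 2 = ‖k‖ ^ 2 := by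
    rw [he1, corA_Kn, hRk]
  have n2 : ‖g‖ ^ 2 = ‖r‖ ^ 2 := by
    rw [hg, corA_Kn, ← hr]
  have n3 : ‖e‖ ^ 2 = ‖e1‖ ^ 2 + ‖e2‖ ^ 2 := by
    have h2 : e = e1 + e2 := by
      rw [he2]
      abel
    rw [h2, norm_add_sq_real, i1]
    ring
  have n4 : ‖h‖ ^ 2 = ‖e‖ ^ 2 + ‖r‖ ^ 2 := by
    rw [he, hr]
    exact corA_split Q hQ h
  have m1 : ‖e1 + s • e2 + α • g‖ ^ 2 =
      ‖e1‖ ^ 2 + s ^ 2 * ‖e2‖ ^ 2 + α ^ 2 * ‖g‖ ^ 2 + 2 * α * inner ℝ r k := by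
    rw [norm_add_sq_real, norm_add_sq_real, inner_add_left, inner_smul_right, inner_smul_right,
      inner_smul_right, inner_smul_left, i1, i2, i3, norm_smul, norm_smul, mul_pow, mul_pow,
      Real.norm_eq_abs, Real.norm_eq_abs, sq_abs, sq_abs]
    simp only [conj_trivial]
    ring
  have m2 : ‖r - α • k‖ ^ 2 = ‖r‖ ^ 2 - 2 * α * inner ℝ r k + α ^ 2 * ‖k‖ ^ 2 := by
    rw [norm_sub_sq_real, inner_smul_right, norm_smul, mul_pow, Real.norm_eq_abs, sq_abs]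
    ring
  have m3 : ‖Tm D α Q z h‖ ^ 2 = (sq1 α * ‖h‖) ^ 2 := by
    rw [hT, corA_pyth Q hQ _ _ hy, m1, m2, mul_pow, hs2, n4, n3, n1, n2, hs, hs2]
    ring
  exact (sq_eq_sq₀ (norm_nonneg _) (mul_nonneg hs0 (norm_nonneg _))).1 m3

end Pool.Agent.H31.QH
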