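import Pool.Agent.H31.QH.CorA

/-!
Row CorB (MP_b924dd_QH): first order expansion of the core map.  Uses only the statements of CorA.

Symbols: `y = Q* z`, `y' = Q'* z'`, `v = R z`, `v' = R' z'`, `δ = Q'* z' - Q* z'` (so `Q* z' = y' - δ`),
`J = D.J v`, `J' = D.J v'`, `K = J R`, `K' = J' R'`, `s = sq1 α`, `dv = ‖v' - v‖`.

PROOF.  All norms of `Q, Q', R, R', J, J', K, K'` and adjoints are `≤ 1` (corA_basic, D.iso).
(0) `R' - R = -(Q'Q'* - QQ*)`, so `‖R' - R‖ ≤ 2β`.  `(R' - R) z' = -(Q' - Q) y' - Q δ`.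
    `v' - v = (R' - R) z' + R (z' - z)`, so `dv ≤ ‖z'-z‖ + β‖y'‖ + ‖δ‖`.
(1) `F' - F - T(z'-z) = (α'-α) N' + (s'-s) M' + α [N' - N - QK(z'-z) + K* Q*(z'-z)] + (s-1)[M' - M - Q(1-KK*)Q*(z'-z)]`
    with `N = Q W(v) - K* y`, `M = Q(y - K K* y)` and the same with primes (the terms `z'`, `z`, `z'-z` cancel).
    `‖N'‖ ≤ 1 + ‖y'‖`, `‖M'‖ ≤ ‖y'‖`, `|s'-s| ≤ |α'-α|`, `0 ≤ s-1 ≤ α` (as `0 ≤ α ≤ 1`; `√(1+α²) ≤ 1+α`).
(2) first bracket.  `Q'W(v') - Q W(v) - QK(z'-z) = (Q'-Q)W(v') + Q(W(v') - W(v) - J(v'-v)) + Q J (R'-R) z'`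
    [`J(v'-v) = J(R'-R)z' + J R (z'-z)`], norm `≤ β + w + (β‖y'‖ + ‖δ‖)`, where
    `w = ‖W(v')-W(v)-J(v'-v)‖ ≤ 2 min(dv, dv²)` (D.tay; and `≤ dv + dv` by D.lipW, D.iso).
    `-K'* y' + K* y + K* Q*(z'-z) = -(K'* - K*) y' - K* δ`   [`Q*(z'-z) = y' - δ - y`].
    `K' - K = (J'-J)R' + J(R'-R)`, so `‖K'-K‖ ≤ 2 dv + 2β`; adjoint is isometric: norm `≤ (2dv+2β)‖y'‖ + ‖δ‖`.
    Sum: `≤ β(1+3‖y'‖) + 2‖δ‖ + w + 2 dv ‖y'‖`.
(3) second bracket.  `= [Q'(1-K'K'*) - Q(1-KK*)] y' + Q(1-KK*) δ`; `‖K'K'* - KK*‖ ≤ 2‖K'-K‖ ≤ 4dv+4β`, so norm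
    `≤ (β + 4dv + 4β)‖y'‖ + ‖δ‖`.
(4) total: `(1+2‖y'‖)|α'-α| + α{β(1+8‖y'‖) + 3‖δ‖ + w + 6 dv‖y'‖}`.
Take `dv := ‖v'-v‖` as the witness.
-/

namespace Pool.Agent.H31.QH

open Filter Topology

variable {X E : Type*} [NormedAddCommGroup X] [InnerProductSpace ℝ X] [CompleteSpace X]
  [NormedAddCommGroup E] [InnerProductSpace ℝ E] [CompleteSpace E]

theorem CorB_adj {G1 G2 : Type*} [NormedAddCommGroup G1] [InnerProductSpace ℝ G1] [CompleteSpace G1]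
    [NormedAddCommGroup G2] [InnerProductSpace ℝ G2] [CompleteSpace G2] (A B : G1 →L[ℝ] G2) (β : ℝ)
    (h : ‖A - B‖ ≤ β) (x : G2) :
    ‖ContinuousLinearMap.adjoint A x - ContinuousLinearMap.adjoint B x‖ ≤ β * ‖x‖ := by
  have h1 : ContinuousLinearMap.adjoint A x - ContinuousLinearMap.adjoint B x
      = ContinuousLinearMap.adjoint (A - B) x := by
    rw [map_sub]
    rfl
  rw [h1]
  calc ‖ContinuousLinearMap.adjoint (A - B) x‖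
      ≤ ‖ContinuousLinearMap.adjoint (A - B)‖ * ‖x‖ := ContinuousLinearMap.le_opNorm _ _
    _ = ‖A - B‖ * ‖x‖ := by rw [LinearIsometryEquiv.norm_map]
    _ ≤ β * ‖x‖ := mul_le_mul_of_nonneg_right h (norm_nonneg _)

theorem CorB_sq1_lip (a b : ℝ) : |sq1 a - sq1 b| ≤ |a - b| := by
  have hu2 : sq1 a ^ 2 = 1 + a ^ 2 := Real.sq_sqrt (by positivity)
  have hw2 : sq1 b ^ 2 = 1 + b ^ 2 := Real.sq_sqrt (by positivity)
  have hu : |a| ≤ sq1 a := Real.abs_le_sqrt (by linarith)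
  have hw : |b| ≤ sq1 b := Real.abs_le_sqrt (by linarith)
  have hu1 : 1 ≤ sq1 a := Real.one_le_sqrt.2 (by nlinarith [sq_nonneg a])
  have hw1 : 1 ≤ sq1 b := Real.one_le_sqrt.2 (by nlinarith [sq_nonneg b])
  have hpos : 0 < sq1 a + sq1 b := by linarith
  have h1 : |sq1 a - sq1 b| * (sq1 a + sq1 b) = |a - b| * |a + b| := by
    rw [← abs_of_pos hpos, ← abs_mul, ← abs_mul]
    congr 1
    nlinarith
  have h2 : |a + b| ≤ sq1 a + sq1 b := (abs_add_le a b).trans (by linarith)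
  have h3 : |sq1 a - sq1 b| * (sq1 a + sq1 b) ≤ |a - b| * (sq1 a + sq1 b) := by
    rw [h1]
    exact mul_le_mul_of_nonneg_left h2 (abs_nonneg _)
  exact le_of_mul_le_mul_right h3 hpos

theorem CorB_sq1_one (a : ℝ) (ha : 0 ≤ a) : 0 ≤ sq1 a - 1 ∧ sq1 a - 1 ≤ a := by
  have hu1 : 1 ≤ sq1 a := Real.one_le_sqrt.2 (by nlinarith [sq_nonneg a])
  have h2 : sq1 a ≤ 1 + a := Real.sqrt_le_iff.2 ⟨by linarith, by nlinarith⟩
  exact ⟨by linarith, by linarith⟩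

theorem CorB_tri5 {V : Type*} [NormedAddCommGroup V] (a b c d e : V) :
    ‖a + b + c - d - e‖ ≤ ‖a‖ + ‖b‖ + ‖c‖ + ‖d‖ + ‖e‖ := by
  have h1 := norm_sub_le (a + b + c - d) e
  have h2 := norm_sub_le (a + b + c) d
  have h3 := norm_add_le (a + b) c
  have h4 := norm_add_le a b
  linarith

theorem CorB_tri4 {V : Type*} [NormedAddCommGroup V] (a b c d : V) :
    ‖a + b + c + d‖ ≤ ‖a‖ + ‖b‖ + ‖c‖ + ‖d‖ := by
  have h2 := norm_add_le (a + b + c) d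
  have h3 := norm_add_le (a + b) c
  have h4 := norm_add_le a b
  linarith

/-- bounds on the operators -/
theorem CorB_ops (D : Wd X E) (Q Q' : E →L[ℝ] X) (hQ : ∀ e, ‖Q e‖ = ‖e‖) (hQ' : ∀ e, ‖Q' e‖ = ‖e‖)
    (z z' : X) (β : ℝ) (hβ : ‖Q' - Q‖ ≤ β) :
    (∀ e, ‖Q' e - Q e‖ ≤ β * ‖e‖) ∧
    ‖RR Q' z' - RR Q z'‖ ≤ β * ‖adj Q' z'‖ + ‖adj Q' z' - adj Q z'‖ ∧
    ‖RR Q' z' - RR Q z‖ ≤ ‖z' - z‖ + β * ‖adj Q' z'‖ + ‖adj Q' z' - adj Q z'‖ ∧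
    ‖D.W (RR Q' z') - D.W (RR Q z) - D.J (RR Q z) (RR Q' z' - RR Q z)‖
      ≤ 2 * min ‖RR Q' z' - RR Q z‖ (‖RR Q' z' - RR Q z‖ ^ 2) ∧
    ‖KK D Q' z' - KK D Q z‖ ≤ 2 * ‖RR Q' z' - RR Q z‖ + 2 * β := by
  have hβ0 : 0 ≤ β := (norm_nonneg _).trans hβ
  obtain ⟨bQ1, bQ2, bQ3, bQ4, bQ5, bQ6⟩ := corA_basic D Q hQ z
  obtain ⟨cQ1, cQ2, cQ3, cQ4, cQ5, cQ6⟩ := corA_basic D Q' hQ' z'
  have RRa : ∀ h, RR Q h = h - Q (adj Q h) := fun h => by simp [RR]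
  have RRa' : ∀ h, RR Q' h = h - Q' (adj Q' h) := fun h => by simp [RR]
  have hQd : ∀ e, ‖Q' e - Q e‖ ≤ β * ‖e‖ := by
    intro e
    have h1 := (Q' - Q).le_of_opNorm_le hβ e
    simpa using h1
  have hQs : ∀ h, ‖adj Q' h - adj Q h‖ ≤ β * ‖h‖ := fun h => CorB_adj Q' Q β hβ h
  have hR1 : ∀ h, ‖RR Q' h - RR Q h‖ ≤ β * ‖adj Q' h‖ + ‖adj Q' h - adj Q h‖ := by
    intro h
    have h1 : RR Q' h - RR Q h
        = -((Q' (adj Q' h) - Q (adj Q' h)) + Q (adj Q' h - adj Q h)) := by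
      rw [RRa, RRa', map_sub]
      abel
    rw [h1, norm_neg]
    refine (norm_add_le _ _).trans ?_
    rw [hQ]
    have h2 := hQd (adj Q' h)
    linarith
  have hR2 : ∀ h, ‖RR Q' h - RR Q h‖ ≤ 2 * β * ‖h‖ := by
    intro h
    have h1 := hR1 h
    have h2 := hQs h
    have h3 := cQ2 h
    have h4 := mul_le_mul_of_nonneg_left h3 hβ0
    linarith
  have hdv : ‖RR Q' z' - RR Q z‖ ≤ ‖z' - z‖ + β * ‖adj Q' z'‖ + ‖adj Q' z' - adj Q z'‖ := by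
    have h1 : RR Q' z' - RR Q z = (RR Q' z' - RR Q z') + RR Q (z' - z) := by
      rw [map_sub]
      abel
    rw [h1]
    refine (norm_add_le _ _).trans ?_
    have h2 := hR1 z'
    have h3 := bQ3 (z' - z)
    linarith
  refine ⟨hQd, hR1 z', hdv, ?_, ?_⟩
  · have h1 := D.tay (RR Q z) (RR Q' z')
    have h2 : ‖D.W (RR Q' z') - D.W (RR Q z) - D.J (RR Q z) (RR Q' z' - RR Q z)‖
        ≤ 2 * ‖RR Q' z' - RR Q z‖ := by
      refine (norm_sub_le _ _).trans ?_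
      rw [D.iso]
      have h3 := D.lipW (RR Q z) (RR Q' z')
      linarith
    rcases min_choice ‖RR Q' z' - RR Q z‖ (‖RR Q' z' - RR Q z‖ ^ 2) with h | h
    · rw [h]
      exact h2
    · rw [h]
      exact h1
  · refine ContinuousLinearMap.opNorm_le_bound _ (by positivity) ?_
    intro h
    have h1 : (KK D Q' z' - KK D Q z) h = (D.J (RR Q' z') - D.J (RR Q z)) (RR Q' h)
        + D.J (RR Q z) (RR Q' h - RR Q h) := by
      have h2 : (KK D Q' z' - KK D Q z) h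
        = D.J (RR Q' z') (RR Q' h) - D.J (RR Q z) (RR Q h) := rfl
      rw [h2, map_sub, sub_apply]
      abel
    rw [h1]
    refine (norm_add_le _ _).trans ?_
    rw [D.iso]
    have h3 := (D.J (RR Q' z') - D.J (RR Q z)).le_of_opNorm_le (D.lipJ (RR Q z) (RR Q' z')) (RR Q' h)
    have h4 := cQ3 h
    have h5 := hR2 h
    have h6 := mul_le_mul_of_nonneg_left h4 (by positivity : 0 ≤ 2 * ‖RR Q' z' - RR Q z‖)
    linarith

theorem corB (D : Wd X E) (Q Q' : E →L[ℝ] X) (hQ : ∀ e, ‖Q e‖ = ‖e‖) (hQ' : ∀ e, ‖Q' e‖ = ‖e‖)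
    (α α' : ℝ) (h0 : 0 ≤ α) (h1 : α ≤ 1) (h0' : 0 ≤ α') (z z' : X) (β : ℝ) (hβ : ‖Q' - Q‖ ≤ β) :
    ∃ dv : ℝ, 0 ≤ dv ∧ dv ≤ ‖z' - z‖ + β * ‖adj Q' z'‖ + ‖adj Q' z' - adj Q z'‖ ∧
      ‖Fm D α' Q' z' - Fm D α Q z - Tm D α Q z (z' - z)‖ ≤
        (1 + 2 * ‖adj Q' z'‖) * |α' - α| +
          α * (β * (1 + 8 * ‖adj Q' z'‖) + 3 * ‖adj Q' z' - adj Q z'‖ + 2 * min dv (dv ^ 2)
            + 6 * dv * ‖adj Q' z'‖) := by
  have hβ0 : 0 ≤ β := (norm_nonneg _).trans hβ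
  obtain ⟨bQ1, bQ2, bQ3, bQ4, bQ5, bQ6⟩ := corA_basic D Q hQ z
  obtain ⟨cQ1, cQ2, cQ3, cQ4, cQ5, cQ6⟩ := corA_basic D Q' hQ' z'
  obtain ⟨hQd, hRz, hdv, hw, hKK⟩ := CorB_ops D Q Q' hQ hQ' z z' β hβ
  have hKst := CorB_adj (KK D Q' z') (KK D Q z) _ hKK
  have hs1 := CorB_sq1_lip α' α
  obtain ⟨hs2, hs3⟩ := CorB_sq1_one α h0
  have hKa : ∀ h, KK D Q z h = D.J (RR Q z) (RR Q h) := fun h => rfl
  refine ⟨‖RR Q' z' - RR Q z‖, norm_nonneg _, hdv, ?_⟩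
  have hF : Fm D α Q z = z + α • Q (D.W (RR Q z))
    - α • ContinuousLinearMap.adjoint (KK D Q z) (adj Q z)
    + (sq1 α - 1) • Q (adj Q z - KK D Q z (ContinuousLinearMap.adjoint (KK D Q z) (adj Q z))) := rfl
  have hF' : Fm D α' Q' z' = z' + α' • Q' (D.W (RR Q' z'))
    - α' • ContinuousLinearMap.adjoint (KK D Q' z') (adj Q' z')
    + (sq1 α' - 1) • Q' (adj Q' z'
      - KK D Q' z' (ContinuousLinearMap.adjoint (KK D Q' z') (adj Q' z'))) := rfl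
  have hT : Tm D α Q z (z' - z) = (z' - z) + α • Q (KK D Q z (z' - z))
    - α • ContinuousLinearMap.adjoint (KK D Q z) (adj Q (z' - z))
    + (sq1 α - 1) • Q (adj Q (z' - z)
      - KK D Q z (ContinuousLinearMap.adjoint (KK D Q z) (adj Q (z' - z)))) := rfl
  obtain ⟨N', hN'⟩ : ∃ N' : X, N' = Q' (D.W (RR Q' z'))
      - ContinuousLinearMap.adjoint (KK D Q' z') (adj Q' z') := ⟨_, rfl⟩
  obtain ⟨M', hM'⟩ : ∃ M' : X, M' = Q' (adj Q' z'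
      - KK D Q' z' (ContinuousLinearMap.adjoint (KK D Q' z') (adj Q' z'))) := ⟨_, rfl⟩
  obtain ⟨B1, hB1⟩ : ∃ B1 : X, B1 = N' - (Q (D.W (RR Q z))
      - ContinuousLinearMap.adjoint (KK D Q z) (adj Q z)) - Q (KK D Q z (z' - z))
      + ContinuousLinearMap.adjoint (KK D Q z) (adj Q (z' - z)) := ⟨_, rfl⟩
  obtain ⟨B2, hB2⟩ : ∃ B2 : X, B2 = M' - Q (adj Q z
      - KK D Q z (ContinuousLinearMap.adjoint (KK D Q z) (adj Q z)))
      - Q (adj Q (z' - z)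
      - KK D Q z (ContinuousLinearMap.adjoint (KK D Q z) (adj Q (z' - z)))) := ⟨_, rfl⟩
  have hid : Fm D α' Q' z' - Fm D α Q z - Tm D α Q z (z' - z)
      = (α' - α) • N' + (sq1 α' - sq1 α) • M' + α • B1 + (sq1 α - 1) • B2 := by
    rw [hF, hF', hT, hB2, hB1, hN', hM']
    module
  have nN : ‖N'‖ ≤ 1 + ‖adj Q' z'‖ := by
    rw [hN']
    refine (norm_sub_le _ _).trans ?_
    rw [hQ']
    have h1 := D.bd (RR Q' z')
    have h2 := cQ5 (adj Q' z')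
    linarith
  have nM : ‖M'‖ ≤ ‖adj Q' z'‖ := by
    rw [hM', hQ']
    exact cQ6 (adj Q' z')
  have nB1 : ‖B1‖ ≤ β * (1 + 3 * ‖adj Q' z'‖) + 2 * ‖adj Q' z' - adj Q z'‖
      + 2 * min ‖RR Q' z' - RR Q z‖ (‖RR Q' z' - RR Q z‖ ^ 2)
      + 2 * ‖RR Q' z' - RR Q z‖ * ‖adj Q' z'‖ := by
    have e1 : B1 = (Q' (D.W (RR Q' z')) - Q (D.W (RR Q' z')))
        + Q (D.W (RR Q' z') - D.W (RR Q z) - D.J (RR Q z) (RR Q' z' - RR Q z))
        + Q (D.J (RR Q z) (RR Q' z' - RR Q z'))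
        - (ContinuousLinearMap.adjoint (KK D Q' z') (adj Q' z')
          - ContinuousLinearMap.adjoint (KK D Q z) (adj Q' z'))
        - ContinuousLinearMap.adjoint (KK D Q z) (adj Q' z' - adj Q z') := by
      rw [hB1, hN', hKa]
      simp only [map_sub]
      abel
    rw [e1]
    refine (CorB_tri5 _ _ _ _ _).trans ?_
    rw [hQ, hQ, D.iso]
    have h1 := hQd (D.W (RR Q' z'))
    have h2 := mul_le_mul_of_nonneg_left (D.bd (RR Q' z')) hβ0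
    have h3 := hKst (adj Q' z')
    have h4 := bQ5 (adj Q' z' - adj Q z')
    linarith
  have nB2 : ‖B2‖ ≤ (5 * β + 4 * ‖RR Q' z' - RR Q z‖) * ‖adj Q' z'‖ + ‖adj Q' z' - adj Q z'‖ := by
    have e1 : B2 = (Q' (adj Q' z'
          - KK D Q' z' (ContinuousLinearMap.adjoint (KK D Q' z') (adj Q' z')))
          - Q (adj Q' z' - KK D Q' z' (ContinuousLinearMap.adjoint (KK D Q' z') (adj Q' z'))))
        + Q (-((KK D Q' z' - KK D Q z) (ContinuousLinearMap.adjoint (KK D Q' z') (adj Q' z'))))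
        + Q (-(KK D Q z (ContinuousLinearMap.adjoint (KK D Q' z') (adj Q' z')
            - ContinuousLinearMap.adjoint (KK D Q z) (adj Q' z'))))
        + Q ((adj Q' z' - adj Q z') - KK D Q z (ContinuousLinearMap.adjoint (KK D Q z)
            (adj Q' z' - adj Q z'))) := by
      rw [hB2, hM']
      simp only [map_sub, map_neg, sub_apply]
      abel
    rw [e1]
    refine (CorB_tri4 _ _ _ _).trans ?_
    rw [hQ, hQ, hQ, norm_neg, norm_neg]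
    have h1 := hQd (adj Q' z'
          - KK D Q' z' (ContinuousLinearMap.adjoint (KK D Q' z') (adj Q' z')))
    have h2 := mul_le_mul_of_nonneg_left (cQ6 (adj Q' z')) hβ0
    have h3 := (KK D Q' z' - KK D Q z).le_of_opNorm_le hKK
      (ContinuousLinearMap.adjoint (KK D Q' z') (adj Q' z'))
    have h4 := mul_le_mul_of_nonneg_left (cQ5 (adj Q' z'))
      (by positivity : 0 ≤ 2 * ‖RR Q' z' - RR Q z‖ + 2 * β)
    have h5 := bQ4 (ContinuousLinearMap.adjoint (KK D Q' z') (adj Q' z')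
            - ContinuousLinearMap.adjoint (KK D Q z) (adj Q' z'))
    have h6 := hKst (adj Q' z')
    have h7 := bQ6 (adj Q' z' - adj Q z')
    linarith
  rw [hid]
  refine (CorB_tri4 _ _ _ _).trans ?_
  rw [norm_smul, norm_smul, norm_smul, norm_smul, Real.norm_eq_abs, Real.norm_eq_abs,
    Real.norm_eq_abs, Real.norm_eq_abs, abs_of_nonneg h0, abs_of_nonneg hs2]
  have k1 := mul_le_mul_of_nonneg_left nN (abs_nonneg (α' - α))
  have k2 : |sq1 α' - sq1 α| * ‖M'‖ ≤ |α' - α| * ‖adj Q' z'‖ :=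
    mul_le_mul hs1 nM (norm_nonneg _) (abs_nonneg _)
  have k3 := mul_le_mul_of_nonneg_left nB1 h0
  have k4 : (sq1 α - 1) * ‖B2‖ ≤ α * ((5 * β + 4 * ‖RR Q' z' - RR Q z‖) * ‖adj Q' z'‖
      + ‖adj Q' z' - adj Q z'‖) := mul_le_mul hs3 nB2 (norm_nonneg _) h0
  linarith

end Pool.Agent.H31.QH
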