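import Pool.Agent.H31.QH.CorB

/-!
Row CorC (MP_b924dd_QH): size and Lipschitz estimate of `Fm - id`.  Uses only the statements of CorA, CorB.

(1) `‖Fm D α Q z - z‖ ≤ α‖W‖ + α‖K* y‖ + (s-1)‖(1-KK*)y‖ ≤ α(1+‖y‖) + α‖y‖ ≤ α (1 + 2‖y‖)`, `y = adj Q z`
    (`0 ≤ s-1 ≤ α`, corA_basic).
(2) `(Fm' - z') - (Fm - z) = [Fm' - Fm - Tm(z'-z)] + (Tm - 1)(z'-z)`, `‖(Tm-1)h‖ ≤ α‖h‖+α‖h‖+(s-1)‖h‖ ≤ 3α‖h‖`
    (for the last summand `‖(1-KK*)Q* h‖ ≤ ‖h‖`, corA_basic).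
    corB with `‖y'‖ ≤ 1`: first part `≤ 3|α'-α| + α(9β + 3‖δ‖ + 2dv + 6dv)`, `dv ≤ ‖z'-z‖ + β + ‖δ‖`.
    Sum: `3|α'-α| + α(11‖z'-z‖ + 17β + 11‖δ‖)`.
-/

namespace Pool.Agent.H31.QH

open Filter Topology

variable {X E : Type*} [NormedAddCommGroup X] [InnerProductSpace ℝ X] [CompleteSpace X]
  [NormedAddCommGroup E] [InnerProductSpace ℝ E] [CompleteSpace E]

theorem CorC_s (α : ℝ) (h0 : 0 ≤ α) : 0 ≤ sq1 α - 1 ∧ sq1 α - 1 ≤ α := by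
  unfold sq1
  constructor
  · have : (1:ℝ) ≤ Real.sqrt (1 + α ^ 2) := by
      apply Real.le_sqrt_of_sq_le
      nlinarith [sq_nonneg α]
    linarith
  · have : Real.sqrt (1 + α ^ 2) ≤ 1 + α := by
      rw [Real.sqrt_le_left (by linarith)]
      nlinarith
    linarith

theorem CorC_n3 {V : Type*} [NormedAddCommGroup V] (a b c : V) : ‖a - b + c‖ ≤ ‖a‖ + ‖b‖ + ‖c‖ := by
  have h1 := norm_add_le (a - b) c
  have h2 := norm_sub_le a b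
  linarith

theorem corC_size (D : Wd X E) (Q : E →L[ℝ] X) (hQ : ∀ e, ‖Q e‖ = ‖e‖)
    (α : ℝ) (h0 : 0 ≤ α) (h1 : α ≤ 1) (z : X) :
    ‖Fm D α Q z - z‖ ≤ α * (1 + 2 * ‖adj Q z‖) := by
  obtain ⟨-, -, -, hK, hKs, h1K⟩ := corA_basic D Q hQ z
  obtain ⟨hs0, hs1⟩ := CorC_s α h0
  have e : Fm D α Q z - z = α • Q (D.W (RR Q z)) - α • ContinuousLinearMap.adjoint (KK D Q z) (adj Q z)
      + (sq1 α - 1) • Q (adj Q z - KK D Q z (ContinuousLinearMap.adjoint (KK D Q z) (adj Q z))) := by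
    unfold Fm
    abel
  rw [e]
  refine (CorC_n3 _ _ _).trans ?_
  rw [norm_smul, norm_smul, norm_smul, Real.norm_of_nonneg h0, Real.norm_of_nonneg hs0, hQ, hQ]
  have a1 := mul_le_mul_of_nonneg_left (D.bd (RR Q z)) h0
  have a2 := mul_le_mul_of_nonneg_left (hKs (adj Q z)) h0
  have a3 := mul_le_mul_of_nonneg_left (h1K (adj Q z)) hs0
  have a4 := mul_le_mul_of_nonneg_right hs1 (norm_nonneg (adj Q z))
  linarith

theorem corC (D : Wd X E) (Q Q' : E →L[ℝ] X) (hQ : ∀ e, ‖Q e‖ = ‖e‖) (hQ' : ∀ e, ‖Q' e‖ = ‖e‖)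
    (α α' : ℝ) (h0 : 0 ≤ α) (h1 : α ≤ 1) (h0' : 0 ≤ α') (z z' : X) (β : ℝ) (hβ : ‖Q' - Q‖ ≤ β)
    (hy : ‖adj Q' z'‖ ≤ 1) :
    ‖(Fm D α' Q' z' - z') - (Fm D α Q z - z)‖ ≤
      3 * |α' - α| + α * (11 * ‖z' - z‖ + 17 * β + 11 * ‖adj Q' z' - adj Q z'‖) := by
  obtain ⟨-, hQs, -, hK, hKs, h1K⟩ := corA_basic D Q hQ z
  obtain ⟨hs0, hs1⟩ := CorC_s α h0
  obtain ⟨dv, hdv0, hdv1, hB⟩ := corB D Q Q' hQ hQ' α α' h0 h1 h0' z z' β hβ
  have hβ0 : 0 ≤ β := (norm_nonneg _).trans hβ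
  have hT : ‖Tm D α Q z (z' - z) - (z' - z)‖ ≤ 3 * α * ‖z' - z‖ := by
    set h := z' - z with hh
    have e : Tm D α Q z h - h = α • Q (KK D Q z h)
        - α • ContinuousLinearMap.adjoint (KK D Q z) (adj Q h)
        + (sq1 α - 1) • Q (adj Q h - KK D Q z (ContinuousLinearMap.adjoint (KK D Q z) (adj Q h))) := by
      simp only [Tm, add_apply, sub_apply,
        smul_apply, ContinuousLinearMap.comp_apply, ContinuousLinearMap.id_apply]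
      abel
    rw [e]
    refine (CorC_n3 _ _ _).trans ?_
    rw [norm_smul, norm_smul, norm_smul, Real.norm_of_nonneg h0, Real.norm_of_nonneg hs0, hQ, hQ]
    have a0 := hQs h
    have a1 := mul_le_mul_of_nonneg_left (hK h) h0
    have a2 := mul_le_mul_of_nonneg_left ((hKs (adj Q h)).trans a0) h0
    have a3 := mul_le_mul_of_nonneg_left ((h1K (adj Q h)).trans a0) hs0
    have a4 := mul_le_mul_of_nonneg_right hs1 (norm_nonneg h)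
    linarith
  have e2 : (Fm D α' Q' z' - z') - (Fm D α Q z - z)
      = (Fm D α' Q' z' - Fm D α Q z - Tm D α Q z (z' - z)) + (Tm D α Q z (z' - z) - (z' - z)) := by
    abel
  rw [e2]
  refine (norm_add_le _ _).trans ?_
  set Y := ‖adj Q' z'‖ with hY
  set dl := ‖adj Q' z' - adj Q z'‖ with hdl
  have hY0 : 0 ≤ Y := norm_nonneg _
  have hdl0 : 0 ≤ dl := norm_nonneg _
  have hz0 : 0 ≤ ‖z' - z‖ := norm_nonneg _
  have c1 : (1 + 2 * Y) * |α' - α| ≤ 3 * |α' - α| :=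
    mul_le_mul_of_nonneg_right (by linarith) (abs_nonneg _)
  have c2 : β * (1 + 8 * Y) ≤ β * 9 := mul_le_mul_of_nonneg_left (by linarith) hβ0
  have c3 : 2 * min dv (dv ^ 2) ≤ 2 * dv := by
    have := min_le_left dv (dv ^ 2)
    linarith
  have c4 : 6 * dv * Y ≤ 6 * dv * 1 := mul_le_mul_of_nonneg_left hy (by linarith)
  have c5 : β * Y ≤ β * 1 := mul_le_mul_of_nonneg_left hy hβ0
  have c6 : β * (1 + 8 * Y) + 3 * dl + 2 * min dv (dv ^ 2) + 6 * dv * Y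
      ≤ 8 * ‖z' - z‖ + 17 * β + 11 * dl := by linarith
  have c7 := mul_le_mul_of_nonneg_left c6 h0
  linarith

end Pool.Agent.H31.QH
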