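import Pool.Agent.H31.QH.L2

/-!
Definitions of the project MP_b924dd_QH.
-/

namespace Pool.Agent.H31.QH

open Filter Topology MeasureTheory

/-! ### the bounded map with isometric differential -/

/-- A bounded map `W : X → E` together with its differential `J`, which is an isometry at each point. -/
structure Wd (X E : Type*) [NormedAddCommGroup X] [InnerProductSpace ℝ X] [NormedAddCommGroup E]
    [InnerProductSpace ℝ E] where
  W : X → E
  J : X → X →L[ℝ] E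
  iso : ∀ v h, ‖J v h‖ = ‖h‖
  bd : ∀ v, ‖W v‖ ≤ 1
  lipW : ∀ v v', ‖W v' - W v‖ ≤ ‖v' - v‖
  lipJ : ∀ v v', ‖J v' - J v‖ ≤ 2 * ‖v' - v‖
  tay : ∀ v v', ‖W v' - W v - J v (v' - v)‖ ≤ 2 * ‖v' - v‖ ^ 2

/-! ### the core map -/

section core

variable {X E : Type*} [NormedAddCommGroup X] [InnerProductSpace ℝ X] [CompleteSpace X]
  [NormedAddCommGroup E] [InnerProductSpace ℝ E] [CompleteSpace E]

/-- the adjoint, with a short name -/
noncomputable abbrev adj (Q : E →L[ℝ] X) : X →L[ℝ] E := ContinuousLinearMap.adjoint Q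

/-- the projection onto the orthogonal complement of the range of the isometry `Q` -/
noncomputable def RR (Q : E →L[ℝ] X) : X →L[ℝ] X := ContinuousLinearMap.id ℝ X - Q ∘L adj Q

/-- the operator `K = J_{Rz} R` -/
noncomputable def KK (D : Wd X E) (Q : E →L[ℝ] X) (z : X) : X →L[ℝ] E := D.J (RR Q z) ∘L RR Q

/-- the factor `s = √(1+α²)` -/
noncomputable def sq1 (α : ℝ) : ℝ := Real.sqrt (1 + α ^ 2)

/-- the core map -/
noncomputable def Fm (D : Wd X E) (α : ℝ) (Q : E →L[ℝ] X) (z : X) : X :=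
  z + α • Q (D.W (RR Q z)) - α • ContinuousLinearMap.adjoint (KK D Q z) (adj Q z)
    + (sq1 α - 1) • Q (adj Q z - KK D Q z (ContinuousLinearMap.adjoint (KK D Q z) (adj Q z)))

/-- its model differential -/
noncomputable def Tm (D : Wd X E) (α : ℝ) (Q : E →L[ℝ] X) (z : X) : X →L[ℝ] X :=
  ContinuousLinearMap.id ℝ X + α • (Q ∘L KK D Q z)
    - α • (ContinuousLinearMap.adjoint (KK D Q z) ∘L adj Q)
    + (sq1 α - 1) • (Q ∘L (adj Q - KK D Q z ∘L ContinuousLinearMap.adjoint (KK D Q z) ∘L adj Q))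

end core

/-! ### near-linearity -/

/-- at `(t,x)` the family `ζ` is `lam` times an isometry up to errors `e` (space) and `q` (time) -/
def NearLin {X : Type*} [NormedAddCommGroup X] [InnerProductSpace ℝ X] (ζ : ℝ → X → X) (t : ℝ) (x : X)
    (lam e q : ℝ) : Prop :=
  ∃ T : X →L[ℝ] X, (∀ h, ‖T h‖ = lam * ‖h‖) ∧
    ∀ᶠ p : ℝ × X in 𝓝 (t, x),
      ‖ζ p.1 p.2 - ζ t x - T (p.2 - x)‖ ≤ e * lam * ‖p.2 - x‖ + q * |p.1 - t|

/-! ### configurations -/

/-- clamp to `[0,1]` -/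
noncomputable def c01 (r : ℝ) : ℝ := max 0 (min r 1)

/-- a configuration: the family `z`, the logarithm `l` of the conformal factor and the logarithm `g` of
the thickness -/
structure Cfg (X : Type*) where
  z : ℝ → X → X
  l : ℝ → X → ℝ
  g : ℝ → X → ℝ

/-- logarithm of the ratio of the two stretchings -/
def Cfg.mu {X : Type*} (c : Cfg X) (t : ℝ) (x : X) : ℝ := - c.g t x - c.l t x

/-- the error potential -/
noncomputable def Eb (E0 E1 θ : ℝ) (u : ℝ) : ℝ := E0 + E1 * c01 (θ - u)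

/-- the properties kept along the construction -/
structure Good {X : Type*} [NormedAddCommGroup X] [InnerProductSpace ℝ X] (c : Cfg X)
    (T Hf U D η q : ℝ) (Er : ℝ → ℝ) (tp : ℝ → ℝ) : Prop where
  lip_l : ∃ B : ℝ, ∀ t t' x x', |c.l t' x' - c.l t x| ≤ B * (|t' - t| + ‖x' - x‖)
  lip_g : ∃ B : ℝ, ∀ t t' x x', |c.g t' x' - c.g t x| ≤ B * (|t' - t| + ‖x' - x‖)
  l_nonneg : ∀ t x, 0 ≤ c.l t x
  supp : ∀ t, t ∉ Set.Icc 0 T → ∀ x, c.z t x = x ∧ c.l t x = 0 ∧ c.g t x = - Hf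
  homeo : IsHomeomorph (fun p : ℝ × X => (p.1, c.z p.1 p.2))
  disp : ∀ t x, ‖c.z t x - x‖ ≤ D
  mu_lo : ∀ t x, Hf ≤ c.mu t x
  mu_hi : ∀ t x, c.mu t x ≤ U
  near : ∀ t x, NearLin c.z t x (Real.exp (c.l t x)) (Er (c.mu t x)) q
  slope : ∀ t x y, |∫ s in (0:ℝ)..t, (Real.exp (c.g s x) - Real.exp (c.g s y))| ≤ η * ‖x - y‖
  low : ∀ t x, - tp t ≤ c.g t x
  thick : ∀ x, ∫ s in (0:ℝ)..T, (Real.exp (c.g s x) - Real.exp (- tp s)) ≤ D

/-! ### selection of the level -/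

/-- index set: colours `(k,c)` and levels `n` -/
abbrev PI : Type := (ℤ × ℤ) × ℕ

/-- the space `l2(PI;E)` -/
abbrev XX (E : Type*) [NormedAddCommGroup E] := lp (fun _ : PI => E) 2

/-- scalar `l2` -/
abbrev l2R (I : Type*) := lp (fun _ : I => ℝ) 2

/-- the level selection at scale `L` -/
structure Sel (E : Type*) [NormedAddCommGroup E] [InnerProductSpace ℝ E] (L : ℝ) where
  b : XX E → l2R ℕ
  k : XX E → ℕ → ℝ
  b_unit : ∀ z, ‖b z‖ = 1
  b_lip : ∀ z z', ‖b z' - b z‖ ≤ 28 / L * ‖z' - z‖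
  k_nonneg : ∀ z n, 0 ≤ k z n
  k_le : ∀ z n, k z n ≤ 1
  hat_norm : ∀ z, ‖mul (fun p : PI => k z p.2) z‖ ≤ 3 * L
  hat_lip : ∀ z z', ‖mul (fun p : PI => k z' p.2) z' - mul (fun p : PI => k z p.2) z‖ ≤ 5 * ‖z' - z‖
  marg : ∀ z z' n, b z n ≠ 0 → ‖z' - z‖ ≤ L / 2 → k z' n = 1

/-- truncated vector -/
noncomputable def Sel.hat {E : Type*} [NormedAddCommGroup E] [InnerProductSpace ℝ E] {L : ℝ}
    (S : Sel E L) (z : XX E) : XX E := mul (fun p : PI => S.k z p.2) z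

/-- the colours -/
structure Col where
  Γ : ℝ → ℝ → l2R (ℤ × ℤ)
  d : ℝ → ℝ → ℤ × ℤ → ℝ
  unit : ∀ u τ, ‖Γ u τ‖ = 1
  lip : ∀ u u' τ τ', ‖Γ u' τ' - Γ u τ‖ ≤ 4 * |u' - u| + 11 * Real.exp (-u) * |τ' - τ|
  d_nonneg : ∀ u τ c, 0 ≤ d u τ c
  d_le : ∀ u τ c, d u τ c ≤ 1
  d_lip : ∀ u u' τ τ' c, |d u' τ' c - d u τ c| ≤ 2 * |u' - u| + 15 * Real.exp (-u) * |τ' - τ|
  marg : ∀ u u' τ τ' c, Γ u τ c ≠ 0 → |u' - u| ≤ 1 / 2 → Real.exp (1 - u) * |τ' - τ| ≤ 1 / 2 →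
    d u' τ' c = 1
  supp : ∀ u τ (c : ℤ × ℤ), d u τ c ≠ 0 →
    Real.exp (-u) ≤ Real.exp (2 - c.1) ∧ |τ * Real.exp (-(c.1 : ℝ)) - c.2| < 2

/-! ### the insertion step -/

/-- parameters of an insertion step -/
structure Prm where
  A : ℝ
  L : ℝ
  Tp : ℝ
  a : ℝ
  l1 : ℝ
  Hf : ℝ
  ε : ℝ

/-- one unit of `mu` -/
noncomputable def Prm.G (P : Prm) : ℝ := Real.log (1 + P.A ^ 2) / 2
noncomputable def Prm.l0 (P : Prm) : ℝ := P.l1 - P.G
noncomputable def Prm.lf (P : Prm) : ℝ := P.Hf + P.G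

section ins

variable {E : Type*} [NormedAddCommGroup E] [InnerProductSpace ℝ E] [CompleteSpace E]

/-- all the data of an insertion step -/
structure Dat (E : Type*) [NormedAddCommGroup E] [InnerProductSpace ℝ E] [CompleteSpace E] where
  P : Prm
  D : Wd (XX E) E
  S : Sel E P.L
  C : Col
  c : Cfg (XX E)

namespace Dat

variable (F : Dat E)

/-- rescaled time -/
noncomputable def tau (t : ℝ) : ℝ := t / (F.P.Tp * F.P.ε)

/-- the size of the selected colours of the truncated vector -/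
noncomputable def phi (t : ℝ) (x : XX E) : ℝ :=
  ‖mul (fun p : PI => F.C.d (F.c.l t x) (F.tau t) p.1) (F.S.hat (F.P.ε⁻¹ • x))‖

/-- the unit vector `a = Γ ⊗ b` -/
noncomputable def av (t : ℝ) (x : XX E) : l2R PI :=
  ten (F.C.Γ (F.c.l t x) (F.tau t)) (F.S.b (F.P.ε⁻¹ • x))

noncomputable def sig (t : ℝ) (x : XX E) : ℝ := c01 ((F.c.mu t x - F.P.l0) / F.P.G)

noncomputable def chi (r : ℝ) : ℝ := c01 (2 - 2 * r)

noncomputable def alp (t : ℝ) (x : XX E) : ℝ := F.P.A * F.sig t x * chi (F.phi t x)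

/-- `Φ = min(φ²,1)` -/
noncomputable def Ph (t : ℝ) (x : XX E) : ℝ := min (F.phi t x ^ 2) 1

noncomputable def drop (t : ℝ) (x : XX E) : ℝ :=
  min (Real.log (1 + F.P.a * F.sig t x * F.Ph t x)) (max (F.c.mu t x - F.P.lf) 0)

/-- the local modification -/
noncomputable def Gm (t : ℝ) (x : XX E) : XX E :=
  F.P.ε • Fm F.D (F.alp t x) (Qa (F.av t x)) (F.P.ε⁻¹ • x)

/-- the new configuration -/
noncomputable def new : Cfg (XX E) where
  z := fun t x => F.c.z t (F.Gm t x)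
  l := fun t x => F.c.l t x + Real.log (1 + F.alp t x ^ 2) / 2
  g := fun t x => F.c.g t x + F.drop t x

end Dat

end ins

/-! ### the final notions -/

section fin

variable {H : Type*} [NormedAddCommGroup H] [InnerProductSpace ℝ H]

/-- near `p` the map is bi-Lipschitz with ratio `K` -/
def LocBi (K : ℝ) (f : H → H) (p : H) : Prop :=
  ∃ m : ℝ, 0 < m ∧ ∀ᶠ q in 𝓝 p, m * ‖q - p‖ ≤ ‖f q - f p‖ ∧ ‖f q - f p‖ ≤ K * m * ‖q - p‖

/-- `f` maps balls to quasiballs -/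
def BallsToQuasiballs (f : H → H) : Prop :=
  ∃ C : ℝ, ∀ (x : H) (r : ℝ), 0 < r → ∃ (y : H) (s : ℝ), 0 < s ∧ Metric.ball y s ⊆ f '' Metric.ball x r ∧
    f '' Metric.ball x r ⊆ Metric.ball y (C * s)

end fin

end Pool.Agent.H31.QH
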