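import Pool.Agent.H31.QH.SlbD

/-!
Row FinA (MP_b924dd_QH): the domain coordinates form a homeomorphism.

`hh th t x = ∫_0^t th s x ds`, `Φ (t,x) = (hh t x, x)`.
PROOF.  (1) `hh` is jointly continuous: `|hh t' x' - hh t x| ≤ |hh t' x' - hh t' x| + |hh t' x - hh t x| ≤ (1/8)‖x'-x‖ + |∫_t^{t'} th s x ds|`
 (slope; `intervalIntegral.integral_sub`; continuity of the primitive of the continuous function `s ↦ th s x`).
(2) For fixed `x`, `t ↦ hh t x` is continuous, strictly increasing (`th > 0`; `intervalIntegral.intervalIntegral_pos_of_pos_on`) and tends to `±∞` (`top`,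
 `bot`), so it is a bijection of `ℝ` (`Continuous.surjective`, StrictMono.injective).  Hence `Φ` is bijective and continuous.
(3) Inverse continuous (or: `Φ` is open).  Let `Φ(t0,x0) = (s0,x0)`, `δ > 0`.  `hh (t0-δ) x0 < s0 < hh (t0+δ) x0`; by (1) there is a neighbourhood of
 `(s0,x0)` in which `hh (t0-δ) x < s < hh (t0+δ) x`; if `s = hh t x`, then `t0-δ < t < t0+δ` by monotonicity.
-/

namespace Pool.Agent.H31.QH

open Filter Topology MeasureTheory

variable {X : Type*} [NormedAddCommGroup X] [InnerProductSpace ℝ X]

/-- position of the time slice -/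
noncomputable def hh (th : ℝ → X → ℝ) (t : ℝ) (x : X) : ℝ := ∫ s in (0:ℝ)..t, th s x

theorem finA {H0 : ℝ} {z : ℝ → X → X} {th : ℝ → X → ℝ} (h : Glob H0 z th) :
    IsHomeomorph (fun p : ℝ × X => (hh th p.1 p.2, p.2)) := by
  have hc : ∀ x : X, Continuous fun s => th s x := fun x =>
    h.cont.comp (continuous_id.prodMk continuous_const)
  have hint : ∀ (x : X) (a b : ℝ), IntervalIntegrable (fun s => th s x) volume a b :=
    fun x a b => (hc x).intervalIntegrable a b
  have hprim : ∀ x : X, Continuous fun t => hh th t x := fun x =>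
    intervalIntegral.continuous_primitive (hint x) 0
  have hmono : ∀ x : X, StrictMono fun t => hh th t x := by
    intro x a b hab
    have h1 : hh th b x - hh th a x = ∫ s in a..b, th s x :=
      intervalIntegral.integral_interval_sub_left (hint x _ _) (hint x _ _)
    have h2 : 0 < ∫ s in a..b, th s x :=
      intervalIntegral.intervalIntegral_pos_of_pos (hint x a b) (fun s => h.pos s x) hab
    have h3 : hh th a x < hh th b x := by linarith
    exact h3
  have hcont : Continuous fun p : ℝ × X => hh th p.1 p.2 := by
    rw [continuous_iff_continuousAt]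
    rintro ⟨t0, x0⟩
    rw [ContinuousAt, tendsto_iff_norm_sub_tendsto_zero]
    have hlim : Tendsto (fun p : ℝ × X => 1 / 8 * ‖p.2 - x0‖ + ‖hh th p.1 x0 - hh th t0 x0‖)
        (𝓝 (t0, x0)) (𝓝 0) := by
      have hcc : Continuous fun p : ℝ × X =>
          1 / 8 * ‖p.2 - x0‖ + ‖hh th p.1 x0 - hh th t0 x0‖ := by
        refine Continuous.add (by fun_prop) ?_
        exact (((hprim x0).comp continuous_fst).sub continuous_const).norm
      have := hcc.tendsto (t0, x0)
      simpa using this
    refine squeeze_zero (fun _ => norm_nonneg _) (fun p => ?_) hlim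
    have h1 : hh th p.1 p.2 - hh th t0 x0 =
        (hh th p.1 p.2 - hh th p.1 x0) + (hh th p.1 x0 - hh th t0 x0) := by ring
    rw [h1]
    refine (norm_add_le _ _).trans (add_le_add ?_ le_rfl)
    have h2 : hh th p.1 p.2 - hh th p.1 x0 = ∫ s in (0:ℝ)..p.1, (th s p.2 - th s x0) :=
      (intervalIntegral.integral_sub (hint _ _ _) (hint _ _ _)).symm
    rw [h2, Real.norm_eq_abs]
    exact h.slope p.1 p.2 x0
  have hsurj : ∀ (x : X) (s : ℝ), ∃ t, hh th t x = s := fun x s =>
    (hprim x).surjective (h.top x) (h.bot x) s
  choose ti hti using hsurj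
  let e : ℝ × X ≃ₜ ℝ × X :=
    { toFun := fun p => (hh th p.1 p.2, p.2)
      invFun := fun q => (ti q.2 q.1, q.2)
      left_inv := by
        rintro ⟨t, x⟩
        simp only [Prod.mk.injEq, and_true]
        exact (hmono x).injective (hti x _)
      right_inv := by
        rintro ⟨s, x⟩
        simp only [Prod.mk.injEq, and_true]
        exact hti x s
      continuous_toFun := hcont.prodMk continuous_snd
      continuous_invFun := by
        refine Continuous.prodMk ?_ continuous_snd
        rw [continuous_iff_continuousAt]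
        rintro ⟨s0, x0⟩
        rw [ContinuousAt, Metric.tendsto_nhds]
        intro ε hε
        obtain ⟨t0, ht0⟩ : ∃ t0, t0 = ti x0 s0 := ⟨_, rfl⟩
        have hs0 : hh th t0 x0 = s0 := by
          rw [ht0]
          exact hti x0 s0
        have hA : IsOpen {q : ℝ × X | hh th (t0 - ε / 2) q.2 < q.1} :=
          isOpen_lt (hcont.comp (continuous_const.prodMk continuous_snd)) continuous_fst
        have hB : IsOpen {q : ℝ × X | q.1 < hh th (t0 + ε / 2) q.2} :=
          isOpen_lt continuous_fst (hcont.comp (continuous_const.prodMk continuous_snd))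
        have hA0 : (s0, x0) ∈ {q : ℝ × X | hh th (t0 - ε / 2) q.2 < q.1} := by
          have := hmono x0 (show t0 - ε / 2 < t0 by linarith)
          simp only at this
          rw [hs0] at this
          exact this
        have hB0 : (s0, x0) ∈ {q : ℝ × X | q.1 < hh th (t0 + ε / 2) q.2} := by
          have := hmono x0 (show t0 < t0 + ε / 2 by linarith)
          simp only at this
          rw [hs0] at this
          exact this
        filter_upwards [hA.mem_nhds hA0, hB.mem_nhds hB0] with q hqA hqB
        have hqA' : hh th (t0 - ε / 2) q.2 < hh th (ti q.2 q.1) q.2 := by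
          rw [hti q.2 q.1]
          exact hqA
        have hqB' : hh th (ti q.2 q.1) q.2 < hh th (t0 + ε / 2) q.2 := by
          rw [hti q.2 q.1]
          exact hqB
        have h1 := (hmono q.2).lt_iff_lt.1 hqA'
        have h2 := (hmono q.2).lt_iff_lt.1 hqB'
        change dist (ti q.2 q.1) (ti x0 s0) < ε
        rw [← ht0, Real.dist_eq, abs_lt]
        constructor <;> linarith }
  exact e.isHomeomorph

end Pool.Agent.H31.QH
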