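import Pool.Agent.H31.QH.FinA

/-!
Row FinB (MP_b924dd_QH): the local two-sided estimate.

Fix `(t,x)`, `τ = th t x > 0`, `lam` from `h.near t x` (`lam τ ≤ 1`, `e^{-H0} ≤ lam τ`).  For `p = (t',x')` near `(t,x)`: `A = |t'-t|`, `b = ‖x'-x‖`,
`Δ = ‖toLp (hh t' x', x') - toLp (hh t x, x)‖`, `Δf = ‖toLp (t', z t' x') - toLp (t, z t x)‖`.  The norm of `toLp (u,v)` is between `max(|u|,‖v‖)` and `|u|+‖v‖`
(`WithLp.prod_norm_sq_eq_of_L2`, `WithLp.norm_fst_le`, `WithLp.norm_snd_le`).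
(1) by continuity of `th` at `(t,x)` there is a neighbourhood (a product of balls) on which `τ/2 ≤ th ≤ 2τ`; so for `(t',x')` in it
    `hh t' x' - hh t x' = ∫_t^{t'} th s x' ds` has absolute value in `[τA/2, 2τA]`.  `|hh t x' - hh t x| ≤ b/8` (slope).
    `Δ ≤ 2τA + b/8 + b ≤ 2(τA + b)`;  `τA/2 ≤ |hh t' x' - hh t x| + b/8 ≤ (9/8)Δ`, `b ≤ Δ`, so `τA + b ≤ (13/4)Δ ≤ 4Δ`.
(2) NearLin: `‖z t' x' - z t x - T(x'-x)‖ ≤ (1/8) lam b + (1/8) A`, `‖T(x'-x)‖ = lam b`: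
    `Δf ≤ A + (9/8) lam b + A/8 ≤ 2(A + lam b)`;  `(7/8) lam b ≤ ‖z t' x' - z t x‖ + A/8 ≤ (9/8) Δf`, `A ≤ Δf`, so `A + lam b ≤ 3Δf`.
(3) `lam(τA + b) ≤ A + lam b ≤ lam e^{H0}(τA + b)` (`lam τ ≤ 1`; `1 ≤ e^{H0} lam τ`, and `H0 ≥ 0` because `e^{-H0} ≤ lam τ ≤ 1`).
(4) `Δf ≥ (1/3) lam (τA + b) ≥ (lam/6) Δ`;  `Δf ≤ 2 lam e^{H0}(τA + b) ≤ 8 lam e^{H0} Δ = 48 e^{H0} (lam/6) Δ`.  `m = lam/6`.
-/

namespace Pool.Agent.H31.QH

open Filter Topology MeasureTheory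

variable {X : Type*} [NormedAddCommGroup X] [InnerProductSpace ℝ X]

theorem finB_norm (u1 u2 : ℝ) (v1 v2 : X) :
    |u1 - u2| ≤ ‖(WithLp.toLp 2 (u1, v1) : WithLp 2 (ℝ × X)) - WithLp.toLp 2 (u2, v2)‖ ∧
    ‖v1 - v2‖ ≤ ‖(WithLp.toLp 2 (u1, v1) : WithLp 2 (ℝ × X)) - WithLp.toLp 2 (u2, v2)‖ ∧
    ‖(WithLp.toLp 2 (u1, v1) : WithLp 2 (ℝ × X)) - WithLp.toLp 2 (u2, v2)‖ ≤
      |u1 - u2| + ‖v1 - v2‖ := by
  have h := WithLp.prod_norm_sq_eq_of_L2
    ((WithLp.toLp 2 (u1, v1) : WithLp 2 (ℝ × X)) - WithLp.toLp 2 (u2, v2))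
  have h' : ‖(WithLp.toLp 2 (u1, v1) : WithLp 2 (ℝ × X)) - WithLp.toLp 2 (u2, v2)‖ ^ 2 =
      |u1 - u2| ^ 2 + ‖v1 - v2‖ ^ 2 := h
  have hN := norm_nonneg ((WithLp.toLp 2 (u1, v1) : WithLp 2 (ℝ × X)) - WithLp.toLp 2 (u2, v2))
  have hu := abs_nonneg (u1 - u2)
  have hv := norm_nonneg (v1 - v2)
  refine ⟨?_, ?_, ?_⟩
  · have : |u1 - u2| ^ 2 ≤
        ‖(WithLp.toLp 2 (u1, v1) : WithLp 2 (ℝ × X)) - WithLp.toLp 2 (u2, v2)‖ ^ 2 := by
      rw [h']; nlinarith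
    exact le_of_sq_le_sq this hN
  · have : ‖v1 - v2‖ ^ 2 ≤
        ‖(WithLp.toLp 2 (u1, v1) : WithLp 2 (ℝ × X)) - WithLp.toLp 2 (u2, v2)‖ ^ 2 := by
      rw [h']; nlinarith
    exact le_of_sq_le_sq this hN
  · have : ‖(WithLp.toLp 2 (u1, v1) : WithLp 2 (ℝ × X)) - WithLp.toLp 2 (u2, v2)‖ ^ 2 ≤
        (|u1 - u2| + ‖v1 - v2‖) ^ 2 := by
      rw [h']; nlinarith
    exact le_of_sq_le_sq this (by positivity)

theorem finB_low (f : ℝ → ℝ) (hf : Continuous f) (a b c : ℝ) (hc : 0 ≤ c)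
    (h : ∀ s ∈ Set.uIcc a b, c ≤ f s) : c * |b - a| ≤ |∫ s in a..b, f s| := by
  have key : ∀ a b : ℝ, a ≤ b → (∀ s ∈ Set.Icc a b, c ≤ f s) → c * (b - a) ≤ ∫ s in a..b, f s := by
    intro a b hab h
    have h1 : (∫ s in a..b, (fun _ => c) s) ≤ ∫ s in a..b, f s :=
      intervalIntegral.integral_mono_on hab (continuous_const.intervalIntegrable _ _)
        (hf.intervalIntegrable _ _) h
    have h2 : (∫ s in a..b, (fun _ : ℝ => c) s) = (b - a) * c := by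
      rw [intervalIntegral.integral_const, smul_eq_mul]
    rw [h2] at h1
    linarith
  rcases le_total a b with hab | hab
  · rw [Set.uIcc_of_le hab] at h
    rw [abs_of_nonneg (sub_nonneg.mpr hab)]
    exact (key a b hab h).trans (le_abs_self _)
  · rw [Set.uIcc_of_ge hab] at h
    rw [abs_of_nonpos (sub_nonpos.mpr hab), intervalIntegral.integral_symm, abs_neg]
    have := key b a hab h
    exact (by linarith : c * -(b - a) ≤ ∫ s in b..a, f s).trans (le_abs_self _)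

theorem finB {H0 : ℝ} {z : ℝ → X → X} {th : ℝ → X → ℝ} (h : Glob H0 z th) (t : ℝ) (x : X) :
    ∃ m : ℝ, 0 < m ∧ ∀ᶠ p : ℝ × X in 𝓝 (t, x),
      m * ‖(WithLp.toLp 2 (hh th p.1 p.2, p.2) : WithLp 2 (ℝ × X)) - WithLp.toLp 2 (hh th t x, x)‖ ≤
        ‖(WithLp.toLp 2 (p.1, z p.1 p.2) : WithLp 2 (ℝ × X)) - WithLp.toLp 2 (t, z t x)‖ ∧
      ‖(WithLp.toLp 2 (p.1, z p.1 p.2) : WithLp 2 (ℝ × X)) - WithLp.toLp 2 (t, z t x)‖ ≤
        48 * Real.exp H0 * m *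
          ‖(WithLp.toLp 2 (hh th p.1 p.2, p.2) : WithLp 2 (ℝ × X)) - WithLp.toLp 2 (hh th t x, x)‖ := by
  obtain ⟨lam, hlam, ⟨T, hT, hev⟩, h1, h2⟩ := h.near t x
  have hτ : 0 < th t x := h.pos t x
  have hc : ContinuousAt (fun p : ℝ × X => th p.1 p.2) (t, x) := h.cont.continuousAt
  have hev2 : ∀ᶠ p : ℝ × X in 𝓝 (t, x), th t x / 2 ≤ th p.1 p.2 ∧ th p.1 p.2 ≤ 2 * th t x := by
    have e1 : ∀ᶠ p : ℝ × X in 𝓝 (t, x), th t x / 2 < th p.1 p.2 :=
      hc.eventually (lt_mem_nhds (by show th t x / 2 < th t x; linarith))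
    have e2 : ∀ᶠ p : ℝ × X in 𝓝 (t, x), th p.1 p.2 < 2 * th t x :=
      hc.eventually (gt_mem_nhds (by show th t x < 2 * th t x; linarith))
    filter_upwards [e1, e2] with p h3 h4
    exact ⟨h3.le, h4.le⟩
  obtain ⟨ε, hε, hball⟩ := Metric.eventually_nhds_iff_ball.mp hev2
  refine ⟨lam / 6, by positivity, ?_⟩
  filter_upwards [hev, Metric.ball_mem_nhds (t, x) hε] with p hp1 hp2
  obtain ⟨t', x'⟩ := p
  simp only at hp1 ⊢
  have hp3 : |t' - t| < ε ∧ ‖x' - x‖ < ε := by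
    rw [Metric.mem_ball, Prod.dist_eq, max_lt_iff] at hp2
    refine ⟨?_, ?_⟩
    · have := hp2.1
      rwa [Real.dist_eq] at this
    · have := hp2.2
      rwa [dist_eq_norm] at this
  have hs : ∀ s ∈ Set.uIcc t t', th t x / 2 ≤ th s x' ∧ th s x' ≤ 2 * th t x := by
    intro s hs
    apply hball (s, x')
    rw [Metric.mem_ball, Prod.dist_eq, max_lt_iff]
    refine ⟨?_, ?_⟩
    · show dist s t < ε
      rw [Real.dist_eq]
      have : |s - t| ≤ |t' - t| := Set.abs_sub_left_of_mem_uIcc hs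
      linarith [hp3.1]
    · show dist x' x < ε
      rw [dist_eq_norm]
      exact hp3.2
  have hcx : ∀ y : X, Continuous (fun s : ℝ => th s y) := fun y =>
    h.cont.comp (continuous_id.prodMk continuous_const)
  have hI : hh th t' x' - hh th t x' = ∫ s in t..t', th s x' := by
    unfold hh
    rw [intervalIntegral.integral_interval_sub_left ((hcx x').intervalIntegrable _ _)
      ((hcx x').intervalIntegrable _ _)]
  have hup : |hh th t' x' - hh th t x'| ≤ 2 * th t x * |t' - t| := by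
    rw [hI, ← Real.norm_eq_abs]
    refine intervalIntegral.norm_integral_le_of_norm_le_const (fun s hs1 => ?_)
    have h3 := hs s (Set.uIoc_subset_uIcc hs1)
    rw [Real.norm_eq_abs, abs_of_pos (h.pos s x')]
    exact h3.2
  have hlo : th t x / 2 * |t' - t| ≤ |hh th t' x' - hh th t x'| := by
    rw [hI]
    exact finB_low _ (hcx x') t t' _ (by positivity) (fun s hs1 => (hs s hs1).1)
  have hsl : |hh th t x' - hh th t x| ≤ 1 / 8 * ‖x' - x‖ := by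
    have h3 := h.slope t x' x
    rw [intervalIntegral.integral_sub ((hcx x').intervalIntegrable _ _)
      ((hcx x).intervalIntegrable _ _)] at h3
    exact h3
  obtain ⟨n1, n2, n3⟩ := finB_norm (hh th t' x') (hh th t x) x' x
  obtain ⟨m1, m2, m3⟩ := finB_norm t' t (z t' x') (z t x)
  generalize hΔ : ‖(WithLp.toLp 2 (hh th t' x', x') : WithLp 2 (ℝ × X)) - WithLp.toLp 2 (hh th t x, x)‖ = Δ
    at n1 n2 n3 ⊢
  generalize hF : ‖(WithLp.toLp 2 (t', z t' x') : WithLp 2 (ℝ × X)) - WithLp.toLp 2 (t, z t x)‖ = F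
    at m1 m2 m3 ⊢
  have hb0 : 0 ≤ ‖x' - x‖ := norm_nonneg _
  have hA0 : 0 ≤ |t' - t| := abs_nonneg _
  have t1 : |hh th t' x' - hh th t x| ≤ |hh th t' x' - hh th t x'| + |hh th t x' - hh th t x| :=
    abs_sub_le _ _ _
  have t2 : |hh th t' x' - hh th t x'| ≤ |hh th t' x' - hh th t x| + |hh th t x' - hh th t x| := by
    have := abs_sub_le (hh th t' x') (hh th t x) (hh th t x')
    rwa [abs_sub_comm (hh th t x) (hh th t x')] at this
  have hTn := hT (x' - x)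
  have t3 : ‖z t' x' - z t x‖ ≤ ‖z t' x' - z t x - T (x' - x)‖ + ‖T (x' - x)‖ := by
    have := norm_add_le (z t' x' - z t x - T (x' - x)) (T (x' - x))
    rwa [sub_add_cancel] at this
  have t4 : ‖T (x' - x)‖ ≤ ‖z t' x' - z t x‖ + ‖z t' x' - z t x - T (x' - x)‖ := by
    have := norm_sub_le (z t' x' - z t x) (z t' x' - z t x - T (x' - x))
    rwa [sub_sub_cancel] at this
  rw [hTn] at t3 t4
  set A := |t' - t| with hA
  set b := ‖x' - x‖ with hb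
  set τ := th t x with hτd
  have hlb : 0 ≤ lam * b := by positivity
  have hΔ0 : 0 ≤ Δ := by linarith
  have a1 : Δ ≤ 2 * (τ * A + b) := by nlinarith
  have a2 : τ * A + b ≤ 4 * Δ := by nlinarith
  have a3 : F ≤ 2 * (A + lam * b) := by nlinarith
  have a4 : A + lam * b ≤ 3 * F := by nlinarith
  have hexp : 1 ≤ Real.exp H0 * (lam * τ) := by
    have := mul_le_mul_of_nonneg_left h2 (Real.exp_pos H0).le
    rwa [← Real.exp_add, add_neg_cancel, Real.exp_zero] at this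
  have hexp1 : 1 ≤ Real.exp H0 := by
    have hp := Real.exp_pos H0
    nlinarith
  have a5 : lam * (τ * A + b) ≤ A + lam * b := by nlinarith
  have a6 : A + lam * b ≤ Real.exp H0 * (lam * (τ * A + b)) := by
    have e1 : A ≤ Real.exp H0 * (lam * τ) * A := by nlinarith
    have e2 : lam * b ≤ Real.exp H0 * (lam * b) := by nlinarith
    nlinarith
  refine ⟨?_, ?_⟩
  · have := mul_le_mul_of_nonneg_left a1 hlam.le
    nlinarith
  · have e3 : lam * (τ * A + b) ≤ lam * (4 * Δ) := mul_le_mul_of_nonneg_left a2 hlam.le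
    have e4 : Real.exp H0 * (lam * (τ * A + b)) ≤ Real.exp H0 * (lam * (4 * Δ)) :=
      mul_le_mul_of_nonneg_left e3 (Real.exp_pos H0).le
    nlinarith

end Pool.Agent.H31.QH
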