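import Pool.Agent.H31.QH.FinB

/-!
Row FinC (MP_b924dd_QH): the homeomorphism of `ℝ ⊕ X`.  Uses the statements of FinA, FinB.

`Φ = (hh t x, x)` (finA) and `Ψ = (t, z t x)` (`h.homeo`) are homeomorphisms of `ℝ × X`; `e = WithLp.homeomorphProd 2 ℝ X : WithLp 2 (ℝ × X) ≃ₜ ℝ × X`;
`f = e.symm ∘ Ψ ∘ Φ⁻¹ ∘ e` (`IsHomeomorph.homeomorph`).  So `f (toLp (hh t x, x)) = toLp (t, z t x)`.
LocBi at `P = toLp (hh t x, x)` (every point has this form, `Φ` surjective): for `q → P`, `(t',x') = Φ⁻¹ (e q) → (t,x)` by continuity, `q = toLp (hh t' x', x')`, so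
the eventual inequalities of finB pull back (`Filter.Tendsto.eventually`).
-/

namespace Pool.Agent.H31.QH

open Filter Topology MeasureTheory

variable {X : Type*} [NormedAddCommGroup X] [InnerProductSpace ℝ X]

theorem finC {H0 : ℝ} {z : ℝ → X → X} {th : ℝ → X → ℝ} (h : Glob H0 z th) :
    ∃ f : WithLp 2 (ℝ × X) ≃ₜ WithLp 2 (ℝ × X), (∀ p, LocBi (48 * Real.exp H0) f p) ∧
      ∀ t x, f (WithLp.toLp 2 (hh th t x, x)) = WithLp.toLp 2 (t, z t x) := by
  set Φ : ℝ × X ≃ₜ ℝ × X := (finA h).homeomorph with hΦ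
  set Ψ : ℝ × X ≃ₜ ℝ × X := h.homeo.homeomorph with hΨ
  set e : WithLp 2 (ℝ × X) ≃ₜ ℝ × X := WithLp.homeomorphProd 2 ℝ X with he
  have hΦa : ∀ p : ℝ × X, Φ p = (hh th p.1 p.2, p.2) := fun p => rfl
  have hΨa : ∀ p : ℝ × X, Ψ p = (p.1, z p.1 p.2) := fun p => rfl
  have hes : ∀ p : ℝ × X, e.symm p = WithLp.toLp 2 p := fun p => rfl
  have hea : ∀ p : ℝ × X, e (WithLp.toLp 2 p) = p := fun p => rfl
  set f : WithLp 2 (ℝ × X) ≃ₜ WithLp 2 (ℝ × X) := ((e.trans Φ.symm).trans Ψ).trans e.symm with hf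
  have key : ∀ t x, f (WithLp.toLp 2 (hh th t x, x)) = WithLp.toLp 2 (t, z t x) := by
    intro t x
    have h1 : Φ.symm (hh th t x, x) = (t, x) := by
      rw [Homeomorph.symm_apply_eq, hΦa]
    change e.symm (Ψ (Φ.symm (e (WithLp.toLp 2 (hh th t x, x))))) = _
    rw [hea, h1, hΨa, hes]
  refine ⟨f, ?_, key⟩
  intro P
  obtain ⟨⟨t, x⟩, htx⟩ := Φ.surjective (e P)
  have hP : P = WithLp.toLp 2 (hh th t x, x) := by
    apply e.injective
    rw [← htx, hea, hΦa]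
  obtain ⟨m, hm, hev⟩ := finB h t x
  refine ⟨m, hm, ?_⟩
  have htend : Tendsto (fun q => Φ.symm (e q)) (𝓝 P) (𝓝 (t, x)) := by
    have hc : Continuous (fun q => Φ.symm (e q)) := Φ.symm.continuous.comp e.continuous
    have h2 := hc.tendsto P
    have h3 : Φ.symm (e P) = (t, x) := by
      rw [Homeomorph.symm_apply_eq, htx]
    rw [h3] at h2
    exact h2
  have hev2 := htend.eventually hev
  filter_upwards [hev2] with q hq
  have hq1 : q = WithLp.toLp 2 (hh th (Φ.symm (e q)).1 (Φ.symm (e q)).2, (Φ.symm (e q)).2) := by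
    have h3 := Φ.apply_symm_apply (e q)
    rw [hΦa] at h3
    exact e.injective h3.symm
  have hfq : f q = WithLp.toLp 2 ((Φ.symm (e q)).1, z (Φ.symm (e q)).1 (Φ.symm (e q)).2) := by
    conv_lhs => rw [hq1]
    exact key _ _
  have hfP : f P = WithLp.toLp 2 (t, z t x) := by
    rw [hP]; exact key _ _
  rw [hfq, hfP]
  have hqP : q - P = WithLp.toLp 2 (hh th (Φ.symm (e q)).1 (Φ.symm (e q)).2, (Φ.symm (e q)).2)
      - WithLp.toLp 2 (hh th t x, x) := by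
    rw [← hq1, ← hP]
  rw [hqP]
  exact hq

end Pool.Agent.H31.QH
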