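import Mathlib

/-!
Definitions for the theorem on MP_b924dd_an: quasiconformality (metric definition), quasisymmetry, balls to
quasiballs, for self-maps of a normed space.
-/

namespace Pool.Agent.H31.QH

open Filter Topology
open scoped ENNReal NNReal

variable {H : Type*} [NormedAddCommGroup H]

/-- `L_f(x,r) = sup_{|y-x| ≤ r} |f(y)-f(x)|`, as an element of `[0,∞]` -/
noncomputable def Lsup (f : H → H) (x : H) (r : ℝ) : ℝ≥0∞ :=
  ⨆ y ∈ {y : H | ‖y - x‖ ≤ r}, ENNReal.ofReal ‖f y - f x‖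

/-- `l_f(x,r) = inf_{|y-x| = r} |f(y)-f(x)|`, as an element of `[0,∞]` -/
noncomputable def linf (f : H → H) (x : H) (r : ℝ) : ℝ≥0∞ :=
  ⨅ y ∈ {y : H | ‖y - x‖ = r}, ENNReal.ofReal ‖f y - f x‖

/-- the linear dilatation `H_f(x) = limsup_{r → 0} L_f(x,r)/l_f(x,r)` -/
noncomputable def dil (f : H → H) (x : H) : ℝ≥0∞ :=
  limsup (fun r : ℝ => Lsup f x r / linf f x r) (𝓝[>] 0)

/-- `f` is `K`-quasiconformal (metric definition) -/
def IsQC (K : ℝ) (f : H → H) : Prop := ∀ x, dil f x ≤ ENNReal.ofReal K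

/-- `f` is `η`-quasisymmetric -/
def IsQS (η : ℝ≥0 → ℝ≥0) (f : H → H) : Prop :=
  ∀ (x a b : H) (t : ℝ≥0), 0 < t → ‖x - a‖ ≤ t * ‖x - b‖ → ‖f x - f a‖ ≤ η t * ‖f x - f b‖

/-- `f` maps balls to quasiballs -/
def MapsBallsToQuasiballs (f : H → H) : Prop :=
  ∃ C : ℝ, ∀ (x : H) (r : ℝ), 0 < r → ∃ (y : H) (s : ℝ), 0 < s ∧ Metric.ball y s ⊆ f '' Metric.ball x r ∧
    f '' Metric.ball x r ⊆ Metric.ball y (C * s)

end Pool.Agent.H31.QH
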