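import Pool.Agent.H31.QH.FinA
import Pool.Agent.H31.QH.QcD

/-!
Row FinD (MP_b924dd_QH): the map does not send balls to quasiballs.

Suppose `MapsBallsToQuasiballs f` with the constant `C`.  Let `R0 = 4(|C|+2)`, take `R ≥ R0`, `t1` from `h.plateau R0`, `t2 = t1 + R(R-1)`,
`P = toLp (hh t1 0, 0)`, ball `B = ball P R`, and `y, s` with `ball y s ⊆ f '' B ⊆ ball y (C s)`.
(1) `Q = toLp (hh t2 0, 0) ∈ B`: `‖Q - P‖ = |hh t2 0 - hh t1 0| = ∫_{t1}^{t2} th s 0 ds ≤ R - 1/2 < R` (nonnegative integrand, `R ≥ 1`).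
    `f P, f Q ∈ ball y (C s)`, and `‖f Q - f P‖ ≥ |t2 - t1| = R(R-1)` (first coordinates), so `R(R-1) < 2 C s`; in particular `C > 0`.
(2) every point of `f '' B` has second coordinate of norm `< R + 1`: a point of `B` is `toLp (hh t x, x)` (`finA` surjective) with `‖x‖ < R`
    (`WithLp.norm_snd_le` for the difference with `P`), and `‖z t x‖ ≤ ‖x‖ + 1/8`.
(3) choose a unit vector `v : X` (`exists_norm_eq` / Nontrivial).  For `0 < s' < s` the points `y ± toLp (0, s' v)` are in `ball y s ⊆ f '' B`, so with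
    `y2 = y.snd`: `‖y2 + s' v‖, ‖y2 - s' v‖ < R + 1`, hence `2 s' ≤ 2(R+1)`.  So `s ≤ R + 1`.
(4) `R(R-1) < 2C(R+1)`, impossible for `R ≥ 4(C+2)`: `R + 1 ≤ 2R`, so `R - 1 < 4C`, contradiction with `R ≥ 4C + 8`.
-/

namespace Pool.Agent.H31.QH

open Filter Topology MeasureTheory

variable {X : Type*} [NormedAddCommGroup X] [InnerProductSpace ℝ X] [Nontrivial X]

theorem finD {H0 : ℝ} {z : ℝ → X → X} {th : ℝ → X → ℝ} (h : Glob H0 z th)
    (f : WithLp 2 (ℝ × X) ≃ₜ WithLp 2 (ℝ × X))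
    (hf : ∀ t x, f (WithLp.toLp 2 (hh th t x, x)) = WithLp.toLp 2 (t, z t x)) :
    ¬ MapsBallsToQuasiballs (f : WithLp 2 (ℝ × X) → WithLp 2 (ℝ × X)) := by
  rintro ⟨C, hC⟩
  obtain ⟨R, t1, hR, hint⟩ := h.plateau (4 * (|C| + 2))
  have hC0 := abs_nonneg C
  have hCle := le_abs_self C
  have hR8 : 8 ≤ R := by linarith
  obtain ⟨t2, ht2⟩ : ∃ t2, t2 = t1 + R * (R - 1) := ⟨_, rfl⟩
  rw [← ht2] at hint
  have hRR : 0 < R * (R - 1) := mul_pos (by linarith) (by linarith)
  have ht12 : t1 ≤ t2 := by linarith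
  obtain ⟨P, hP⟩ : ∃ P : WithLp 2 (ℝ × X), P = WithLp.toLp 2 (hh th t1 0, 0) := ⟨_, rfl⟩
  obtain ⟨Q, hQ⟩ : ∃ Q : WithLp 2 (ℝ × X), Q = WithLp.toLp 2 (hh th t2 0, 0) := ⟨_, rfl⟩
  obtain ⟨y, s, hs, h1, h2⟩ := hC P R (by linarith)
  -- step 1
  have hcont : Continuous fun s : ℝ => th s 0 := by
    have h3 : Continuous fun s : ℝ => (s, (0 : X)) := by fun_prop
    exact h.cont.comp h3
  have hdiff : hh th t2 0 - hh th t1 0 = ∫ s in t1..t2, th s 0 := by
    unfold hh
    exact intervalIntegral.integral_interval_sub_left (hcont.intervalIntegrable _ _)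
      (hcont.intervalIntegrable _ _)
  have hnonneg : 0 ≤ ∫ s in t1..t2, th s 0 :=
    intervalIntegral.integral_nonneg ht12 fun u _ => (h.pos u 0).le
  have hPQ : ‖Q - P‖ < R := by
    have e1 : Q - P = WithLp.toLp 2 (hh th t2 0 - hh th t1 0, (0 : X)) := by
      rw [hP, hQ]
      apply (WithLp.ofLp_injective 2)
      simp
    rw [e1, WithLp.norm_toLp_fst, hdiff, Real.norm_eq_abs, abs_of_nonneg hnonneg]
    linarith
  have hPB : P ∈ Metric.ball P R := Metric.mem_ball_self (by linarith)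
  have hQB : Q ∈ Metric.ball P R := by rw [mem_ball_iff_norm]; exact hPQ
  have k1 := h2 ⟨P, hPB, rfl⟩
  have k2 := h2 ⟨Q, hQB, rfl⟩
  have hfPQ : R * (R - 1) ≤ ‖f Q - f P‖ := by
    have e1 : (f Q - f P).fst = t2 - t1 := by
      rw [hP, hQ, hf, hf]
      rfl
    have e2 := WithLp.norm_fst_le (p := 2) (x := f Q - f P)
    rw [e1, Real.norm_eq_abs, abs_of_nonneg (by linarith)] at e2
    linarith
  have hlt : R * (R - 1) < 2 * (C * s) := by
    rw [mem_ball_iff_norm] at k1 k2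
    have e3 : f Q - f P = (f Q - y) - (f P - y) := by abel
    rw [e3] at hfPQ
    have e4 := norm_sub_le (f Q - y) (f P - y)
    linarith
  -- step 2
  have step2 : ∀ p ∈ (f : WithLp 2 (ℝ × X) → WithLp 2 (ℝ × X)) '' Metric.ball P R,
      ‖p.snd‖ < R + 1 := by
    rintro p ⟨b, hb, rfl⟩
    obtain ⟨⟨t, x⟩, htx⟩ := (finA h).surjective (b.fst, b.snd)
    have e1 : hh th t x = b.fst := congrArg Prod.fst htx
    have e2 : x = b.snd := congrArg Prod.snd htx
    have e3 : b = WithLp.toLp 2 (hh th t x, x) := by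
      rw [e1, e2]
      rfl
    have e4 : ‖x‖ < R := by
      rw [mem_ball_iff_norm] at hb
      have e5 := WithLp.norm_snd_le (p := 2) (x := b - P)
      have e6 : (b - P).snd = x := by
        rw [e3, hP]
        change x - 0 = x
        exact sub_zero x
      rw [e6] at e5
      linarith
    rw [e3, hf]
    change ‖z t x‖ < R + 1
    have e7 := h.disp t x
    have e8 : z t x = (z t x - x) + x := by abel
    rw [e8]
    have e9 := norm_add_le (z t x - x) x
    linarith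
  -- step 3
  have step3 : s ≤ R + 1 := by
    by_contra hcon
    push Not at hcon
    obtain ⟨v, hv⟩ := exists_norm_eq X (zero_le_one' ℝ)
    have hn : ‖(WithLp.toLp 2 ((0 : ℝ), (R + 1) • v) : WithLp 2 (ℝ × X))‖ = R + 1 := by
      rw [WithLp.norm_toLp_snd, norm_smul, hv, Real.norm_eq_abs, abs_of_nonneg (by linarith),
        mul_one]
    have m1 : y + WithLp.toLp 2 ((0 : ℝ), (R + 1) • v) ∈ Metric.ball y s := by
      rw [mem_ball_iff_norm, add_sub_cancel_left, hn]
      exact hcon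
    have m2 : y - WithLp.toLp 2 ((0 : ℝ), (R + 1) • v) ∈ Metric.ball y s := by
      rw [mem_ball_iff_norm, sub_sub_cancel_left, norm_neg, hn]
      exact hcon
    have n1 := step2 _ (h1 m1)
    have n2 := step2 _ (h1 m2)
    have o1 : (y + WithLp.toLp 2 ((0 : ℝ), (R + 1) • v)).snd = y.snd + (R + 1) • v := rfl
    have o2 : (y - WithLp.toLp 2 ((0 : ℝ), (R + 1) • v)).snd = y.snd - (R + 1) • v := rfl
    rw [o1] at n1
    rw [o2] at n2
    have o3 : (2 * (R + 1)) • v = (y.snd + (R + 1) • v) - (y.snd - (R + 1) • v) := by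
      rw [two_mul, add_smul]
      abel
    have o4 : ‖(2 * (R + 1)) • v‖ = 2 * (R + 1) := by
      rw [norm_smul, hv, Real.norm_eq_abs, abs_of_nonneg (by linarith), mul_one]
    have o5 := norm_sub_le (y.snd + (R + 1) • v) (y.snd - (R + 1) • v)
    rw [← o3, o4] at o5
    linarith
  -- step 4
  have hCpos : 0 < C := by
    by_contra hcon
    push Not at hcon
    have : C * s ≤ 0 := mul_nonpos_of_nonpos_of_nonneg hcon hs.le
    linarith
  have h5 : C * s ≤ C * (R + 1) := mul_le_mul_of_nonneg_left step3 hCpos.le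
  have h6 : C * (R + 1) ≤ C * (2 * R) := mul_le_mul_of_nonneg_left (by linarith) hCpos.le
  have h7 : R * (R - 1) < R * (4 * C) := by nlinarith
  have h8 : R - 1 < 4 * C := lt_of_mul_lt_mul_left h7 (by linarith)
  linarith

end Pool.Agent.H31.QH
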