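import Pool.Agent.H31.QH.Dfs
import Pool.Agent.H31.QH.QcD

/-!
Row FinE (MP_b924dd_QH): from local bi-Lipschitz bounds to the metric definition; quasisymmetric maps send balls to quasiballs.

(1) `finE_qc`: at `x` take `m > 0` and `δ > 0` with the inequalities for `‖q - x‖ < δ`.  For `0 < r < δ`: `Lsup f x r ≤ ofReal (K m r)` (`iSup₂_le`),
    `linf f x r ≥ ofReal (m r)` (`le_iInf₂`), so the ratio is `≤ ofReal (K m r)/ofReal (m r) = ofReal K` (`ENNReal.div_le_of_le_mul`, `m r > 0`; `K ≥ 0` may be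
    assumed: if `K < 0`, the two inequalities force `‖q - x‖ = 0` near `x`; in our use `K = 48 e^{H0} > 0`, so `0 ≤ K` is a hypothesis).
    `limsup ≤` by `Filter.limsup_le_of_le` (with `isCobounded` automatic in the complete lattice `ℝ≥0∞`).
(2) `finE_symm`: at `y = f x`: `m‖q - x‖ ≤ ‖f q - y‖ ≤ K m ‖q - x‖` for `q` near `x`; with `q = f⁻¹ w`, `w → y`: `‖w - y‖/(K m) ≤ ‖f⁻¹ w - x‖ ≤ ‖w - y‖/m`: LocBi K for
    `f.symm` at `y` with `m' = 1/(K m)` (`K m' = 1/m`), `K > 0`.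
(3) `finE_qs`: let `C0 = η 1`.  Fix `x`, `r > 0` and let `s = inf {‖f b - f x‖ : ‖b - x‖ ≥ r}` (nonempty set since `H` is nontrivial; `sInf` of reals, bounded
    below by 0).  For `a ∈ ball x r` and `‖b - x‖ ≥ r`: `‖x-a‖ ≤ 1·‖x-b‖`, so `‖f x - f a‖ ≤ C0‖f x - f b‖`; hence `‖f a - f x‖ ≤ C0 s`.  Choosing `a ≠ x` in the
    ball, `0 < ‖f a - f x‖ ≤ C0 s`, so `s > 0` and `C0 > 0`.  `f '' ball x r ⊆ ball (f x) ((C0+1)s)`.  If `‖w - f x‖ < s`, `w = f b` (surjective), then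
    `‖b - x‖ < r` by definition of `s`.  So `C = C0 + 1`.
-/

namespace Pool.Agent.H31.QH

open Filter Topology
open scoped ENNReal NNReal

variable {H : Type*} [NormedAddCommGroup H] [InnerProductSpace ℝ H]

theorem finE_qc (K : ℝ) (hK : 0 ≤ K) (f : H → H) (h : ∀ p, LocBi K f p) : IsQC K f := by
  intro x
  obtain ⟨m, hm, hev⟩ := h x
  obtain ⟨δ, hδ, hδ'⟩ := Metric.eventually_nhds_iff.mp hev
  unfold dil
  refine Filter.limsup_le_of_le (h := ?_)
  have hr : ∀ᶠ r : ℝ in 𝓝[>] 0, r < δ := nhdsWithin_le_nhds (gt_mem_nhds hδ)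
  have h0 : ∀ᶠ r : ℝ in 𝓝[>] 0, 0 < r := self_mem_nhdsWithin
  filter_upwards [hr, h0] with r hrδ hr0
  have h1 : Lsup f x r ≤ ENNReal.ofReal (K * m * r) := by
    unfold Lsup
    refine iSup₂_le (fun y hy => ENNReal.ofReal_le_ofReal ?_)
    have hy' : ‖y - x‖ ≤ r := hy
    have hd : dist y x < δ := by
      rw [dist_eq_norm]
      exact lt_of_le_of_lt hy' hrδ
    exact (hδ' hd).2.trans (mul_le_mul_of_nonneg_left hy' (by positivity))
  have h2 : ENNReal.ofReal (m * r) ≤ linf f x r := by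
    unfold linf
    refine le_iInf₂ (fun y hy => ENNReal.ofReal_le_ofReal ?_)
    have hy' : ‖y - x‖ = r := hy
    have hd : dist y x < δ := by
      rw [dist_eq_norm, hy']
      exact hrδ
    have := (hδ' hd).1
    rw [hy'] at this
    exact this
  have hmr : 0 < m * r := mul_pos hm hr0
  calc Lsup f x r / linf f x r ≤ ENNReal.ofReal (K * m * r) / ENNReal.ofReal (m * r) :=
        ENNReal.div_le_div h1 h2
    _ = ENNReal.ofReal (K * m * r / (m * r)) := (ENNReal.ofReal_div_of_pos hmr).symm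
    _ = ENNReal.ofReal K := by
        congr 1
        rw [mul_assoc]
        exact mul_div_cancel_right₀ K hmr.ne'

theorem finE_symm (K : ℝ) (hK : 0 < K) (f : H ≃ₜ H) (h : ∀ p, LocBi K f p) : ∀ p, LocBi K f.symm p := by
  intro y
  obtain ⟨m, hm, hev⟩ := h (f.symm y)
  have hKm : 0 < K * m := mul_pos hK hm
  refine ⟨1 / (K * m), by positivity, ?_⟩
  have hev' := (f.symm.continuous.tendsto y).eventually hev
  filter_upwards [hev'] with w hw
  rw [f.apply_symm_apply, f.apply_symm_apply] at hw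
  constructor
  · rw [div_mul_eq_mul_div, one_mul, div_le_iff₀ hKm]
    linarith [hw.2]
  · have e : K * (1 / (K * m)) * ‖w - y‖ = ‖w - y‖ / m := by
      field_simp
    rw [e, le_div_iff₀ hm]
    linarith [hw.1]

theorem finE_qs [Nontrivial H] (η : ℝ≥0 → ℝ≥0) (f : H ≃ₜ H) (h : IsQS η (f : H → H)) :
    MapsBallsToQuasiballs (f : H → H) := by
  refine ⟨(η 1 : ℝ) + 1, fun x r hr => ?_⟩
  set C0 : ℝ := (η 1 : ℝ) with hC0
  have hC0' : 0 ≤ C0 := (η 1).coe_nonneg
  set S : Set ℝ := {ρ : ℝ | ∃ b : H, r ≤ ‖b - x‖ ∧ ρ = ‖f b - f x‖} with hS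
  have key : ∀ a : H, ‖a - x‖ < r → ∀ ρ ∈ S, ‖f a - f x‖ ≤ C0 * ρ := by
    rintro a ha ρ ⟨b, hb, rfl⟩
    have h1 : ‖x - a‖ ≤ ((1 : ℝ≥0) : ℝ) * ‖x - b‖ := by
      rw [NNReal.coe_one, one_mul, norm_sub_rev x a, norm_sub_rev x b]
      linarith
    have h2 := h x a b 1 one_pos h1
    rw [norm_sub_rev (f x) (f a), norm_sub_rev (f x) (f b)] at h2
    exact h2
  have hne : S.Nonempty := by
    obtain ⟨v, hv⟩ := exists_norm_eq H hr.le
    exact ⟨_, x + v, by rw [add_sub_cancel_left, hv], rfl⟩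
  have hbdd : BddBelow S := ⟨0, by
    rintro ρ ⟨b, _, rfl⟩
    exact norm_nonneg _⟩
  obtain ⟨v, hv⟩ := exists_norm_eq H (show (0 : ℝ) ≤ r / 2 by positivity)
  have hv0 : v ≠ 0 := by
    intro h0
    rw [h0, norm_zero] at hv
    linarith
  have ha : ‖(x + v) - x‖ < r := by
    rw [add_sub_cancel_left, hv]
    linarith
  have hpos : 0 < ‖f (x + v) - f x‖ := by
    rw [norm_pos_iff, sub_ne_zero]
    intro he
    have := f.injective he
    exact hv0 (by simpa using this)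
  have hC0pos : 0 < C0 := by
    rcases hC0'.lt_or_eq with h' | h'
    · exact h'
    · exfalso
      obtain ⟨ρ, hρ⟩ := hne
      have := key _ ha ρ hρ
      rw [← h', zero_mul] at this
      linarith
  have key2 : ∀ a : H, ‖a - x‖ < r → ‖f a - f x‖ ≤ C0 * sInf S := by
    intro a ha'
    have h1 : ‖f a - f x‖ / C0 ≤ sInf S := by
      refine le_csInf hne (fun ρ hρ => ?_)
      rw [div_le_iff₀ hC0pos, mul_comm]
      exact key a ha' ρ hρ
    rw [div_le_iff₀ hC0pos, mul_comm] at h1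
    exact h1
  have hs : 0 < sInf S := by
    have := key2 _ ha
    by_contra hcon
    have h3 : C0 * sInf S ≤ 0 := mul_nonpos_of_nonneg_of_nonpos hC0' (not_lt.mp hcon)
    linarith
  refine ⟨f x, sInf S, hs, ?_, ?_⟩
  · intro w hw
    rw [Metric.mem_ball, dist_eq_norm] at hw
    refine ⟨f.symm w, ?_, f.apply_symm_apply w⟩
    rw [Metric.mem_ball, dist_eq_norm]
    by_contra hcon
    have h1 : sInf S ≤ ‖f (f.symm w) - f x‖ := csInf_le hbdd ⟨f.symm w, not_lt.mp hcon, rfl⟩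
    rw [f.apply_symm_apply] at h1
    linarith
  · rintro _ ⟨a, ha', rfl⟩
    rw [Metric.mem_ball, dist_eq_norm] at ha' ⊢
    have := key2 a ha'
    have h4 : (C0 + 1) * sInf S = C0 * sInf S + sInf S := by ring
    rw [h4]
    linarith

end Pool.Agent.H31.QH
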