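import Pool.Agent.H31.QH.SlbD

/-!
Row Fla (MP_b924dd_QH): flattening a configuration to a slab of constant total thickness.

Let `Hf = H0 - 4 ≥ 1`, `hf = e^{-Hf}`, `hT x = ∫_0^T e^{g(s,x)} ds`, `base = ∫_0^T e^{-tp}`.  By `low` and `thick`: `0 ≤ hT x - base ≤ 1/8`; put
`k x = base + 1/8 - hT x ∈ [0,1/8]`; by `slope` (t = T) `hT` is 1/8-Lipschitz.  `M = e^{Hf}`,
`ψ t = (4/M²) max 0 (min (t-T) (T+M-t))`: continuous, `0 ≤ ψ ≤ 2/M`, supported in `[T,T+M]`, `∫_T^{T+M} ψ = 1`.
Define `th' t x = e^{g(t,x)} + k x ψ t`, `z' = c.z`, `T' = T + M`, `cc = base + 1/8 + hf M`.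
 cont: `g` is continuous (`lip_g`), `k` continuous.  pos: `e^g > 0`, `kψ ≥ 0`.
 supp: off `[0,T']`: `ψ = 0`, `g = -Hf`.    homeo, disp: from Good.
 near: `lam = e^{l(t,x)}`.  If `t ∈ [0,T)`.. (`ψ t = 0` for `t ≤ T`): `lam th' = e^{l+g} = e^{-mu}`, `Hf ≤ mu ≤ H0`: in `[e^{-H0}, e^{-Hf}]`, `≤ 1`.  If `t > T`:
   `l = 0`, `g = -Hf`, `lam th' = e^{-Hf} + kψ ∈ [e^{-Hf}, e^{-Hf} + (1/8)(2/M)] ⊂ [e^{-H0}, 2e^{-Hf}]`, `2e^{-Hf} ≤ 1` as `Hf ≥ 1`.  `Good.near` gives NearLin
   with `exp (l)`, `1/8`, `1/8`.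
 total: `∫_0^{T+M} th' = hT x + hf M + k x = cc` (on `(T, T+M]`, `e^g = hf`).
 slope: `J(t) := ∫_0^t (th' s x - th' s y)`.  For `t ≤ T` (also `t < 0`) it is the integral of Good.slope (`ψ = 0` there).  For `t ≥ T`:
   `= (hT x - hT y) + (k x - k y)∫_T^t ψ = (hT x - hT y)(1 - ∫_T^t ψ)`, `0 ≤ ∫_T^t ψ ≤ 1`.
 plateau: `∫_{t1}^{t1+Λ} th' s 0 = ∫ e^{g(s,0)}` (`t1 + Λ ≤ T`) `= ∫_{t1}^{t1+Λ} (e^g - e^{-tp}) + ∫_{t1}^{t1+Λ} e^{-tp} ≤ 1/8 + Λ e^{-Htop}` (nonnegative integrand on
   the larger interval `[0,T]`).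
-/

namespace Pool.Agent.H31.QH

open Filter Topology MeasureTheory

/-- the bump used to correct the total thickness -/
noncomputable def flaPsi (T M t : ℝ) : ℝ := 6 / M ^ 3 * max 0 ((t - T) * (T + M - t))

private theorem flaPsi_cont (T M : ℝ) : Continuous (flaPsi T M) := by
  unfold flaPsi
  fun_prop

private theorem flaPsi_nonneg {T M : ℝ} (hM : 0 < M) (t : ℝ) : 0 ≤ flaPsi T M t :=
  mul_nonneg (by positivity) (le_max_left _ _)

private theorem flaPsi_left {T M : ℝ} (hM : 0 < M) {t : ℝ} (ht : t ≤ T) : flaPsi T M t = 0 := by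
  unfold flaPsi
  rw [max_eq_left, mul_zero]
  exact mul_nonpos_of_nonpos_of_nonneg (by linarith) (by linarith)

private theorem flaPsi_right {T M : ℝ} (hM : 0 < M) {t : ℝ} (ht : T + M ≤ t) : flaPsi T M t = 0 := by
  unfold flaPsi
  rw [max_eq_left, mul_zero]
  exact mul_nonpos_of_nonneg_of_nonpos (by linarith) (by linarith)

private theorem flaPsi_le {T M : ℝ} (hM : 0 < M) (t : ℝ) : flaPsi T M t ≤ 2 / M := by
  unfold flaPsi
  have h1 : max 0 ((t - T) * (T + M - t)) ≤ M ^ 2 / 4 := by
    refine max_le (by positivity) ?_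
    nlinarith [sq_nonneg (t - T - M / 2)]
  calc 6 / M ^ 3 * max 0 ((t - T) * (T + M - t)) ≤ 6 / M ^ 3 * (M ^ 2 / 4) :=
        mul_le_mul_of_nonneg_left h1 (by positivity)
    _ = 3 / 2 / M := by field_simp; norm_num
    _ ≤ 2 / M := by
        apply div_le_div_of_nonneg_right (by norm_num) hM.le

private theorem flaPsi_int {T M : ℝ} (hM : 0 < M) : ∫ s in T..(T + M), flaPsi T M s = 1 := by
  have h1 : ∫ s in T..(T + M), flaPsi T M s = ∫ s in T..(T + M), 6 / M ^ 3 * ((s - T) * (T + M - s)) := by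
    apply intervalIntegral.integral_congr
    intro s hs
    rw [Set.uIcc_of_le (by linarith)] at hs
    show 6 / M ^ 3 * max 0 ((s - T) * (T + M - s)) = _
    rw [max_eq_right]
    exact mul_nonneg (by linarith [hs.1]) (by linarith [hs.2])
  rw [h1]
  have h2 : ∀ s ∈ Set.uIcc T (T + M), HasDerivAt
      (fun s : ℝ => 6 / M ^ 3 * (M * (s - T) ^ 2 / 2 - (s - T) ^ 3 / 3))
      (6 / M ^ 3 * ((s - T) * (T + M - s))) s := by
    intro s _
    have e0 : HasDerivAt (fun s : ℝ => s - T) 1 s := (hasDerivAt_id s).sub_const T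
    have e1 := (((e0.pow 2).const_mul M).div_const 2).sub ((e0.pow 3).div_const 3)
    have e2 := e1.const_mul (6 / M ^ 3)
    refine e2.congr_deriv ?_
    push_cast
    ring
  rw [intervalIntegral.integral_eq_sub_of_hasDerivAt h2]
  · field_simp
    ring
  · exact (by fun_prop : Continuous fun s : ℝ => 6 / M ^ 3 * ((s - T) * (T + M - s))).intervalIntegrable _ _

private theorem flaPsi_int_le {T M : ℝ} (hM : 0 < M) {t : ℝ} (ht : T ≤ t) :
    0 ≤ ∫ s in T..t, flaPsi T M s ∧ ∫ s in T..t, flaPsi T M s ≤ 1 := by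
  have hc := flaPsi_cont T M
  constructor
  · exact intervalIntegral.integral_nonneg ht (fun s _ => flaPsi_nonneg hM s)
  · have h1 : ∫ s in T..t, flaPsi T M s ≤ ∫ s in T..(max t (T + M)), flaPsi T M s := by
      apply intervalIntegral.integral_mono_interval le_rfl ht (le_max_left _ _)
      · exact Filter.Eventually.of_forall (fun s => flaPsi_nonneg hM s)
      · exact hc.intervalIntegrable _ _
    have h2 : ∫ s in T..(max t (T + M)), flaPsi T M s = 1 := by
      rw [← intervalIntegral.integral_add_adjacent_intervals (hc.intervalIntegrable T (T + M))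
        (hc.intervalIntegrable (T + M) (max t (T + M))), flaPsi_int hM]
      have h3 : ∫ s in (T + M)..(max t (T + M)), flaPsi T M s = ∫ s in (T + M)..(max t (T + M)), (0 : ℝ) := by
        apply intervalIntegral.integral_congr
        intro s hs
        rw [Set.uIcc_of_le (le_max_right _ _)] at hs
        exact flaPsi_right hM hs.1
      rw [h3]
      simp
    linarith

theorem fla {X : Type*} [NormedAddCommGroup X] [InnerProductSpace ℝ X] (H0 Htop T t1 Λ : ℝ) (tp : ℝ → ℝ)
    (c : Cfg X) (hH0 : 5 ≤ H0) (hT : 0 ≤ T) (htp : Continuous tp) (ht1 : 0 ≤ t1) (hΛ : 0 ≤ Λ) (htT : t1 + Λ ≤ T)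
    (hpl : ∀ t ∈ Set.Icc t1 (t1 + Λ), tp t = Htop)
    (hgood : Good c T (H0 - 4) H0 (1 / 8) (1 / 8) (1 / 8) (fun _ => 1 / 8) tp) :
    ∃ (T' cc : ℝ) (z : ℝ → X → X) (th : ℝ → X → ℝ), Slab H0 (Real.exp (-(H0 - 4))) T' cc z th ∧
      t1 + Λ ≤ T' ∧ ∫ s in t1..(t1 + Λ), th s 0 ≤ Λ * Real.exp (-Htop) + 1 / 8 := by
  -- continuity of `g`
  have hgc : Continuous (fun p : ℝ × X => c.g p.1 p.2) := by
    obtain ⟨B, hB⟩ := hgood.lip_g
    have hB0 : ∀ p q : ℝ × X, |c.g q.1 q.2 - c.g p.1 p.2| ≤ |B| * (|q.1 - p.1| + ‖q.2 - p.2‖) := by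
      intro p q
      refine (hB p.1 q.1 p.2 q.2).trans ?_
      exact mul_le_mul_of_nonneg_right (le_abs_self B) (by positivity)
    rw [continuous_iff_continuousAt]
    intro p
    rw [ContinuousAt, tendsto_iff_dist_tendsto_zero]
    have hlim : Tendsto (fun q : ℝ × X => |B| * (|q.1 - p.1| + ‖q.2 - p.2‖)) (𝓝 p) (𝓝 0) := by
      have hc : Continuous (fun q : ℝ × X => |B| * (|q.1 - p.1| + ‖q.2 - p.2‖)) := by fun_prop
      have := hc.tendsto p
      simpa using this
    refine squeeze_zero (fun q => dist_nonneg) (fun q => ?_) hlim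
    rw [Real.dist_eq]
    exact hB0 p q
  have hgx : ∀ x, Continuous (fun s => Real.exp (c.g s x)) := fun x =>
    Real.continuous_exp.comp (hgc.comp (by fun_prop : Continuous fun s : ℝ => ((s, x) : ℝ × X)))
  have htpc : Continuous (fun s => Real.exp (- tp s)) := by fun_prop
  set M : ℝ := Real.exp (H0 - 4) with hMdef
  have hM : 0 < M := Real.exp_pos _
  have hfM : Real.exp (-(H0 - 4)) * M = 1 := by
    rw [hMdef, ← Real.exp_add]
    simp
  set hf : ℝ := Real.exp (-(H0 - 4)) with hfdef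
  have hfpos : 0 < hf := Real.exp_pos _
  have hMinv : 2 / M = 2 * hf := by
    rw [div_eq_iff hM.ne', mul_assoc, hfM, mul_one]
  have hfle : hf ≤ 1 / 2 := by
    have h1 : hf ≤ Real.exp (-1) := Real.exp_le_exp.2 (by linarith)
    have h2 : (2 : ℝ) ≤ Real.exp 1 := by
      have := Real.add_one_le_exp (1 : ℝ)
      linarith
    have h3 : Real.exp (-1) ≤ 1 / 2 := by
      rw [Real.exp_neg, one_div]
      exact inv_anti₀ (by norm_num) h2
    linarith
  obtain ⟨hTT, hTTdef⟩ : ∃ hTT : X → ℝ, ∀ x, hTT x = ∫ s in (0:ℝ)..T, Real.exp (c.g s x) := ⟨_, fun _ => rfl⟩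
  obtain ⟨base, hbase⟩ : ∃ base : ℝ, base = ∫ s in (0:ℝ)..T, Real.exp (- tp s) := ⟨_, rfl⟩
  have hsub : ∀ x, ∫ s in (0:ℝ)..T, (Real.exp (c.g s x) - Real.exp (- tp s)) = hTT x - base := by
    intro x
    rw [intervalIntegral.integral_sub ((hgx x).intervalIntegrable _ _) (htpc.intervalIntegrable _ _),
      hTTdef, hbase]
  have hnn : ∀ x s, 0 ≤ Real.exp (c.g s x) - Real.exp (- tp s) := by
    intro x s
    have := Real.exp_le_exp.2 (hgood.low s x)
    linarith
  have hlo : ∀ x, base ≤ hTT x := by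
    intro x
    have : 0 ≤ ∫ s in (0:ℝ)..T, (Real.exp (c.g s x) - Real.exp (- tp s)) :=
      intervalIntegral.integral_nonneg hT (fun s (_ : s ∈ Set.Icc 0 T) => hnn x s)
    rw [hsub x] at this
    linarith
  have hhi : ∀ x, hTT x ≤ base + 1 / 8 := by
    intro x
    have := hgood.thick x
    rw [hsub x] at this
    linarith
  have hslT : ∀ x y, |hTT x - hTT y| ≤ 1 / 8 * ‖x - y‖ := by
    intro x y
    have := hgood.slope T x y
    rw [intervalIntegral.integral_sub ((hgx x).intervalIntegrable _ _) ((hgx y).intervalIntegrable _ _),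
      ← hTTdef, ← hTTdef] at this
    exact this
  have hTTc : Continuous hTT := by
    refine (LipschitzWith.of_dist_le_mul (K := 1 / 8) (fun x y => ?_)).continuous
    rw [Real.dist_eq, dist_eq_norm]
    have := hslT x y
    simpa using this
  have hk0 : ∀ x, 0 ≤ base + 1 / 8 - hTT x := fun x => by linarith [hhi x]
  have hk1 : ∀ x, base + 1 / 8 - hTT x ≤ 1 / 8 := fun x => by linarith [hlo x]
  have hψc := flaPsi_cont T M
  obtain ⟨th, hth⟩ : ∃ th : ℝ → X → ℝ, ∀ t x, th t x = Real.exp (c.g t x) +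
      (base + 1 / 8 - hTT x) * flaPsi T M t := ⟨_, fun _ _ => rfl⟩
  have hthc : Continuous (fun p : ℝ × X => th p.1 p.2) := by
    have : (fun p : ℝ × X => th p.1 p.2) = fun p : ℝ × X => Real.exp (c.g p.1 p.2) +
      (base + 1 / 8 - hTT p.2) * flaPsi T M p.1 := by
      funext p
      exact hth _ _
    rw [this]
    have e1 : Continuous (fun p : ℝ × X => Real.exp (c.g p.1 p.2)) := Real.continuous_exp.comp hgc
    have e2 : Continuous (fun p : ℝ × X => hTT p.2) := hTTc.comp continuous_snd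
    have e3 : Continuous (fun p : ℝ × X => flaPsi T M p.1) := hψc.comp continuous_fst
    exact e1.add ((continuous_const.sub e2).mul e3)
  have hthx : ∀ x, Continuous (fun s => th s x) := fun x =>
    hthc.comp (by fun_prop : Continuous fun s : ℝ => ((s, x) : ℝ × X))
  have hleft : ∀ t x, t ≤ T → th t x = Real.exp (c.g t x) := by
    intro t x ht
    rw [hth, flaPsi_left hM ht, mul_zero, add_zero]
  have hright : ∀ t x, T < t → th t x = hf + (base + 1 / 8 - hTT x) * flaPsi T M t := by
    intro t x ht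
    have := (hgood.supp t (fun h => absurd h.2 (not_le.2 ht)) x).2.2
    rw [hth, this]
  -- integrals of `th`
  have hI0 : ∀ x y t, t ≤ T → ∫ s in (0:ℝ)..t, (th s x - th s y) =
      ∫ s in (0:ℝ)..t, (Real.exp (c.g s x) - Real.exp (c.g s y)) := by
    intro x y t ht
    apply intervalIntegral.integral_congr
    intro s hs
    have hs2 : s ≤ T := by
      rcases le_total 0 t with h | h
      · rw [Set.uIcc_of_le h] at hs
        exact hs.2.trans ht
      · rw [Set.uIcc_of_ge h] at hs
        exact hs.2.trans hT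
    show th s x - th s y = _
    rw [hleft s x hs2, hleft s y hs2]
  have hI1 : ∀ x y t, T ≤ t → ∫ s in T..t, (th s x - th s y) =
      (hTT y - hTT x) * ∫ s in T..t, flaPsi T M s := by
    intro x y t ht
    rw [← intervalIntegral.integral_const_mul]
    apply intervalIntegral.integral_congr_ae
    refine Filter.Eventually.of_forall (fun s hs => ?_)
    rw [Set.uIoc_of_le ht] at hs
    rw [hright s x hs.1, hright s y hs.1]
    ring
  refine ⟨T + M, base + 1 / 8 + 1, c.z, th, ⟨by linarith, hthc, ?_, ?_, hgood.homeo, hgood.disp, ?_, ?_, ?_⟩,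
    by linarith, ?_⟩
  · intro t x
    rw [hth]
    have h1 := Real.exp_pos (c.g t x)
    have h2 := mul_nonneg (hk0 x) (flaPsi_nonneg (T := T) hM t)
    linarith
  · intro t ht x
    have ht' : t ∉ Set.Icc 0 T := fun h => ht ⟨h.1, h.2.trans (by linarith)⟩
    obtain ⟨h1, h2, h3⟩ := hgood.supp t ht' x
    refine ⟨h1, ?_⟩
    rw [hth, h3]
    have h4 : flaPsi T M t = 0 := by
      rcases lt_or_ge t 0 with h | h
      · exact flaPsi_left hM (by linarith)
      · apply flaPsi_right hM
        by_contra hc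
        exact ht ⟨h, (not_le.1 hc).le⟩
    rw [h4, mul_zero, add_zero]
  · intro t x
    refine ⟨Real.exp (c.l t x), Real.exp_pos _, hgood.near t x, ?_⟩
    rcases le_or_gt t T with ht | ht
    · rw [hleft t x ht, ← Real.exp_add]
      have h1 := hgood.mu_lo t x
      have h2 := hgood.mu_hi t x
      unfold Cfg.mu at h1 h2
      constructor
      · rw [← Real.exp_zero]
        exact Real.exp_le_exp.2 (by linarith)
      · exact Real.exp_le_exp.2 (by linarith)
    · rw [hright t x ht, (hgood.supp t (fun h => absurd h.2 (not_le.2 ht)) x).2.1, Real.exp_zero, one_mul]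
      have h2 := mul_nonneg (hk0 x) (flaPsi_nonneg (T := T) hM t)
      have h3 : (base + 1 / 8 - hTT x) * flaPsi T M t ≤ 1 / 8 * (2 / M) :=
        mul_le_mul (hk1 x) (flaPsi_le hM t) (flaPsi_nonneg hM t) (by norm_num)
      rw [hMinv] at h3
      constructor
      · linarith
      · have h4 : Real.exp (-H0) ≤ hf := Real.exp_le_exp.2 (by linarith)
        linarith
  · intro x
    rw [← intervalIntegral.integral_add_adjacent_intervals ((hthx x).intervalIntegrable 0 T)
      ((hthx x).intervalIntegrable T (T + M))]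
    have h1 : ∫ s in (0:ℝ)..T, th s x = hTT x := by
      rw [hTTdef]
      apply intervalIntegral.integral_congr
      intro s hs
      rw [Set.uIcc_of_le hT] at hs
      exact hleft s x hs.2
    have h2 : ∫ s in T..(T + M), th s x = hf * M + (base + 1 / 8 - hTT x) := by
      have h3 : ∫ s in T..(T + M), th s x = ∫ s in T..(T + M), (hf + (base + 1 / 8 - hTT x) * flaPsi T M s) := by
        apply intervalIntegral.integral_congr_ae
        refine Filter.Eventually.of_forall (fun s hs => ?_)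
        rw [Set.uIoc_of_le (by linarith)] at hs
        exact hright s x hs.1
      rw [h3, intervalIntegral.integral_add (by simp)
        ((by fun_prop : Continuous fun s => (base + 1 / 8 - hTT x) * flaPsi T M s).intervalIntegrable _ _),
        intervalIntegral.integral_const_mul,
        flaPsi_int hM, intervalIntegral.integral_const]
      simp only [smul_eq_mul]
      ring
    rw [h1, h2, hfM]
    ring
  · intro t x y
    rcases le_or_gt t T with ht | ht
    · rw [hI0 x y t ht]
      exact hgood.slope t x y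
    · have hd : Continuous (fun s => th s x - th s y) := (hthx x).sub (hthx y)
      rw [← intervalIntegral.integral_add_adjacent_intervals
        (hd.intervalIntegrable 0 T) (hd.intervalIntegrable T t),
        hI0 x y T le_rfl, hI1 x y t ht.le,
        intervalIntegral.integral_sub ((hgx x).intervalIntegrable _ _) ((hgx y).intervalIntegrable _ _),
        ← hTTdef, ← hTTdef]
      obtain ⟨h1, h2⟩ := flaPsi_int_le (T := T) hM ht.le
      set I := ∫ s in T..t, flaPsi T M s
      have h3 : hTT x - hTT y + (hTT y - hTT x) * I = (hTT x - hTT y) * (1 - I) := by ring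
      rw [h3, abs_mul, abs_of_nonneg (by linarith : 0 ≤ 1 - I)]
      calc |hTT x - hTT y| * (1 - I) ≤ |hTT x - hTT y| * 1 :=
            mul_le_mul_of_nonneg_left (by linarith) (abs_nonneg _)
        _ = |hTT x - hTT y| := mul_one _
        _ ≤ 1 / 8 * ‖x - y‖ := hslT x y
  · have h1 : ∫ s in t1..(t1 + Λ), th s 0 =
        ∫ s in t1..(t1 + Λ), ((Real.exp (c.g s 0) - Real.exp (- tp s)) + Real.exp (-Htop)) := by
      apply intervalIntegral.integral_congr
      intro s hs
      rw [Set.uIcc_of_le (by linarith)] at hs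
      show th s 0 = (Real.exp (c.g s 0) - Real.exp (- tp s)) + Real.exp (-Htop)
      rw [hleft s 0 (hs.2.trans htT), hpl s hs]
      ring
    have hc1 : Continuous (fun s => Real.exp (c.g s 0) - Real.exp (- tp s)) := (hgx 0).sub htpc
    rw [h1, intervalIntegral.integral_add (hc1.intervalIntegrable _ _) (by simp),
      intervalIntegral.integral_const]
    have h2 : ∫ s in t1..(t1 + Λ), (Real.exp (c.g s 0) - Real.exp (- tp s)) ≤
        ∫ s in (0:ℝ)..T, (Real.exp (c.g s 0) - Real.exp (- tp s)) := by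
      apply intervalIntegral.integral_mono_interval ht1 (by linarith) htT
      · exact Filter.Eventually.of_forall (fun s => hnn 0 s)
      · exact hc1.intervalIntegrable _ _
    have h3 := hgood.thick 0
    simp only [smul_eq_mul]
    have h4 : t1 + Λ - t1 = Λ := by ring
    rw [h4]
    linarith

end Pool.Agent.H31.QH
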