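import Pool.Agent.H31.QH.GluB

/-!
Row GluC (MP_b924dd_QH): integrals of the glued thickness.  Uses the statements of Glu, GluB.

Write `S j = Sg T j`.  On `[S j, S (j+1))`: `gth t x = Th j (t - S j) x` (glu_on, glu_eq); for `t < 0`: `gth t x = hf`.
(1) `∫_{S j}^{t} gth s x ds = ∫_0^{t - S j} Th j s x ds` for `t ∈ [S j, S (j+1)]` (`intervalIntegral.integral_comp_sub_right`; the endpoint is a null set:
    `intervalIntegral.integral_congr_ae` or continuity).  In particular `∫_{S j}^{S (j+1)} gth = ∫_0^{T j + 1} Th j = cc j + hf` (`Th j = hf` beyond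
    `T j`), independent of `x`; so `∫_0^{S j} gth s x ds = Σ_{i<j}(cc i + hf)` is independent of `x`.
(2) slope: `t < 0`: integrand 0.  `t ≥ 0`: choose `j` with `t ∈ [S j, S (j+1))` (glu_ge: `S j ≥ j`, so `S j → ∞`; `Nat.find`), then
    `∫_0^t (gth s x - gth s y) = ∫_0^{t - S j} (Th j s x - Th j s y)`, `(h j).slope`.
(3) top: `t ↦ ∫_0^t gth` is monotone (`gth > 0`) and `∫_0^{S j} gth = Σ_{i<j}(cc i + hf) ≥ j hf → ∞` (`cc i ≥ 0` by positivity, `hf > 0`).
    bot: for `t < 0`, `∫_0^t gth = hf t → -∞`.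
(4) plateau transfer: for `0 ≤ t1 ≤ t2 ≤ T j`... (in fact for `S j + t2 ≤ S (j+1)`): `∫_{S j + t1}^{S j + t2} gth s 0 = ∫_{t1}^{t2} Th j s 0`.
-/

namespace Pool.Agent.H31.QH

open Filter Topology MeasureTheory

variable {X : Type*} [NormedAddCommGroup X] [InnerProductSpace ℝ X]

theorem gluC_cg {H0 hf : ℝ} {T cc : ℕ → ℝ} {Z : ℕ → ℝ → X → X} {Th : ℕ → ℝ → X → ℝ}
    (h : ∀ j, Slab H0 hf (T j) (cc j) (Z j) (Th j)) (x : X) :
    Continuous (fun s => gth hf Th T s x) :=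
  (gluB_cont h).comp (continuous_id.prodMk continuous_const)

theorem gluC_cT {H0 hf : ℝ} {T cc : ℕ → ℝ} {Z : ℕ → ℝ → X → X} {Th : ℕ → ℝ → X → ℝ}
    (h : ∀ j, Slab H0 hf (T j) (cc j) (Z j) (Th j)) (j : ℕ) (x : X) :
    Continuous (fun s => Th j s x) :=
  (h j).cont.comp (continuous_id.prodMk continuous_const)

theorem gluC_on {H0 hf : ℝ} {T cc : ℕ → ℝ} {Z : ℕ → ℝ → X → X} {Th : ℕ → ℝ → X → ℝ}
    (h : ∀ j, Slab H0 hf (T j) (cc j) (Z j) (Th j)) (j : ℕ) (x : X)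
    (s : ℝ) (h1 : Sg T j ≤ s) (h2 : s ≤ Sg T (j + 1)) : gth hf Th T s x = Th j (s - Sg T j) x := by
  have hlt : Sg T j < Sg T (j + 1) := by
    have h3 := (h j).T_nonneg
    have h4 : Sg T (j + 1) = Sg T j + T j + 1 := rfl
    linarith
  have hcl : IsClosed {s : ℝ | gth hf Th T s x = Th j (s - Sg T j) x} :=
    isClosed_eq (gluC_cg h x) ((gluC_cT h j x).comp (continuous_id.sub continuous_const))
  have hsub : Set.Ico (Sg T j) (Sg T (j + 1)) ⊆ {s : ℝ | gth hf Th T s x = Th j (s - Sg T j) x} := by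
    intro r hr
    exact (glu_eq h j r x (glu_on T (fun i => (h i).T_nonneg) j r hr.1 hr.2)).2
  have h5 := hcl.closure_subset_iff.2 hsub
  rw [closure_Ico (ne_of_lt hlt)] at h5
  exact h5 ⟨h1, h2⟩

theorem gluC_neg {H0 hf : ℝ} {T cc : ℕ → ℝ} {Z : ℕ → ℝ → X → X} {Th : ℕ → ℝ → X → ℝ}
    (h : ∀ j, Slab H0 hf (T j) (cc j) (Z j) (Th j)) (x : X)
    (s : ℝ) (hs : s ≤ 0) : gth hf Th T s x = hf := by
  have hcl : IsClosed {s : ℝ | gth hf Th T s x = hf} :=
    isClosed_eq (gluC_cg h x) continuous_const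
  have hsub : Set.Iio (0 : ℝ) ⊆ {s : ℝ | gth hf Th T s x = hf} := by
    intro r hr
    obtain ⟨h1, h2⟩ := glu_neg T (fun i => (h i).T_nonneg) 0 r hr
    show gth hf Th T r x = hf
    rw [(glu_eq h 0 r x h1).2]
    exact ((h 0).supp _ h2 x).2
  have h5 := hcl.closure_subset_iff.2 hsub
  rw [closure_Iio] at h5
  exact h5 hs

theorem gluC_shift {H0 hf : ℝ} {T cc : ℕ → ℝ} {Z : ℕ → ℝ → X → X} {Th : ℕ → ℝ → X → ℝ}
    (h : ∀ j, Slab H0 hf (T j) (cc j) (Z j) (Th j)) (j : ℕ) (x : X)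
    (t1 t2 : ℝ) (h1 : 0 ≤ t1) (h12 : t1 ≤ t2) (h2 : t2 ≤ T j + 1) :
    ∫ s in (Sg T j + t1)..(Sg T j + t2), gth hf Th T s x = ∫ s in t1..t2, Th j s x := by
  have e1 : ∫ s in (Sg T j + t1)..(Sg T j + t2), gth hf Th T s x
      = ∫ s in (Sg T j + t1)..(Sg T j + t2), Th j (s - Sg T j) x := by
    apply intervalIntegral.integral_congr
    intro s hs
    rw [Set.uIcc_of_le (by linarith)] at hs
    have h4 : Sg T (j + 1) = Sg T j + T j + 1 := rfl
    exact gluC_on h j x s (by linarith [hs.1]) (by linarith [hs.2])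
  rw [e1, intervalIntegral.integral_comp_sub_right (fun u => Th j u x) (Sg T j),
    add_sub_cancel_left, add_sub_cancel_left]

theorem gluC_one {H0 hf : ℝ} {T cc : ℕ → ℝ} {Z : ℕ → ℝ → X → X} {Th : ℕ → ℝ → X → ℝ}
    (h : ∀ j, Slab H0 hf (T j) (cc j) (Z j) (Th j)) (j : ℕ) (x : X) :
    ∫ s in (0 : ℝ)..(T j + 1), Th j s x = cc j + hf := by
  have hc := gluC_cT h j x
  have hT := (h j).T_nonneg
  rw [← intervalIntegral.integral_add_adjacent_intervals (hc.intervalIntegrable 0 (T j))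
    (hc.intervalIntegrable (T j) (T j + 1)), (h j).total x]
  congr 1
  rw [intervalIntegral.integral_of_le (by linarith)]
  have e : ∫ s in Set.Ioc (T j) (T j + 1), Th j s x = ∫ s in Set.Ioc (T j) (T j + 1), hf := by
    apply setIntegral_congr_fun measurableSet_Ioc
    intro s hs
    exact ((h j).supp s (fun hc => absurd hc.2 (not_le.2 hs.1)) x).2
  rw [e, ← intervalIntegral.integral_of_le (by linarith), intervalIntegral.integral_const]
  simp

theorem gluC_full {H0 hf : ℝ} {T cc : ℕ → ℝ} {Z : ℕ → ℝ → X → X} {Th : ℕ → ℝ → X → ℝ}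
    (h : ∀ j, Slab H0 hf (T j) (cc j) (Z j) (Th j)) (x : X) (j : ℕ) :
    ∫ s in (0 : ℝ)..(Sg T j), gth hf Th T s x = ∑ i ∈ Finset.range j, (cc i + hf) := by
  induction j with
  | zero =>
    have h0 : Sg T 0 = 0 := rfl
    rw [h0]
    simp
  | succ j ih =>
    have hc := gluC_cg h x
    rw [← intervalIntegral.integral_add_adjacent_intervals (hc.intervalIntegrable 0 (Sg T j))
      (hc.intervalIntegrable (Sg T j) (Sg T (j + 1))), ih, Finset.sum_range_succ]
    congr 1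
    have h1 := gluC_shift h j x 0 (T j + 1) le_rfl (by linarith [(h j).T_nonneg]) le_rfl
    rw [gluC_one h j x, add_zero, ← add_assoc] at h1
    exact h1

theorem gluC_upto {H0 hf : ℝ} {T cc : ℕ → ℝ} {Z : ℕ → ℝ → X → X} {Th : ℕ → ℝ → X → ℝ}
    (h : ∀ j, Slab H0 hf (T j) (cc j) (Z j) (Th j)) (x : X) (j : ℕ) (t : ℝ)
    (h1 : Sg T j ≤ t) (h2 : t ≤ Sg T (j + 1)) :
    ∫ s in (0 : ℝ)..t, gth hf Th T s x
      = ∑ i ∈ Finset.range j, (cc i + hf) + ∫ s in (0 : ℝ)..(t - Sg T j), Th j s x := by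
  have hc := gluC_cg h x
  have h4 : Sg T (j + 1) = Sg T j + T j + 1 := rfl
  rw [← intervalIntegral.integral_add_adjacent_intervals (hc.intervalIntegrable 0 (Sg T j))
      (hc.intervalIntegrable (Sg T j) t), gluC_full h x j]
  congr 1
  have h3 := gluC_shift h j x 0 (t - Sg T j) le_rfl (by linarith) (by linarith)
  rw [add_zero, add_sub_cancel] at h3
  exact h3

theorem gluC_find (T : ℕ → ℝ) (hT : ∀ j, 0 ≤ T j) (t : ℝ) (ht : 0 ≤ t) :
    ∃ j, Sg T j ≤ t ∧ t < Sg T (j + 1) := by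
  have hex : ∃ j : ℕ, t < Sg T (j + 1) := by
    obtain ⟨n, hn⟩ := exists_nat_gt t
    refine ⟨n, ?_⟩
    have h1 := glu_ge T hT (n + 1)
    push_cast at h1
    linarith
  classical
  refine ⟨Nat.find hex, ?_, Nat.find_spec hex⟩
  rcases Nat.eq_zero_or_pos (Nat.find hex) with h0 | h0
  · rw [h0]
    exact ht
  · obtain ⟨i, hi⟩ := Nat.exists_eq_succ_of_ne_zero (Nat.pos_iff_ne_zero.1 h0)
    have h1 := Nat.find_min hex (m := i) (by omega)
    rw [hi]
    exact not_lt.1 h1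

theorem gluC_slope {H0 hf : ℝ} {T cc : ℕ → ℝ} {Z : ℕ → ℝ → X → X} {Th : ℕ → ℝ → X → ℝ} (hhf : 0 < hf)
    (h : ∀ j, Slab H0 hf (T j) (cc j) (Z j) (Th j)) (t : ℝ) (x y : X) :
    |∫ s in (0:ℝ)..t, (gth hf Th T s x - gth hf Th T s y)| ≤ 1 / 8 * ‖x - y‖ := by
  rcases lt_or_ge t 0 with ht | ht
  · have e : ∫ s in (0 : ℝ)..t, (gth hf Th T s x - gth hf Th T s y) = ∫ s in (0 : ℝ)..t, (0 : ℝ) := by
      apply intervalIntegral.integral_congr
      intro s hs
      rw [Set.uIcc_of_ge ht.le] at hs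
      show gth hf Th T s x - gth hf Th T s y = 0
      rw [gluC_neg h x s hs.2, gluC_neg h y s hs.2, sub_self]
    rw [e]
    simp
  · obtain ⟨j, h1, h2⟩ := gluC_find T (fun i => (h i).T_nonneg) t ht
    rw [intervalIntegral.integral_sub ((gluC_cg h x).intervalIntegrable 0 t)
      ((gluC_cg h y).intervalIntegrable 0 t), gluC_upto h x j t h1 h2.le,
      gluC_upto h y j t h1 h2.le, add_sub_add_left_eq_sub,
      ← intervalIntegral.integral_sub ((gluC_cT h j x).intervalIntegrable 0 _)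
      ((gluC_cT h j y).intervalIntegrable 0 _)]
    exact (h j).slope _ x y

theorem gluC_top {H0 hf : ℝ} {T cc : ℕ → ℝ} {Z : ℕ → ℝ → X → X} {Th : ℕ → ℝ → X → ℝ} (hhf : 0 < hf)
    (h : ∀ j, Slab H0 hf (T j) (cc j) (Z j) (Th j)) (x : X) :
    Tendsto (fun t => ∫ s in (0:ℝ)..t, gth hf Th T s x) atTop atTop ∧
    Tendsto (fun t => ∫ s in (0:ℝ)..t, gth hf Th T s x) atBot atBot := by
  have hc := gluC_cg h x
  constructor
  · rw [tendsto_atTop]
    intro b
    obtain ⟨j, hj⟩ := exists_nat_ge (b / hf)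
    rw [div_le_iff₀ hhf] at hj
    filter_upwards [eventually_ge_atTop (Sg T j)] with t ht
    rw [← intervalIntegral.integral_add_adjacent_intervals (hc.intervalIntegrable 0 (Sg T j))
      (hc.intervalIntegrable (Sg T j) t), gluC_full h x j]
    have h1 : 0 ≤ ∫ s in (Sg T j)..t, gth hf Th T s x :=
      intervalIntegral.integral_nonneg ht (fun s _ => (gluB_pt h s x).1.le)
    have h2 : ∀ i, 0 ≤ cc i := by
      intro i
      rw [← (h i).total x]
      exact intervalIntegral.integral_nonneg (h i).T_nonneg (fun s _ => ((h i).pos s x).le)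
    have h3 : (j : ℝ) * hf ≤ ∑ i ∈ Finset.range j, (cc i + hf) := by
      have h4 : (j : ℝ) * hf = ∑ i ∈ Finset.range j, hf := by
        rw [Finset.sum_const, Finset.card_range, nsmul_eq_mul]
      rw [h4]
      exact Finset.sum_le_sum (fun i _ => by linarith [h2 i])
    linarith
  · have e : (fun t : ℝ => t * hf) =ᶠ[atBot] fun t => ∫ s in (0 : ℝ)..t, gth hf Th T s x := by
      filter_upwards [eventually_le_atBot (0 : ℝ)] with t ht
      have e1 : ∫ s in (0 : ℝ)..t, gth hf Th T s x = ∫ s in (0 : ℝ)..t, hf := by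
        apply intervalIntegral.integral_congr
        intro s hs
        rw [Set.uIcc_of_ge ht] at hs
        exact gluC_neg h x s hs.2
      rw [e1, intervalIntegral.integral_const]
      simp
    exact (tendsto_id.atBot_mul_const hhf).congr' e

theorem gluC_plat {H0 hf : ℝ} {T cc : ℕ → ℝ} {Z : ℕ → ℝ → X → X} {Th : ℕ → ℝ → X → ℝ} (hhf : 0 < hf)
    (h : ∀ j, Slab H0 hf (T j) (cc j) (Z j) (Th j)) (j : ℕ) (t1 t2 : ℝ) (h1 : 0 ≤ t1) (h12 : t1 ≤ t2)
    (h2 : t2 ≤ T j + 1) :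
    ∫ s in (Sg T j + t1)..(Sg T j + t2), gth hf Th T s 0 = ∫ s in t1..t2, Th j s 0 := by
  exact gluC_shift h j 0 t1 t2 h1 h12 h2

end Pool.Agent.H31.QH
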