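import Pool.Agent.H31.QH.StB
import Pool.Agent.H31.QH.Fla
import Pool.Agent.H31.QH.GluC

/-!
Row FinG (MP_b924dd_QH): existence of the glued configuration.  Uses the statements of StB, Fla, Glu, GluB, GluC.

For `j : ℕ` let `Htop = H0 + 16 j`, `R j = exp Htop ≥ 1`, `Λ j = R j (R j - 1) ≥ 0`.  stB (with `ρ = j`, `Λ = Λ j`) and fla give `T j, cc j, Z j, Th j, t1 j` with
`Slab H0 hf (T j) (cc j) (Z j) (Th j)`, `hf = exp (-(H0-4))`, `0 ≤ t1 j`, `t1 j + Λ j ≤ T j`, and `∫_{t1 j}^{t1 j + Λ j} Th j s 0 ≤ Λ j exp(-Htop) + 1/8 = R j - 1 + 1/8`.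
(`choose`.)  `z = gz Z T`, `th = gth hf Th T`: fields from gluB_cont, gluB_pt, gluB_homeo, gluC_slope, gluC_top.  plateau: for `R0` choose `j` with `R j ≥ R0`
(`R j ≥ 1 + Htop ≥ j`), `t1 := Sg T j + t1 j`, and gluC_plat (`t2 = t1 j + Λ j`).
-/

namespace Pool.Agent.H31.QH

open Filter Topology MeasureTheory

theorem finG (H0 : ℝ) (hH0 : 5 ≤ H0) (hpar : ∀ r : ℕ, 1 ≤ r → ParOK H0 r)
    (E : Type*) [NormedAddCommGroup E] [InnerProductSpace ℝ E] [CompleteSpace E]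
    (hE : ¬ FiniteDimensional ℝ E) :
    ∃ (z : ℝ → XX E → XX E) (th : ℝ → XX E → ℝ), Glob H0 z th := by
  have key : ∀ j : ℕ, ∃ (T cc t1 : ℝ) (Z : ℝ → XX E → XX E) (Th : ℝ → XX E → ℝ),
      Slab H0 (Real.exp (-(H0 - 4))) T cc Z Th ∧ 0 ≤ t1 ∧
      t1 + Real.exp (H0 + 16 * j) * (Real.exp (H0 + 16 * j) - 1) ≤ T ∧
      ∫ s in t1..(t1 + Real.exp (H0 + 16 * j) * (Real.exp (H0 + 16 * j) - 1)), Th s 0
        ≤ Real.exp (H0 + 16 * j) - 1 / 2 := by
    intro j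
    set R : ℝ := Real.exp (H0 + 16 * j) with hR
    have hj : (0 : ℝ) ≤ j := Nat.cast_nonneg j
    have hR1 : 1 ≤ R := by
      rw [hR]
      exact Real.one_le_exp (by linarith)
    have hΛ : 0 ≤ R * (R - 1) := mul_nonneg (by linarith) (by linarith)
    obtain ⟨T, tp, c, t1, hT, htp, htpM, ht1, ht2, ht3, hg⟩ := stB H0 hH0 hpar E hE j (R * (R - 1)) hΛ
    obtain ⟨T', cc, Z, Th, hS, h1, h2⟩ := fla H0 (H0 + 16 * j) T t1 (R * (R - 1)) tp c hH0 hT htp ht1 hΛ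
      ht2 ht3 hg
    refine ⟨T', cc, t1, Z, Th, hS, ht1, h1, h2.trans ?_⟩
    have e : R * (R - 1) * Real.exp (-(H0 + 16 * j)) = R - 1 := by
      rw [Real.exp_neg, ← hR]
      field_simp
    rw [e]
    linarith
  choose T cc t1 Z Th hS ht1 hT1 hint using key
  have hhf : 0 < Real.exp (-(H0 - 4)) := Real.exp_pos _
  refine ⟨gz Z T, gth (Real.exp (-(H0 - 4))) Th T, ?_⟩
  refine
    { cont := gluB_cont hS
      pos := fun t x => (gluB_pt hS t x).1
      homeo := gluB_homeo hS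
      disp := fun t x => (gluB_pt hS t x).2.1
      near := fun t x => (gluB_pt hS t x).2.2
      slope := fun t x y => gluC_slope hhf hS t x y
      top := fun x => (gluC_top hhf hS x).1
      bot := fun x => (gluC_top hhf hS x).2
      plateau := ?_ }
  intro R0
  obtain ⟨j, hj⟩ := exists_nat_ge R0
  have hj0 : (0 : ℝ) ≤ j := Nat.cast_nonneg j
  have hR : R0 ≤ Real.exp (H0 + 16 * j) := by
    have := Real.add_one_le_exp (H0 + 16 * (j : ℝ))
    linarith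
  have hR1 : 1 ≤ Real.exp (H0 + 16 * (j : ℝ)) := Real.one_le_exp (by linarith)
  have hΛ : 0 ≤ Real.exp (H0 + 16 * (j : ℝ)) * (Real.exp (H0 + 16 * (j : ℝ)) - 1) :=
    mul_nonneg (by linarith) (by linarith)
  refine ⟨Real.exp (H0 + 16 * j), Sg T j + t1 j, hR, ?_⟩
  have h := gluC_plat hhf hS j (t1 j)
    (t1 j + Real.exp (H0 + 16 * (j : ℝ)) * (Real.exp (H0 + 16 * (j : ℝ)) - 1)) (ht1 j)
    (by linarith) (by linarith [hT1 j])
  rw [add_assoc, h]
  exact hint j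

end Pool.Agent.H31.QH
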