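import Pool.Agent.H31.QH.HilB

/-!
Row HilA (MP_b924dd_QH): `ℝ ⊕ l2(PI;E)` is isometric to `E` for every infinite-dimensional Hilbert space `E`.
Uses only the statement of HilB.

PROOF.  Let `b : HilbertBasis w ℝ E` (`exists_hilbertBasis`; `w : Set E`), `w` infinite (if `w` were finite then `E` would be
finite-dimensional, e.g. by `b.toOrthonormalBasis` with `Fintype w`).  Let `b' : HilbertBasis (PI × w) ℝ (XX E)` (hilB).
The family `Option (PI × w) → WithLp 2 (ℝ × XX E)`, `none ↦ toLp (1,0)`, `some k ↦ toLp (0, b' k)` is orthonormal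
(`WithLp.prod_inner_apply`), and a vector `(s,x)` orthogonal to it has `s = 0` and `x = 0`: a Hilbert basis
(`HilbertBasis.mkOfOrthogonalEqBot`).  Cardinals: `Option (PI × w) ≃ w` because `w` is infinite and `PI` countable
(`Cardinal.mk_option`, `Cardinal.mk_prod`, `Cardinal.mul_eq_right`, `Cardinal.add_eq_left`, `Cardinal.eq`; universes: `w : Set E` lives in
the universe of `E`, `PI : Type`, use `Cardinal.lift` lemmas or `ULift`).
Reindexing: with `e : Option (PI × w) ≃ w`, the family `b ∘ e` is again orthonormal with dense span (same range), so it is a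
Hilbert basis of `E` indexed by `Option (PI × w)`.  Compose `repr` of the first with `repr.symm` of the second.
-/

namespace Pool.Agent.H31.QH

open Filter Topology

universe u

theorem hilA_inf {E : Type*} [NormedAddCommGroup E] [InnerProductSpace ℝ E] [CompleteSpace E]
    (hE : ¬ FiniteDimensional ℝ E) {w : Type*} (b : HilbertBasis w ℝ E) : Infinite w := by
  by_contra h
  rw [not_infinite_iff_finite] at h
  have := Fintype.ofFinite w
  exact hE (Module.Finite.of_basis b.toOrthonormalBasis.toBasis)

theorem hilA_card {w : Type u} [Infinite w] : Nonempty (Option (PI × w) ≃ w) := by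
  rw [← Cardinal.eq, Cardinal.mk_option, Cardinal.mk_prod]
  have h1 : Cardinal.lift.{u} (Cardinal.mk PI) ≤ Cardinal.aleph0 := by simp
  have h1' : Cardinal.lift.{u} (Cardinal.mk PI) ≠ 0 := by
    rw [Ne, Cardinal.lift_eq_zero]
    exact Cardinal.mk_ne_zero PI
  have h2 : Cardinal.aleph0 ≤ Cardinal.mk w := Cardinal.aleph0_le_mk w
  have h3 : Cardinal.lift.{0} (Cardinal.mk w) = Cardinal.mk w := Cardinal.lift_uzero _
  rw [h3, Cardinal.mul_eq_right h2 (h1.trans h2) h1']
  exact Cardinal.add_one_eq h2

/-- the family in the product -/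
noncomputable def hilA_v {E : Type*} [NormedAddCommGroup E] [InnerProductSpace ℝ E] [CompleteSpace E]
    {w : Type*} (b' : HilbertBasis (PI × w) ℝ (XX E)) : Option (PI × w) → WithLp 2 (ℝ × XX E)
  | none => WithLp.toLp 2 (1, 0)
  | some k => WithLp.toLp 2 (0, b' k)

theorem hilA_ortho {E : Type*} [NormedAddCommGroup E] [InnerProductSpace ℝ E] [CompleteSpace E]
    {w : Type*} (b' : HilbertBasis (PI × w) ℝ (XX E)) : Orthonormal ℝ (hilA_v b') := by
  classical
  rw [orthonormal_iff_ite]
  have hb := orthonormal_iff_ite.mp b'.orthonormal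
  intro i j
  cases i with
  | none =>
    cases j with
    | none => simp [hilA_v]
    | some k => simp [hilA_v, WithLp.prod_inner_apply]
  | some i =>
    cases j with
    | none => simp [hilA_v, WithLp.prod_inner_apply]
    | some k =>
      have := hb i k
      simp [hilA_v, WithLp.prod_inner_apply, this]

theorem hilA_orth {E : Type*} [NormedAddCommGroup E] [InnerProductSpace ℝ E] [CompleteSpace E]
    {w : Type*} (b' : HilbertBasis (PI × w) ℝ (XX E)) :
    (Submodule.span ℝ (Set.range (hilA_v b')))ᗮ = ⊥ := by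
  rw [Submodule.eq_bot_iff]
  intro x hx
  rw [Submodule.mem_orthogonal] at hx
  have h0 := hx _ (Submodule.subset_span ⟨none, rfl⟩)
  have h1 : ∀ k, inner ℝ (b' k) x.snd = 0 := by
    intro k
    have := hx _ (Submodule.subset_span ⟨some k, rfl⟩)
    simpa [hilA_v, WithLp.prod_inner_apply] using this
  have h2 : x.fst = 0 := by
    simpa [hilA_v, WithLp.prod_inner_apply] using h0
  have h3 : x.snd = 0 := by
    apply b'.repr.injective
    rw [map_zero]
    apply lp.ext
    funext k
    rw [b'.repr_apply_apply, h1 k]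
    rfl
  apply (WithLp.equiv 2 (ℝ × XX E)).injective
  exact Prod.ext h2 h3

theorem hilA (E : Type*) [NormedAddCommGroup E] [InnerProductSpace ℝ E] [CompleteSpace E]
    (hE : ¬ FiniteDimensional ℝ E) : Nonempty (WithLp 2 (ℝ × XX E) ≃ₗᵢ[ℝ] E) := by
  obtain ⟨w, b, hb⟩ := exists_hilbertBasis ℝ E
  have := hilA_inf hE b
  obtain ⟨b'⟩ := hilB b
  obtain ⟨e⟩ := hilA_card (w := w)
  let B1 : HilbertBasis (Option (PI × w)) ℝ (WithLp 2 (ℝ × XX E)) :=
    HilbertBasis.mkOfOrthogonalEqBot (hilA_ortho b') (hilA_orth b')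
  have ho : Orthonormal ℝ (b ∘ e) := b.orthonormal.comp e e.injective
  have hr : Set.range (b ∘ e) = Set.range b := e.surjective.range_comp b
  let B2 : HilbertBasis (Option (PI × w)) ℝ E := HilbertBasis.mk ho (by
    rw [hr]
    exact b.dense_span.ge)
  exact ⟨B1.repr.trans B2.repr.symm⟩

end Pool.Agent.H31.QH
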