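import Pool.Agent.H31.QH.FinC
import Pool.Agent.H31.QH.FinD
import Pool.Agent.H31.QH.FinE
import Pool.Agent.H31.QH.FinG
import Pool.Agent.H31.QH.HilA

/-!
Row FinF (MP_b924dd_QH): the theorem, transported to an arbitrary infinite-dimensional Hilbert space.
Uses the statements of Par, FinG, FinC, FinD, FinE, HilA.

`H0` from `par`, `K = 48 e^{H0}`.  For `H` infinite-dimensional: `finG` gives `Glob H0 z th` on `X = XX H`; `X` is nontrivial (contains `lp.single 2 p e`, `e ≠ 0`,
or `mem2`); finC gives `f`; `u : WithLp 2 (ℝ × X) ≃ₗᵢ[ℝ] H` from hilA.  `F = u ∘ f ∘ u⁻¹` (homeomorphism: `u.toHomeomorph`).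
 LocBi transfers because `u` is isometric (`‖u a - u b‖ = ‖a - b‖`) and continuous.  finE_qc, finE_symm give quasiconformality of `F`, `F.symm`.
 BallsToQuasiballs F implies BallsToQuasiballs f: `f '' ball x r = u⁻¹ (F '' ball (u x) r)`, `u (ball x r) = ball (u x) r` (`LinearIsometryEquiv.image_ball`);
 take `u⁻¹ y`, the same `s`, `C`.  So finD gives `¬ BallsToQuasiballs F`, and finE_qs gives that `F` is not quasisymmetric.
-/

namespace Pool.Agent.H31.QH

open Filter Topology
open scoped ENNReal NNReal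

universe u

theorem locBi_transfer {Y H : Type*} [NormedAddCommGroup Y] [InnerProductSpace ℝ Y] [NormedAddCommGroup H]
    [InnerProductSpace ℝ H] (w : Y ≃ₗᵢ[ℝ] H) (K : ℝ) (f : Y ≃ₜ Y) (h : ∀ p, LocBi K f p) (p : H) :
    LocBi K ((w.toHomeomorph.symm.trans f).trans w.toHomeomorph) p := by
  obtain ⟨m, hm, hev⟩ := h (w.symm p)
  refine ⟨m, hm, ?_⟩
  have ht : Tendsto (fun q => w.symm q) (𝓝 p) (𝓝 (w.symm p)) := w.symm.continuous.tendsto p
  filter_upwards [ht.eventually hev] with q hq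
  have e1 : ‖w.symm q - w.symm p‖ = ‖q - p‖ := by
    rw [← map_sub, LinearIsometryEquiv.norm_map]
  have e2 : ‖((w.toHomeomorph.symm.trans f).trans w.toHomeomorph) q -
      ((w.toHomeomorph.symm.trans f).trans w.toHomeomorph) p‖ = ‖f (w.symm q) - f (w.symm p)‖ := by
    have : ((w.toHomeomorph.symm.trans f).trans w.toHomeomorph) q -
      ((w.toHomeomorph.symm.trans f).trans w.toHomeomorph) p = w (f (w.symm q) - f (w.symm p)) := by
      rw [map_sub]
      rfl
    rw [this, LinearIsometryEquiv.norm_map]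
  rw [e2, ← e1]
  exact hq

theorem balls_transfer {Y H : Type*} [NormedAddCommGroup Y] [InnerProductSpace ℝ Y] [NormedAddCommGroup H]
    [InnerProductSpace ℝ H] (w : Y ≃ₗᵢ[ℝ] H) (f : Y ≃ₜ Y)
    (h : MapsBallsToQuasiballs (((w.toHomeomorph.symm.trans f).trans w.toHomeomorph : H ≃ₜ H) : H → H)) :
    MapsBallsToQuasiballs (f : Y → Y) := by
  obtain ⟨C, hC⟩ := h
  refine ⟨C, fun x r hr => ?_⟩
  obtain ⟨y, s, hs, h1, h2⟩ := hC (w x) r hr
  have hd : ∀ a b : Y, dist (w a) (w b) = dist a b := fun a b => w.dist_map a b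
  refine ⟨w.symm y, s, hs, ?_, ?_⟩
  · intro a ha
    have ha' : w a ∈ Metric.ball y s := by
      rw [Metric.mem_ball] at ha ⊢
      have := hd a (w.symm y)
      rw [LinearIsometryEquiv.apply_symm_apply] at this
      rw [this]
      exact ha
    obtain ⟨b, hb, hba⟩ := h1 ha'
    refine ⟨w.symm b, ?_, ?_⟩
    · rw [Metric.mem_ball] at hb ⊢
      have := hd (w.symm b) x
      rw [LinearIsometryEquiv.apply_symm_apply] at this
      rw [← this]
      exact hb
    · have : w (f (w.symm b)) = w a := hba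
      exact w.injective this
  · rintro _ ⟨b, hb, rfl⟩
    have hb' : w b ∈ Metric.ball (w x) r := by
      rw [Metric.mem_ball] at hb ⊢
      rw [hd]
      exact hb
    have h3 := h2 ⟨w b, hb', rfl⟩
    have e : ((w.toHomeomorph.symm.trans f).trans w.toHomeomorph : H ≃ₜ H) (w b) = w (f b) := by
      show w (f (w.symm (w b))) = w (f b)
      rw [LinearIsometryEquiv.symm_apply_apply]
    rw [e, Metric.mem_ball] at h3
    rw [Metric.mem_ball]
    have := hd (f b) (w.symm y)
    rw [LinearIsometryEquiv.apply_symm_apply] at this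
    rw [← this]
    exact h3

theorem finF : ∃ K : ℝ, ∀ (H : Type u) [NormedAddCommGroup H] [InnerProductSpace ℝ H] [CompleteSpace H],
    ¬ FiniteDimensional ℝ H →
    ∃ F : H ≃ₜ H, IsQC K (F : H → H) ∧ IsQC K (F.symm : H → H) ∧ ¬ MapsBallsToQuasiballs (F : H → H) ∧
      ∀ η : ℝ≥0 → ℝ≥0, ¬ IsQS η (F : H → H) := by
  obtain ⟨H0, hH0, hpar⟩ := par
  refine ⟨48 * Real.exp H0, fun H _ _ _ hH => ?_⟩
  have hnt : Nontrivial H := by
    by_contra hn
    rw [not_nontrivial_iff_subsingleton] at hn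
    exact hH inferInstance
  obtain ⟨z, th, hglob⟩ := finG H0 hH0 hpar H hH
  have hX : Nontrivial (XX H) := by
    classical
    obtain ⟨e, he⟩ := exists_ne (0 : H)
    refine ⟨⟨lp.single 2 (((0, 0), 0) : PI) e, 0, fun h0 => he ?_⟩⟩
    have := congrArg (fun v : XX H => v (((0, 0), 0) : PI)) h0
    simpa using this
  obtain ⟨f, hf1, hf2⟩ := finC hglob
  obtain ⟨w⟩ := hilA H hH
  have hK : 0 < 48 * Real.exp H0 := by positivity
  have hloc := locBi_transfer w (48 * Real.exp H0) f hf1
  have hballs : ¬ MapsBallsToQuasiballs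
      (((w.toHomeomorph.symm.trans f).trans w.toHomeomorph : H ≃ₜ H) : H → H) := fun h =>
    finD hglob f hf2 (balls_transfer w f h)
  refine ⟨(w.toHomeomorph.symm.trans f).trans w.toHomeomorph, finE_qc _ hK.le _ hloc,
    finE_qc _ hK.le _ (finE_symm _ hK _ hloc), hballs, fun η hη => hballs (finE_qs η _ hη)⟩

end Pool.Agent.H31.QH
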