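import Pool.Agent.H31.QH.SlbD

/-!
File Glu (MP_b924dd_QH): gluing countably many slabs.  Definitions and the row GluA.

`Sg T j`: start of slab `j`; `Sg T 0 = 0`, `Sg T (j+1) = Sg T j + T j + 1`.
`gz Z T t x = x + Σ'_j (Z j (t - Sg T j) x - x)`, `gth hf Th T t x = hf + Σ'_j (Th j (t - Sg T j) x - hf)`.

ROW GluA.  (a) `Sg` is increasing with `Sg T j + T j + 1 ≤ Sg T (j')` for `j < j'` (induction; `T i ≥ 0`), `Sg T j ≥ j`.
(b) `glu_loc`: for every `t0` there is `j` such that for all `i ≠ j` and `t ∈ Ioo (t0-1/2) (t0+1/2)`: `t - Sg T i ∉ Icc 0 (T i)`.  If no interval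
 `[Sg i, Sg i + T i]` meets the open interval, any `j` works; otherwise choose one that meets it, at `s`; if another one `i ≠ j` meets it at `s'`,
 then `|s - s'| ≥ 1` by (a), but both lie in an open interval of length 1.
(c) `glu_eq`: if `t - Sg T i ∉ Icc 0 (T i)` for all `i ≠ j`, the series has only the term `j` (`supp`), so `gz Z T t x = Z j (t - Sg T j) x`,
 `gth hf Th T t x = Th j (t - Sg T j) x` (`tsum_eq_single`).
(d) `glu_on`: for `t ∈ Ico (Sg T j) (Sg T (j+1))` the hypothesis of (c) holds; for `t < 0` it holds for every `j` (with `Th j (t - Sg T j) x = hf`).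
-/

namespace Pool.Agent.H31.QH

open Filter Topology MeasureTheory

noncomputable def Sg (T : ℕ → ℝ) : ℕ → ℝ
  | 0 => 0
  | (j + 1) => Sg T j + T j + 1

variable {X : Type*} [NormedAddCommGroup X] [InnerProductSpace ℝ X]

noncomputable def gz (Z : ℕ → ℝ → X → X) (T : ℕ → ℝ) (t : ℝ) (x : X) : X :=
  x + ∑' j, (Z j (t - Sg T j) x - x)

noncomputable def gth (hf : ℝ) (Th : ℕ → ℝ → X → ℝ) (T : ℕ → ℝ) (t : ℝ) (x : X) : ℝ :=
  hf + ∑' j, (Th j (t - Sg T j) x - hf)

/-- all the other slabs are inactive at time `t` -/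
def Only (T : ℕ → ℝ) (j : ℕ) (t : ℝ) : Prop := ∀ i, i ≠ j → t - Sg T i ∉ Set.Icc 0 (T i)

theorem glu_sep (T : ℕ → ℝ) (hT : ∀ j, 0 ≤ T j) {i j : ℕ} (h : i < j) : Sg T i + T i + 1 ≤ Sg T j := by
  induction j with
  | zero => exact absurd h (Nat.not_lt_zero i)
  | succ j ih =>
    have e : Sg T (j + 1) = Sg T j + T j + 1 := rfl
    rcases Nat.lt_succ_iff_lt_or_eq.mp h with h1 | h1
    · have := ih h1
      have := hT j
      rw [e]; linarith
    · subst h1
      exact le_of_eq e.symm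

theorem glu_ge (T : ℕ → ℝ) (hT : ∀ j, 0 ≤ T j) (j : ℕ) : (j : ℝ) ≤ Sg T j := by
  induction j with
  | zero => simp [Sg]
  | succ j ih =>
    have e : Sg T (j + 1) = Sg T j + T j + 1 := rfl
    have := hT j
    rw [e]; push_cast; linarith

theorem glu_loc (T : ℕ → ℝ) (hT : ∀ j, 0 ≤ T j) (t0 : ℝ) :
    ∃ j, ∀ t ∈ Set.Ioo (t0 - 1 / 2) (t0 + 1 / 2), Only T j t := by
  by_cases hm : ∃ j, ∃ s ∈ Set.Ioo (t0 - 1 / 2) (t0 + 1 / 2), s - Sg T j ∈ Set.Icc 0 (T j)
  · obtain ⟨j, s, hs, hsj⟩ := hm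
    refine ⟨j, ?_⟩
    intro t ht i hij hti
    obtain ⟨hs1, hs2⟩ := hs
    obtain ⟨hj1, hj2⟩ := hsj
    obtain ⟨ht1, ht2⟩ := ht
    obtain ⟨hi1, hi2⟩ := hti
    rcases lt_or_gt_of_ne hij with h | h
    · have := glu_sep T hT h
      linarith
    · have := glu_sep T hT h
      linarith
  · refine ⟨0, ?_⟩
    intro t ht i _ hti
    exact hm ⟨i, t, ht, hti⟩

theorem glu_on (T : ℕ → ℝ) (hT : ∀ j, 0 ≤ T j) (j : ℕ) (t : ℝ) (h : Sg T j ≤ t) (h' : t < Sg T (j + 1)) :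
    Only T j t := by
  intro i hij hti
  obtain ⟨hi1, hi2⟩ := hti
  rcases lt_or_gt_of_ne hij with h1 | h1
  · have := glu_sep T hT h1
    linarith
  · rcases Nat.lt_or_ge (j + 1) i with h2 | h2
    · have := glu_sep T hT h2
      have := hT (j + 1)
      linarith
    · have e : i = j + 1 := le_antisymm h2 h1
      subst e
      linarith

theorem glu_neg (T : ℕ → ℝ) (hT : ∀ j, 0 ≤ T j) (j : ℕ) (t : ℝ) (h : t < 0) :
    Only T j t ∧ t - Sg T j ∉ Set.Icc 0 (T j) := by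
  have key : ∀ i, t - Sg T i ∉ Set.Icc 0 (T i) := by
    intro i hti
    obtain ⟨hi1, _⟩ := hti
    have h1 := glu_ge T hT i
    have h2 : (0 : ℝ) ≤ i := Nat.cast_nonneg i
    linarith
  exact ⟨fun i _ => key i, key j⟩

theorem glu_eq {H0 hf : ℝ} {T cc : ℕ → ℝ} {Z : ℕ → ℝ → X → X} {Th : ℕ → ℝ → X → ℝ}
    (h : ∀ j, Slab H0 hf (T j) (cc j) (Z j) (Th j)) (j : ℕ) (t : ℝ) (x : X) (ho : Only T j t) :
    gz Z T t x = Z j (t - Sg T j) x ∧ gth hf Th T t x = Th j (t - Sg T j) x := by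
  constructor
  · have e : ∑' i, (Z i (t - Sg T i) x - x) = Z j (t - Sg T j) x - x := by
      apply tsum_eq_single j
      intro i hij
      rw [((h i).supp _ (ho i hij) x).1, sub_self]
    unfold gz
    rw [e]; abel
  · have e : ∑' i, (Th i (t - Sg T i) x - hf) = Th j (t - Sg T j) x - hf := by
      apply tsum_eq_single j
      intro i hij
      rw [((h i).supp _ (ho i hij) x).2, sub_self]
    unfold gth
    rw [e]; ring

end Pool.Agent.H31.QH
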