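import Pool.Agent.H31.QH.Glu

/-!
Row GluB (MP_b924dd_QH): local properties of the glued configuration.  Uses the statements of Glu.

Every `t0` has a neighbourhood `(t0-1/2, t0+1/2)` on which, with the same `j`, `gz Z T t x = Z j (t - Sg T j) x` and
`gth hf Th T t x = Th j (t - Sg T j) x` for all `x` (glu_loc, glu_eq).
 cont: `continuous_iff_continuousAt`, congruence with the continuous map `p ↦ Th j (p.1 - Sg T j) p.2` near the point.
 pos, disp, near (the inequalities): immediate with `t = t0`; NearLin of `gz Z T` at `(t0,x)` from NearLin of `Z j` at `(t0 - Sg T j, x)`: pull back the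
   eventual inequality by the continuous map `p ↦ (p.1 - Sg T j, p.2)` and use the local equality.
 homeo: `Ψ p = (p.1, gz Z T p.1 p.2)`.  Bijective: for each `t`, `x ↦ gz Z T t x = Z j (t - Sg T j) x` is bijective (from `(h j).homeo.bijective`).
   Continuous: as for cont.  Open: `isOpenMap_iff_nhds_le`: near `p`, `Ψ` equals `Ψ_j' = σ⁻¹ ∘ Ψ_j ∘ σ`, `σ(t,x) = (t - Sg T j, x)`, a
   homeomorphism, so `map Ψ (𝓝 p) = map Ψ_j' (𝓝 p) = 𝓝 (Ψ p)` (`Filter.map_congr`, `IsHomeomorph` → `Homeomorph.map_nhds_eq`).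
-/

namespace Pool.Agent.H31.QH

open Filter Topology MeasureTheory

variable {X : Type*} [NormedAddCommGroup X] [InnerProductSpace ℝ X]

omit [InnerProductSpace ℝ X] in
theorem gluB_ev (T : ℕ → ℝ) (j : ℕ) (t0 : ℝ) (x0 : X)
    (hj : ∀ t ∈ Set.Ioo (t0 - 1 / 2) (t0 + 1 / 2), Only T j t) :
    ∀ᶠ p : ℝ × X in 𝓝 (t0, x0), Only T j p.1 := by
  have h1 : ∀ᶠ t : ℝ in 𝓝 t0, t ∈ Set.Ioo (t0 - 1 / 2) (t0 + 1 / 2) :=
    Ioo_mem_nhds (by linarith) (by linarith)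
  have h2 : Tendsto (fun p : ℝ × X => p.1) (𝓝 (t0, x0)) (𝓝 t0) := continuous_fst.tendsto _
  filter_upwards [h2.eventually h1] with p hp
  exact hj _ hp

theorem gluB_cont {H0 hf : ℝ} {T cc : ℕ → ℝ} {Z : ℕ → ℝ → X → X} {Th : ℕ → ℝ → X → ℝ}
    (h : ∀ j, Slab H0 hf (T j) (cc j) (Z j) (Th j)) :
    Continuous (fun p : ℝ × X => gth hf Th T p.1 p.2) := by
  rw [continuous_iff_continuousAt]
  rintro ⟨t0, x0⟩
  obtain ⟨j, hj⟩ := glu_loc T (fun i => (h i).T_nonneg) t0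
  have hc : Continuous (fun p : ℝ × X => Th j (p.1 - Sg T j) p.2) :=
    (h j).cont.comp ((continuous_fst.sub continuous_const).prodMk continuous_snd)
  refine hc.continuousAt.congr ?_
  filter_upwards [gluB_ev T j t0 x0 hj] with p hp
  exact (glu_eq h j p.1 p.2 hp).2.symm

theorem gluB_pt {H0 hf : ℝ} {T cc : ℕ → ℝ} {Z : ℕ → ℝ → X → X} {Th : ℕ → ℝ → X → ℝ}
    (h : ∀ j, Slab H0 hf (T j) (cc j) (Z j) (Th j)) (t : ℝ) (x : X) :
    0 < gth hf Th T t x ∧ ‖gz Z T t x - x‖ ≤ 1 / 8 ∧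
    ∃ lam : ℝ, 0 < lam ∧ NearLin (gz Z T) t x lam (1 / 8) (1 / 8) ∧ lam * gth hf Th T t x ≤ 1 ∧
      Real.exp (-H0) ≤ lam * gth hf Th T t x := by
  obtain ⟨j, hj⟩ := glu_loc T (fun i => (h i).T_nonneg) t
  have hev := gluB_ev T j t x hj
  have h0 : Only T j t := hj t ⟨by linarith, by linarith⟩
  obtain ⟨e1, e2⟩ := glu_eq h j t x h0
  rw [e1, e2]
  refine ⟨(h j).pos _ _, (h j).disp _ _, ?_⟩
  obtain ⟨lam, hl, ⟨T', hT', hT2⟩, h3, h4⟩ := (h j).near (t - Sg T j) x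
  refine ⟨lam, hl, ⟨T', hT', ?_⟩, h3, h4⟩
  have hφ : Tendsto (fun p : ℝ × X => (p.1 - Sg T j, p.2)) (𝓝 (t, x)) (𝓝 (t - Sg T j, x)) :=
    ((continuous_fst.sub continuous_const).prodMk continuous_snd).tendsto' _ _ rfl
  filter_upwards [hev, hφ.eventually hT2] with p hp hp2
  rw [(glu_eq h j p.1 p.2 hp).1, e1]
  have e3 : p.1 - Sg T j - (t - Sg T j) = p.1 - t := by ring
  simp only [e3] at hp2
  exact hp2

theorem gluB_homeo {H0 hf : ℝ} {T cc : ℕ → ℝ} {Z : ℕ → ℝ → X → X} {Th : ℕ → ℝ → X → ℝ}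
    (h : ∀ j, Slab H0 hf (T j) (cc j) (Z j) (Th j)) :
    IsHomeomorph (fun p : ℝ × X => (p.1, gz Z T p.1 p.2)) := by
  have key : ∀ p0 : ℝ × X, ∃ Ψ : ℝ × X → ℝ × X, IsHomeomorph Ψ ∧
      (fun p : ℝ × X => (p.1, gz Z T p.1 p.2)) =ᶠ[𝓝 p0] Ψ := by
    rintro ⟨t0, x0⟩
    obtain ⟨j, hj⟩ := glu_loc T (fun i => (h i).T_nonneg) t0
    let s1 : ℝ × X ≃ₜ ℝ × X := (Homeomorph.addRight (Sg T j)).prodCongr (Homeomorph.refl X)
    let s2 : ℝ × X ≃ₜ ℝ × X := (Homeomorph.addRight (-Sg T j)).prodCongr (Homeomorph.refl X)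
    refine ⟨s1 ∘ ((fun p : ℝ × X => (p.1, Z j p.1 p.2)) ∘ s2),
      s1.isHomeomorph.comp ((h j).homeo.comp s2.isHomeomorph), ?_⟩
    filter_upwards [gluB_ev T j t0 x0 hj] with p hp
    have e := (glu_eq h j p.1 p.2 hp).1
    show (p.1, gz Z T p.1 p.2) = (p.1 + -Sg T j + Sg T j, Z j (p.1 + -Sg T j) p.2)
    rw [e, neg_add_cancel_right, ← sub_eq_add_neg]
  refine ⟨?_, ?_, ?_, ?_⟩
  · rw [continuous_iff_continuousAt]
    intro p0
    obtain ⟨Ψ, hΨ, he⟩ := key p0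
    exact hΨ.continuous.continuousAt.congr he.symm
  · rw [isOpenMap_iff_nhds_le]
    intro p0
    obtain ⟨Ψ, hΨ, he⟩ := key p0
    have e := he.eq_of_nhds
    rw [Filter.map_congr he, e]
    exact hΨ.isOpenMap.nhds_le p0
  · rintro ⟨t, x⟩ ⟨t', x'⟩ hh
    have h1 : t = t' := congrArg Prod.fst hh
    subst h1
    have h2 : gz Z T t x = gz Z T t x' := congrArg Prod.snd hh
    obtain ⟨j, hj⟩ := glu_loc T (fun i => (h i).T_nonneg) t
    have h0 : Only T j t := hj t ⟨by linarith, by linarith⟩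
    rw [(glu_eq h j t x h0).1, (glu_eq h j t x' h0).1] at h2
    have h3 : (t - Sg T j, x) = (t - Sg T j, x') := (h j).homeo.injective (by
      show (t - Sg T j, Z j (t - Sg T j) x) = (t - Sg T j, Z j (t - Sg T j) x')
      rw [h2])
    have h4 : x = x' := congrArg Prod.snd h3
    rw [h4]
  · rintro ⟨t, y⟩
    obtain ⟨j, hj⟩ := glu_loc T (fun i => (h i).T_nonneg) t
    have h0 : Only T j t := hj t ⟨by linarith, by linarith⟩
    obtain ⟨⟨s, x⟩, hs⟩ := (h j).homeo.surjective (t - Sg T j, y)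
    have h1 : s = t - Sg T j := congrArg Prod.fst hs
    have h2 : Z j s x = y := congrArg Prod.snd hs
    refine ⟨(t, x), ?_⟩
    show (t, gz Z T t x) = (t, y)
    rw [(glu_eq h j t x h0).1, ← h1, h2]

end Pool.Agent.H31.QH
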