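import Pool.Agent.H31.QH.Dfs

/-!
Row HilB (MP_b924dd_QH): a Hilbert basis of `l2(PI;E)`.

PROOF.  The family `(p,i) ↦ lp.single 2 p (b i)`, `(p,i) : PI × w`, is orthonormal (`lp.inner_single_left`, `lp.single_apply`,
`b.orthonormal`), and if `z : XX E` is orthogonal to all of them then `⟪b i, z p⟫ = 0` for all `i`, so `z p = 0` for all `p`
(`b.repr` injective / `b.dense_span` / `HilbertBasis.hasSum_repr`), i.e. `z = 0`: `HilbertBasis.mkOfOrthogonalEqBot`
(membership in the orthogonal complement of the span: `Submodule.mem_orthogonal`, test with the generators).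
-/

namespace Pool.Agent.H31.QH

open Filter Topology

theorem hilB {E : Type*} [NormedAddCommGroup E] [InnerProductSpace ℝ E] [CompleteSpace E] {w : Type*}
    (b : HilbertBasis w ℝ E) : Nonempty (HilbertBasis (PI × w) ℝ (XX E)) := by
  classical
  have hin : ∀ (q : PI × w) (z : XX E),
      inner ℝ (lp.single (E := fun _ : PI => E) 2 q.1 (b q.2)) z = inner ℝ (b q.2) (z q.1) :=
    fun q z => lp.inner_single_left (𝕜 := ℝ) q.1 (b q.2) z
  have hv : Orthonormal ℝ (fun q : PI × w => (lp.single (E := fun _ : PI => E) 2 q.1 (b q.2) : XX E)) := by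
    rw [orthonormal_iff_ite]
    rintro ⟨p, i⟩ ⟨q, j⟩
    have h1 := hin (p, i) (lp.single (E := fun _ : PI => E) 2 q (b j))
    refine h1.trans ?_
    have h2 : (lp.single (E := fun _ : PI => E) 2 q (b j) : XX E) p =
        (Pi.single q (b j) : PI → E) p := by
      rw [lp.coeFn_single]
    rw [h2]
    have h3 := orthonormal_iff_ite.1 b.orthonormal i j
    by_cases hpq : p = q
    · subst hpq
      rw [Pi.single_eq_same, h3]
      by_cases hij : i = j
      · subst hij
        rw [if_pos rfl, if_pos rfl]
      · rw [if_neg hij, if_neg]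
        intro h
        exact hij (Prod.ext_iff.1 h).2
    · rw [Pi.single_eq_of_ne hpq, inner_zero_right, if_neg]
      intro h
      exact hpq (Prod.ext_iff.1 h).1
  refine ⟨HilbertBasis.mkOfOrthogonalEqBot hv ?_⟩
  rw [Submodule.eq_bot_iff]
  intro z hz
  rw [Submodule.mem_orthogonal] at hz
  have h1 : ∀ (p : PI) (i : w), inner ℝ (b i) (z p) = 0 := by
    intro p i
    rw [← hin (p, i) z]
    exact hz _ (Submodule.subset_span ⟨(p, i), rfl⟩)
  apply lp.ext
  funext p
  show z p = 0
  have h2 : b.repr (z p) = 0 := by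
    apply lp.ext
    funext i
    rw [HilbertBasis.repr_apply_apply, h1]
    rfl
  exact (map_eq_zero_iff b.repr b.repr.injective).1 h2

end Pool.Agent.H31.QH
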