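import Pool.Agent.H31.QH.Dfs

/-!
Row NeaA (MP_b924dd_QH): generic facts on `NearLin` and on families of maps.

(1) `nea_cont`: from the estimate, `‖ζ p.1 p.2 - ζ t x‖ ≤ (e+1) lam ‖p.2 - x‖ + q|p.1 - t|` near `(t,x)`, so it tends to 0.
(2) `nea_mono`: clear (`lam ≥ 0`).
(3) `nea_scale`: take `T' = (lam'/lam) • T`; `‖T' h‖ = lam'‖h‖`, `‖(T - T') h‖ = |lam - lam'| ‖h‖ ≤ κ lam' ‖h‖`, `lam ≤ (1+κ) lam'`.
(4) `nea_comp`: `T = T_ζ ∘ T_g`, `‖T h‖ = lam s ‖h‖`.  By (1) for `g`, `(p.1, g p.1 p.2) → (t, g t x)` so the estimate of `ζ` holds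
    at `(p.1, g p.1 p.2)` eventually.  With `Δ = g p.1 p.2 - g t x`, `‖Δ‖ ≤ (1+eg) s ‖Δx‖ + qg|Δt|`:
    `‖ζ(p.1, g p.1 p.2) - ζ(t, g t x) - T_ζ Δ‖ ≤ e lam ‖Δ‖ + q|Δt|`, `‖T_ζ (Δ - T_g Δx)‖ ≤ lam (eg s ‖Δx‖ + qg |Δt|)`.
    Sum: `(e + eg + e eg) lam s ‖Δx‖ + (q + (1+e) lam qg)|Δt|`.
(5) `hom_of_contr`: `G(t,x) = (t, g t x)` continuous.  For each `t`, `x ↦ g t x` is bijective: injective since
    `‖x'-x‖ ≤ ‖g t x' - g t x‖ + ½‖x'-x‖`; surjective: for `w`, the map `x ↦ x - (g t x - w)` is a contraction (constant ½) of a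
    complete space (`ContractingWith.exists_fixedPoint`/`efixedPoint`), its fixed point solves `g t x = w`.  Inverse continuous at
    `(t0,w0)`, `w0 = g t0 x0`: for `(t,w)`, `g t x = w`: `‖x - x0‖ ≤ 2‖g t x - g t x0‖ ≤ 2(‖w - w0‖ + ‖g t0 x0 - g t x0‖) → 0`.
    `IsHomeomorph` from a continuous bijection with continuous inverse (`isHomeomorph_iff_exists_inverse` or
    `Homeomorph.isHomeomorph`).
-/

namespace Pool.Agent.H31.QH

open Filter Topology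

variable {X : Type*} [NormedAddCommGroup X] [InnerProductSpace ℝ X]


theorem nea_cont {ζ : ℝ → X → X} {t : ℝ} {x : X} {lam e q : ℝ} (h : NearLin ζ t x lam e q)
    (hl : 0 ≤ lam) (he : 0 ≤ e) (hq : 0 ≤ q) : ContinuousAt (fun p : ℝ × X => ζ p.1 p.2) (t, x) := by
  obtain ⟨T, hT, hE⟩ := h
  show Tendsto (fun p : ℝ × X => ζ p.1 p.2) (𝓝 (t, x)) (𝓝 (ζ t x))
  rw [← tendsto_sub_nhds_zero_iff]
  refine squeeze_zero_norm' (a := fun p : ℝ × X => (e + 1) * lam * ‖p.2 - x‖ + q * |p.1 - t|) ?_ ?_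
  · filter_upwards [hE] with p hp
    have h1 : ‖T (p.2 - x)‖ = lam * ‖p.2 - x‖ := hT _
    have h2 : ‖ζ p.1 p.2 - ζ t x‖ ≤ ‖ζ p.1 p.2 - ζ t x - T (p.2 - x)‖ + ‖T (p.2 - x)‖ := by
      have := norm_add_le (ζ p.1 p.2 - ζ t x - T (p.2 - x)) (T (p.2 - x))
      rw [sub_add_cancel] at this
      exact this
    have e1 : (e + 1) * lam * ‖p.2 - x‖ = e * lam * ‖p.2 - x‖ + lam * ‖p.2 - x‖ := by ring
    rw [e1]
    linarith
  · have hc : Continuous (fun p : ℝ × X => (e + 1) * lam * ‖p.2 - x‖ + q * |p.1 - t|) := by fun_prop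
    have h1 := hc.tendsto (t, x)
    have h2 : (e + 1) * lam * ‖(t, x).2 - x‖ + q * |(t, x).1 - t| = 0 := by simp
    rw [h2] at h1
    exact h1

theorem nea_mono {ζ : ℝ → X → X} {t : ℝ} {x : X} {lam e q e' q' : ℝ} (h : NearLin ζ t x lam e q)
    (hl : 0 ≤ lam) (he : e ≤ e') (hq : q ≤ q') : NearLin ζ t x lam e' q' := by
  obtain ⟨T, hT, hE⟩ := h
  refine ⟨T, hT, ?_⟩
  filter_upwards [hE] with p hp
  have h1 : e * lam * ‖p.2 - x‖ ≤ e' * lam * ‖p.2 - x‖ :=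
    mul_le_mul_of_nonneg_right (mul_le_mul_of_nonneg_right he hl) (norm_nonneg _)
  have h2 : q * |p.1 - t| ≤ q' * |p.1 - t| := mul_le_mul_of_nonneg_right hq (abs_nonneg _)
  linarith

theorem nea_scale {ζ : ℝ → X → X} {t : ℝ} {x : X} {lam lam' e q κ : ℝ} (h : NearLin ζ t x lam e q)
    (hl : 0 < lam) (hl' : 0 < lam') (he : 0 ≤ e) (hκ : |lam' - lam| ≤ κ * lam') :
    NearLin ζ t x lam' (e * (1 + κ) + κ) q := by
  obtain ⟨T, hT, hE⟩ := h
  refine ⟨(lam' / lam) • T, fun h => ?_, ?_⟩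
  · show ‖(lam' / lam) • T h‖ = _
    rw [norm_smul, hT, Real.norm_eq_abs, abs_of_pos (div_pos hl' hl)]
    field_simp
  · filter_upwards [hE] with p hp
    obtain ⟨D, hD⟩ : ∃ D, D = p.2 - x := ⟨_, rfl⟩
    rw [← hD] at hp ⊢
    have h1 : ‖T D - (lam' / lam) • T D‖ ≤ κ * lam' * ‖D‖ := by
      have e1 : T D - (lam' / lam) • T D = (1 - lam' / lam) • T D := by
        rw [sub_smul, one_smul]
      rw [e1, norm_smul, hT, Real.norm_eq_abs]
      have e2 : |1 - lam' / lam| * (lam * ‖D‖) = |lam' - lam| * ‖D‖ := by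
        have e3 : |1 - lam' / lam| * lam = |lam' - lam| := by
          rw [← abs_of_pos hl, ← abs_mul, abs_of_pos hl, abs_sub_comm lam' lam]
          congr 1
          field_simp
        rw [← mul_assoc, e3]
      rw [e2]
      exact mul_le_mul_of_nonneg_right hκ (norm_nonneg _)
    have h2 : lam ≤ (1 + κ) * lam' := by
      have := neg_le_of_abs_le hκ
      linarith
    have h3 : e * lam * ‖D‖ ≤ e * ((1 + κ) * lam') * ‖D‖ :=
      mul_le_mul_of_nonneg_right (mul_le_mul_of_nonneg_left h2 he) (norm_nonneg _)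
    have h4 : ‖ζ p.1 p.2 - ζ t x - ((lam' / lam) • T) D‖ ≤
        ‖ζ p.1 p.2 - ζ t x - T D‖ + ‖T D - (lam' / lam) • T D‖ := by
      have e1 : ζ p.1 p.2 - ζ t x - ((lam' / lam) • T) D =
          (ζ p.1 p.2 - ζ t x - T D) + (T D - (lam' / lam) • T D) := by
        show ζ p.1 p.2 - ζ t x - (lam' / lam) • T D = _
        abel
      rw [e1]
      exact norm_add_le _ _
    have e5 : (e * (1 + κ) + κ) * lam' * ‖D‖ = e * ((1 + κ) * lam') * ‖D‖ + κ * lam' * ‖D‖ := by ring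
    rw [e5]
    linarith

theorem nea_comp {ζ g : ℝ → X → X} {t : ℝ} {x : X} {lam s e eg q qg : ℝ}
    (h : NearLin ζ t (g t x) lam e q) (hg : NearLin g t x s eg qg)
    (hl : 0 ≤ lam) (hs : 0 ≤ s) (he : 0 ≤ e) (heg : 0 ≤ eg) (hq : 0 ≤ q) (hqg : 0 ≤ qg) :
    NearLin (fun t x => ζ t (g t x)) t x (lam * s) (e + eg + e * eg) (q + (1 + e) * lam * qg) := by
  have hc := nea_cont hg hs heg hqg
  obtain ⟨T, hT, hE⟩ := h
  obtain ⟨S, hS, hEg⟩ := hg
  have hmap : Tendsto (fun p : ℝ × X => (p.1, g p.1 p.2)) (𝓝 (t, x)) (𝓝 (t, g t x)) :=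
    ContinuousAt.prodMk continuousAt_fst hc
  refine ⟨T ∘L S, fun h => ?_, ?_⟩
  · show ‖T (S h)‖ = _
    rw [hT, hS]
    ring
  · filter_upwards [hmap.eventually hE, hEg] with p hp hpg
    have hp' : ‖ζ p.1 (g p.1 p.2) - ζ t (g t x) - T (g p.1 p.2 - g t x)‖ ≤
        e * lam * ‖g p.1 p.2 - g t x‖ + q * |p.1 - t| := hp
    obtain ⟨D, hD⟩ : ∃ D, D = g p.1 p.2 - g t x := ⟨_, rfl⟩
    obtain ⟨d, hd⟩ : ∃ d, d = p.2 - x := ⟨_, rfl⟩
    obtain ⟨τ, hτ⟩ : ∃ τ, τ = |p.1 - t| := ⟨_, rfl⟩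
    show ‖ζ p.1 (g p.1 p.2) - ζ t (g t x) - T (S (p.2 - x))‖ ≤ _
    rw [← hD, ← hτ] at hp'
    rw [← hD, ← hd, ← hτ] at hpg
    rw [← hd, ← hτ]
    have h1 : ‖D‖ ≤ eg * s * ‖d‖ + qg * τ + s * ‖d‖ := by
      have h2 := norm_add_le (D - S d) (S d)
      rw [sub_add_cancel, hS] at h2
      linarith
    have h3 : ‖T (D - S d)‖ ≤ lam * (eg * s * ‖d‖ + qg * τ) := by
      rw [hT]
      exact mul_le_mul_of_nonneg_left hpg hl
    have h4 : ‖ζ p.1 (g p.1 p.2) - ζ t (g t x) - T (S d)‖ ≤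
        ‖ζ p.1 (g p.1 p.2) - ζ t (g t x) - T D‖ + ‖T (D - S d)‖ := by
      have e1 : ζ p.1 (g p.1 p.2) - ζ t (g t x) - T (S d) =
          (ζ p.1 (g p.1 p.2) - ζ t (g t x) - T D) + T (D - S d) := by
        rw [map_sub]
        abel
      rw [e1]
      exact norm_add_le _ _
    have h5 : e * lam * ‖D‖ ≤ e * lam * (eg * s * ‖d‖ + qg * τ + s * ‖d‖) :=
      mul_le_mul_of_nonneg_left h1 (mul_nonneg he hl)
    have e6 : (e + eg + e * eg) * (lam * s) * ‖d‖ + (q + (1 + e) * lam * qg) * τ =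
        e * lam * (eg * s * ‖d‖ + qg * τ + s * ‖d‖) + q * τ + lam * (eg * s * ‖d‖ + qg * τ) := by ring
    rw [e6]
    linarith

theorem NeaA_exp {g : ℝ → X → X}
    (h : ∀ t x x', ‖(g t x' - x') - (g t x - x)‖ ≤ 1 / 2 * ‖x' - x‖) (t : ℝ) (x x' : X) :
    ‖x' - x‖ ≤ 2 * ‖g t x' - g t x‖ := by
  have e1 : x' - x = (g t x' - g t x) - ((g t x' - x') - (g t x - x)) := by abel
  have h1 : ‖x' - x‖ ≤ ‖g t x' - g t x‖ + ‖(g t x' - x') - (g t x - x)‖ := by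
    conv_lhs => rw [e1]
    exact norm_sub_le _ _
  have h2 := h t x x'
  linarith

theorem NeaA_surj [CompleteSpace X] {g : ℝ → X → X}
    (h : ∀ t x x', ‖(g t x' - x') - (g t x - x)‖ ≤ 1 / 2 * ‖x' - x‖) (t : ℝ) (w : X) :
    ∃ x, g t x = w := by
  obtain ⟨Φ, hΦ⟩ : ∃ Φ : X → X, Φ = fun x => x - (g t x - w) := ⟨_, rfl⟩
  have hc : ContractingWith (1 / 2) Φ := by
    refine ⟨?_, LipschitzWith.of_dist_le_mul fun x y => ?_⟩
    · rw [← NNReal.coe_lt_coe]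
      norm_num
    · rw [dist_eq_norm, dist_eq_norm, hΦ]
      have e1 : (x - (g t x - w)) - (y - (g t y - w)) = -((g t x - x) - (g t y - y)) := by abel
      show ‖(x - (g t x - w)) - (y - (g t y - w))‖ ≤ _
      rw [e1, norm_neg]
      have h2 := h t y x
      have e2 : ((1 / 2 : NNReal) : ℝ) = 1 / 2 := by norm_num
      rw [e2]
      exact h2
  have hfix := hc.fixedPoint_isFixedPt
  refine ⟨ContractingWith.fixedPoint Φ hc, ?_⟩
  obtain ⟨x, hx⟩ : ∃ x, x = ContractingWith.fixedPoint Φ hc := ⟨_, rfl⟩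
  rw [← hx] at hfix ⊢
  have h3 : Φ x = x := hfix
  rw [hΦ] at h3
  have h4 : x - (g t x - w) = x := h3
  have h5 : g t x - w = 0 := by
    have := sub_eq_self.1 h4
    exact this
  exact sub_eq_zero.1 h5

theorem hom_of_contr [CompleteSpace X] (g : ℝ → X → X) (hc : Continuous (fun p : ℝ × X => g p.1 p.2))
    (h : ∀ t x x', ‖(g t x' - x') - (g t x - x)‖ ≤ 1 / 2 * ‖x' - x‖) :
    IsHomeomorph (fun p : ℝ × X => (p.1, g p.1 p.2)) := by
  choose k hk using NeaA_surj h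
  rw [isHomeomorph_iff_exists_inverse]
  refine ⟨continuous_fst.prodMk hc, fun p => (p.1, k p.1 p.2), ?_, ?_, ?_⟩
  · rintro ⟨t, x⟩
    show (t, k t (g t x)) = (t, x)
    have h1 := NeaA_exp h t x (k t (g t x))
    rw [hk, sub_self, norm_zero, mul_zero] at h1
    have h2 : k t (g t x) - x = 0 := norm_le_zero_iff.1 h1
    rw [sub_eq_zero.1 h2]
  · rintro ⟨t, w⟩
    show (t, g t (k t w)) = (t, w)
    rw [hk]
  · refine continuous_fst.prodMk ?_
    rw [continuous_iff_continuousAt]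
    rintro ⟨t0, w0⟩
    show Tendsto (fun p : ℝ × X => k p.1 p.2) (𝓝 (t0, w0)) (𝓝 (k t0 w0))
    rw [← tendsto_sub_nhds_zero_iff]
    refine squeeze_zero_norm (a := fun p : ℝ × X => 2 * ‖p.2 - g p.1 (k t0 w0)‖) ?_ ?_
    · intro p
      have h1 := NeaA_exp h p.1 (k t0 w0) (k p.1 p.2)
      rw [hk] at h1
      exact h1
    · have hcg : Continuous (fun p : ℝ × X => g p.1 (k t0 w0)) :=
        hc.comp (continuous_fst.prodMk continuous_const)
      have hc2 : Continuous (fun p : ℝ × X => 2 * ‖p.2 - g p.1 (k t0 w0)‖) :=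
        continuous_const.mul (continuous_snd.sub hcg).norm
      have h1 := hc2.tendsto (t0, w0)
      have h2 : 2 * ‖(t0, w0).2 - g (t0, w0).1 (k t0 w0)‖ = 0 := by
        show 2 * ‖w0 - g t0 (k t0 w0)‖ = 0
        rw [hk, sub_self, norm_zero, mul_zero]
      rw [h2] at h1
      exact h1

end Pool.Agent.H31.QH
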