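import Pool.Agent.H31.QH.CorC
import Pool.Agent.H31.QH.NeaA

/-!
File InA (MP_b924dd_QH): first facts on the data of an insertion step (proved here), and the hypotheses `Hyp`.
-/

namespace Pool.Agent.H31.QH

open Filter Topology

variable {E : Type*} [NormedAddCommGroup E] [InnerProductSpace ℝ E] [CompleteSpace E]

/-- the constant in front of all small terms -/
noncomputable def Dat.kap (F : Dat E) (B : ℝ) : ℝ := B / F.P.G + B * F.P.L

/-- hypotheses of an insertion step -/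
structure Hyp (F : Dat E) (B : ℝ) : Prop where
  hA : 0 < F.P.A
  hA' : F.P.A ≤ 1 / 2000
  hL : 100 ≤ F.P.L
  hTp : 1 ≤ F.P.Tp
  hε : 0 < F.P.ε
  hε' : F.P.ε ≤ 1
  ha : 1 ≤ F.P.a
  hB : 1 ≤ B
  lipl : ∀ t t' x x', |F.c.l t' x' - F.c.l t x| ≤ B * (|t' - t| + ‖x' - x‖)
  lipg : ∀ t t' x x', |F.c.g t' x' - F.c.g t x| ≤ B * (|t' - t| + ‖x' - x‖)
  lnn : ∀ t x, 0 ≤ F.c.l t x
  small : F.kap B * F.P.ε ≤ 1

theorem c01_nonneg (r : ℝ) : 0 ≤ c01 r := le_max_left _ _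

theorem c01_le_one (r : ℝ) : c01 r ≤ 1 := max_le (by norm_num) (min_le_right _ _)

theorem c01_lip (r s : ℝ) : |c01 r - c01 s| ≤ |r - s| := by
  unfold c01
  have h1 : |max 0 (min r 1) - max 0 (min s 1)| ≤ |min r 1 - min s 1| := by
    have := abs_max_sub_max_le_max (0 : ℝ) (min r 1) 0 (min s 1)
    simpa using this
  have h2 : |min r 1 - min s 1| ≤ |r - s| := by
    have := abs_min_sub_min_le_max r 1 s 1
    simpa using this
  exact h1.trans h2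

theorem c01_mono {r s : ℝ} (h : r ≤ s) : c01 r ≤ c01 s := by
  unfold c01
  exact max_le_max le_rfl (min_le_min h le_rfl)

theorem c01_of_le_zero {r : ℝ} (h : r ≤ 0) : c01 r = 0 := by
  unfold c01
  rw [min_eq_left (h.trans zero_le_one), max_eq_left h]

theorem c01_of_one_le {r : ℝ} (h : 1 ≤ r) : c01 r = 1 := by
  unfold c01
  rw [min_eq_right h, max_eq_right zero_le_one]

theorem c01_pos_iff {r : ℝ} : c01 r ≠ 0 ↔ 0 < r := by
  constructor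
  · intro h
    by_contra h'
    exact h (c01_of_le_zero (not_lt.mp h'))
  · intro h
    unfold c01
    have : 0 < min r 1 := lt_min h zero_lt_one
    exact (lt_of_lt_of_le this (le_max_right _ _)).ne'

namespace Dat

variable (F : Dat E)

theorem phi_nonneg (t : ℝ) (x : XX E) : 0 ≤ F.phi t x := norm_nonneg _

theorem smul_diff (hε : 0 < F.P.ε) (x x' : XX E) :
    ‖F.P.ε⁻¹ • x' - F.P.ε⁻¹ • x‖ = F.P.ε⁻¹ * ‖x' - x‖ := by
  rw [← smul_sub, norm_smul, Real.norm_of_nonneg (inv_nonneg.mpr hε.le)]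

theorem phi_lip (t t' : ℝ) (x x' : XX E) (hε : 0 < F.P.ε) :
    |F.phi t' x' - F.phi t x| ≤ 5 * (F.P.ε⁻¹ * ‖x' - x‖) +
      3 * F.P.L * (2 * |F.c.l t' x' - F.c.l t x| + 15 * Real.exp (-(F.c.l t x)) * |F.tau t' - F.tau t|) := by
  set z := F.P.ε⁻¹ • x with hz
  set z' := F.P.ε⁻¹ • x' with hz'
  set d : PI → ℝ := fun p => F.C.d (F.c.l t x) (F.tau t) p.1 with hd
  set d' : PI → ℝ := fun p => F.C.d (F.c.l t' x') (F.tau t') p.1 with hd'
  set κ : ℝ := 2 * |F.c.l t' x' - F.c.l t x| + 15 * Real.exp (-(F.c.l t x)) * |F.tau t' - F.tau t| with hκ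
  have hκ0 : 0 ≤ κ := by positivity
  have h1 : |F.phi t' x' - F.phi t x| ≤ ‖mul d' (F.S.hat z') - mul d (F.S.hat z)‖ :=
    abs_norm_sub_norm_le _ _
  have e : mul d' (F.S.hat z') - mul d (F.S.hat z) =
      (mul d' (F.S.hat z') - mul d (F.S.hat z')) + mul d (F.S.hat z' - F.S.hat z) := by
    rw [mul_sub]
    abel
  have h2 : ‖mul d' (F.S.hat z') - mul d (F.S.hat z')‖ ≤ κ * ‖F.S.hat z'‖ :=
    norm_mul_sub_mul_le d' d _ hκ0 (fun p => F.C.d_lip _ _ _ _ _)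
  have h3 : ‖F.S.hat z'‖ ≤ 3 * F.P.L := F.S.hat_norm z'
  have h4 : ‖mul d (F.S.hat z' - F.S.hat z)‖ ≤ 5 * (F.P.ε⁻¹ * ‖x' - x‖) := by
    refine (norm_mul_le _ _).trans ((F.S.hat_lip z z').trans (le_of_eq ?_))
    rw [hz, hz', F.smul_diff hε]
  calc |F.phi t' x' - F.phi t x| ≤ ‖mul d' (F.S.hat z') - mul d (F.S.hat z)‖ := h1
    _ ≤ ‖mul d' (F.S.hat z') - mul d (F.S.hat z')‖ + ‖mul d (F.S.hat z' - F.S.hat z)‖ := by
        rw [e]
        exact norm_add_le _ _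
    _ ≤ κ * ‖F.S.hat z'‖ + 5 * (F.P.ε⁻¹ * ‖x' - x‖) := add_le_add h2 h4
    _ ≤ κ * (3 * F.P.L) + 5 * (F.P.ε⁻¹ * ‖x' - x‖) :=
        add_le_add (mul_le_mul_of_nonneg_left h3 hκ0) le_rfl
    _ = _ := by ring

theorem av_unit (t : ℝ) (x : XX E) : ‖F.av t x‖ = 1 := by
  unfold av
  rw [norm_ten, F.C.unit, F.S.b_unit, one_mul]

theorem av_lip (t t' : ℝ) (x x' : XX E) (hε : 0 < F.P.ε) :
    ‖F.av t' x' - F.av t x‖ ≤ 4 * |F.c.l t' x' - F.c.l t x| +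
      11 * Real.exp (-(F.c.l t x)) * |F.tau t' - F.tau t| + 28 / F.P.L * (F.P.ε⁻¹ * ‖x' - x‖) := by
  unfold av
  refine (norm_ten_sub_le _ _ _ _).trans ?_
  rw [F.S.b_unit, F.C.unit, mul_one, one_mul]
  refine add_le_add (F.C.lip _ _ _ _) ((F.S.b_lip _ _).trans (le_of_eq ?_))
  rw [F.smul_diff hε]

theorem Q_iso (t : ℝ) (x : XX E) (e : E) : ‖(Qa (F.av t x) : E →L[ℝ] XX E) e‖ = ‖e‖ := by
  rw [norm_Qa_apply, av_unit, one_mul]

/-- the weights behind `phi` -/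
theorem phi_eq (t : ℝ) (x : XX E) : F.phi t x =
    ‖mul (fun p : PI => F.C.d (F.c.l t x) (F.tau t) p.1 * F.S.k (F.P.ε⁻¹ • x) p.2) (F.P.ε⁻¹ • x)‖ := by
  unfold phi Sel.hat
  rw [mul_mul']
  · intro p
    rw [abs_of_nonneg (F.C.d_nonneg _ _ _)]
    exact F.C.d_le _ _ _
  · intro p
    rw [abs_of_nonneg (F.S.k_nonneg _ _)]
    exact F.S.k_le _ _

theorem av_ne (t t' : ℝ) (x x' : XX E) (hε : 0 < F.P.ε)
    (h1 : |F.c.l t' x' - F.c.l t x| ≤ 1 / 2)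
    (h2 : Real.exp (1 - F.c.l t x) * |F.tau t' - F.tau t| ≤ 1 / 2)
    (h3 : F.P.ε⁻¹ * ‖x' - x‖ ≤ F.P.L / 2) (p : PI) (hp : F.av t x p ≠ 0) :
    F.C.d (F.c.l t' x') (F.tau t') p.1 * F.S.k (F.P.ε⁻¹ • x') p.2 = 1 := by
  unfold av at hp
  rw [ten_apply] at hp
  have hp1 := left_ne_zero_of_mul hp
  have hp2 := right_ne_zero_of_mul hp
  rw [F.C.marg _ _ _ _ _ hp1 h1 h2, F.S.marg (F.P.ε⁻¹ • x) (F.P.ε⁻¹ • x') p.2 hp2, mul_one]
  rw [F.smul_diff hε]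
  exact h3

theorem y_le (hL : 0 ≤ F.P.L) (hε : 0 < F.P.ε) (t : ℝ) (x : XX E) :
    ‖adj (Qa (F.av t x)) (F.P.ε⁻¹ • x)‖ ≤ F.phi t x := by
  rw [phi_eq]
  have h := norm_adj_Qa_le_mul (F.av t x)
    (fun p : PI => F.C.d (F.c.l t x) (F.tau t) p.1 * F.S.k (F.P.ε⁻¹ • x) p.2) (F.P.ε⁻¹ • x)
    (fun p hp => F.av_ne t t x x hε (by simp) (by simp) (by simpa using by positivity) p hp)
  rw [av_unit, one_mul] at h
  exact h

theorem del_le (hL : 0 ≤ F.P.L) (t t' : ℝ) (x x' : XX E) (hε : 0 < F.P.ε)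
    (h1 : |F.c.l t' x' - F.c.l t x| ≤ 1 / 2)
    (h2 : Real.exp (1 - F.c.l t x) * |F.tau t' - F.tau t| ≤ 1 / 2)
    (h3 : F.P.ε⁻¹ * ‖x' - x‖ ≤ F.P.L / 2) :
    ‖adj (Qa (F.av t' x')) (F.P.ε⁻¹ • x') - adj (Qa (F.av t x)) (F.P.ε⁻¹ • x')‖
      ≤ ‖F.av t' x' - F.av t x‖ * F.phi t' x' := by
  rw [phi_eq]
  have e : adj (Qa (F.av t' x')) (F.P.ε⁻¹ • x') - adj (Qa (F.av t x)) (F.P.ε⁻¹ • x') =
      adj (Qa (F.av t' x' - F.av t x) : E →L[ℝ] XX E) (F.P.ε⁻¹ • x') := by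
    rw [Qa_sub, adj, adj, adj, map_sub]
    rfl
  rw [e]
  refine norm_adj_Qa_le_mul (F.av t' x' - F.av t x)
    (fun p : PI => F.C.d (F.c.l t' x') (F.tau t') p.1 * F.S.k (F.P.ε⁻¹ • x') p.2) (F.P.ε⁻¹ • x')
    (fun p hp => ?_)
  by_cases h : F.av t x p = 0
  · have h' : F.av t' x' p ≠ 0 := by
      intro h'
      apply hp
      rw [lp.coeFn_sub, Pi.sub_apply, h, h', sub_zero]
    exact F.av_ne t' t' x' x' hε (by simp) (by simp) (by simpa using by positivity) p h'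
  · exact F.av_ne t t' x x' hε h1 h2 h3 p h

theorem sig_nonneg (t : ℝ) (x : XX E) : 0 ≤ F.sig t x := c01_nonneg _

theorem sig_le (t : ℝ) (x : XX E) : F.sig t x ≤ 1 := c01_le_one _

theorem chi_nonneg (r : ℝ) : 0 ≤ chi r := c01_nonneg _

theorem chi_le (r : ℝ) : chi r ≤ 1 := c01_le_one _

theorem chi_lip (r s : ℝ) : |chi r - chi s| ≤ 2 * |r - s| := by
  unfold chi
  refine (c01_lip _ _).trans (le_of_eq ?_)
  have : (2 - 2 * r) - (2 - 2 * s) = 2 * (s - r) := by ring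
  rw [this, abs_mul, abs_sub_comm s r]
  norm_num

theorem alp_nonneg (hA : 0 ≤ F.P.A) (t : ℝ) (x : XX E) : 0 ≤ F.alp t x :=
  mul_nonneg (mul_nonneg hA (F.sig_nonneg t x)) (chi_nonneg _)

theorem alp_le (hA : 0 ≤ F.P.A) (t : ℝ) (x : XX E) : F.alp t x ≤ F.P.A * F.sig t x := by
  unfold alp
  exact mul_le_of_le_one_right (mul_nonneg hA (F.sig_nonneg t x)) (chi_le _)

theorem alp_le' (hA : 0 ≤ F.P.A) (t : ℝ) (x : XX E) : F.alp t x ≤ F.P.A :=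
  (F.alp_le hA t x).trans (mul_le_of_le_one_right hA (F.sig_le t x))

theorem phi_lt_of_alp (t : ℝ) (x : XX E) (h : F.alp t x ≠ 0) : F.phi t x < 1 := by
  by_contra h'
  apply h
  unfold alp chi
  rw [c01_of_le_zero (by linarith [not_lt.mp h']), mul_zero]

/-- Lipschitz estimate of `alp` through `sig` and `phi` -/
theorem alp_lip (hA : 0 ≤ F.P.A) (t t' : ℝ) (x x' : XX E) :
    |F.alp t' x' - F.alp t x| ≤ F.P.A * |F.sig t' x' - F.sig t x| +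
      2 * F.P.A * F.sig t x * |F.phi t' x' - F.phi t x| := by
  have e : F.alp t' x' - F.alp t x = F.P.A * (F.sig t' x' - F.sig t x) * chi (F.phi t' x') +
      F.P.A * F.sig t x * (chi (F.phi t' x') - chi (F.phi t x)) := by
    unfold alp
    ring
  rw [e]
  refine (abs_add_le _ _).trans (add_le_add ?_ ?_)
  · rw [abs_mul, abs_mul, abs_of_nonneg hA, abs_of_nonneg (chi_nonneg _)]
    exact mul_le_of_le_one_right (mul_nonneg hA (abs_nonneg _)) (chi_le _)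
  · rw [abs_mul, abs_mul, abs_of_nonneg hA, abs_of_nonneg (F.sig_nonneg t x)]
    have h1 := chi_lip (F.phi t' x') (F.phi t x)
    have h2 : 0 ≤ F.P.A * F.sig t x := mul_nonneg hA (F.sig_nonneg t x)
    calc F.P.A * F.sig t x * |chi (F.phi t' x') - chi (F.phi t x)|
        ≤ F.P.A * F.sig t x * (2 * |F.phi t' x' - F.phi t x|) := mul_le_mul_of_nonneg_left h1 h2
      _ = 2 * F.P.A * F.sig t x * |F.phi t' x' - F.phi t x| := by ring

/-- the same where `chi` is constant -/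
theorem alp_lip' (hA : 0 ≤ F.P.A) (t t' : ℝ) (x x' : XX E) (h : F.phi t x ≤ 1 / 2)
    (h' : F.phi t' x' ≤ 1 / 2) :
    |F.alp t' x' - F.alp t x| ≤ F.P.A * |F.sig t' x' - F.sig t x| := by
  have e : F.alp t' x' - F.alp t x = F.P.A * (F.sig t' x' - F.sig t x) := by
    unfold alp chi
    rw [c01_of_one_le (by linarith), c01_of_one_le (by linarith)]
    ring
  rw [e, abs_mul, abs_of_nonneg hA]

end Dat

theorem Hyp.Gpos {F : Dat E} {B : ℝ} (H : Hyp F B) : 0 < F.P.G := by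
  unfold Prm.G
  have : 0 < F.P.A ^ 2 := pow_pos H.hA 2
  have h2 : 0 < Real.log (1 + F.P.A ^ 2) := Real.log_pos (by linarith)
  linarith

theorem Hyp.sig_lip {F : Dat E} {B : ℝ} (H : Hyp F B) (t t' : ℝ) (x x' : XX E) :
    |F.sig t' x' - F.sig t x| ≤ 2 * (B / F.P.G) * (|t' - t| + ‖x' - x‖) := by
  unfold Dat.sig
  refine (c01_lip _ _).trans ?_
  have hG := H.Gpos
  have e : (F.c.mu t' x' - F.P.l0) / F.P.G - (F.c.mu t x - F.P.l0) / F.P.G =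
      (-(F.c.g t' x' - F.c.g t x) - (F.c.l t' x' - F.c.l t x)) / F.P.G := by
    unfold Cfg.mu
    ring
  rw [e, abs_div, abs_of_pos hG, div_le_iff₀ hG]
  have h1 := H.lipl t t' x x'
  have h2 := H.lipg t t' x x'
  have h3 : |-(F.c.g t' x' - F.c.g t x) - (F.c.l t' x' - F.c.l t x)| ≤
      |F.c.g t' x' - F.c.g t x| + |F.c.l t' x' - F.c.l t x| := by
    refine (abs_sub _ _).trans ?_
    rw [abs_neg]
  have e2 : 2 * (B / F.P.G) * (|t' - t| + ‖x' - x‖) * F.P.G = 2 * (B * (|t' - t| + ‖x' - x‖)) := by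
    field_simp
  rw [e2]
  linarith

end Pool.Agent.H31.QH
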