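import Pool.Agent.H31.QH.InA

/-!
Row InB1 (MP_b924dd_QH): the first order estimate of one insertion map, at a point close to `(t,x)`.
Uses CorA-CorC (statements) and InA (proved).

Symbols: `z = ε⁻¹ x`, `z' = ε⁻¹ x'`, `dz = ε⁻¹‖x'-x‖ = ‖z'-z‖` (`F.smul_diff`), `dt = |t'-t|`, `l = F.c.l t x`, `l'`, `φ = F.phi t x`, `φ'`,
`σ = F.sig t x`, `α = F.alp t x`, `α'`, `β = ‖av' - av‖ ≥ ‖Qa av' - Qa av‖` (norm_Qa_sub_le), `κ = F.kap B = B/G + B L`, `e⁻ = exp(-l)`.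

FACTS.  `|l'-l| ≤ B(dt + ε dz)` (`‖x'-x‖ = ε dz`); `|τ'-τ| = dt/(Tp ε)`; `|σ'-σ| ≤ 2(B/G)(dt + ε dz)` (Hyp.sig_lip);
`|φ'-φ| ≤ 5 dz + 3L(2B(dt+ε dz) + 15 e⁻ dt/(Tp ε))`;  `β ≤ 4B(dt+ε dz) + 11 e⁻ dt/(Tp ε) + (28/L) dz`;
`‖y'‖ ≤ φ'` (y_le; `y' = adj (Qa av') z'`), `‖δ‖ ≤ β φ'` (del_le, by N1-N3), `dv ≤ dz + β‖y'‖ + ‖δ‖ ≤ dz + 2βφ'`.
`Gm' - Gm - Tm (x'-x) = ε • (Fm' - Fm - Tm (z'-z))` (linearity of `Tm`, `ε • ε⁻¹ • v = v`), so the norm is `ε Err`, where by corB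
`Err ≤ (1+2φ')|α'-α| + α(β(1+8φ') + 3βφ' + 2 min(dv,dv²) + 6 dv φ')`   [monotone in `‖y'‖ ≤ φ'`].
It suffices: `Err ≤ (1000 A min(σ, 1/L+φ) + κ ε) dz + (500 A L e⁻/(Tp ε) + κ) dt`; then multiply by `ε`.

CASE 1: `φ > 1`.  Then `α = 0` and `φ' ≥ 1` (N6), `α' = 0`: `Err ≤ 0`.
CASE 2: `φ ≤ 1` and (`φ ≥ 1/2` or `σ ≤ 1/L + φ`).  Then `σ ≤ 2 min(σ, 1/L+φ)` (as `σ ≤ 1`), `φ' ≤ 2` (N4, `1/L ≤ 1`).
 `|α'-α| ≤ A|σ'-σ| + 2Aσ|φ'-φ|` (alp_lip), `α ≤ Aσ`, `min ≤ dv`: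
 `Err ≤ 5(A|σ'-σ| + 2Aσ|φ'-φ|) + Aσ(17β + 6β + 14 dv)`, `dv ≤ dz + 4β`: `≤ 5A|σ'-σ| + 10Aσ|φ'-φ| + Aσ(79β + 14dz)`.
 coefficient of `dz`: `Aσ(50 + 79·28/L + 14) + εA(10B/G + 60BLσ + 316Bσ) ≤ 100 Aσ + κε`   [`L ≥ 100`, `A ≤ 1/2000`, `σ ≤ 1`];
 `100Aσ ≤ 200 A min ≤ 1000 A min`.
 coefficient of `dt`: `A(10B/G + 60BL + 316B) + Aσ(450 L + 869) e⁻/(Tp ε) ≤ κ + 460 A L e⁻/(Tp ε)`.
CASE 3: `φ < 1/2` (and `σ > 1/L+φ`, so `min = 1/L + φ`).  `φ' < 1/2` (N7), `|α'-α| ≤ A|σ'-σ|` (alp_lip'), `φ' ≤ φ + 1/L` (N4),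
 `dv ≤ dz + β` and `dv ≤ 1/L` (N5), so `2 min(dv,dv²) ≤ 2dv² ≤ (2/L) dv`.
 `Err ≤ 2A|σ'-σ| + A(5β + 1.5β + (2/L + 6φ')(dz + β)) ≤ 2A|σ'-σ| + A(10β + (6φ + 8/L) dz)`   [`6φ' ≤ 3`, `2/L ≤ 0.02`].
 coefficient of `dz`: `A(288/L + 6φ) + εA(4B/G + 40B) ≤ 1000A(1/L+φ) + κε`;
 coefficient of `dt`: `A(4B/G + 40B) + 110 A e⁻/(Tp ε) ≤ κ + 500 A L e⁻/(Tp ε)`.
(`B ≤ κ/100` since `L ≥ 100`; `B/G ≤ κ`.)
-/

namespace Pool.Agent.H31.QH

open Filter Topology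

variable {E : Type*} [NormedAddCommGroup E] [InnerProductSpace ℝ E] [CompleteSpace E]

private theorem InB1_c2 {A L eps B q dz dt w σ α dα dl dσ dφ β Y δ dv Er : ℝ} (hA : 0 < A)
    (hA' : A ≤ 1 / 2000) (hL : 100 ≤ L) (he : 0 ≤ eps) (hB : 0 ≤ B) (hq : 0 ≤ q)
    (hdz : 0 ≤ dz) (hdt : 0 ≤ dt) (hw : 0 ≤ w) (hσ : 0 ≤ σ) (hσ1 : σ ≤ 1) (hα0 : 0 ≤ α)
    (hα : α ≤ A * σ) (hdl : dl ≤ B * (dt + eps * dz)) (hdσ : dσ ≤ 2 * q * (dt + eps * dz))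
    (hdφ : dφ ≤ 5 * dz + 3 * L * (2 * dl + 15 * w)) (hβ0 : 0 ≤ β)
    (hβ : β ≤ 4 * dl + 11 * w + 28 / L * dz) (hdα0 : 0 ≤ dα)
    (hdα : dα ≤ A * dσ + 2 * A * σ * dφ) (hY0 : 0 ≤ Y) (hY : Y ≤ 2) (hδ : δ ≤ β * 2)
    (hdv0 : 0 ≤ dv) (hdv : dv ≤ dz + β * Y + δ)
    (hEr : Er ≤ (1 + 2 * Y) * dα + α * (β * (1 + 8 * Y) + 3 * δ + 2 * min dv (dv ^ 2) +
      6 * dv * Y)) :
    Er ≤ 100 * A * σ * dz + (q + B * L) * (dt + eps * dz) + 500 * A * L * w := by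
  obtain ⟨X, hX⟩ : ∃ X, X = dt + eps * dz := ⟨_, rfl⟩
  rw [← hX] at hdl hdσ ⊢
  have hX0 : 0 ≤ X := by
    rw [hX]
    have := mul_nonneg he hdz
    linarith
  have hL0 : 0 < L := by linarith
  obtain ⟨s, hs⟩ : ∃ s, s = A * σ := ⟨_, rfl⟩
  have hs0 : 0 ≤ s := by
    rw [hs]
    exact mul_nonneg hA.le hσ
  have hsA : s ≤ A := by
    rw [hs]
    exact mul_le_of_le_one_right hA.le hσ1
  have hsA' : s ≤ 1 / 2000 := hsA.trans hA'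
  rw [← hs] at hα
  have f1 : 28 / L * dz ≤ 28 / 100 * dz := by
    refine mul_le_mul_of_nonneg_right ?_ hdz
    exact div_le_div_of_nonneg_left (by norm_num) (by norm_num) hL
  have f2 : dφ ≤ 5 * dz + 6 * (L * (B * X)) + 45 * (L * w) := by
    have := mul_le_mul_of_nonneg_left hdl hL0.le
    linarith
  have f3 : β ≤ 4 * (B * X) + 11 * w + 28 / 100 * dz := by linarith
  have f4 : A * dσ ≤ 2 * (A * (q * X)) := by
    have := mul_le_mul_of_nonneg_left hdσ hA.le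
    linarith
  have f5 : s * dφ ≤ 5 * (s * dz) + 6 * (s * (L * (B * X))) + 45 * (s * (L * w)) := by
    have := mul_le_mul_of_nonneg_left f2 hs0
    linarith
  have f6 : s * β ≤ 4 * (s * (B * X)) + 11 * (s * w) + 28 / 100 * (s * dz) := by
    have := mul_le_mul_of_nonneg_left f3 hs0
    linarith
  have hBX : 0 ≤ B * X := mul_nonneg hB hX0
  have hLBX : 0 ≤ L * (B * X) := mul_nonneg hL0.le hBX
  have hqX : 0 ≤ q * X := mul_nonneg hq hX0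
  have hLw : 0 ≤ L * w := mul_nonneg hL0.le hw
  have f7 : s * (L * (B * X)) ≤ 1 / 2000 * (L * (B * X)) := mul_le_mul_of_nonneg_right hsA' hLBX
  have f8 : s * (B * X) ≤ 1 / 2000 * (B * X) := mul_le_mul_of_nonneg_right hsA' hBX
  have f9 : 100 * (B * X) ≤ L * (B * X) := mul_le_mul_of_nonneg_right hL hBX
  have f10 : A * (q * X) ≤ 1 / 2000 * (q * X) := mul_le_mul_of_nonneg_right hA' hqX
  have f11 : s * (L * w) ≤ A * (L * w) := mul_le_mul_of_nonneg_right hsA hLw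
  have f12 : s * w ≤ A * w := mul_le_mul_of_nonneg_right hsA hw
  have f13 : 100 * (A * w) ≤ A * (L * w) := by
    have := mul_le_mul_of_nonneg_left (mul_le_mul_of_nonneg_right hL hw) hA.le
    linarith
  have g1 : (1 + 2 * Y) * dα ≤ 5 * dα := mul_le_mul_of_nonneg_right (by linarith) hdα0
  have g2 : β * Y ≤ β * 2 := mul_le_mul_of_nonneg_left hY hβ0
  have g3 : dv * Y ≤ dv * 2 := mul_le_mul_of_nonneg_left hY hdv0
  have g4 : min dv (dv ^ 2) ≤ dv := min_le_left _ _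
  have g5 : β * (1 + 8 * Y) + 3 * δ + 2 * min dv (dv ^ 2) + 6 * dv * Y ≤ 79 * β + 14 * dz := by
    linarith
  have g6 : α * (β * (1 + 8 * Y) + 3 * δ + 2 * min dv (dv ^ 2) + 6 * dv * Y) ≤
      s * (79 * β + 14 * dz) :=
    (mul_le_mul_of_nonneg_left g5 hα0).trans (mul_le_mul_of_nonneg_right hα (by positivity))
  have g7 : dα ≤ A * dσ + 2 * (s * dφ) := by
    rw [hs]
    linarith
  have g8 : 0 ≤ s * dz := mul_nonneg hs0 hdz
  have g9 : 0 ≤ A * (L * w) := mul_nonneg hA.le hLw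
  have g10 : 100 * A * σ * dz = 100 * (s * dz) := by
    rw [hs]
    ring
  rw [g10]
  linarith

private theorem InB1_c3 {A L eps B q dz dt w u φ φ' α dα dl dσ β Y δ dv Er : ℝ} (hA : 0 < A)
    (hA' : A ≤ 1 / 2000) (hL : 100 ≤ L) (hu : u = 1 / L) (he : 0 ≤ eps) (hB : 0 ≤ B) (hq : 0 ≤ q)
    (hdz : 0 ≤ dz) (hdt : 0 ≤ dt) (hw : 0 ≤ w) (hα0 : 0 ≤ α)
    (hα : α ≤ A) (hdl : dl ≤ B * (dt + eps * dz)) (hdσ : dσ ≤ 2 * q * (dt + eps * dz))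
    (hβ0 : 0 ≤ β)
    (hβ : β ≤ 4 * dl + 11 * w + 28 / L * dz) (hdα0 : 0 ≤ dα) (hdα : dα ≤ A * dσ)
    (hφ0 : 0 ≤ φ) (hφ'0 : 0 ≤ φ') (hφ' : φ' ≤ 1 / 2) (hφφ : φ' ≤ φ + u)
    (hY0 : 0 ≤ Y) (hY : Y ≤ φ') (hδ : δ ≤ β * φ')
    (hdv0 : 0 ≤ dv) (hdv : dv ≤ dz + β * Y + δ) (h5 : dz + 4 * β ≤ u)
    (hEr : Er ≤ (1 + 2 * Y) * dα + α * (β * (1 + 8 * Y) + 3 * δ + 2 * min dv (dv ^ 2) +
      6 * dv * Y)) :
    Er ≤ 1000 * A * (u + φ) * dz + (q + B * L) * (dt + eps * dz) + 500 * A * L * w := by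
  obtain ⟨X, hX⟩ : ∃ X, X = dt + eps * dz := ⟨_, rfl⟩
  rw [← hX] at hdl hdσ ⊢
  have hX0 : 0 ≤ X := by
    rw [hX]
    have := mul_nonneg he hdz
    linarith
  have hL0 : 0 < L := by linarith
  have hu0 : 0 ≤ u := by
    rw [hu]
    positivity
  have hu1 : u ≤ 1 / 100 := by
    rw [hu]
    exact div_le_div_of_nonneg_left (by norm_num) (by norm_num) hL
  have f1 : 28 / L * dz = 28 * (u * dz) := by
    rw [hu]
    ring
  rw [f1] at hβ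
  have hBX : 0 ≤ B * X := mul_nonneg hB hX0
  have hLBX : 0 ≤ L * (B * X) := mul_nonneg hL0.le hBX
  have hqX : 0 ≤ q * X := mul_nonneg hq hX0
  have hLw : 0 ≤ L * w := mul_nonneg hL0.le hw
  have hudz : 0 ≤ u * dz := mul_nonneg hu0 hdz
  have hφdz : 0 ≤ φ * dz := mul_nonneg hφ0 hdz
  have f3 : β ≤ 4 * (B * X) + 11 * w + 28 * (u * dz) := by linarith
  have f4 : A * dσ ≤ 2 * (A * (q * X)) := by
    have := mul_le_mul_of_nonneg_left hdσ hA.le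
    linarith
  have f6 : A * β ≤ 4 * (A * (B * X)) + 11 * (A * w) + 28 * (A * (u * dz)) := by
    have := mul_le_mul_of_nonneg_left f3 hA.le
    linarith
  have f8 : A * (B * X) ≤ 1 / 2000 * (B * X) := mul_le_mul_of_nonneg_right hA' hBX
  have f9 : 100 * (B * X) ≤ L * (B * X) := mul_le_mul_of_nonneg_right hL hBX
  have f10 : A * (q * X) ≤ 1 / 2000 * (q * X) := mul_le_mul_of_nonneg_right hA' hqX
  have f13 : 100 * (A * w) ≤ A * (L * w) := by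
    have := mul_le_mul_of_nonneg_left (mul_le_mul_of_nonneg_right hL hw) hA.le
    linarith
  have g1 : (1 + 2 * Y) * dα ≤ 2 * dα := mul_le_mul_of_nonneg_right (by linarith) hdα0
  have g2 : β * Y ≤ β * (1 / 2) := mul_le_mul_of_nonneg_left (by linarith) hβ0
  have g2' : β * φ' ≤ β * (1 / 2) := mul_le_mul_of_nonneg_left hφ' hβ0
  have g3 : dv ≤ dz + β := by linarith
  have g3' : dv ≤ u := by linarith
  have g4 : min dv (dv ^ 2) ≤ u * dv := by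
    refine (min_le_right _ _).trans ?_
    rw [sq]
    exact mul_le_mul_of_nonneg_right g3' hdv0
  have g4a : u * dv ≤ u * dz + 1 / 100 * β := by
    have h1 := mul_le_mul_of_nonneg_left g3 hu0
    have h2 := mul_le_mul_of_nonneg_right hu1 hβ0
    linarith
  have g5 : dv * Y ≤ dv * φ' := mul_le_mul_of_nonneg_left hY hdv0
  have g5a : dv * φ' ≤ (u * dz + φ * dz) + 1 / 2 * β := by
    have h1 := mul_le_mul_of_nonneg_right g3 hφ'0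
    have h2 := mul_le_mul_of_nonneg_left hφφ hdz
    linarith
  have g6 : β * (1 + 8 * Y) + 3 * δ + 2 * min dv (dv ^ 2) + 6 * dv * Y ≤
      10 * β + (8 * (u * dz) + 6 * (φ * dz)) := by
    linarith
  have g7 : α * (β * (1 + 8 * Y) + 3 * δ + 2 * min dv (dv ^ 2) + 6 * dv * Y) ≤
      A * (10 * β + (8 * (u * dz) + 6 * (φ * dz))) :=
    (mul_le_mul_of_nonneg_left g6 hα0).trans (mul_le_mul_of_nonneg_right hα (by positivity))
  have g8 : 0 ≤ A * (L * w) := mul_nonneg hA.le hLw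
  have g9 : 0 ≤ A * (u * dz) := mul_nonneg hA.le hudz
  have g10 : 0 ≤ A * (φ * dz) := mul_nonneg hA.le hφdz
  have g11 : 1000 * A * (u + φ) * dz = 1000 * (A * (u * dz)) + 1000 * (A * (φ * dz)) := by ring
  rw [g11]
  linarith

theorem inB1 (F : Dat E) (B : ℝ) (H : Hyp F B) (t t' : ℝ) (x x' : XX E)
    (N1 : |F.c.l t' x' - F.c.l t x| ≤ 1 / 2)
    (N2 : Real.exp (1 - F.c.l t x) * |F.tau t' - F.tau t| ≤ 1 / 2)
    (N3 : F.P.ε⁻¹ * ‖x' - x‖ ≤ F.P.L / 2)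
    (N4 : |F.phi t' x' - F.phi t x| ≤ 1 / F.P.L)
    (N5 : F.P.ε⁻¹ * ‖x' - x‖ + 4 * ‖F.av t' x' - F.av t x‖ ≤ 1 / F.P.L)
    (N6 : 1 < F.phi t x → 1 ≤ F.phi t' x') (N7 : F.phi t x < 1 / 2 → F.phi t' x' < 1 / 2) :
    ‖F.Gm t' x' - F.Gm t x - Tm F.D (F.alp t x) (Qa (F.av t x)) (F.P.ε⁻¹ • x) (x' - x)‖ ≤
      (1000 * F.P.A * min (F.sig t x) (1 / F.P.L + F.phi t x) + F.kap B * F.P.ε) * ‖x' - x‖ +
      (500 * F.P.A * F.P.L * Real.exp (-(F.c.l t x)) / F.P.Tp + F.kap B * F.P.ε) * |t' - t| := by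
  have hε := H.hε
  have hL : 0 < F.P.L := by linarith [H.hL]
  have hA := H.hA
  have hB : 0 ≤ B := by linarith [H.hB]
  have hq : 0 ≤ B / F.P.G := div_nonneg hB H.Gpos.le
  have hTp : 0 < F.P.Tp := by linarith [H.hTp]
  have hβ : ‖(Qa (F.av t' x') : E →L[ℝ] XX E) - Qa (F.av t x)‖ ≤ ‖F.av t' x' - F.av t x‖ :=
    norm_Qa_sub_le _ _
  have hα0 : 0 ≤ F.alp t x := F.alp_nonneg hA.le t x
  have hα0' : 0 ≤ F.alp t' x' := F.alp_nonneg hA.le t' x'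
  have hαA : F.alp t x ≤ F.P.A := F.alp_le' hA.le t x
  have hα1 : F.alp t x ≤ 1 := by linarith [H.hA']
  obtain ⟨dv, hdv0, hdv1, hErr⟩ := corB F.D (Qa (F.av t x)) (Qa (F.av t' x')) (F.Q_iso t x)
    (F.Q_iso t' x') (F.alp t x) (F.alp t' x') hα0 hα1 hα0' (F.P.ε⁻¹ • x) (F.P.ε⁻¹ • x') _ hβ
  rw [F.smul_diff hε] at hdv1
  obtain ⟨Er, hEr⟩ : ∃ Er, Er = ‖Fm F.D (F.alp t' x') (Qa (F.av t' x')) (F.P.ε⁻¹ • x') -
      Fm F.D (F.alp t x) (Qa (F.av t x)) (F.P.ε⁻¹ • x) -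
      Tm F.D (F.alp t x) (Qa (F.av t x)) (F.P.ε⁻¹ • x) (F.P.ε⁻¹ • x' - F.P.ε⁻¹ • x)‖ := ⟨_, rfl⟩
  rw [← hEr] at hErr
  have hscale : ‖F.Gm t' x' - F.Gm t x -
      Tm F.D (F.alp t x) (Qa (F.av t x)) (F.P.ε⁻¹ • x) (x' - x)‖ = F.P.ε * Er := by
    have e1 : F.Gm t' x' - F.Gm t x -
        Tm F.D (F.alp t x) (Qa (F.av t x)) (F.P.ε⁻¹ • x) (x' - x) =
        F.P.ε • (Fm F.D (F.alp t' x') (Qa (F.av t' x')) (F.P.ε⁻¹ • x') -
          Fm F.D (F.alp t x) (Qa (F.av t x)) (F.P.ε⁻¹ • x) -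
          Tm F.D (F.alp t x) (Qa (F.av t x)) (F.P.ε⁻¹ • x) (F.P.ε⁻¹ • x' - F.P.ε⁻¹ • x)) := by
      rw [← smul_sub F.P.ε⁻¹ x' x, map_smul, smul_sub, smul_sub, smul_smul,
        mul_inv_cancel₀ hε.ne', one_smul]
      rfl
    rw [e1, norm_smul, Real.norm_of_nonneg hε.le, hEr]
  rw [hscale]
  -- the real quantities
  obtain ⟨dz, hdz⟩ : ∃ dz, dz = F.P.ε⁻¹ * ‖x' - x‖ := ⟨_, rfl⟩
  obtain ⟨dt, hdt⟩ : ∃ dt, dt = |t' - t| := ⟨_, rfl⟩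
  have hdz0 : 0 ≤ dz := by
    rw [hdz]
    positivity
  have hdt0 : 0 ≤ dt := by
    rw [hdt]
    positivity
  have hxx : ‖x' - x‖ = F.P.ε * dz := by
    rw [hdz, ← mul_assoc, mul_inv_cancel₀ hε.ne', one_mul]
  obtain ⟨w, hw⟩ : ∃ w, w = Real.exp (-(F.c.l t x)) * |F.tau t' - F.tau t| := ⟨_, rfl⟩
  have hw0 : 0 ≤ w := by
    rw [hw]
    positivity
  have hwt : w = Real.exp (-(F.c.l t x)) * (dt / (F.P.Tp * F.P.ε)) := by
    rw [hw, hdt]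
    unfold Dat.tau
    rw [← sub_div, abs_div, abs_of_pos (mul_pos hTp hε)]
  have hl : |F.c.l t' x' - F.c.l t x| ≤ B * (dt + F.P.ε * dz) := by
    rw [← hxx, hdt]
    exact H.lipl t t' x x'
  have hσ : |F.sig t' x' - F.sig t x| ≤ 2 * (B / F.P.G) * (dt + F.P.ε * dz) := by
    rw [← hxx, hdt]
    exact H.sig_lip t t' x x'
  have hφ : |F.phi t' x' - F.phi t x| ≤ 5 * dz +
      3 * F.P.L * (2 * |F.c.l t' x' - F.c.l t x| + 15 * w) := by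
    rw [hdz, hw]
    have h := F.phi_lip t t' x x' hε
    linarith
  have hβl : ‖F.av t' x' - F.av t x‖ ≤ 4 * |F.c.l t' x' - F.c.l t x| + 11 * w +
      28 / F.P.L * dz := by
    rw [hdz, hw]
    have h := F.av_lip t t' x x' hε
    linarith
  have hY := F.y_le hL.le hε t' x'
  have hδ := F.del_le hL.le t t' x x' hε N1 N2 N3
  have hY0 : 0 ≤ ‖adj (Qa (F.av t' x')) (F.P.ε⁻¹ • x')‖ := norm_nonneg _
  have hφ0 := F.phi_nonneg t x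
  have hφ0' := F.phi_nonneg t' x'
  have hβ0 : 0 ≤ ‖F.av t' x' - F.av t x‖ := norm_nonneg _
  have hσ0 := F.sig_nonneg t x
  have hσ1 := F.sig_le t x
  rw [← hdz] at hdv1 N5
  have hkey : Er ≤ (1000 * F.P.A * min (F.sig t x) (1 / F.P.L + F.phi t x)) * dz +
      F.kap B * (dt + F.P.ε * dz) + 500 * F.P.A * F.P.L * w := by
    have hmin0 : 0 ≤ min (F.sig t x) (1 / F.P.L + F.phi t x) :=
      le_min hσ0 (by positivity)
    by_cases c1 : 1 < F.phi t x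
    · have e1 : F.alp t x = 0 := by
        unfold Dat.alp Dat.chi
        rw [c01_of_le_zero (by linarith), mul_zero]
      have e2 : F.alp t' x' = 0 := by
        unfold Dat.alp Dat.chi
        rw [c01_of_le_zero (by linarith [N6 c1]), mul_zero]
      rw [e1, e2, sub_self, abs_zero, mul_zero, zero_mul, add_zero] at hErr
      have hk : 0 ≤ F.kap B := by
        unfold Dat.kap
        exact add_nonneg hq (mul_nonneg hB hL.le)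
      have : 0 ≤ (1000 * F.P.A * min (F.sig t x) (1 / F.P.L + F.phi t x)) * dz +
        F.kap B * (dt + F.P.ε * dz) + 500 * F.P.A * F.P.L * w := by positivity
      linarith
    · have hu1 : 1 / F.P.L ≤ 1 := by
        rw [div_le_one hL]
        linarith [H.hL]
      have hφ' : F.phi t' x' ≤ F.phi t x + 1 / F.P.L := by
        have := (abs_le.1 N4).2
        linarith
      by_cases c2 : 1 / 2 ≤ F.phi t x ∨ F.sig t x ≤ 1 / F.P.L + F.phi t x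
      · have h2 : F.phi t' x' ≤ 2 := by linarith [not_lt.1 c1]
        have h := InB1_c2 hA H.hA' H.hL hε.le hB hq hdz0 hdt0 hw0 hσ0 hσ1 hα0
          (F.alp_le hA.le t x) hl hσ hφ hβ0 hβl (abs_nonneg _) (F.alp_lip hA.le t t' x x')
          hY0 (hY.trans h2) (hδ.trans (mul_le_mul_of_nonneg_left h2 hβ0)) hdv0 hdv1 hErr
        have h3 : F.sig t x ≤ 2 * min (F.sig t x) (1 / F.P.L + F.phi t x) := by
          rcases min_choice (F.sig t x) (1 / F.P.L + F.phi t x) with hm | hm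
          · rw [hm]
            linarith
          · rw [hm]
            have hLp : 0 < 1 / F.P.L := by positivity
            rcases c2 with c | c
            · linarith
            · linarith
        have h4 : F.P.A * F.sig t x * dz ≤
            F.P.A * (2 * min (F.sig t x) (1 / F.P.L + F.phi t x)) * dz :=
          mul_le_mul_of_nonneg_right (mul_le_mul_of_nonneg_left h3 hA.le) hdz0
        have h5 : 0 ≤ F.P.A * min (F.sig t x) (1 / F.P.L + F.phi t x) * dz := by positivity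
        unfold Dat.kap
        linarith
      · push Not at c2
        obtain ⟨c3, c4⟩ := c2
        have h2 := N7 c3
        rw [min_eq_right c4.le]
        have h := InB1_c3 hA H.hA' H.hL (rfl : 1 / F.P.L = 1 / F.P.L) hε.le hB hq hdz0 hdt0 hw0 hα0
          hαA hl hσ hβ0 hβl (abs_nonneg _) (F.alp_lip' hA.le t t' x x' c3.le h2.le)
          hφ0 hφ0' h2.le hφ' hY0 hY hδ hdv0 hdv1 N5 hErr
        unfold Dat.kap
        exact h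
  have hfin := mul_le_mul_of_nonneg_left hkey hε.le
  refine hfin.trans (le_of_eq ?_)
  rw [hxx, hwt, ← hdt]
  field_simp
  ring

end Pool.Agent.H31.QH
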