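import Pool.Agent.H31.QH.InB1

/-!
Row InB2 (MP_b924dd_QH): near-linearity of the insertion map `F.Gm`.  Uses the statements of InB1, CorA (and InA, proved).

PROOF.  `T = Tm F.D (alp t x) (Qa (av t x)) (ε⁻¹ x)`, `‖T h‖ = sq1 α ‖h‖` by corA (Q_iso).  The conditions N1-N7 of inB1 hold for
`(t',x')` near `(t,x)`: the right-hand sides of `H.lipl`, `phi_lip`, `av_lip` are continuous functions of `(t',x')` which vanish at
`(t,x)` (`tau` is linear; bound `|F.c.l t' x' - F.c.l t x|` by `B(|t'-t| + ‖x'-x‖)` inside), so each of the left sides of N1-N5 tends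
to 0 (`squeeze_zero`) and is eventually smaller than the positive constants; N6, N7 from `F.phi t' x' → F.phi t x`.
Finally `sq1 α ≥ 1` and the coefficient is `≥ 0`, so `e ‖x'-x‖ ≤ e * sq1 α * ‖x'-x‖`.
`inB2_cont`: `Continuous (fun p => F.Gm p.1 p.2)` from `nea_cont` at every point.
-/

namespace Pool.Agent.H31.QH

open Filter Topology

variable {E : Type*} [NormedAddCommGroup E] [InnerProductSpace ℝ E] [CompleteSpace E]

theorem inB2_kap {F : Dat E} {B : ℝ} (H : Hyp F B) : 0 ≤ F.kap B := by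
  have h1 := H.Gpos
  have h2 := H.hB
  have h3 := H.hL
  unfold Dat.kap
  have h4 : 0 ≤ B := by linarith
  have h5 : 0 ≤ F.P.L := by linarith
  positivity

theorem inB2_e {F : Dat E} {B : ℝ} (H : Hyp F B) (t : ℝ) (x : XX E) :
    0 ≤ 1000 * F.P.A * min (F.sig t x) (1 / F.P.L + F.phi t x) + F.kap B * F.P.ε := by
  have h1 := inB2_kap H
  have h2 : 0 ≤ min (F.sig t x) (1 / F.P.L + F.phi t x) := by
    refine le_min (F.sig_nonneg t x) (add_nonneg ?_ (F.phi_nonneg t x))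
    have := H.hL
    exact one_div_nonneg.2 (by linarith)
  have h3 := H.hA
  have h4 := H.hε
  exact add_nonneg (mul_nonneg (by linarith) h2) (mul_nonneg h1 h4.le)

theorem inB2_q {F : Dat E} {B : ℝ} (H : Hyp F B) (t : ℝ) (x : XX E) :
    0 ≤ 500 * F.P.A * F.P.L * Real.exp (-(F.c.l t x)) / F.P.Tp + F.kap B * F.P.ε := by
  have h1 := inB2_kap H
  have h3 := H.hA
  have h4 := H.hε
  have h5 := H.hL
  have h6 := H.hTp
  have h7 : 0 ≤ F.P.L := by linarith
  have h8 : 0 ≤ F.P.Tp := by linarith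
  positivity

theorem inB2_one (α : ℝ) : 1 ≤ sq1 α := by
  unfold sq1
  rw [Real.one_le_sqrt]
  nlinarith [sq_nonneg α]

theorem inB2 (F : Dat E) (B : ℝ) (H : Hyp F B) (t : ℝ) (x : XX E) :
    NearLin F.Gm t x (sq1 (F.alp t x))
      (1000 * F.P.A * min (F.sig t x) (1 / F.P.L + F.phi t x) + F.kap B * F.P.ε)
      (500 * F.P.A * F.P.L * Real.exp (-(F.c.l t x)) / F.P.Tp + F.kap B * F.P.ε) := by
  have hε := H.hε
  have hLp : 0 < F.P.L := by linarith [H.hL]
  refine ⟨Tm F.D (F.alp t x) (Qa (F.av t x)) (F.P.ε⁻¹ • x),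
    fun h => corA F.D _ _ (F.Q_iso t x) _ h, ?_⟩
  have hs : Tendsto (fun p : ℝ × XX E => B * (|p.1 - t| + ‖p.2 - x‖)) (𝓝 (t, x)) (𝓝 0) := by
    have hc : Continuous (fun p : ℝ × XX E => B * (|p.1 - t| + ‖p.2 - x‖)) := by fun_prop
    have h1 := hc.tendsto (t, x)
    simpa using h1
  have hl : Tendsto (fun p : ℝ × XX E => |F.c.l p.1 p.2 - F.c.l t x|) (𝓝 (t, x)) (𝓝 0) :=
    squeeze_zero (fun p => abs_nonneg _) (fun p => H.lipl t p.1 x p.2) hs
  have htau : Tendsto (fun p : ℝ × XX E => |F.tau p.1 - F.tau t|) (𝓝 (t, x)) (𝓝 0) := by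
    have hc : Continuous (fun p : ℝ × XX E => |F.tau p.1 - F.tau t|) := by
      unfold Dat.tau
      fun_prop
    have h1 := hc.tendsto (t, x)
    simpa using h1
  have hx : Tendsto (fun p : ℝ × XX E => F.P.ε⁻¹ * ‖p.2 - x‖) (𝓝 (t, x)) (𝓝 0) := by
    have hc : Continuous (fun p : ℝ × XX E => F.P.ε⁻¹ * ‖p.2 - x‖) := by fun_prop
    have h1 := hc.tendsto (t, x)
    simpa using h1
  have hphi : Tendsto (fun p : ℝ × XX E => |F.phi p.1 p.2 - F.phi t x|) (𝓝 (t, x)) (𝓝 0) := by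
    refine squeeze_zero (fun p => abs_nonneg _) (fun p => F.phi_lip t p.1 x p.2 hε) ?_
    have h1 := (hx.const_mul 5).add (((hl.const_mul 2).add
      (htau.const_mul (15 * Real.exp (-(F.c.l t x))))).const_mul (3 * F.P.L))
    simpa using h1
  have hav : Tendsto (fun p : ℝ × XX E => ‖F.av p.1 p.2 - F.av t x‖) (𝓝 (t, x)) (𝓝 0) := by
    refine squeeze_zero (fun p => norm_nonneg _) (fun p => F.av_lip t p.1 x p.2 hε) ?_
    have h1 := ((hl.const_mul 4).add
      (htau.const_mul (11 * Real.exp (-(F.c.l t x))))).add (hx.const_mul (28 / F.P.L))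
    simpa using h1
  have hlt : ∀ {f : ℝ × XX E → ℝ} (_ : Tendsto f (𝓝 (t, x)) (𝓝 0)) {c : ℝ} (_ : 0 < c),
      ∀ᶠ p in 𝓝 (t, x), f p < c := fun hf _ hc => hf.eventually (gt_mem_nhds hc)
  have e1 := hlt hl (c := 1 / 2) (by norm_num)
  have e2 : ∀ᶠ p in 𝓝 (t, x), Real.exp (1 - F.c.l t x) * |F.tau p.1 - F.tau t| < 1 / 2 := by
    have h1 := htau.const_mul (Real.exp (1 - F.c.l t x))
    rw [mul_zero] at h1
    exact hlt h1 (by norm_num)
  have e3 := hlt hx (c := F.P.L / 2) (by linarith)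
  have e4 := hlt hphi (c := 1 / F.P.L) (by positivity)
  have e5 : ∀ᶠ p in 𝓝 (t, x),
      F.P.ε⁻¹ * ‖p.2 - x‖ + 4 * ‖F.av p.1 p.2 - F.av t x‖ < 1 / F.P.L := by
    have h1 := hx.add (hav.const_mul 4)
    rw [mul_zero, add_zero] at h1
    exact hlt h1 (by positivity)
  have e6 : ∀ᶠ p in 𝓝 (t, x), 1 < F.phi t x → 1 ≤ F.phi p.1 p.2 := by
    by_cases h : 1 < F.phi t x
    · filter_upwards [hlt hphi (c := F.phi t x - 1) (by linarith)] with p hp _
      have := (abs_lt.1 hp).1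
      linarith
    · exact Eventually.of_forall fun p h' => absurd h' h
  have e7 : ∀ᶠ p in 𝓝 (t, x), F.phi t x < 1 / 2 → F.phi p.1 p.2 < 1 / 2 := by
    by_cases h : F.phi t x < 1 / 2
    · filter_upwards [hlt hphi (c := 1 / 2 - F.phi t x) (by linarith)] with p hp _
      have := (abs_lt.1 hp).2
      linarith
    · exact Eventually.of_forall fun p h' => absurd h' h
  filter_upwards [e1, e2, e3, e4, e5, e6, e7] with p h1 h2 h3 h4 h5 h6 h7
  refine (inB1 F B H t p.1 x p.2 h1.le h2.le h3.le h4.le h5.le h6 h7).trans ?_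
  refine add_le_add ?_ le_rfl
  refine mul_le_mul_of_nonneg_right ?_ (norm_nonneg _)
  exact le_mul_of_one_le_right (inB2_e H t x) (inB2_one _)

theorem inB2_cont (F : Dat E) (B : ℝ) (H : Hyp F B) : Continuous (fun p : ℝ × XX E => F.Gm p.1 p.2) := by
  rw [continuous_iff_continuousAt]
  rintro ⟨t, x⟩
  exact nea_cont (inB2 F B H t x) (zero_le_one.trans (inB2_one _)) (inB2_e H t x) (inB2_q H t x)

end Pool.Agent.H31.QH
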