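import Pool.Agent.H31.QH.InB2

/-!
Row InC (MP_b924dd_QH): for fixed time the insertion map is a small Lipschitz perturbation of the identity.
Uses the statements of CorC, InB2, NeaA (and InA, proved).

Symbols as in InB1, now `t' = t` (`dt = 0`, `τ' = τ`), `κε ≤ 1` (H.small), so `B ε/G ≤ 1`, `B L ε ≤ 1`.
`(Gm t x' - x') - (Gm t x - x) = ε • ((Fm' - z') - (Fm - z))` (`x = ε • z`); show `‖(Fm' - z') - (Fm - z)‖ ≤ (1/2) dz`.
FACTS: `|φ'-φ| ≤ 5dz + 6BLε dz ≤ 11 dz`; `|α'-α| ≤ A·2(B/G)ε dz + 2A·11 dz ≤ 24 A dz`; `β ≤ (4Bε + 28/L) dz ≤ dz`.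
`‖Fm - z‖ ≤ α(1 + 2φ) ≤ 3α` always (corC_size, y_le, and `α ≠ 0 → φ < 1`), likewise with primes.
CASE A: `α' = 0`: `‖...‖ = ‖Fm - z‖ ≤ 3α = 3|α'-α| ≤ 72 A dz`.   CASE B: `α = 0`: the same.
CASE C: `dz > L/2`: `≤ 3α + 3α' ≤ 6A ≤ (12A/L) dz`.
CASE D: `α, α' ≠ 0`, `dz ≤ L/2`: `φ, φ' < 1`, `‖y'‖ ≤ 1`; del_le applies (`|l'-l| ≤ B‖x'-x‖ = Bε dz ≤ BεL/2 ≤ 1/2`), `‖δ‖ ≤ βφ' ≤ β`;
 corC: `≤ 3|α'-α| + α(11dz + 28β) ≤ (72 + 39)A dz`.
`A ≤ 1/2000`: all `≤ (1/2) dz`.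
`inC_size`: `‖Gm t x - x‖ = ε‖Fm - z‖ ≤ 3αε ≤ ε`.
`inC_hom`: hom_of_contr with inC, inB2_cont.
-/

namespace Pool.Agent.H31.QH

open Filter Topology

variable {E : Type*} [NormedAddCommGroup E] [InnerProductSpace ℝ E] [CompleteSpace E]

/-- the core map of the step -/
noncomputable def InC_Fm (F : Dat E) (t : ℝ) (x : XX E) : XX E :=
  Fm F.D (F.alp t x) (Qa (F.av t x)) (F.P.ε⁻¹ • x)

theorem InC_Gm (F : Dat E) (hε : 0 < F.P.ε) (t : ℝ) (x : XX E) :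
    F.Gm t x - x = F.P.ε • (InC_Fm F t x - F.P.ε⁻¹ • x) := by
  rw [smul_sub, smul_inv_smul₀ hε.ne']
  rfl

theorem InC_alp_le_one {F : Dat E} {B : ℝ} (H : Hyp F B) (t : ℝ) (x : XX E) : F.alp t x ≤ 1 := by
  have h1 := F.alp_le' H.hA.le t x
  have h2 := H.hA'
  linarith

/-- `‖Fm - z‖ ≤ 3 α` -/
theorem InC_size3 {F : Dat E} {B : ℝ} (H : Hyp F B) (t : ℝ) (x : XX E) :
    ‖InC_Fm F t x - F.P.ε⁻¹ • x‖ ≤ 3 * F.alp t x := by
  have h0 := F.alp_nonneg H.hA.le t x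
  have hL : 0 ≤ F.P.L := by linarith [H.hL]
  have h := corC_size F.D (Qa (F.av t x) : E →L[ℝ] XX E) (F.Q_iso t x) (F.alp t x) h0
    (InC_alp_le_one H t x) (F.P.ε⁻¹ • x)
  refine h.trans ?_
  by_cases ha : F.alp t x = 0
  · rw [ha]
    simp
  · have h1 := F.phi_lt_of_alp t x ha
    have h2 := F.y_le hL H.hε t x
    have h3 : F.alp t x * (1 + 2 * ‖adj (Qa (F.av t x)) (F.P.ε⁻¹ • x)‖) ≤ F.alp t x * 3 :=
      mul_le_mul_of_nonneg_left (by linarith) h0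
    linarith

theorem InC_facts {F : Dat E} {B : ℝ} (H : Hyp F B) (t : ℝ) (x x' : XX E) :
    |F.c.l t x' - F.c.l t x| * F.P.L ≤ F.P.ε⁻¹ * ‖x' - x‖ ∧
    |F.alp t x' - F.alp t x| ≤ 24 * F.P.A * (F.P.ε⁻¹ * ‖x' - x‖) ∧
    ‖F.av t x' - F.av t x‖ ≤ F.P.ε⁻¹ * ‖x' - x‖ := by
  have hε := H.hε
  have hL := H.hL
  have hA := H.hA
  have hG := H.Gpos
  have hB := H.hB
  have hB0 : 0 ≤ B := by linarith
  set dz : ℝ := F.P.ε⁻¹ * ‖x' - x‖ with hdz
  have hdz0 : 0 ≤ dz := by positivity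
  have hx : ‖x' - x‖ = F.P.ε * dz := by
    rw [hdz, ← mul_assoc, mul_inv_cancel₀ hε.ne', one_mul]
  have hsm := H.small
  unfold Dat.kap at hsm
  have hq1 : 0 ≤ B / F.P.G := by positivity
  have hq2 : 0 ≤ B * F.P.L := by positivity
  have e1 : B / F.P.G * F.P.ε ≤ 1 := by
    have : 0 ≤ B * F.P.L * F.P.ε := by positivity
    linarith
  have e2 : B * F.P.L * F.P.ε ≤ 1 := by
    have : 0 ≤ B / F.P.G * F.P.ε := by positivity
    linarith
  have hl : |F.c.l t x' - F.c.l t x| ≤ B * F.P.ε * dz := by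
    have h := H.lipl t t x x'
    rw [sub_self, abs_zero, zero_add, hx] at h
    linarith
  have hlL : |F.c.l t x' - F.c.l t x| * F.P.L ≤ dz := by
    have h1 : |F.c.l t x' - F.c.l t x| * F.P.L ≤ B * F.P.ε * dz * F.P.L :=
      mul_le_mul_of_nonneg_right hl (by linarith)
    have h2 : B * F.P.L * F.P.ε * dz ≤ 1 * dz := mul_le_mul_of_nonneg_right e2 hdz0
    linarith
  refine ⟨hlL, ?_, ?_⟩
  · have h1 := F.alp_lip hA.le t t x x'
    have h2 := H.sig_lip t t x x'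
    have h3 := F.phi_lip t t x x' hε
    rw [sub_self, abs_zero, mul_zero, add_zero] at h3
    rw [sub_self, abs_zero, zero_add, hx] at h2
    rw [← hdz] at h3
    have h2' : |F.sig t x' - F.sig t x| ≤ 2 * dz := by
      have : B / F.P.G * F.P.ε * dz ≤ 1 * dz := mul_le_mul_of_nonneg_right e1 hdz0
      linarith
    have h3' : |F.phi t x' - F.phi t x| ≤ 11 * dz := by
      linarith
    have h4 : F.P.A * |F.sig t x' - F.sig t x| ≤ F.P.A * (2 * dz) :=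
      mul_le_mul_of_nonneg_left h2' hA.le
    have hs0 := F.sig_nonneg t x
    have hs1 := F.sig_le t x
    have h5 : 2 * F.P.A * F.sig t x * |F.phi t x' - F.phi t x| ≤ 2 * F.P.A * 1 * (11 * dz) := by
      refine mul_le_mul ?_ h3' (abs_nonneg _) (by positivity)
      exact mul_le_mul_of_nonneg_left hs1 (by positivity)
    linarith
  · have h1 := F.av_lip t t x x' hε
    rw [sub_self, abs_zero, mul_zero, add_zero, ← hdz] at h1
    have h2 : 4 * |F.c.l t x' - F.c.l t x| ≤ 4 / F.P.L * dz := by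
      have h3 : |F.c.l t x' - F.c.l t x| ≤ dz / F.P.L := by
        rw [le_div_iff₀ (by linarith)]
        exact hlL
      have e3 : 4 / F.P.L * dz = 4 * (dz / F.P.L) := by ring
      rw [e3]
      linarith
    have h3 : 4 / F.P.L * dz + 28 / F.P.L * dz ≤ dz := by
      have e3 : 4 / F.P.L * dz + 28 / F.P.L * dz = 32 / F.P.L * dz := by ring
      rw [e3]
      have h4 : 32 / F.P.L ≤ 1 := by
        rw [div_le_one (by linarith)]
        linarith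
      have h5 : 32 / F.P.L * dz ≤ 1 * dz := mul_le_mul_of_nonneg_right h4 hdz0
      linarith
    linarith

theorem InC_main {F : Dat E} {B : ℝ} (H : Hyp F B) (t : ℝ) (x x' : XX E) :
    ‖(InC_Fm F t x' - F.P.ε⁻¹ • x') - (InC_Fm F t x - F.P.ε⁻¹ • x)‖ ≤
      1 / 2 * (F.P.ε⁻¹ * ‖x' - x‖) := by
  have hε := H.hε
  have hL := H.hL
  have hL0 : 0 ≤ F.P.L := by linarith
  have hA := H.hA
  have hA' := H.hA'
  obtain ⟨hlL, hal, hav⟩ := InC_facts H t x x'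
  set dz : ℝ := F.P.ε⁻¹ * ‖x' - x‖ with hdz
  have hdz0 : 0 ≤ dz := by positivity
  have s1 := InC_size3 H t x
  have s2 := InC_size3 H t x'
  have n1 := F.alp_nonneg hA.le t x
  have n2 := F.alp_nonneg hA.le t x'
  have m1 := F.alp_le' hA.le t x
  have m2 := F.alp_le' hA.le t x'
  have tri := norm_sub_le (InC_Fm F t x' - F.P.ε⁻¹ • x') (InC_Fm F t x - F.P.ε⁻¹ • x)
  have hAdz : F.P.A * dz ≤ 1 / 2000 * dz := mul_le_mul_of_nonneg_right hA' hdz0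
  by_cases ha' : F.alp t x' = 0
  · rw [ha', mul_zero] at s2
    rw [ha', zero_sub, abs_neg, abs_of_nonneg n1] at hal
    linarith
  by_cases ha : F.alp t x = 0
  · rw [ha, mul_zero] at s1
    rw [ha, sub_zero, abs_of_nonneg n2] at hal
    linarith
  by_cases hd : dz ≤ F.P.L / 2
  · have p1 := F.phi_lt_of_alp t x ha
    have p2 := F.phi_lt_of_alp t x' ha'
    have hy := F.y_le hL0 hε t x'
    have hl2 : |F.c.l t x' - F.c.l t x| ≤ 1 / 2 := by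
      have h1 : |F.c.l t x' - F.c.l t x| * F.P.L ≤ 1 / 2 * F.P.L := by linarith
      exact le_of_mul_le_mul_right h1 (by linarith)
    have hdel := F.del_le hL0 t t x x' hε hl2 (by simp) (by rw [← hdz]; exact hd)
    have hβ : ‖(Qa (F.av t x') : E →L[ℝ] XX E) - Qa (F.av t x)‖ ≤ ‖F.av t x' - F.av t x‖ :=
      norm_Qa_sub_le _ _
    have hC := corC F.D (Qa (F.av t x) : E →L[ℝ] XX E) (Qa (F.av t x')) (F.Q_iso t x)
      (F.Q_iso t x') (F.alp t x) (F.alp t x') n1 (InC_alp_le_one H t x) n2 (F.P.ε⁻¹ • x)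
      (F.P.ε⁻¹ • x') _ hβ (by linarith)
    rw [F.smul_diff hε, ← hdz] at hC
    have hdel' : ‖adj (Qa (F.av t x')) (F.P.ε⁻¹ • x') - adj (Qa (F.av t x)) (F.P.ε⁻¹ • x')‖ ≤ dz := by
      refine hdel.trans ?_
      have h1 : ‖F.av t x' - F.av t x‖ * F.phi t x' ≤ ‖F.av t x' - F.av t x‖ * 1 :=
        mul_le_mul_of_nonneg_left p2.le (norm_nonneg _)
      linarith
    have h6 : F.alp t x * (11 * dz + 17 * ‖F.av t x' - F.av t x‖ +
        11 * ‖adj (Qa (F.av t x')) (F.P.ε⁻¹ • x') - adj (Qa (F.av t x)) (F.P.ε⁻¹ • x')‖) ≤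
        F.P.A * (39 * dz) := by
      refine mul_le_mul m1 (by linarith) (by positivity) hA.le
    have h7 : ‖(InC_Fm F t x' - F.P.ε⁻¹ • x') - (InC_Fm F t x - F.P.ε⁻¹ • x)‖ ≤
        3 * |F.alp t x' - F.alp t x| + F.alp t x * (11 * dz + 17 * ‖F.av t x' - F.av t x‖ +
        11 * ‖adj (Qa (F.av t x')) (F.P.ε⁻¹ • x') - adj (Qa (F.av t x)) (F.P.ε⁻¹ • x')‖) := hC
    linarith
  · have hd' : F.P.L / 2 < dz := not_le.1 hd
    linarith

theorem inC (F : Dat E) (B : ℝ) (H : Hyp F B) (t : ℝ) (x x' : XX E) :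
    ‖(F.Gm t x' - x') - (F.Gm t x - x)‖ ≤ 1 / 2 * ‖x' - x‖ := by
  have hε := H.hε
  rw [InC_Gm F hε, InC_Gm F hε, ← smul_sub, norm_smul, Real.norm_of_nonneg hε.le]
  have h := mul_le_mul_of_nonneg_left (InC_main H t x x') hε.le
  refine h.trans (le_of_eq ?_)
  have : F.P.ε * F.P.ε⁻¹ = 1 := mul_inv_cancel₀ hε.ne'
  calc F.P.ε * (1 / 2 * (F.P.ε⁻¹ * ‖x' - x‖)) = (F.P.ε * F.P.ε⁻¹) * (1 / 2 * ‖x' - x‖) := by ring
    _ = 1 / 2 * ‖x' - x‖ := by rw [this, one_mul]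

theorem inC_size (F : Dat E) (B : ℝ) (H : Hyp F B) (t : ℝ) (x : XX E) :
    ‖F.Gm t x - x‖ ≤ F.P.ε := by
  have hε := H.hε
  rw [InC_Gm F hε, norm_smul, Real.norm_of_nonneg hε.le]
  have h1 := InC_size3 H t x
  have h2 := F.alp_le' H.hA.le t x
  have h3 := H.hA'
  have h4 : F.P.ε * ‖InC_Fm F t x - F.P.ε⁻¹ • x‖ ≤ F.P.ε * 1 :=
    mul_le_mul_of_nonneg_left (by linarith) hε.le
  linarith

theorem inC_zero (F : Dat E) (B : ℝ) (H : Hyp F B) (t : ℝ) (x : XX E) (h : F.alp t x = 0) :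
    F.Gm t x = x := by
  have h1 := InC_size3 H t x
  rw [h, mul_zero] at h1
  have h2 : InC_Fm F t x - F.P.ε⁻¹ • x = 0 := norm_le_zero_iff.1 h1
  have h3 := InC_Gm F H.hε t x
  rw [h2, smul_zero] at h3
  exact sub_eq_zero.1 h3

theorem inC_hom (F : Dat E) (B : ℝ) (H : Hyp F B) :
    IsHomeomorph (fun p : ℝ × XX E => (p.1, F.Gm p.1 p.2)) :=
  hom_of_contr F.Gm (inB2_cont F B H) (inC F B H)

end Pool.Agent.H31.QH
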