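import Pool.Agent.H31.QH.InA

/-!
Row InE (MP_b924dd_QH): the range of `mu` after an insertion step.  Real-number case analysis.

`new.mu = mu - drop - (1/2) log(1+α²)`, where `0 ≤ α ≤ A`, `0 ≤ drop`, `G = (1/2) log(1+A²)`, `l0 = l1 - G`, `lf = Hf + G`.
`drop = min (log(1 + a σ Φ)) (max (mu - lf) 0)`, `Φ = min(φ²,1)`, `a σ Φ ≥ 0`.
(1) `new.mu ≤ mu`: clear.
(2) lower bound: if `mu ≤ l0` then `σ = 0` (c01_of_le_zero), so `α = 0`, `drop = min (log 1) _ = 0` and `new.mu = mu ≥ Hf`.  If `mu > l0 ≥ lf + 1`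
    then `drop ≤ mu - lf` and `new.mu ≥ lf - G = Hf`.
(3) upper bound: if `mu ≤ l1`, use (1).  If `mu > l1`: `(mu - l0)/G ≥ 1`, `σ = 1`.  If `φ ≤ 1/2`: `chi φ = 1`, `α = A`,
    `new.mu ≤ mu - G ≤ l1`.  If `φ > 1/2`: `Φ ≥ 1/4`, `log(1 + aΦ) ≥ log(5/4) ≥ 1/5 ≥ G` (`log(1+x) ≥ x/(1+x)`, i.e.
    `Real.one_sub_inv_le_log_of_pos`; `G ≤ A²/2` by `Real.log_le_sub_one_of_pos`), so either `drop ≥ G` and `new.mu ≤ mu - G ≤ l1`,
    or `drop = mu - lf` and `new.mu ≤ lf ≤ l0 ≤ l1`.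
(4) event: `sm ≤ σ`, `pm ≤ φ`, `0 < pm ≤ 1`: `Φ ≥ pm²`, `σΦ ≥ sm pm²`, `drop ≥ min (log(1+a sm pm²)) (mu - lf)` (here `σ > 0`, so `mu > l0 > lf`), and
    `new.mu ≤ max (mu - log(1+a sm pm²)) lf ≤ θ - 1`.
(5) `inE_triv`: if `l t x = 0`, `g t x = -Hf` then `mu = Hf ≤ l0`, so `σ = 0`, `α = 0`, `drop = 0`.
-/

namespace Pool.Agent.H31.QH

open Filter Topology

variable {E : Type*} [NormedAddCommGroup E] [InnerProductSpace ℝ E] [CompleteSpace E]

theorem InE_Ph_nonneg (F : Dat E) (t : ℝ) (x : XX E) : 0 ≤ F.Ph t x :=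
  le_min (sq_nonneg _) zero_le_one

theorem InE_log_nonneg (F : Dat E) (B : ℝ) (H : Hyp F B) (t : ℝ) (x : XX E) :
    0 ≤ Real.log (1 + F.P.a * F.sig t x * F.Ph t x) := by
  apply Real.log_nonneg
  have h1 : 0 ≤ F.P.a := by linarith [H.ha]
  have h2 : 0 ≤ F.P.a * F.sig t x * F.Ph t x :=
    mul_nonneg (mul_nonneg h1 (F.sig_nonneg t x)) (InE_Ph_nonneg F t x)
  linarith

theorem inE_drop_nonneg (F : Dat E) (B : ℝ) (H : Hyp F B) (t : ℝ) (x : XX E) : 0 ≤ F.drop t x :=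
  le_min (InE_log_nonneg F B H t x) (le_max_right _ _)

theorem InE_mu (F : Dat E) (t : ℝ) (x : XX E) :
    F.new.mu t x = F.c.mu t x - F.drop t x - Real.log (1 + F.alp t x ^ 2) / 2 := by
  show -(F.c.g t x + F.drop t x) - (F.c.l t x + Real.log (1 + F.alp t x ^ 2) / 2) =
    - F.c.g t x - F.c.l t x - F.drop t x - Real.log (1 + F.alp t x ^ 2) / 2
  ring

/-- below the level `l0` nothing happens -/
theorem InE_low (F : Dat E) (B : ℝ) (H : Hyp F B) (t : ℝ) (x : XX E) (h : F.c.mu t x ≤ F.P.l0) :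
    F.sig t x = 0 ∧ F.alp t x = 0 ∧ F.drop t x = 0 := by
  have hG := H.Gpos
  have h1 : F.sig t x = 0 := by
    unfold Dat.sig
    exact c01_of_le_zero (div_nonpos_of_nonpos_of_nonneg (by linarith) hG.le)
  refine ⟨h1, ?_, ?_⟩
  · unfold Dat.alp
    rw [h1]
    ring
  · unfold Dat.drop
    rw [h1, mul_zero, zero_mul, add_zero, Real.log_one]
    exact min_eq_left (le_max_right _ _)

theorem InE_log_le (F : Dat E) (B : ℝ) (H : Hyp F B) (t : ℝ) (x : XX E) :
    Real.log (1 + F.alp t x ^ 2) / 2 ≤ F.P.G := by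
  unfold Prm.G
  have h1 : F.alp t x ^ 2 ≤ F.P.A ^ 2 :=
    pow_le_pow_left₀ (F.alp_nonneg H.hA.le t x) (F.alp_le' H.hA.le t x) 2
  have h2 : Real.log (1 + F.alp t x ^ 2) ≤ Real.log (1 + F.P.A ^ 2) :=
    Real.log_le_log (by positivity) (by linarith)
  linarith

theorem InE_G_le (F : Dat E) (B : ℝ) (H : Hyp F B) : F.P.G ≤ 1 / 5 := by
  unfold Prm.G
  have h1 := H.hA
  have h2 := H.hA'
  have h3 : Real.log (1 + F.P.A ^ 2) ≤ (1 + F.P.A ^ 2) - 1 := Real.log_le_sub_one_of_pos (by positivity)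
  have h4 : F.P.A ^ 2 ≤ (1 / 2000) ^ 2 := pow_le_pow_left₀ h1.le h2 2
  norm_num at h4
  linarith

/-- the two possibilities for `drop` -/
theorem InE_or (F : Dat E) (t : ℝ) (x : XX E) {r : ℝ}
    (hr : r ≤ Real.log (1 + F.P.a * F.sig t x * F.Ph t x)) :
    r ≤ F.drop t x ∨ F.c.mu t x - F.P.lf ≤ F.drop t x := by
  unfold Dat.drop
  rcases le_total (Real.log (1 + F.P.a * F.sig t x * F.Ph t x)) (max (F.c.mu t x - F.P.lf) 0) with h | h
  · rw [min_eq_left h]
    exact Or.inl hr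
  · rw [min_eq_right h]
    exact Or.inr (le_max_left _ _)

theorem inE (F : Dat E) (B : ℝ) (H : Hyp F B) (hlo : ∀ t x, F.P.Hf ≤ F.c.mu t x)
    (hhi : ∀ t x, F.c.mu t x ≤ F.P.l1 + F.P.G) (hlf : F.P.lf + 1 ≤ F.P.l0) (t : ℝ) (x : XX E) :
    F.P.Hf ≤ F.new.mu t x ∧ F.new.mu t x ≤ F.P.l1 ∧ F.new.mu t x ≤ F.c.mu t x ∧
    (∀ sm pm θ : ℝ, 0 < sm → 0 < pm → pm ≤ 1 → sm ≤ F.sig t x → pm ≤ F.phi t x → F.P.lf ≤ θ - 1 →
      F.P.l1 + F.P.G - Real.log (1 + F.P.a * sm * pm ^ 2) ≤ θ - 1 → F.new.mu t x ≤ θ - 1) := by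
  have hmu := InE_mu F t x
  have hd := inE_drop_nonneg F B H t x
  have hG := H.Gpos
  have hl := hlo t x
  have hh := hhi t x
  have hlog := InE_log_le F B H t x
  have hlog0 : 0 ≤ Real.log (1 + F.alp t x ^ 2) / 2 := by
    have : 0 ≤ Real.log (1 + F.alp t x ^ 2) := Real.log_nonneg (by nlinarith [sq_nonneg (F.alp t x)])
    linarith
  have hl0 : F.P.l0 = F.P.l1 - F.P.G := rfl
  have hlf' : F.P.lf = F.P.Hf + F.P.G := rfl
  have ha := H.ha
  have h3 : F.new.mu t x ≤ F.c.mu t x := by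
    rw [hmu]
    linarith
  refine ⟨?_, ?_, h3, ?_⟩
  · rcases le_or_gt (F.c.mu t x) F.P.l0 with h | h
    · obtain ⟨-, h1, h2⟩ := InE_low F B H t x h
      rw [hmu, h1, h2]
      norm_num
      exact hl
    · have h1 : F.drop t x ≤ F.c.mu t x - F.P.lf := by
        refine (min_le_right _ _).trans (le_of_eq (max_eq_left ?_))
        linarith
      rw [hmu]
      linarith
  · rcases le_or_gt (F.c.mu t x) F.P.l1 with h | h
    · exact h3.trans h
    · have hσ : F.sig t x = 1 := by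
        unfold Dat.sig
        apply c01_of_one_le
        rw [le_div_iff₀ hG]
        linarith
      rcases le_or_gt (F.phi t x) (1 / 2) with hp | hp
      · have hα : F.alp t x = F.P.A := by
          unfold Dat.alp Dat.chi
          rw [hσ, c01_of_one_le (by linarith)]
          ring
        have h1 : Real.log (1 + F.alp t x ^ 2) / 2 = F.P.G := by
          rw [hα]
          rfl
        rw [hmu, h1]
        linarith
      · have hΦ : 1 / 4 ≤ F.Ph t x := by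
          unfold Dat.Ph
          refine le_min ?_ (by norm_num)
          nlinarith
        have h1 : F.P.G ≤ Real.log (1 + F.P.a * F.sig t x * F.Ph t x) := by
          rw [hσ, mul_one]
          have h2 : (5 / 4 : ℝ) ≤ 1 + F.P.a * F.Ph t x := by nlinarith
          have h4 : Real.log (5 / 4) ≤ Real.log (1 + F.P.a * F.Ph t x) :=
            Real.log_le_log (by norm_num) h2
          have h5 : 1 - (5 / 4 : ℝ)⁻¹ ≤ Real.log (5 / 4) := Real.one_sub_inv_le_log_of_pos (by norm_num)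
          norm_num at h5
          have h6 := InE_G_le F B H
          linarith
        rcases InE_or F t x h1 with h2 | h2
        · rw [hmu]
          linarith
        · rw [hmu]
          linarith
  · intro sm pm θ hsm hpm hpm1 hs hp hθ1 hθ2
    have hΦ : pm ^ 2 ≤ F.Ph t x := by
      unfold Dat.Ph
      refine le_min (pow_le_pow_left₀ hpm.le hp 2) ?_
      exact pow_le_one₀ hpm.le hpm1
    have h1 : Real.log (1 + F.P.a * sm * pm ^ 2) ≤ Real.log (1 + F.P.a * F.sig t x * F.Ph t x) := by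
      have ha0 : 0 < F.P.a := by linarith
      have h4 : 0 < F.P.a * sm * pm ^ 2 := by positivity
      apply Real.log_le_log (by linarith)
      have h5 : F.P.a * sm ≤ F.P.a * F.sig t x := mul_le_mul_of_nonneg_left hs ha0.le
      have h6 : F.P.a * sm * pm ^ 2 ≤ F.P.a * F.sig t x * F.Ph t x :=
        mul_le_mul h5 hΦ (by positivity) (mul_nonneg ha0.le (F.sig_nonneg t x))
      linarith
    rcases InE_or F t x h1 with h2 | h2
    · rw [hmu]
      linarith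
    · rw [hmu]
      linarith

theorem inE_triv (F : Dat E) (B : ℝ) (H : Hyp F B) (hlf : F.P.lf + 1 ≤ F.P.l0) (t : ℝ) (x : XX E)
    (h1 : F.c.l t x = 0) (h2 : F.c.g t x = - F.P.Hf) :
    F.sig t x = 0 ∧ F.alp t x = 0 ∧ F.drop t x = 0 := by
  apply InE_low F B H t x
  have hG := H.Gpos
  have h3 : F.P.lf = F.P.Hf + F.P.G := rfl
  unfold Cfg.mu
  rw [h1, h2]
  linarith

end Pool.Agent.H31.QH
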