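import Pool.Agent.H31.QH.InA

/-!
Row InF (MP_b924dd_QH): the logarithms of the new configuration are Lipschitz.

With `D = |t'-t| + ‖x'-x‖`: `exp(-l) ≤ 1` (H.lnn), `|τ'-τ| = |t'-t|/(Tp ε)`, so
`|φ'-φ| ≤ Bφ D`, `Bφ = 5ε⁻¹ + 3L(2B + 15/(Tp ε))`; `|σ'-σ| ≤ 2(B/G) D`; `|α'-α| ≤ Bα D`, `Bα = 2A(B/G) + 2A Bφ` (alp_lip, σ ≤ 1).
`new.l`: `|½log(1+α'²) - ½log(1+α²)| ≤ ½|α'²-α²| ≤ |α'-α|` (`|log(1+u) - log(1+v)| ≤ |u-v|` for `u,v ≥ 0`; `0 ≤ α,α' ≤ A ≤ 1`).
`new.g`: `|drop'-drop| ≤ |log(1+aσ'Φ') - log(1+aσΦ)| + |mu'-mu|` (`abs_min_sub_min_le_max`, `abs_max_sub_max_le_max`);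
`|log - log| ≤ a|σ'Φ'-σΦ| ≤ a(|σ'-σ| + |Φ'-Φ|)` (`0 ≤ σ,Φ ≤ 1`), `|Φ'-Φ| ≤ 2|φ'-φ|` (`Φ = min(φ²,1) = (min(φ,1))²`),
`|mu'-mu| ≤ 2B D`.
-/

namespace Pool.Agent.H31.QH

open Filter Topology

variable {E : Type*} [NormedAddCommGroup E] [InnerProductSpace ℝ E] [CompleteSpace E]

private theorem InF_log {u v : ℝ} (hu : 0 ≤ u) (hv : 0 ≤ v) :
    Real.log (1 + u) - Real.log (1 + v) ≤ |u - v| := by
  have h1 : (0 : ℝ) < 1 + v := by linarith
  have h2 : (0 : ℝ) < 1 + u := by linarith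
  rw [← Real.log_div h2.ne' h1.ne']
  have h := Real.log_le_sub_one_of_pos (div_pos h2 h1)
  refine h.trans ?_
  rw [div_sub_one h1.ne', div_le_iff₀ h1]
  have h3 : (1 + u) - (1 + v) ≤ |u - v| := by
    have := le_abs_self (u - v)
    linarith
  have h4 : |u - v| * 1 ≤ |u - v| * (1 + v) :=
    mul_le_mul_of_nonneg_left (by linarith) (abs_nonneg _)
  linarith

private theorem InF_log' {u v : ℝ} (hu : 0 ≤ u) (hv : 0 ≤ v) :
    |Real.log (1 + u) - Real.log (1 + v)| ≤ |u - v| := by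
  rw [abs_le]
  constructor
  · have := InF_log hv hu
    rw [abs_sub_comm] at this
    linarith
  · exact InF_log hu hv

private theorem InF_sq {p q : ℝ} (hp : 0 ≤ p) (hq : 0 ≤ q) :
    |min (p ^ 2) 1 - min (q ^ 2) 1| ≤ 2 * |p - q| := by
  have e : ∀ r : ℝ, 0 ≤ r → min (r ^ 2) 1 = (min r 1) ^ 2 := by
    intro r hr
    rcases le_total r 1 with h | h
    · rw [min_eq_left h, min_eq_left (pow_le_one₀ hr h)]
    · rw [min_eq_right h, min_eq_right (one_le_pow₀ h), one_pow]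
  rw [e p hp, e q hq]
  have h1 : |min p 1 - min q 1| ≤ |p - q| := by
    have := abs_min_sub_min_le_max p 1 q 1
    simpa using this
  have hp1 : min p 1 ≤ 1 := min_le_right _ _
  have hq1 : min q 1 ≤ 1 := min_le_right _ _
  have hp0 : 0 ≤ min p 1 := le_min hp zero_le_one
  have hq0 : 0 ≤ min q 1 := le_min hq zero_le_one
  have e2 : (min p 1) ^ 2 - (min q 1) ^ 2 = (min p 1 + min q 1) * (min p 1 - min q 1) := by ring
  rw [e2, abs_mul, abs_of_nonneg (add_nonneg hp0 hq0)]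
  exact mul_le_mul (by linarith) h1 (abs_nonneg _) (by norm_num)

theorem inF (F : Dat E) (B : ℝ) (H : Hyp F B) :
    ∃ B' : ℝ, (∀ t t' x x', |F.new.l t' x' - F.new.l t x| ≤ B' * (|t' - t| + ‖x' - x‖)) ∧
      (∀ t t' x x', |F.new.g t' x' - F.new.g t x| ≤ B' * (|t' - t| + ‖x' - x‖)) := by
  have hG := H.Gpos
  have hA := H.hA
  have hA' := H.hA'
  have hL : 0 ≤ F.P.L := by linarith [H.hL]
  have hTp : 0 < F.P.Tp := by linarith [H.hTp]
  have hε := H.hε
  have ha := H.ha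
  have hB0 : 0 ≤ B := by linarith [H.hB]
  have hTε : 0 < F.P.Tp * F.P.ε := mul_pos hTp hε
  obtain ⟨Bs, hBs⟩ : ∃ Bs : ℝ, Bs = 2 * (B / F.P.G) := ⟨_, rfl⟩
  obtain ⟨Bp, hBp⟩ : ∃ Bp : ℝ, Bp = 5 * F.P.ε⁻¹ + 3 * F.P.L * (2 * B + 15 / (F.P.Tp * F.P.ε)) :=
    ⟨_, rfl⟩
  have hBs0 : 0 ≤ Bs := by rw [hBs]; positivity
  have hBp0 : 0 ≤ Bp := by rw [hBp]; positivity
  have hsig : ∀ t t' x x', |F.sig t' x' - F.sig t x| ≤ Bs * (|t' - t| + ‖x' - x‖) := by
    intro t t' x x'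
    rw [hBs]
    exact H.sig_lip t t' x x'
  have hphi : ∀ t t' x x', |F.phi t' x' - F.phi t x| ≤ Bp * (|t' - t| + ‖x' - x‖) := by
    intro t t' x x'
    refine (F.phi_lip t t' x x' hε).trans ?_
    have ht : |F.tau t' - F.tau t| = |t' - t| / (F.P.Tp * F.P.ε) := by
      unfold Dat.tau
      rw [← sub_div, abs_div, abs_of_pos hTε]
    have he : Real.exp (-(F.c.l t x)) ≤ 1 := Real.exp_le_one_iff.2 (by linarith [H.lnn t x])
    have hl := H.lipl t t' x x'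
    rw [ht]
    have ht0 : 0 ≤ |t' - t| := abs_nonneg _
    have hx0 : 0 ≤ ‖x' - x‖ := norm_nonneg _
    obtain ⟨D, hD⟩ : ∃ D : ℝ, D = |t' - t| + ‖x' - x‖ := ⟨_, rfl⟩
    rw [← hD] at hl ⊢
    have h1 : ‖x' - x‖ ≤ D := by linarith
    have h2 : |t' - t| ≤ D := by linarith
    have h3 : |t' - t| / (F.P.Tp * F.P.ε) ≤ D / (F.P.Tp * F.P.ε) :=
      div_le_div_of_nonneg_right h2 hTε.le
    have h4 : 15 * Real.exp (-(F.c.l t x)) * (|t' - t| / (F.P.Tp * F.P.ε)) ≤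
        15 * 1 * (D / (F.P.Tp * F.P.ε)) := by
      have hp := Real.exp_pos (-(F.c.l t x))
      exact mul_le_mul (by linarith) h3 (by positivity) (by norm_num)
    have h5 : F.P.ε⁻¹ * ‖x' - x‖ ≤ F.P.ε⁻¹ * D :=
      mul_le_mul_of_nonneg_left h1 (inv_nonneg.2 hε.le)
    have h6 : 3 * F.P.L * (2 * |F.c.l t' x' - F.c.l t x| +
        15 * Real.exp (-(F.c.l t x)) * (|t' - t| / (F.P.Tp * F.P.ε))) ≤
        3 * F.P.L * (2 * (B * D) + 15 * 1 * (D / (F.P.Tp * F.P.ε))) :=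
      mul_le_mul_of_nonneg_left (by linarith) (by positivity)
    have h7 : Bp * D = 5 * (F.P.ε⁻¹ * D) +
        3 * F.P.L * (2 * (B * D) + 15 * 1 * (D / (F.P.Tp * F.P.ε))) := by
      rw [hBp]
      ring
    rw [h7]
    linarith
  obtain ⟨Ba, hBa⟩ : ∃ Ba : ℝ, Ba = F.P.A * Bs + 2 * F.P.A * Bp := ⟨_, rfl⟩
  have hBa0 : 0 ≤ Ba := by rw [hBa]; positivity
  have halp : ∀ t t' x x', |F.alp t' x' - F.alp t x| ≤ Ba * (|t' - t| + ‖x' - x‖) := by
    intro t t' x x'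
    refine (F.alp_lip hA.le t t' x x').trans ?_
    have h1 := mul_le_mul_of_nonneg_left (hsig t t' x x') hA.le
    have h2 : 2 * F.P.A * F.sig t x * |F.phi t' x' - F.phi t x| ≤
        2 * F.P.A * 1 * (Bp * (|t' - t| + ‖x' - x‖)) := by
      have h3 := F.sig_nonneg t x
      have h4 := F.sig_le t x
      exact mul_le_mul (mul_le_mul_of_nonneg_left h4 (by positivity)) (hphi t t' x x')
        (abs_nonneg _) (by positivity)
    have h3 : Ba * (|t' - t| + ‖x' - x‖) = F.P.A * (Bs * (|t' - t| + ‖x' - x‖)) +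
        2 * F.P.A * 1 * (Bp * (|t' - t| + ‖x' - x‖)) := by
      rw [hBa]
      ring
    rw [h3]
    linarith
  have ha0 : 0 ≤ F.P.a := by linarith
  have hPh0 : ∀ t x, 0 ≤ F.Ph t x := fun t x => le_min (sq_nonneg _) zero_le_one
  have hPh1 : ∀ t x, F.Ph t x ≤ 1 := fun t x => min_le_right _ _
  refine ⟨(B + Ba) + (3 * B + F.P.a * (Bs + 2 * Bp)), ?_, ?_⟩
  · intro t t' x x'
    have hD0 : 0 ≤ |t' - t| + ‖x' - x‖ := by positivity
    have hl := H.lipl t t' x x'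
    have h1 := halp t t' x x'
    have e : F.new.l t' x' - F.new.l t x = (F.c.l t' x' - F.c.l t x) +
        (Real.log (1 + F.alp t' x' ^ 2) - Real.log (1 + F.alp t x ^ 2)) / 2 := by
      unfold Dat.new
      ring
    have h2 : |Real.log (1 + F.alp t' x' ^ 2) - Real.log (1 + F.alp t x ^ 2)| ≤
        2 * |F.alp t' x' - F.alp t x| := by
      refine (InF_log' (sq_nonneg _) (sq_nonneg _)).trans ?_
      have e2 : F.alp t' x' ^ 2 - F.alp t x ^ 2 =
          (F.alp t' x' + F.alp t x) * (F.alp t' x' - F.alp t x) := by ring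
      have h3 := F.alp_nonneg hA.le t x
      have h4 := F.alp_nonneg hA.le t' x'
      have h5 := F.alp_le' hA.le t x
      have h6 := F.alp_le' hA.le t' x'
      rw [e2, abs_mul, abs_of_nonneg (add_nonneg h4 h3)]
      exact mul_le_mul_of_nonneg_right (by linarith) (abs_nonneg _)
    rw [e]
    refine (abs_add_le _ _).trans ?_
    rw [abs_div, abs_two]
    have h7 : 0 ≤ (3 * B + F.P.a * (Bs + 2 * Bp)) * (|t' - t| + ‖x' - x‖) := by positivity
    have h8 : ((B + Ba) + (3 * B + F.P.a * (Bs + 2 * Bp))) * (|t' - t| + ‖x' - x‖) =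
        B * (|t' - t| + ‖x' - x‖) + Ba * (|t' - t| + ‖x' - x‖) +
        (3 * B + F.P.a * (Bs + 2 * Bp)) * (|t' - t| + ‖x' - x‖) := by ring
    rw [h8]
    linarith
  · intro t t' x x'
    have hD0 : 0 ≤ |t' - t| + ‖x' - x‖ := by positivity
    have hl := H.lipl t t' x x'
    have hg := H.lipg t t' x x'
    have h1 := hsig t t' x x'
    have h2 := hphi t t' x x'
    have e : F.new.g t' x' - F.new.g t x = (F.c.g t' x' - F.c.g t x) +
        (F.drop t' x' - F.drop t x) := by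
      unfold Dat.new
      ring
    have h3 : |F.Ph t' x' - F.Ph t x| ≤ 2 * |F.phi t' x' - F.phi t x| := by
      unfold Dat.Ph
      exact InF_sq (F.phi_nonneg t' x') (F.phi_nonneg t x)
    have h4 : |F.sig t' x' * F.Ph t' x' - F.sig t x * F.Ph t x| ≤
        |F.sig t' x' - F.sig t x| + |F.Ph t' x' - F.Ph t x| := by
      have e2 : F.sig t' x' * F.Ph t' x' - F.sig t x * F.Ph t x =
          (F.sig t' x' - F.sig t x) * F.Ph t' x' + F.sig t x * (F.Ph t' x' - F.Ph t x) := by ring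
      rw [e2]
      refine (abs_add_le _ _).trans (add_le_add ?_ ?_)
      · rw [abs_mul, abs_of_nonneg (hPh0 t' x')]
        exact mul_le_of_le_one_right (abs_nonneg _) (hPh1 t' x')
      · rw [abs_mul, abs_of_nonneg (F.sig_nonneg t x)]
        exact mul_le_of_le_one_left (abs_nonneg _) (F.sig_le t x)
    have h5 : |Real.log (1 + F.P.a * F.sig t' x' * F.Ph t' x') -
        Real.log (1 + F.P.a * F.sig t x * F.Ph t x)| ≤
        F.P.a * (|F.sig t' x' - F.sig t x| + |F.Ph t' x' - F.Ph t x|) := by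
      refine (InF_log' ?_ ?_).trans ?_
      · exact mul_nonneg (mul_nonneg ha0 (F.sig_nonneg _ _)) (hPh0 _ _)
      · exact mul_nonneg (mul_nonneg ha0 (F.sig_nonneg _ _)) (hPh0 _ _)
      · have e3 : F.P.a * F.sig t' x' * F.Ph t' x' - F.P.a * F.sig t x * F.Ph t x =
            F.P.a * (F.sig t' x' * F.Ph t' x' - F.sig t x * F.Ph t x) := by ring
        rw [e3, abs_mul, abs_of_nonneg ha0]
        exact mul_le_mul_of_nonneg_left h4 ha0
    have h6 : |max (F.c.mu t' x' - F.P.lf) 0 - max (F.c.mu t x - F.P.lf) 0| ≤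
        |F.c.g t' x' - F.c.g t x| + |F.c.l t' x' - F.c.l t x| := by
      have h7 := abs_max_sub_max_le_max (F.c.mu t' x' - F.P.lf) 0 (F.c.mu t x - F.P.lf) 0
      rw [sub_self, abs_zero, max_eq_left (abs_nonneg (F.c.mu t' x' - F.P.lf -
        (F.c.mu t x - F.P.lf)))] at h7
      refine h7.trans ?_
      have e4 : F.c.mu t' x' - F.P.lf - (F.c.mu t x - F.P.lf) =
          -(F.c.g t' x' - F.c.g t x) - (F.c.l t' x' - F.c.l t x) := by
        unfold Cfg.mu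
        ring
      rw [e4]
      refine (abs_sub _ _).trans ?_
      rw [abs_neg]
    have h8 : |F.drop t' x' - F.drop t x| ≤
        F.P.a * (|F.sig t' x' - F.sig t x| + |F.Ph t' x' - F.Ph t x|) +
        (|F.c.g t' x' - F.c.g t x| + |F.c.l t' x' - F.c.l t x|) := by
      unfold Dat.drop
      refine (abs_min_sub_min_le_max _ _ _ _).trans ?_
      refine max_le ?_ ?_
      · refine h5.trans (le_add_of_nonneg_right (by positivity))
      · refine h6.trans (le_add_of_nonneg_left (by positivity))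
    have h9 : F.P.a * (|F.sig t' x' - F.sig t x| + |F.Ph t' x' - F.Ph t x|) ≤
        F.P.a * ((Bs + 2 * Bp) * (|t' - t| + ‖x' - x‖)) := by
      refine mul_le_mul_of_nonneg_left ?_ ha0
      have : (Bs + 2 * Bp) * (|t' - t| + ‖x' - x‖) =
        Bs * (|t' - t| + ‖x' - x‖) + 2 * (Bp * (|t' - t| + ‖x' - x‖)) := by ring
      rw [this]
      linarith
    rw [e]
    refine (abs_add_le _ _).trans ?_
    have h10 : 0 ≤ (B + Ba) * (|t' - t| + ‖x' - x‖) := by positivity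
    have h11 : ((B + Ba) + (3 * B + F.P.a * (Bs + 2 * Bp))) * (|t' - t| + ‖x' - x‖) =
        (B + Ba) * (|t' - t| + ‖x' - x‖) + 3 * (B * (|t' - t| + ‖x' - x‖)) +
        F.P.a * ((Bs + 2 * Bp) * (|t' - t| + ‖x' - x‖)) := by ring
    rw [h11]
    linarith

end Pool.Agent.H31.QH
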