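import Pool.Agent.H31.QH.InC
import Pool.Agent.H31.QH.InE

/-!
Row InG (MP_b924dd_QH): near-linearity of the new configuration.  Uses the statements of NeaA, InB2, InC, InE (and InA, proved).

Fix `(t,x)`, `x1 = F.Gm t x`, `‖x1 - x‖ ≤ ε` (inC_size), `κ = F.kap B`, `B ≤ κ/100`, `m = min σ (1/L+φ) ∈ [0,1]`, `s = sq1 (alp t x)`.
`hξ : 20 e^Λ κ ε ≤ ξ`, where `0 ≤ l ≤ Λ`, so `Bε ≤ 1/100`-small: `κε ≤ 1` gives `Bε ≤ 1/100`.
(1) `e1 := Eb E0 E1 θ (mu t x1) ≤ Eb E0 E1 θ (mu t x) + E1·2Bε` (`c01` 1-Lipschitz, `mu` 2B-Lipschitz) `≤ 1/2 + Bε ≤ 1`.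
(2) nea_comp (ζ = F.c.z, g = F.Gm): NearLin of `new.z` with `lam = e^{l(t,x1)} s`, error `ec = e1 + eg + e1 eg ≤ e1 + 2eg`,
    `eg = 1000 A m + κε`, and `qc = q + (1+e1) e^{l(t,x1)} (500 A L e^{-l(t,x)}/Tp + κε)`.
    `e^{l(t,x1)} ≤ e^{Bε} e^{l(t,x)} ≤ 1.1 e^{l(t,x)}`, `1+e1 ≤ 1.6`: `qc ≤ q + 2000AL/Tp + 2e^Λ κε ≤ q + 2000AL/Tp + ξ`.
(3) `exp(new.l t x) = e^{l(t,x)} s` (`s = √(1+α²)`, `log(1+α²)/2 = log s`); `|e^{l(t,x)} s - e^{l(t,x1)} s| ≤ 2Bε e^{l(t,x)} s`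
    (`|e^u - 1| ≤ 2|u|` for `|u| ≤ 1`).  nea_scale with `2Bε`: final error `≤ ec(1+2Bε) + 2Bε ≤ ec + 6Bε`
    (`ec ≤ 1 + 2(1/2 + 1)... ≤ 2`: `1000 A ≤ 1/2`, `κε ≤ ξ/20`; if `ec > 2` is possible bound `ec ≤ 4`, then `+10Bε`).
    Total `≤ Eb(mu t x) + 2000 A m + (2κ + 11B)ε ≤ Eb(mu t x) + 2000 A m + ξ`.
(4) potential: claim `Eb E0 E1 θ (mu t x) + 2000 A m + ξ ≤ Eb (E0 + 2000A(1/L+pm+sm) + ξ) E1 θ (new.mu t x)`.
    If `σ < sm` or `φ < pm`: `m ≤ 1/L + pm + sm`, and `c01 (θ - mu) ≤ c01 (θ - new.mu)` (inE: `new.mu ≤ mu`; `E1 ≥ 0`).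
    Otherwise `σ ≥ sm > 0`, so `mu > l0 ≥ θ`, `c01(θ - mu) = 0`, and `new.mu ≤ θ - 1` (inE, event), `c01 (θ - new.mu) = 1`; `2000 A m ≤ 2000A ≤ E1`.
Conclude with nea_mono.
-/

namespace Pool.Agent.H31.QH

open Filter Topology

variable {E : Type*} [NormedAddCommGroup E] [InnerProductSpace ℝ E] [CompleteSpace E]

/-- real-number bounds for the errors -/
theorem inG_num {A m κε Bε e1 e0 ξ : ℝ} (hA : 0 ≤ A) (hA' : A ≤ 1 / 2000) (hm : 0 ≤ m) (hm1 : m ≤ 1)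
    (hκ : 0 ≤ κε) (hκ1 : κε ≤ 1) (hB : 0 ≤ Bε) (hBκ : 100 * Bε ≤ κε) (_ : 0 ≤ e1) (he1 : e1 ≤ 1 / 2)
    (he0 : e1 ≤ e0 + Bε) (hξ : 20 * κε ≤ ξ) :
    (e1 + (1000 * A * m + κε) + e1 * (1000 * A * m + κε)) * (1 + 2 * Bε) + 2 * Bε ≤ e0 + 2000 * A * m + ξ := by
  have hAm : 0 ≤ A * m := mul_nonneg hA hm
  have hAm1 : 1000 * A * m ≤ 1 / 2 := by
    have : A * m ≤ A * 1 := mul_le_mul_of_nonneg_left hm1 hA
    linarith
  set eg := 1000 * A * m + κε with heg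
  have heg0 : 0 ≤ eg := by
    rw [heg]
    have : 1000 * A * m = 1000 * (A * m) := by ring
    linarith
  have heg1 : eg ≤ 3 / 2 := by
    rw [heg]
    linarith
  have h1 : e1 * eg ≤ 1 / 2 * eg := mul_le_mul_of_nonneg_right he1 heg0
  have h2 : e1 + eg + e1 * eg ≤ 11 / 4 := by linarith
  have h3 : (e1 + eg + e1 * eg) * (2 * Bε) ≤ 11 / 4 * (2 * Bε) :=
    mul_le_mul_of_nonneg_right h2 (by linarith)
  have h4 : (e1 + eg + e1 * eg) * (1 + 2 * Bε) = (e1 + eg + e1 * eg) + (e1 + eg + e1 * eg) * (2 * Bε) := by ring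
  rw [h4]
  have h5 : 2000 * A * m = 2000 * (A * m) := by ring
  have h6 : 1000 * A * m = 1000 * (A * m) := by ring
  rw [h5]
  rw [h6] at heg
  linarith

theorem inG_sq1 (α : ℝ) : Real.exp (Real.log (1 + α ^ 2) / 2) = sq1 α := by
  unfold sq1
  have h : 0 < 1 + α ^ 2 := by positivity
  rw [← Real.log_sqrt h.le, Real.exp_log (Real.sqrt_pos.2 h)]

theorem inG (F : Dat E) (B : ℝ) (H : Hyp F B) (hlo : ∀ t x, F.P.Hf ≤ F.c.mu t x)
    (hhi : ∀ t x, F.c.mu t x ≤ F.P.l1 + F.P.G) (hlf : F.P.lf + 1 ≤ F.P.l0)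
    (Λ : ℝ) (hΛ : ∀ t x, F.c.l t x ≤ Λ) (E0 E1 θ q : ℝ) (hE0 : 0 ≤ E0) (hE1 : 2000 * F.P.A ≤ E1)
    (hE : E0 + E1 ≤ 1 / 2) (hq : 0 ≤ q) (hθ : θ ≤ F.P.l0) (hlθ : F.P.lf ≤ θ - 1)
    (sm pm : ℝ) (hsm : 0 < sm) (hpm : 0 < pm) (hpm' : pm ≤ 1)
    (hdrop : F.P.l1 + F.P.G - Real.log (1 + F.P.a * sm * pm ^ 2) ≤ θ - 1)
    (hnear : ∀ t x, NearLin F.c.z t x (Real.exp (F.c.l t x)) (Eb E0 E1 θ (F.c.mu t x)) q)
    (ξ : ℝ) (hξ : 20 * Real.exp Λ * F.kap B * F.P.ε ≤ ξ) (t : ℝ) (x : XX E) :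
    NearLin F.new.z t x (Real.exp (F.new.l t x))
      (Eb (E0 + 2000 * F.P.A * (1 / F.P.L + pm + sm) + ξ) E1 θ (F.new.mu t x))
      (q + 2000 * F.P.A * F.P.L / F.P.Tp + ξ) := by
  have hA := H.hA
  have hA' := H.hA'
  have hL := H.hL
  have hTp := H.hTp
  have hε := H.hε
  have hB := H.hB
  have hG := H.Gpos
  have hE1p : 0 < E1 := by linarith
  -- the constants
  have hκB : 100 * B ≤ F.kap B := by
    unfold Dat.kap
    have h1 : 0 ≤ B / F.P.G := by positivity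
    nlinarith
  set κε := F.kap B * F.P.ε with hκε
  set Bε := B * F.P.ε with hBε
  have hBε0 : 0 ≤ Bε := by positivity
  have hBκ : 100 * Bε ≤ κε := by
    rw [hκε, hBε]
    calc 100 * (B * F.P.ε) = 100 * B * F.P.ε := by ring
      _ ≤ _ := mul_le_mul_of_nonneg_right hκB hε.le
  have hκ1 : κε ≤ 1 := H.small
  have hκ0 : 0 ≤ κε := by linarith
  have hΛ0 : 0 ≤ Λ := (H.lnn t x).trans (hΛ t x)
  have heΛ : 1 ≤ Real.exp Λ := by
    have := Real.add_one_le_exp Λ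
    linarith
  have hξ' : 20 * (Real.exp Λ * κε) ≤ ξ := by
    calc 20 * (Real.exp Λ * κε) = 20 * Real.exp Λ * F.kap B * F.P.ε := by rw [hκε]; ring
      _ ≤ ξ := hξ
  have hκΛ : κε ≤ Real.exp Λ * κε := le_mul_of_one_le_left hκ0 heΛ
  have hξκ : 20 * κε ≤ ξ := by linarith
  have hξ0 : 0 ≤ ξ := by linarith
  -- the new point
  set x1 := F.Gm t x with hx1
  have hsz : ‖x1 - x‖ ≤ F.P.ε := inC_size F B H t x
  have hdl : |F.c.l t x1 - F.c.l t x| ≤ Bε := by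
    have h1 := H.lipl t t x x1
    rw [sub_self, abs_zero, zero_add] at h1
    exact h1.trans (mul_le_mul_of_nonneg_left hsz (by linarith))
  have hdg : |F.c.g t x1 - F.c.g t x| ≤ Bε := by
    have h1 := H.lipg t t x x1
    rw [sub_self, abs_zero, zero_add] at h1
    exact h1.trans (mul_le_mul_of_nonneg_left hsz (by linarith))
  have hdmu : |F.c.mu t x1 - F.c.mu t x| ≤ 2 * Bε := by
    have e : F.c.mu t x1 - F.c.mu t x = -(F.c.g t x1 - F.c.g t x) - (F.c.l t x1 - F.c.l t x) := by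
      unfold Cfg.mu
      ring
    rw [e]
    refine (abs_sub _ _).trans ?_
    rw [abs_neg]
    linarith
  -- the error potentials
  set e1 := Eb E0 E1 θ (F.c.mu t x1) with he1
  set e0 := Eb E0 E1 θ (F.c.mu t x) with he0
  have he1n : 0 ≤ e1 := by
    rw [he1]
    unfold Eb
    have := mul_nonneg hE1p.le (c01_nonneg (θ - F.c.mu t x1))
    linarith
  have he1l : e1 ≤ 1 / 2 := by
    rw [he1]
    unfold Eb
    have := mul_le_mul_of_nonneg_left (c01_le_one (θ - F.c.mu t x1)) hE1p.le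
    linarith
  have he10 : e1 ≤ e0 + Bε := by
    rw [he1, he0]
    unfold Eb
    have h1 := (abs_le.1 (c01_lip (θ - F.c.mu t x1) (θ - F.c.mu t x))).2
    have h2 : |(θ - F.c.mu t x1) - (θ - F.c.mu t x)| ≤ 2 * Bε := by
      have e : (θ - F.c.mu t x1) - (θ - F.c.mu t x) = -(F.c.mu t x1 - F.c.mu t x) := by ring
      rw [e, abs_neg]
      exact hdmu
    have h3 : E1 * (c01 (θ - F.c.mu t x1) - c01 (θ - F.c.mu t x)) ≤ E1 * (2 * Bε) :=
      mul_le_mul_of_nonneg_left (h1.trans h2) hE1p.le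
    have h4 : E1 * (2 * Bε) ≤ 1 / 2 * (2 * Bε) := mul_le_mul_of_nonneg_right (by linarith) (by linarith)
    nlinarith
  -- the insertion map
  set m := min (F.sig t x) (1 / F.P.L + F.phi t x) with hm
  have hL0 : 0 < F.P.L := by linarith
  have hm0 : 0 ≤ m := le_min (F.sig_nonneg t x) (add_nonneg (by positivity) (F.phi_nonneg t x))
  have hm1 : m ≤ 1 := (min_le_left _ _).trans (F.sig_le t x)
  have hAm : 0 ≤ F.P.A * m := mul_nonneg hA.le hm0
  have hgm := inB2 F B H t x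
  rw [← hm, ← hκε] at hgm
  set s := sq1 (F.alp t x) with hs
  have hs0 : 0 < s := by
    rw [hs]
    unfold sq1
    exact Real.sqrt_pos.2 (by positivity)
  set qg := 500 * F.P.A * F.P.L * Real.exp (-(F.c.l t x)) / F.P.Tp + κε with hqg
  have hqg0 : 0 ≤ qg := by positivity
  have heg0 : 0 ≤ 1000 * F.P.A * m + κε := by
    have : 1000 * F.P.A * m = 1000 * (F.P.A * m) := by ring
    linarith
  have hcomp : NearLin (fun t x => F.c.z t (F.Gm t x)) t x (Real.exp (F.c.l t x1) * s)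
      (e1 + (1000 * F.P.A * m + κε) + e1 * (1000 * F.P.A * m + κε)) (q + (1 + e1) * Real.exp (F.c.l t x1) * qg) :=
    nea_comp (ζ := F.c.z) (g := F.Gm) (t := t) (x := x) (hnear t (F.Gm t x)) hgm (Real.exp_pos _).le hs0.le he1n heg0 hq hqg0
  -- change of the factor
  have hl' : Real.exp (F.new.l t x) = Real.exp (F.c.l t x) * s := by
    show Real.exp (F.c.l t x + Real.log (1 + F.alp t x ^ 2) / 2) = _
    rw [Real.exp_add, inG_sq1]
  have hBε1 : Bε ≤ 1 / 100 := by linarith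
  have hsc : |Real.exp (F.c.l t x) * s - Real.exp (F.c.l t x1) * s| ≤ 2 * Bε * (Real.exp (F.c.l t x) * s) := by
    have e : Real.exp (F.c.l t x) * s - Real.exp (F.c.l t x1) * s =
        -((Real.exp (F.c.l t x1 - F.c.l t x) - 1) * (Real.exp (F.c.l t x) * s)) := by
      have h1 : Real.exp (F.c.l t x1) = Real.exp (F.c.l t x1 - F.c.l t x) * Real.exp (F.c.l t x) := by
        rw [← Real.exp_add, sub_add_cancel]
      rw [h1]
      ring
    have hp : 0 < Real.exp (F.c.l t x) * s := mul_pos (Real.exp_pos _) hs0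
    rw [e, abs_neg, abs_mul, abs_of_pos hp]
    refine mul_le_mul_of_nonneg_right ?_ hp.le
    have h2 := Real.abs_exp_sub_one_le (hdl.trans (by linarith) : |F.c.l t x1 - F.c.l t x| ≤ 1)
    linarith
  have hscale := nea_scale hcomp (mul_pos (Real.exp_pos _) hs0) (mul_pos (Real.exp_pos _) hs0) (by positivity) hsc
  rw [hl']
  refine nea_mono hscale (mul_pos (Real.exp_pos _) hs0).le ?_ ?_
  · refine (inG_num hA.le hA' hm0 hm1 hκ0 hκ1 hBε0 hBκ he1n he1l he10 hξκ).trans ?_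
    -- the potential
    have hr : 0 ≤ 1 / F.P.L := by positivity
    obtain ⟨-, -, hmu, hev⟩ := inE F B H hlo hhi hlf t x
    rw [he0]
    unfold Eb
    by_cases hcase : sm ≤ F.sig t x ∧ pm ≤ F.phi t x
    · obtain ⟨h1, h2⟩ := hcase
      have h3 := hev sm pm θ hsm hpm hpm' h1 h2 hlθ hdrop
      have h4 : F.P.l0 < F.c.mu t x := by
        have h5 : F.sig t x ≠ 0 := (lt_of_lt_of_le hsm h1).ne'
        have h6 := c01_pos_iff.1 h5
        by_contra hc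
        push Not at hc
        exact absurd h6 (not_lt.2 (div_nonpos_of_nonpos_of_nonneg (by linarith) hG.le))
      rw [c01_of_le_zero (by linarith : θ - F.c.mu t x ≤ 0), c01_of_one_le (by linarith : 1 ≤ θ - F.new.mu t x)]
      have h7 : 2000 * F.P.A * m ≤ 2000 * F.P.A * 1 := mul_le_mul_of_nonneg_left hm1 (by linarith)
      have h8 : 0 ≤ 2000 * F.P.A * (1 / F.P.L + pm + sm) := mul_nonneg (by linarith) (by linarith)
      linarith
    · have h1 : m ≤ 1 / F.P.L + pm + sm := by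
        rw [not_and_or, not_le, not_le] at hcase
        rcases hcase with h | h
        · have := min_le_left (F.sig t x) (1 / F.P.L + F.phi t x)
          rw [← hm] at this
          linarith
        · have := min_le_right (F.sig t x) (1 / F.P.L + F.phi t x)
          rw [← hm] at this
          linarith
      have h2 : c01 (θ - F.c.mu t x) ≤ c01 (θ - F.new.mu t x) := c01_mono (by linarith)
      have h3 := mul_le_mul_of_nonneg_left h2 hE1p.le
      have h4 : 2000 * F.P.A * m ≤ 2000 * F.P.A * (1 / F.P.L + pm + sm) :=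
        mul_le_mul_of_nonneg_left h1 (by linarith)
      linarith
  · -- the time error
    have h1 : (1 + e1) * Real.exp (F.c.l t x1) * qg ≤ 3 / 2 * Real.exp (F.c.l t x1) * qg := by
      refine mul_le_mul_of_nonneg_right (mul_le_mul_of_nonneg_right ?_ (Real.exp_pos _).le) hqg0
      linarith
    have h2 : Real.exp (F.c.l t x1) * Real.exp (-(F.c.l t x)) ≤ 4 / 3 := by
      rw [← Real.exp_add]
      have h3 : F.c.l t x1 + -(F.c.l t x) ≤ 1 / 100 := by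
        have := (abs_le.1 hdl).2
        linarith
      have h4 := Real.abs_exp_sub_one_le (by norm_num : |(1 / 100 : ℝ)| ≤ 1)
      have h5 := (abs_le.1 h4).2
      have h6 : |(1 / 100 : ℝ)| = 1 / 100 := by norm_num
      rw [h6] at h5
      have h7 := Real.exp_le_exp.2 h3
      linarith
    have h3 : Real.exp (F.c.l t x1) ≤ Real.exp Λ := Real.exp_le_exp.2 (hΛ t x1)
    have h4 : 3 / 2 * Real.exp (F.c.l t x1) * qg ≤ 2000 * F.P.A * F.P.L / F.P.Tp + ξ := by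
      rw [hqg]
      have e : 3 / 2 * Real.exp (F.c.l t x1) * (500 * F.P.A * F.P.L * Real.exp (-(F.c.l t x)) / F.P.Tp + κε) =
          (750 * F.P.A * F.P.L / F.P.Tp) * (Real.exp (F.c.l t x1) * Real.exp (-(F.c.l t x))) +
            3 / 2 * (Real.exp (F.c.l t x1) * κε) := by
        ring
      rw [e]
      have h5 : (750 * F.P.A * F.P.L / F.P.Tp) * (Real.exp (F.c.l t x1) * Real.exp (-(F.c.l t x))) ≤
          (750 * F.P.A * F.P.L / F.P.Tp) * (4 / 3) := mul_le_mul_of_nonneg_left h2 (by positivity)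
      have h6 : (750 * F.P.A * F.P.L / F.P.Tp) * (4 / 3) ≤ 2000 * F.P.A * F.P.L / F.P.Tp := by
        have e2 : 2000 * F.P.A * F.P.L / F.P.Tp = (750 * F.P.A * F.P.L / F.P.Tp) * (8 / 3) := by ring
        rw [e2]
        exact mul_le_mul_of_nonneg_left (by norm_num) (by positivity)
      have h7 : Real.exp (F.c.l t x1) * κε ≤ Real.exp Λ * κε := mul_le_mul_of_nonneg_right h3 hκ0
      have h8 : 0 ≤ Real.exp Λ * κε := by positivity
      linarith
    linarith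

end Pool.Agent.H31.QH
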