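import Pool.Agent.H31.QH.InA

/-!
Row InH1 (MP_b924dd_QH): pointwise bound for the variation of the added thickness.

`dth t x = exp (new.g t x) - exp (g t x) = e^g (e^{drop} - 1)`.
Symbols: `g, l, mu, σ, φ, Φ` at `x`, the same with `'` at `y` (time `t` fixed), `N = ‖x - y‖`, `κ = F.kap B`, `ψ = F.psi t x y`.
(0) `g ≤ -Hf - l ≤ 0`, since `mu ≥ Hf ≥ 0`, `l ≥ 0`.  `e^{drop} = min (1 + aσΦ) (max (e^{mu-lf}) 1)`, so with
    `u1 = e^g a σ Φ ≥ 0`, `u2 = max (e^{-lf-l} - e^g) 0 = e^g (max (e^{mu-lf}) 1 - 1)`  (`e^{g+mu} = e^{-l}`):  `dth = min u1 u2`.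
(1) if `u1 > u2` then `aΦ ≥ 1`: `u1 > 0` gives `σ > 0`, so `mu > l0 ≥ lf + 1` and `u2 ≥ e^g (e - 1) ≥ e^g`, `u1 ≤ e^g aΦ`.
(2) `|min u1 u2 - min u1' u2'| ≤ |u1-u1'| + a(φ²+φ'²)|u2-u2'|`: if `u1 ≤ u2` and `u1' ≤ u2'` the left side is `|u1-u1'|`; otherwise it is
    `≤ max(|u1-u1'|,|u2-u2'|)` (abs_min_sub_min_le_max) and `a(φ²+φ'²) ≥ 1` by (1) (`Φ ≤ φ²`).
(3) `|u2-u2'| ≤ |e^{-lf-l} - e^{-lf-l'}| + |e^g - e^{g'}| ≤ 2BN` (`|e^u - e^v| ≤ |u-v|` for `u,v ≤ 0`; `lf ≥ 0`).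
(4) `u1-u1' = (e^gσ - e^{g'}σ') aΦ + e^{g'}σ' a(Φ-Φ')`; `|e^gσ - e^{g'}σ'| ≤ BN + 2(B/G)N` (Hyp.sig_lip), `Φ ≤ φ²`;
    `e^{g'}σ' ≤ e^{-l0-l'}` (if `σ' ≠ 0` then `mu' > l0`, `g' = -mu'-l' < -l0-l'`); `|Φ-Φ'| ≤ |φ²-φ'²| = (φ+φ')|φ-φ'|`.
(5) `|φ-φ'| ≤ ψ + cc`, `cc = 6BLN`: `φ = ‖d·ẑ_x‖`, `φ' = ‖d'·ẑ_y‖` with weights at the same time: `‖d·ẑ_x - d'·ẑ_x‖ ≤ 2|l-l'|·3L ≤ 6BLN`
    (norm_mul_sub_mul_le, C.d_lip with `τ' = τ`, S.hat_norm) and `‖d'·(ẑ_x - ẑ_y)‖ = ψ`.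
(6) `(φ+φ')(ψ+cc) ≤ (2φ' + ψ + cc)ψ + (φ+φ')cc = 2φ'ψ + ψ² + cc(ψ+φ+φ')`.
(7) Sum: `a e^{-l0} e^{-l'} (2φ'ψ + ψ²) + a·cc(ψ+φ+φ') + aN(B+2B/G)φ² + 2aBN(φ²+φ'²)` (`e^{-l0-l'} ≤ 1`), and
    `cc ≤ 6κN`, `3B + 2B/G ≤ 10κ`.
-/

namespace Pool.Agent.H31.QH

open Filter Topology

variable {E : Type*} [NormedAddCommGroup E] [InnerProductSpace ℝ E] [CompleteSpace E]

/-- added thickness -/
noncomputable def Dat.dth (F : Dat E) (t : ℝ) (x : XX E) : ℝ :=
  Real.exp (F.new.g t x) - Real.exp (F.c.g t x)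

/-- size of the difference of the truncated vectors in the colours of `y` -/
noncomputable def Dat.psi (F : Dat E) (t : ℝ) (x y : XX E) : ℝ :=
  ‖mul (fun p : PI => F.C.d (F.c.l t y) (F.tau t) p.1) (F.S.hat (F.P.ε⁻¹ • x) - F.S.hat (F.P.ε⁻¹ • y))‖

namespace InH1aux

/-- first candidate for the added thickness -/
noncomputable def u1 (F : Dat E) (t : ℝ) (x : XX E) : ℝ :=
  Real.exp (F.c.g t x) * (F.P.a * F.sig t x * F.Ph t x)

/-- second candidate for the added thickness -/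
noncomputable def u2 (F : Dat E) (t : ℝ) (x : XX E) : ℝ :=
  max (Real.exp (-F.P.lf - F.c.l t x) - Real.exp (F.c.g t x)) 0

theorem Ph_nonneg (F : Dat E) (t : ℝ) (x : XX E) : 0 ≤ F.Ph t x :=
  le_min (sq_nonneg _) zero_le_one

theorem Ph_le (F : Dat E) (t : ℝ) (x : XX E) : F.Ph t x ≤ F.phi t x ^ 2 := min_le_left _ _

theorem base_nonneg (F : Dat E) (ha : 0 ≤ F.P.a) (t : ℝ) (x : XX E) :
    0 ≤ F.P.a * F.sig t x * F.Ph t x :=
  mul_nonneg (mul_nonneg ha (F.sig_nonneg t x)) (Ph_nonneg F t x)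

theorem dth_eq (F : Dat E) (ha : 0 ≤ F.P.a) (t : ℝ) (x : XX E) :
    F.dth t x = min (u1 F t x) (u2 F t x) := by
  have hb := base_nonneg F ha t x
  have hpos : 0 < 1 + F.P.a * F.sig t x * F.Ph t x := by linarith
  have h1 : Real.exp (F.drop t x) =
      min (1 + F.P.a * F.sig t x * F.Ph t x) (max (Real.exp (F.c.mu t x - F.P.lf)) 1) := by
    unfold Dat.drop
    rw [Real.exp_monotone.map_min, Real.exp_monotone.map_max, Real.exp_log hpos, Real.exp_zero]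
  have h2 : F.dth t x = Real.exp (F.c.g t x) * (Real.exp (F.drop t x) - 1) := by
    unfold Dat.dth
    have : F.new.g t x = F.c.g t x + F.drop t x := rfl
    rw [this, Real.exp_add]
    ring
  have h3 : u2 F t x = Real.exp (F.c.g t x) * (max (Real.exp (F.c.mu t x - F.P.lf)) 1 - 1) := by
    unfold u2
    have e1 : Real.exp (-F.P.lf - F.c.l t x) =
        Real.exp (F.c.g t x) * Real.exp (F.c.mu t x - F.P.lf) := by
      rw [← Real.exp_add]
      congr 1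
      unfold Cfg.mu
      ring
    have e2 : max (Real.exp (F.c.mu t x - F.P.lf)) 1 - 1 =
        max (Real.exp (F.c.mu t x - F.P.lf) - 1) 0 := by
      rw [← max_sub_sub_right, sub_self]
    rw [e1, e2, mul_max_of_nonneg _ _ (Real.exp_pos _).le]
    congr 1
    · ring
    · ring
  rw [h2, h1, h3]
  unfold u1
  rw [← mul_min_of_nonneg _ _ (Real.exp_pos _).le]
  congr 1
  rw [← min_sub_sub_right]
  congr 1
  ring

theorem g_le (F : Dat E) (hlo : ∀ t x, F.P.Hf ≤ F.c.mu t x) (hHf : 0 ≤ F.P.Hf) (t : ℝ) (x : XX E) :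
    F.c.g t x ≤ - F.c.l t x := by
  have h := hlo t x
  unfold Cfg.mu at h
  linarith

theorem exp_sub_le {u v : ℝ} (hu : u ≤ 0) (hv : v ≤ 0) : |Real.exp u - Real.exp v| ≤ |u - v| := by
  have key : ∀ a b : ℝ, a ≤ 0 → b ≤ a → Real.exp a - Real.exp b ≤ a - b := by
    intro a b ha hba
    have h1 : Real.exp b = Real.exp a * Real.exp (b - a) := by
      rw [← Real.exp_add]
      congr 1
      ring
    have h2 : (b - a) + 1 ≤ Real.exp (b - a) := Real.add_one_le_exp _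
    have h3 : Real.exp a ≤ 1 := Real.exp_le_one_iff.mpr ha
    have h4 : 0 < Real.exp a := Real.exp_pos _
    rw [h1]
    have h5 : Real.exp (b - a) ≤ 1 := Real.exp_le_one_iff.mpr (by linarith)
    nlinarith
  rcases le_total v u with h | h
  · rw [abs_of_nonneg (sub_nonneg.mpr (Real.exp_le_exp.mpr h)), abs_of_nonneg (sub_nonneg.mpr h)]
    exact key u v hu h
  · rw [abs_sub_comm, abs_sub_comm u v,
      abs_of_nonneg (sub_nonneg.mpr (Real.exp_le_exp.mpr h)), abs_of_nonneg (sub_nonneg.mpr h)]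
    exact key v u hv h

/-- (1) where `u1 > u2` the number `a φ²` is at least one -/
theorem one_le (F : Dat E) (B : ℝ) (H : Hyp F B) (hlf : F.P.lf + 1 ≤ F.P.l0) (t : ℝ) (x : XX E)
    (h : u2 F t x < u1 F t x) : 1 ≤ F.P.a * F.phi t x ^ 2 := by
  have ha : 0 ≤ F.P.a := zero_le_one.trans H.ha
  have h0 : 0 ≤ u2 F t x := le_max_right _ _
  have hu1 : 0 < u1 F t x := lt_of_le_of_lt h0 h
  have hσ : F.sig t x ≠ 0 := by
    intro hs
    unfold u1 at hu1
    rw [hs] at hu1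
    simp at hu1
  have hG := H.Gpos
  have hmu : F.P.l0 < F.c.mu t x := by
    unfold Dat.sig at hσ
    have := c01_pos_iff.mp hσ
    have h2 := (div_pos_iff_of_pos_right hG).mp this
    linarith
  have h3 : Real.exp (F.c.g t x) ≤ u2 F t x := by
    unfold u2
    refine le_trans ?_ (le_max_left _ _)
    have e1 : Real.exp (-F.P.lf - F.c.l t x) =
        Real.exp (F.c.g t x) * Real.exp (F.c.mu t x - F.P.lf) := by
      rw [← Real.exp_add]
      congr 1
      unfold Cfg.mu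
      ring
    have e2 : (2 : ℝ) ≤ Real.exp (F.c.mu t x - F.P.lf) := by
      have := Real.add_one_le_exp (F.c.mu t x - F.P.lf)
      linarith
    rw [e1]
    nlinarith [Real.exp_pos (F.c.g t x)]
  have h4 : u1 F t x ≤ Real.exp (F.c.g t x) * (F.P.a * F.phi t x ^ 2) := by
    unfold u1
    refine mul_le_mul_of_nonneg_left ?_ (Real.exp_pos _).le
    have h5 : F.P.a * F.sig t x ≤ F.P.a := mul_le_of_le_one_right ha (F.sig_le t x)
    calc F.P.a * F.sig t x * F.Ph t x ≤ F.P.a * F.Ph t x :=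
          mul_le_mul_of_nonneg_right h5 (Ph_nonneg F t x)
      _ ≤ F.P.a * F.phi t x ^ 2 := mul_le_mul_of_nonneg_left (Ph_le F t x) ha
  have h6 : Real.exp (F.c.g t x) * 1 < Real.exp (F.c.g t x) * (F.P.a * F.phi t x ^ 2) := by
    rw [mul_one]
    linarith
  exact (lt_of_mul_lt_mul_left h6 (Real.exp_pos _).le).le

/-- (2) -/
theorem min_diff (F : Dat E) (B : ℝ) (H : Hyp F B) (hlf : F.P.lf + 1 ≤ F.P.l0) (t : ℝ) (x y : XX E) :
    |min (u1 F t x) (u2 F t x) - min (u1 F t y) (u2 F t y)| ≤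
      |u1 F t x - u1 F t y| +
        F.P.a * (F.phi t x ^ 2 + F.phi t y ^ 2) * |u2 F t x - u2 F t y| := by
  have ha : 0 ≤ F.P.a := zero_le_one.trans H.ha
  have hx2 : 0 ≤ F.P.a * F.phi t x ^ 2 := by positivity
  have hy2 : 0 ≤ F.P.a * F.phi t y ^ 2 := by positivity
  have hd2 := abs_nonneg (u2 F t x - u2 F t y)
  have hd1 := abs_nonneg (u1 F t x - u1 F t y)
  by_cases h : u1 F t x ≤ u2 F t x ∧ u1 F t y ≤ u2 F t y
  · rw [min_eq_left h.1, min_eq_left h.2]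
    have : 0 ≤ F.P.a * (F.phi t x ^ 2 + F.phi t y ^ 2) * |u2 F t x - u2 F t y| := by positivity
    linarith
  · have h1 : 1 ≤ F.P.a * (F.phi t x ^ 2 + F.phi t y ^ 2) := by
      rw [not_and_or] at h
      rcases h with h | h
      · have := one_le F B H hlf t x (not_le.mp h)
        linarith
      · have := one_le F B H hlf t y (not_le.mp h)
        linarith
    have h2 := abs_min_sub_min_le_max (u1 F t x) (u2 F t x) (u1 F t y) (u2 F t y)
    have h3 : |u2 F t x - u2 F t y| ≤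
        F.P.a * (F.phi t x ^ 2 + F.phi t y ^ 2) * |u2 F t x - u2 F t y| :=
      le_mul_of_one_le_left hd2 h1
    refine h2.trans (max_le ?_ ?_)
    · linarith
    · linarith

/-- (5) -/
theorem phi_diff (F : Dat E) (B : ℝ) (H : Hyp F B) (t : ℝ) (x y : XX E) :
    |F.phi t x - F.phi t y| ≤ F.psi t x y + 6 * B * F.P.L * ‖x - y‖ := by
  set d : PI → ℝ := fun p => F.C.d (F.c.l t x) (F.tau t) p.1 with hd
  set d' : PI → ℝ := fun p => F.C.d (F.c.l t y) (F.tau t) p.1 with hd'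
  set zx := F.S.hat (F.P.ε⁻¹ • x) with hzx
  set zy := F.S.hat (F.P.ε⁻¹ • y) with hzy
  have h1 : |F.phi t x - F.phi t y| ≤ ‖mul d zx - mul d' zy‖ := abs_norm_sub_norm_le _ _
  have e : mul d zx - mul d' zy = (mul d zx - mul d' zx) + mul d' (zx - zy) := by
    rw [mul_sub]
    abel
  have hl : |F.c.l t x - F.c.l t y| ≤ B * ‖x - y‖ := by
    have := H.lipl t t y x
    simpa using this
  have h2 : ‖mul d zx - mul d' zx‖ ≤ (2 * |F.c.l t x - F.c.l t y|) * ‖zx‖ := by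
    refine norm_mul_sub_mul_le d d' _ (by positivity) (fun p => ?_)
    have := F.C.d_lip (F.c.l t y) (F.c.l t x) (F.tau t) (F.tau t) p.1
    simpa using this
  have h3 : ‖zx‖ ≤ 3 * F.P.L := F.S.hat_norm _
  have h4 : (2 * |F.c.l t x - F.c.l t y|) * ‖zx‖ ≤ 6 * B * F.P.L * ‖x - y‖ := by
    have hL : 0 ≤ F.P.L := le_trans (by norm_num) H.hL
    calc (2 * |F.c.l t x - F.c.l t y|) * ‖zx‖
        ≤ (2 * (B * ‖x - y‖)) * (3 * F.P.L) := by
          refine mul_le_mul (by linarith) h3 (norm_nonneg _) ?_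
          have := H.hB
          positivity
      _ = 6 * B * F.P.L * ‖x - y‖ := by ring
  have h5 : ‖mul d zx - mul d' zy‖ ≤ ‖mul d zx - mul d' zx‖ + ‖mul d' (zx - zy)‖ := by
    rw [e]
    exact norm_add_le _ _
  have h6 : F.psi t x y = ‖mul d' (zx - zy)‖ := rfl
  rw [h6]
  linarith

theorem sigexp_le (F : Dat E) (B : ℝ) (H : Hyp F B) (t : ℝ) (y : XX E) :
    Real.exp (F.c.g t y) * F.sig t y ≤ Real.exp (-F.P.l0) * Real.exp (-(F.c.l t y)) := by
  by_cases hσ : F.sig t y = 0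
  · rw [hσ, mul_zero]
    positivity
  · have hG := H.Gpos
    have hmu : F.P.l0 < F.c.mu t y := by
      unfold Dat.sig at hσ
      have := c01_pos_iff.mp hσ
      have h2 := (div_pos_iff_of_pos_right hG).mp this
      linarith
    have h1 : Real.exp (F.c.g t y) ≤ Real.exp (-F.P.l0) * Real.exp (-(F.c.l t y)) := by
      rw [← Real.exp_add]
      apply Real.exp_le_exp.mpr
      unfold Cfg.mu at hmu
      linarith
    calc Real.exp (F.c.g t y) * F.sig t y ≤ Real.exp (F.c.g t y) * 1 :=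
          mul_le_mul_of_nonneg_left (F.sig_le t y) (Real.exp_pos _).le
      _ ≤ _ := by rw [mul_one]; exact h1

theorem Ph_diff (F : Dat E) (t : ℝ) (x y : XX E) :
    |F.Ph t x - F.Ph t y| ≤ (F.phi t x + F.phi t y) * |F.phi t x - F.phi t y| := by
  unfold Dat.Ph
  have h := abs_min_sub_min_le_max (F.phi t x ^ 2) 1 (F.phi t y ^ 2) 1
  have e : F.phi t x ^ 2 - F.phi t y ^ 2 =
      (F.phi t x + F.phi t y) * (F.phi t x - F.phi t y) := by ring
  have hp : 0 ≤ F.phi t x + F.phi t y := add_nonneg (F.phi_nonneg t x) (F.phi_nonneg t y)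
  rw [sub_self, abs_zero, max_eq_left (abs_nonneg _), e, abs_mul, abs_of_nonneg hp] at h
  exact h

end InH1aux

open InH1aux

theorem inH1_nonneg (F : Dat E) (B : ℝ) (H : Hyp F B) (t : ℝ) (x : XX E) : 0 ≤ F.dth t x := by
  have ha : 0 ≤ F.P.a := zero_le_one.trans H.ha
  rw [dth_eq F ha]
  exact le_min (mul_nonneg (Real.exp_pos _).le (base_nonneg F ha t x)) (le_max_right _ _)

theorem inH1_le (F : Dat E) (B : ℝ) (H : Hyp F B) (hlo : ∀ t x, F.P.Hf ≤ F.c.mu t x) (hHf : 0 ≤ F.P.Hf)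
    (hlf : F.P.lf + 1 ≤ F.P.l0) (t : ℝ) (x : XX E) :
    F.dth t x ≤ F.P.a * (Real.exp (-(F.c.l t x)) * F.phi t x ^ 2) := by
  have ha : 0 ≤ F.P.a := zero_le_one.trans H.ha
  rw [dth_eq F ha]
  refine (min_le_left _ _).trans ?_
  unfold u1
  have h1 : Real.exp (F.c.g t x) ≤ Real.exp (-(F.c.l t x)) :=
    Real.exp_le_exp.mpr (g_le F hlo hHf t x)
  have h5 : F.P.a * F.sig t x ≤ F.P.a := mul_le_of_le_one_right ha (F.sig_le t x)
  have h2 : F.P.a * F.sig t x * F.Ph t x ≤ F.P.a * F.phi t x ^ 2 :=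
    (mul_le_mul_of_nonneg_right h5 (Ph_nonneg F t x)).trans
      (mul_le_mul_of_nonneg_left (Ph_le F t x) ha)
  calc Real.exp (F.c.g t x) * (F.P.a * F.sig t x * F.Ph t x)
      ≤ Real.exp (-(F.c.l t x)) * (F.P.a * F.phi t x ^ 2) :=
        mul_le_mul h1 h2 (base_nonneg F ha t x) (Real.exp_pos _).le
    _ = _ := by ring

theorem inH1 (F : Dat E) (B : ℝ) (H : Hyp F B) (hlo : ∀ t x, F.P.Hf ≤ F.c.mu t x) (hHf : 0 ≤ F.P.Hf)
    (hlf : F.P.lf + 1 ≤ F.P.l0) (t : ℝ) (x y : XX E) :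
    |F.dth t x - F.dth t y| ≤
      F.P.a * Real.exp (-F.P.l0) * (Real.exp (-(F.c.l t y)) *
        (2 * F.phi t y * F.psi t x y + F.psi t x y ^ 2)) +
      10 * F.P.a * F.kap B * ‖x - y‖ *
        (F.psi t x y + F.phi t x + F.phi t y + F.phi t x ^ 2 + F.phi t y ^ 2) := by
  have ha : 0 ≤ F.P.a := zero_le_one.trans H.ha
  have hG := H.Gpos
  have hB : 0 ≤ B := zero_le_one.trans H.hB
  have hL : 0 ≤ F.P.L := le_trans (by norm_num) H.hL
  have hL100 := H.hL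
  have hlf0 : 0 ≤ F.P.lf := by
    unfold Prm.lf
    linarith
  have hl0 : 0 ≤ F.P.l0 := by linarith
  rw [dth_eq F ha, dth_eq F ha]
  set N := ‖x - y‖ with hN
  have hN0 : 0 ≤ N := norm_nonneg _
  set ψ := F.psi t x y with hψ
  have hψ0 : 0 ≤ ψ := norm_nonneg _
  set φ := F.phi t x with hφ
  have hφ0 : 0 ≤ φ := F.phi_nonneg t x
  set φ' := F.phi t y with hφ'
  have hφ'0 : 0 ≤ φ' := F.phi_nonneg t y
  have hl : |F.c.l t x - F.c.l t y| ≤ B * N := by
    have := H.lipl t t y x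
    simpa using this
  have hg : |F.c.g t x - F.c.g t y| ≤ B * N := by
    have := H.lipg t t y x
    simpa using this
  have hs : |F.sig t x - F.sig t y| ≤ 2 * (B / F.P.G) * N := by
    have := H.sig_lip t t y x
    simpa using this
  have gx : F.c.g t x ≤ 0 := (g_le F hlo hHf t x).trans (neg_nonpos.mpr (H.lnn t x))
  have gy : F.c.g t y ≤ 0 := (g_le F hlo hHf t y).trans (neg_nonpos.mpr (H.lnn t y))
  have hexpg : |Real.exp (F.c.g t x) - Real.exp (F.c.g t y)| ≤ B * N :=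
    (exp_sub_le gx gy).trans hg
  have hexpl : |Real.exp (-F.P.lf - F.c.l t x) - Real.exp (-F.P.lf - F.c.l t y)| ≤ B * N := by
    refine (exp_sub_le (by linarith [H.lnn t x]) (by linarith [H.lnn t y])).trans ?_
    have : (-F.P.lf - F.c.l t x) - (-F.P.lf - F.c.l t y) = -(F.c.l t x - F.c.l t y) := by ring
    rw [this, abs_neg]
    exact hl
  -- (3)
  have h3 : |u2 F t x - u2 F t y| ≤ 2 * B * N := by
    unfold u2
    have h := abs_max_sub_max_le_max (Real.exp (-F.P.lf - F.c.l t x) - Real.exp (F.c.g t x)) 0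
      (Real.exp (-F.P.lf - F.c.l t y) - Real.exp (F.c.g t y)) 0
    refine h.trans (max_le ?_ (by simpa using by positivity))
    have e : (Real.exp (-F.P.lf - F.c.l t x) - Real.exp (F.c.g t x)) -
        (Real.exp (-F.P.lf - F.c.l t y) - Real.exp (F.c.g t y)) =
        (Real.exp (-F.P.lf - F.c.l t x) - Real.exp (-F.P.lf - F.c.l t y)) -
        (Real.exp (F.c.g t x) - Real.exp (F.c.g t y)) := by ring
    rw [e]
    refine (abs_sub _ _).trans ?_
    linarith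
  -- (4)
  have h4a : |Real.exp (F.c.g t x) * F.sig t x - Real.exp (F.c.g t y) * F.sig t y| ≤
      B * N + 2 * (B / F.P.G) * N := by
    have e : Real.exp (F.c.g t x) * F.sig t x - Real.exp (F.c.g t y) * F.sig t y =
        (Real.exp (F.c.g t x) - Real.exp (F.c.g t y)) * F.sig t x +
        Real.exp (F.c.g t y) * (F.sig t x - F.sig t y) := by ring
    rw [e]
    refine (abs_add_le _ _).trans (add_le_add ?_ ?_)
    · rw [abs_mul, abs_of_nonneg (F.sig_nonneg t x)]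
      exact (mul_le_of_le_one_right (abs_nonneg _) (F.sig_le t x)).trans hexpg
    · rw [abs_mul, abs_of_nonneg (Real.exp_pos _).le]
      exact (mul_le_of_le_one_left (abs_nonneg _) (Real.exp_le_one_iff.mpr gy)).trans hs
  have h5 : |φ - φ'| ≤ ψ + 6 * B * F.P.L * N := phi_diff F B H t x y
  set cc := 6 * B * F.P.L * N with hcc
  have hcc0 : 0 ≤ cc := by positivity
  have hφle : φ ≤ φ' + ψ + cc := by
    have := (abs_le.mp h5).2
    linarith
  have h6 : |F.Ph t x - F.Ph t y| ≤ (2 * φ' * ψ + ψ ^ 2) + cc * (ψ + φ + φ') := by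
    refine (Ph_diff F t x y).trans ?_
    have h7 : (φ + φ') * |φ - φ'| ≤ (φ + φ') * (ψ + cc) :=
      mul_le_mul_of_nonneg_left h5 (by positivity)
    have h8 : (φ + φ') * (ψ + cc) ≤ (2 * φ' * ψ + ψ ^ 2) + cc * (ψ + φ + φ') := by
      have h9 : φ * ψ ≤ (φ' + ψ + cc) * ψ := mul_le_mul_of_nonneg_right hφle hψ0
      nlinarith
    exact h7.trans h8
  have hsy := sigexp_le F B H t y
  have hsy0 : 0 ≤ Real.exp (F.c.g t y) * F.sig t y :=
    mul_nonneg (Real.exp_pos _).le (F.sig_nonneg t y)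
  have hE1 : Real.exp (-F.P.l0) * Real.exp (-(F.c.l t y)) ≤ 1 := by
    rw [← Real.exp_add]
    exact Real.exp_le_one_iff.mpr (by linarith [H.lnn t y])
  set ee := Real.exp (-F.P.l0) * Real.exp (-(F.c.l t y)) with hee
  have hee0 : 0 ≤ ee := by positivity
  have h10 : |u1 F t x - u1 F t y| ≤ F.P.a * φ ^ 2 * (B * N + 2 * (B / F.P.G) * N) +
      F.P.a * (ee * (2 * φ' * ψ + ψ ^ 2) + cc * (ψ + φ + φ')) := by
    have e : u1 F t x - u1 F t y =
        (Real.exp (F.c.g t x) * F.sig t x - Real.exp (F.c.g t y) * F.sig t y) *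
          (F.P.a * F.Ph t x) +
        (Real.exp (F.c.g t y) * F.sig t y) * F.P.a * (F.Ph t x - F.Ph t y) := by
      unfold u1
      ring
    rw [e]
    refine (abs_add_le _ _).trans (add_le_add ?_ ?_)
    · rw [abs_mul, abs_of_nonneg (mul_nonneg ha (Ph_nonneg F t x))]
      calc |Real.exp (F.c.g t x) * F.sig t x - Real.exp (F.c.g t y) * F.sig t y| *
            (F.P.a * F.Ph t x)
          ≤ (B * N + 2 * (B / F.P.G) * N) * (F.P.a * φ ^ 2) :=
            mul_le_mul h4a (mul_le_mul_of_nonneg_left (Ph_le F t x) ha)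
              (mul_nonneg ha (Ph_nonneg F t x)) (by positivity)
        _ = _ := by ring
    · rw [abs_mul, abs_of_nonneg (mul_nonneg hsy0 ha)]
      have h11 : 0 ≤ (2 * φ' * ψ + ψ ^ 2) := by positivity
      have h12 : 0 ≤ cc * (ψ + φ + φ') := by positivity
      calc Real.exp (F.c.g t y) * F.sig t y * F.P.a * |F.Ph t x - F.Ph t y|
          ≤ ee * F.P.a * ((2 * φ' * ψ + ψ ^ 2) + cc * (ψ + φ + φ')) :=
            mul_le_mul (mul_le_mul_of_nonneg_right hsy ha) h6 (abs_nonneg _) (by positivity)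
        _ = F.P.a * (ee * (2 * φ' * ψ + ψ ^ 2) + ee * (cc * (ψ + φ + φ'))) := by ring
        _ ≤ F.P.a * (ee * (2 * φ' * ψ + ψ ^ 2) + cc * (ψ + φ + φ')) := by
            refine mul_le_mul_of_nonneg_left ?_ ha
            have := mul_le_of_le_one_left h12 hE1
            linarith
  have h13 := min_diff F B H hlf t x y
  have h14 : F.P.a * (φ ^ 2 + φ' ^ 2) * |u2 F t x - u2 F t y| ≤
      F.P.a * (φ ^ 2 + φ' ^ 2) * (2 * B * N) :=
    mul_le_mul_of_nonneg_left h3 (by positivity)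
  have hκ : F.kap B = B / F.P.G + B * F.P.L := rfl
  rw [hκ]
  have hBG : 0 ≤ B / F.P.G := by positivity
  have hBL : 100 * B ≤ B * F.P.L := by nlinarith
  refine h13.trans ?_
  refine (add_le_add h10 h14).trans ?_
  have e1 : F.P.a * Real.exp (-F.P.l0) * (Real.exp (-(F.c.l t y)) * (2 * φ' * ψ + ψ ^ 2)) =
      F.P.a * (ee * (2 * φ' * ψ + ψ ^ 2)) := by
    rw [hee]
    ring
  rw [e1]
  have k1 : F.P.a * (cc * (ψ + φ + φ')) ≤
      10 * F.P.a * (B / F.P.G + B * F.P.L) * N * (ψ + φ + φ') := by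
    rw [hcc]
    have : F.P.a * (6 * B * F.P.L * N * (ψ + φ + φ')) =
        (F.P.a * N * (ψ + φ + φ')) * (6 * (B * F.P.L)) := by ring
    rw [this]
    have : 10 * F.P.a * (B / F.P.G + B * F.P.L) * N * (ψ + φ + φ') =
        (F.P.a * N * (ψ + φ + φ')) * (10 * (B / F.P.G + B * F.P.L)) := by ring
    rw [this]
    refine mul_le_mul_of_nonneg_left ?_ (by positivity)
    nlinarith
  have k2 : F.P.a * φ ^ 2 * (B * N + 2 * (B / F.P.G) * N) + F.P.a * (φ ^ 2 + φ' ^ 2) * (2 * B * N) ≤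
      10 * F.P.a * (B / F.P.G + B * F.P.L) * N * (φ ^ 2 + φ' ^ 2) := by
    have e2 : F.P.a * φ ^ 2 * (B * N + 2 * (B / F.P.G) * N) +
        F.P.a * (φ ^ 2 + φ' ^ 2) * (2 * B * N) =
        (F.P.a * N * φ ^ 2) * (3 * B + 2 * (B / F.P.G)) + (F.P.a * N * φ' ^ 2) * (2 * B) := by ring
    have e3 : 10 * F.P.a * (B / F.P.G + B * F.P.L) * N * (φ ^ 2 + φ' ^ 2) =
        (F.P.a * N * φ ^ 2) * (10 * (B / F.P.G + B * F.P.L)) +
        (F.P.a * N * φ' ^ 2) * (10 * (B / F.P.G + B * F.P.L)) := by ring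
    rw [e2, e3]
    refine add_le_add (mul_le_mul_of_nonneg_left ?_ (by positivity))
      (mul_le_mul_of_nonneg_left ?_ (by positivity))
    · nlinarith
    · nlinarith
  have e4 : 10 * F.P.a * (B / F.P.G + B * F.P.L) * N * (ψ + φ + φ' + φ ^ 2 + φ' ^ 2) =
      10 * F.P.a * (B / F.P.G + B * F.P.L) * N * (ψ + φ + φ') +
      10 * F.P.a * (B / F.P.G + B * F.P.L) * N * (φ ^ 2 + φ' ^ 2) := by ring
  have e5 : F.P.a * (ee * (2 * φ' * ψ + ψ ^ 2) + cc * (ψ + φ + φ')) =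
      F.P.a * (ee * (2 * φ' * ψ + ψ ^ 2)) + F.P.a * (cc * (ψ + φ + φ')) := by ring
  rw [e4, e5]
  linarith

end Pool.Agent.H31.QH
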