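import Pool.Agent.H31.QH.InH1
import Pool.Agent.H31.QH.BesA

/-!
Row InH2 (MP_b924dd_QH): the integrated bound.  Uses the statements of InH1 and BesA (and InA, proved).

Fix `x, y`, `N = ‖x-y‖`; if `N = 0` both sides are 0.  `Δ = ε⁻¹N > 0`, `w = ẑ_x - ẑ_y` (`ẑ_x = F.S.hat (ε⁻¹ x)`), `‖w‖ ≤ 5Δ` (S.hat_lip, unfold Sel.hat) and
`‖w‖ ≤ 6L` (S.hat_norm), so `‖w‖² ≤ 30LΔ`.  `F.tau t = t/(Tp ε)`.
BESSEL (besA with `κ = Tp ε`, `u t = F.c.l t y` resp. `F.c.l t x`, which is continuous in `t` by `H.lipl`):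
 (b1) `∫_0^T e^{-l(t,y)} φ(t,y)² ≤ 30 Tp ε (3L)² = 270 Tp ε L²`, the same at `x`;
 (b2) `∫_0^T e^{-l(t,y)} ψ(t)² ≤ 30 Tp ε ‖w‖²`, `≤ 750 Tp ε Δ²`, `≤ 900 Tp ε L Δ = 900 Tp L N`, `≤ 1080 Tp ε L²`.
MAIN TERM: with `ρ = 5Δ/(3L)`: `2φψ ≤ ρφ² + ψ²/ρ`, so `∫ e^{-l}(2φψ + ψ²) ≤ 270Tp ε L²ρ + 750Tp ε Δ²/ρ + 900Tp L N = 450TpLN + 450TpLN + 900TpLN`.
SMALL TERMS: `e^{-l} ≥ e^{-Λ}`, so `∫φ² ≤ 270 e^Λ Tp ε L²`, `∫ψ² ≤ 1080 e^Λ Tp ε L²`; with `r = √ε`: `φ ≤ r/2 + φ²/(2r)`, likewise `ψ`, so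
 `∫(ψ + φ_x + φ_y) ≤ (3/2) r T + (540+135+135) e^Λ Tp L² r` (`ε/r = r`), `∫(φ_x²+φ_y²) ≤ 540 e^Λ Tp L² ε ≤ 540 e^Λ Tp L² r` (`ε ≤ r` as `ε ≤ 1`).
 Sum `≤ r(2T + 1400 e^Λ Tp L²)`.
All integrands are continuous in `t` (besA_cont for `φ` — `F.phi t x` is of that form — and `ψ`; `dth` is continuous: `g`, `l` continuous,
`F.sig`, `F.drop` compositions with `min`, `max`, `log(1+·)` of nonnegative), so interval integrals are monotone (`intervalIntegral.integral_mono_on`).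
inI: `∫_0^T dth ≤ a ∫ e^{-l}φ² ≤ 270 a Tp ε L²` (inH1_le).
-/

namespace Pool.Agent.H31.QH

open Filter Topology MeasureTheory

variable {E : Type*} [NormedAddCommGroup E] [InnerProductSpace ℝ E] [CompleteSpace E]

theorem InH2_cont_of_lip {f : ℝ → ℝ} {B : ℝ} (hB : 0 ≤ B) (h : ∀ t t', |f t' - f t| ≤ B * |t' - t|) :
    Continuous f :=
  (LipschitzWith.of_dist_le_mul (K := ⟨B, hB⟩) (fun t' t => by
    rw [Real.dist_eq, Real.dist_eq]
    exact h t t')).continuous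

theorem InH2_cl (F : Dat E) (B : ℝ) (H : Hyp F B) (x : XX E) : Continuous (fun t => F.c.l t x) := by
  have hB : 0 ≤ B := by linarith [H.hB]
  refine InH2_cont_of_lip hB (fun t t' => ?_)
  have h := H.lipl t t' x x
  simpa using h

theorem InH2_cg (F : Dat E) (B : ℝ) (H : Hyp F B) (x : XX E) : Continuous (fun t => F.c.g t x) := by
  have hB : 0 ≤ B := by linarith [H.hB]
  refine InH2_cont_of_lip hB (fun t t' => ?_)
  have h := H.lipg t t' x x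
  simpa using h

theorem InH2_kpos (F : Dat E) (B : ℝ) (H : Hyp F B) : 0 < F.P.Tp * F.P.ε :=
  mul_pos (by linarith [H.hTp]) H.hε

theorem InH2_cphi (F : Dat E) (B : ℝ) (H : Hyp F B) (x : XX E) : Continuous (fun t => F.phi t x) :=
  besA_cont F.C (fun t => F.c.l t x) (InH2_cl F B H x) (F.S.hat (F.P.ε⁻¹ • x)) (F.P.Tp * F.P.ε)
    (InH2_kpos F B H)

theorem InH2_cpsi (F : Dat E) (B : ℝ) (H : Hyp F B) (x y : XX E) :
    Continuous (fun t => F.psi t x y) :=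
  besA_cont F.C (fun t => F.c.l t y) (InH2_cl F B H y)
    (F.S.hat (F.P.ε⁻¹ • x) - F.S.hat (F.P.ε⁻¹ • y)) (F.P.Tp * F.P.ε) (InH2_kpos F B H)

theorem InH2_c01 : Continuous c01 := by
  unfold c01
  fun_prop

theorem InH2_csig (F : Dat E) (B : ℝ) (H : Hyp F B) (x : XX E) : Continuous (fun t => F.sig t x) := by
  unfold Dat.sig Cfg.mu
  have h1 := InH2_cl F B H x
  have h2 := InH2_cg F B H x
  exact InH2_c01.comp (by fun_prop)

/-- the integrated bound for `phi` -/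
theorem InH2_bphi (F : Dat E) (B : ℝ) (H : Hyp F B) (T : ℝ) (hT : 0 ≤ T) (x : XX E) :
    ∫ t in (0:ℝ)..T, Real.exp (-(F.c.l t x)) * F.phi t x ^ 2 ≤
      270 * (F.P.Tp * F.P.ε) * F.P.L ^ 2 := by
  have hk := InH2_kpos F B H
  have h := besA F.C (fun t => F.c.l t x) (InH2_cl F B H x) (F.S.hat (F.P.ε⁻¹ • x)) (F.P.Tp * F.P.ε)
    hk T hT
  have h3 : ‖F.S.hat (F.P.ε⁻¹ • x)‖ ≤ 3 * F.P.L := F.S.hat_norm _
  have h4 := pow_le_pow_left₀ (norm_nonneg _) h3 2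
  calc ∫ t in (0:ℝ)..T, Real.exp (-(F.c.l t x)) * F.phi t x ^ 2
      ≤ 30 * (F.P.Tp * F.P.ε) * ‖F.S.hat (F.P.ε⁻¹ • x)‖ ^ 2 := h
    _ ≤ 30 * (F.P.Tp * F.P.ε) * (3 * F.P.L) ^ 2 :=
        mul_le_mul_of_nonneg_left h4 (by positivity)
    _ = 270 * (F.P.Tp * F.P.ε) * F.P.L ^ 2 := by ring

/-- arithmetic of the main term -/
theorem InH2_ar1 {Tp ε L N W : ℝ} (hTp : 1 ≤ Tp) (hε : 0 < ε) (hL : 0 < L) (hN : 0 < N) (hW : 0 ≤ W)
    (h5 : W ≤ 5 * (ε⁻¹ * N)) (h6 : W ≤ 6 * L) :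
    (5 * (ε⁻¹ * N) / (3 * L)) * (270 * (Tp * ε) * L ^ 2) +
      ((5 * (ε⁻¹ * N) / (3 * L))⁻¹ + 1) * (30 * (Tp * ε) * W ^ 2) ≤ 1800 * Tp * L * N := by
  have hD : 0 < ε⁻¹ * N := by positivity
  set D := ε⁻¹ * N with hDdef
  have hN' : N = ε * D := by
    rw [hDdef]
    field_simp
  have e1 : (5 * D / (3 * L)) * (270 * (Tp * ε) * L ^ 2) = 450 * (Tp * L * N) := by
    rw [hN']
    field_simp
    ring
  have e2 : (5 * D / (3 * L))⁻¹ * (30 * (Tp * ε) * W ^ 2) ≤ 450 * (Tp * L * N) := by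
    have h1 : W ^ 2 ≤ 25 * D ^ 2 := by nlinarith
    have h2 : (5 * D / (3 * L))⁻¹ * (30 * (Tp * ε) * W ^ 2) ≤
        (5 * D / (3 * L))⁻¹ * (30 * (Tp * ε) * (25 * D ^ 2)) := by
      refine mul_le_mul_of_nonneg_left (mul_le_mul_of_nonneg_left h1 (by positivity)) (by positivity)
    refine h2.trans (le_of_eq ?_)
    rw [hN']
    field_simp
    ring
  have e3 : 30 * (Tp * ε) * W ^ 2 ≤ 900 * (Tp * L * N) := by
    have h1 : W ^ 2 ≤ 30 * (L * D) := by nlinarith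
    have h2 : 30 * (Tp * ε) * W ^ 2 ≤ 30 * (Tp * ε) * (30 * (L * D)) :=
      mul_le_mul_of_nonneg_left h1 (by positivity)
    refine h2.trans (le_of_eq ?_)
    rw [hN']
    ring
  have e4 : ((5 * D / (3 * L))⁻¹ + 1) * (30 * (Tp * ε) * W ^ 2) =
      (5 * D / (3 * L))⁻¹ * (30 * (Tp * ε) * W ^ 2) + 30 * (Tp * ε) * W ^ 2 := by ring
  rw [e1, e4]
  linarith

/-- arithmetic of the small terms -/
theorem InH2_ar2 {Tp ε L W T X r : ℝ} (hTp : 1 ≤ Tp) (hr : 0 < r) (hr1 : r ≤ 1) (hrε : r ^ 2 = ε)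
    (hX : 0 ≤ X) (hT : 0 ≤ T) (hW : 0 ≤ W) (h6 : W ≤ 6 * L) (hL : 0 < L) :
    3 / 2 * r * T + X * ((1 / (2 * r)) * (30 * (Tp * ε) * W ^ 2) +
      (1 / (2 * r) + 1) * (270 * (Tp * ε) * L ^ 2) + (1 / (2 * r) + 1) * (270 * (Tp * ε) * L ^ 2)) ≤
      r * (2 * T + 1400 * X * Tp * L ^ 2) := by
  have hTp0 : 0 < Tp := by linarith
  have e1 : (1 / (2 * r)) * (30 * (Tp * ε) * W ^ 2) ≤ 540 * (Tp * r * L ^ 2) := by
    have h1 : W ^ 2 ≤ 36 * L ^ 2 := by nlinarith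
    have h2 : (1 / (2 * r)) * (30 * (Tp * ε) * W ^ 2) ≤ (1 / (2 * r)) * (30 * (Tp * ε) * (36 * L ^ 2)) := by
      have hε0 : 0 ≤ ε := by rw [← hrε]; positivity
      exact mul_le_mul_of_nonneg_left (mul_le_mul_of_nonneg_left h1 (by positivity)) (by positivity)
    refine h2.trans (le_of_eq ?_)
    rw [← hrε]
    field_simp
    ring
  have e2 : (1 / (2 * r) + 1) * (270 * (Tp * ε) * L ^ 2) ≤ 405 * (Tp * r * L ^ 2) := by
    have h1 : (1 / (2 * r) + 1) * (270 * (Tp * ε) * L ^ 2) =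
        135 * (Tp * r * L ^ 2) + 270 * (Tp * r * L ^ 2) * r := by
      rw [← hrε]
      field_simp
      ring
    rw [h1]
    have h2 : 0 ≤ 270 * (Tp * r * L ^ 2) := by positivity
    have h3 : 270 * (Tp * r * L ^ 2) * r ≤ 270 * (Tp * r * L ^ 2) * 1 :=
      mul_le_mul_of_nonneg_left hr1 h2
    linarith
  have e3 : (1 / (2 * r)) * (30 * (Tp * ε) * W ^ 2) +
      (1 / (2 * r) + 1) * (270 * (Tp * ε) * L ^ 2) + (1 / (2 * r) + 1) * (270 * (Tp * ε) * L ^ 2) ≤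
      1400 * (Tp * r * L ^ 2) := by
    have h2 : 0 ≤ Tp * r * L ^ 2 := by positivity
    linarith
  have e4 := mul_le_mul_of_nonneg_left e3 hX
  have e5 : 0 ≤ r * T := by positivity
  have e6 : r * (2 * T + 1400 * X * Tp * L ^ 2) = 2 * (r * T) + X * (1400 * (Tp * r * L ^ 2)) := by ring
  rw [e6]
  linarith

/-- arithmetic-geometric mean -/
theorem InH2_am {r φ : ℝ} (hr : 0 < r) : φ ≤ r / 2 + 1 / (2 * r) * φ ^ 2 := by
  have h1 : r / 2 + 1 / (2 * r) * φ ^ 2 - φ = (φ - r) ^ 2 / (2 * r) := by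
    field_simp
    ring
  have h2 : 0 ≤ (φ - r) ^ 2 / (2 * r) := by positivity
  linarith

/-- weighted product -/
theorem InH2_am2 {ρ φ ψ : ℝ} (hρ : 0 < ρ) : 2 * φ * ψ ≤ ρ * φ ^ 2 + ρ⁻¹ * ψ ^ 2 := by
  have h1 : ρ * φ ^ 2 + ρ⁻¹ * ψ ^ 2 - 2 * φ * ψ = (ρ * φ - ψ) ^ 2 * ρ⁻¹ := by
    field_simp
    ring
  have h2 : 0 ≤ (ρ * φ - ψ) ^ 2 * ρ⁻¹ := by positivity
  linarith

/-- the pointwise majorant -/
theorem InH2_pt {M S X r ρ φx φy ψ ex ey : ℝ} (hM : 0 ≤ M) (hS : 0 ≤ S) (hr : 0 < r) (hρ : 0 < ρ)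
    (hex : 1 ≤ X * ex) (hey : 1 ≤ X * ey) (hey0 : 0 ≤ ey) :
    M * (ey * (2 * φy * ψ + ψ ^ 2)) + S * (ψ + φx + φy + φx ^ 2 + φy ^ 2) ≤
      S * (3 / 2 * r) + (M * ρ + S * (X * (1 / (2 * r) + 1))) * (ey * φy ^ 2) +
        (M * (ρ⁻¹ + 1) + S * (X * (1 / (2 * r)))) * (ey * ψ ^ 2) +
        S * (X * (1 / (2 * r) + 1)) * (ex * φx ^ 2) := by
  have h1 : M * (ey * (2 * φy * ψ + ψ ^ 2)) ≤
      M * (ey * (ρ * φy ^ 2 + ρ⁻¹ * ψ ^ 2 + ψ ^ 2)) := by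
    refine mul_le_mul_of_nonneg_left (mul_le_mul_of_nonneg_left ?_ hey0) hM
    have := InH2_am2 (φ := φy) (ψ := ψ) hρ
    linarith
  have hx2 : φx ^ 2 ≤ X * ex * φx ^ 2 := by nlinarith [sq_nonneg φx]
  have hy2 : φy ^ 2 ≤ X * ey * φy ^ 2 := by nlinarith [sq_nonneg φy]
  have hp2 : ψ ^ 2 ≤ X * ey * ψ ^ 2 := by nlinarith [sq_nonneg ψ]
  have hr2 : 0 ≤ 1 / (2 * r) := by positivity
  have h2 : ψ + φx + φy + φx ^ 2 + φy ^ 2 ≤ 3 / 2 * r + 1 / (2 * r) * (X * ey * ψ ^ 2) +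
      (1 / (2 * r) + 1) * (X * ex * φx ^ 2) + (1 / (2 * r) + 1) * (X * ey * φy ^ 2) := by
    have a1 := InH2_am (φ := ψ) hr
    have a2 := InH2_am (φ := φx) hr
    have a3 := InH2_am (φ := φy) hr
    have b1 := mul_le_mul_of_nonneg_left hp2 hr2
    have b2 := mul_le_mul_of_nonneg_left hx2 hr2
    have b3 := mul_le_mul_of_nonneg_left hy2 hr2
    linarith
  have h3 := mul_le_mul_of_nonneg_left h2 hS
  linarith

theorem inH_cont (F : Dat E) (B : ℝ) (H : Hyp F B) (x : XX E) : Continuous (fun t => F.dth t x) := by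
  have h1 := InH2_cl F B H x
  have h2 := InH2_cg F B H x
  have h3 := InH2_cphi F B H x
  have h4 := InH2_csig F B H x
  have hPh : Continuous (fun t => F.Ph t x) := by
    unfold Dat.Ph
    fun_prop
  have hPh0 : ∀ t, 0 ≤ F.Ph t x := fun t => le_min (sq_nonneg _) zero_le_one
  have ha : 0 ≤ F.P.a := by linarith [H.ha]
  have hlog : Continuous (fun t => Real.log (1 + F.P.a * F.sig t x * F.Ph t x)) := by
    refine Continuous.log (by fun_prop) (fun t => ?_)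
    have : 0 ≤ F.P.a * F.sig t x * F.Ph t x :=
      mul_nonneg (mul_nonneg ha (F.sig_nonneg t x)) (hPh0 t)
    linarith
  have hdrop : Continuous (fun t => F.drop t x) := by
    unfold Dat.drop Cfg.mu
    fun_prop
  unfold Dat.dth Dat.new
  fun_prop

theorem inI (F : Dat E) (B : ℝ) (H : Hyp F B) (hlo : ∀ t x, F.P.Hf ≤ F.c.mu t x) (hHf : 0 ≤ F.P.Hf)
    (hlf : F.P.lf + 1 ≤ F.P.l0) (T : ℝ) (hT : 0 ≤ T) (x : XX E) :
    ∫ t in (0:ℝ)..T, F.dth t x ≤ 270 * F.P.a * F.P.Tp * F.P.ε * F.P.L ^ 2 := by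
  have hk := InH2_kpos F B H
  have ha : 0 ≤ F.P.a := by linarith [H.ha]
  have h1 : ∫ t in (0:ℝ)..T, F.dth t x ≤
      ∫ t in (0:ℝ)..T, F.P.a * (Real.exp (-(F.c.l t x)) * F.phi t x ^ 2) := by
    refine intervalIntegral.integral_mono_on hT ((inH_cont F B H x).intervalIntegrable _ _)
      (Continuous.intervalIntegrable ?_ _ _) (fun t _ => inH1_le F B H hlo hHf hlf t x)
    have h1 := InH2_cl F B H x
    have h3 := InH2_cphi F B H x
    fun_prop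
  rw [intervalIntegral.integral_const_mul] at h1
  have h2 := mul_le_mul_of_nonneg_left (InH2_bphi F B H T hT x) ha
  refine h1.trans (h2.trans (le_of_eq ?_))
  ring

theorem inH2 (F : Dat E) (B : ℝ) (H : Hyp F B) (hlo : ∀ t x, F.P.Hf ≤ F.c.mu t x) (hHf : 0 ≤ F.P.Hf)
    (hlf : F.P.lf + 1 ≤ F.P.l0) (Λ : ℝ) (hΛ : ∀ t x, F.c.l t x ≤ Λ) (T : ℝ) (hT : 0 ≤ T) (x y : XX E) :
    ∫ t in (0:ℝ)..T, |F.dth t x - F.dth t y| ≤
      (1800 * F.P.a * Real.exp (-F.P.l0) * F.P.Tp * F.P.L +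
        10 * F.P.a * F.kap B * (Real.sqrt F.P.ε * (2 * T + 1400 * Real.exp Λ * F.P.Tp * F.P.L ^ 2))) * ‖x - y‖ := by
  rcases (norm_nonneg (x - y)).eq_or_lt with hN | hN
  · have hxy : x = y := by
      rw [eq_comm, norm_eq_zero, sub_eq_zero] at hN
      exact hN
    subst hxy
    simp
  have hk := InH2_kpos F B H
  have ha : 0 ≤ F.P.a := by linarith [H.ha]
  have hε := H.hε
  have hL : 0 < F.P.L := by linarith [H.hL]
  have hB : 0 ≤ B := by linarith [H.hB]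
  have hG := H.Gpos
  have hkap : 0 ≤ F.kap B := by
    unfold Dat.kap
    positivity
  set N := ‖x - y‖ with hNdef
  set w := F.S.hat (F.P.ε⁻¹ • x) - F.S.hat (F.P.ε⁻¹ • y) with hw
  have hw5 : ‖w‖ ≤ 5 * (F.P.ε⁻¹ * N) := by
    refine (F.S.hat_lip (F.P.ε⁻¹ • y) (F.P.ε⁻¹ • x)).trans (le_of_eq ?_)
    rw [F.smul_diff hε]
  have hw6 : ‖w‖ ≤ 6 * F.P.L := by
    refine (norm_sub_le _ _).trans ?_
    have h1 : ‖F.S.hat (F.P.ε⁻¹ • x)‖ ≤ 3 * F.P.L := F.S.hat_norm _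
    have h2 : ‖F.S.hat (F.P.ε⁻¹ • y)‖ ≤ 3 * F.P.L := F.S.hat_norm _
    linarith
  set ρ := 5 * (F.P.ε⁻¹ * N) / (3 * F.P.L) with hρdef
  have hρ : 0 < ρ := by
    rw [hρdef]
    have : 0 < F.P.ε⁻¹ := inv_pos.mpr hε
    positivity
  set r := Real.sqrt F.P.ε with hrdef
  have hr : 0 < r := Real.sqrt_pos.mpr hε
  have hr2 : r ^ 2 = F.P.ε := Real.sq_sqrt hε.le
  have hr1 : r ≤ 1 := by
    rw [hrdef]
    exact Real.sqrt_le_one.mpr H.hε'
  set X := Real.exp Λ with hX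
  have hX0 : 0 ≤ X := (Real.exp_pos _).le
  set M := F.P.a * Real.exp (-F.P.l0) with hM
  have hM0 : 0 ≤ M := mul_nonneg ha (Real.exp_pos _).le
  set S := 10 * F.P.a * F.kap B * N with hS
  have hS0 : 0 ≤ S := by positivity
  have hXe : ∀ t z, 1 ≤ X * Real.exp (-(F.c.l t z)) := by
    intro t z
    rw [hX, ← Real.exp_add]
    apply Real.one_le_exp
    linarith [hΛ t z]
  -- the three integrals
  have iy := InH2_bphi F B H T hT y
  have ix := InH2_bphi F B H T hT x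
  have iψ : ∫ t in (0:ℝ)..T, Real.exp (-(F.c.l t y)) * F.psi t x y ^ 2 ≤
      30 * (F.P.Tp * F.P.ε) * ‖w‖ ^ 2 :=
    besA F.C (fun t => F.c.l t y) (InH2_cl F B H y) w (F.P.Tp * F.P.ε) hk T hT
  have clx := InH2_cl F B H x
  have cly := InH2_cl F B H y
  have cpx := InH2_cphi F B H x
  have cpy := InH2_cphi F B H y
  have cps := InH2_cpsi F B H x y
  have cdx := inH_cont F B H x
  have cdy := inH_cont F B H y
  set fy : ℝ → ℝ := fun t => Real.exp (-(F.c.l t y)) * F.phi t y ^ 2 with hfy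
  set fx : ℝ → ℝ := fun t => Real.exp (-(F.c.l t x)) * F.phi t x ^ 2 with hfx
  set fψ : ℝ → ℝ := fun t => Real.exp (-(F.c.l t y)) * F.psi t x y ^ 2 with hfψ
  have cfy : Continuous fy := by
    rw [hfy]
    fun_prop
  have cfx : Continuous fx := by
    rw [hfx]
    fun_prop
  have cfψ : Continuous fψ := by
    rw [hfψ]
    fun_prop
  set cy := M * ρ + S * (X * (1 / (2 * r) + 1)) with hcy
  set cψ := M * (ρ⁻¹ + 1) + S * (X * (1 / (2 * r))) with hcψ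
  set cx := S * (X * (1 / (2 * r) + 1)) with hcx
  have hcx0 : 0 ≤ cx := by positivity
  have hcy0 : 0 ≤ cy := by positivity
  have hcψ0 : 0 ≤ cψ := by positivity
  have hmono : ∫ t in (0:ℝ)..T, |F.dth t x - F.dth t y| ≤
      ∫ t in (0:ℝ)..T, (S * (3 / 2 * r) + cy * fy t + cψ * fψ t + cx * fx t) := by
    refine intervalIntegral.integral_mono_on hT (Continuous.intervalIntegrable (by fun_prop) _ _)
      (Continuous.intervalIntegrable (by fun_prop) _ _) (fun t _ => ?_)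
    refine (inH1 F B H hlo hHf hlf t x y).trans ?_
    exact InH2_pt hM0 hS0 hr hρ (hXe t x) (hXe t y) (Real.exp_pos _).le
  have hsplit : ∫ t in (0:ℝ)..T, (S * (3 / 2 * r) + cy * fy t + cψ * fψ t + cx * fx t) =
      S * (3 / 2 * r) * T + cy * (∫ t in (0:ℝ)..T, fy t) + cψ * (∫ t in (0:ℝ)..T, fψ t) +
        cx * (∫ t in (0:ℝ)..T, fx t) := by
    rw [intervalIntegral.integral_add (Continuous.intervalIntegrable (by fun_prop) _ _)
        (Continuous.intervalIntegrable (by fun_prop) _ _),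
      intervalIntegral.integral_add (Continuous.intervalIntegrable (by fun_prop) _ _)
        (Continuous.intervalIntegrable (by fun_prop) _ _),
      intervalIntegral.integral_add (Continuous.intervalIntegrable (by fun_prop) _ _)
        (Continuous.intervalIntegrable (by fun_prop) _ _),
      intervalIntegral.integral_const]
    simp only [intervalIntegral.integral_const_mul, sub_zero, smul_eq_mul]
    ring
  rw [hsplit] at hmono
  have b1 := mul_le_mul_of_nonneg_left iy hcy0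
  have b2 := mul_le_mul_of_nonneg_left iψ hcψ0
  have b3 := mul_le_mul_of_nonneg_left ix hcx0
  have a1 := InH2_ar1 (W := ‖w‖) H.hTp hε hL hN (norm_nonneg _) hw5 hw6
  have a2 := InH2_ar2 (W := ‖w‖) (T := T) H.hTp hr hr1 hr2 hX0 hT (norm_nonneg _) hw6 hL
  have a1' := mul_le_mul_of_nonneg_left a1 hM0
  have a2' := mul_le_mul_of_nonneg_left a2 hS0
  have e1 : (1800 * F.P.a * Real.exp (-F.P.l0) * F.P.Tp * F.P.L +
        10 * F.P.a * F.kap B * (r * (2 * T + 1400 * X * F.P.Tp * F.P.L ^ 2))) * N =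
      M * (1800 * F.P.Tp * F.P.L * N) + S * (r * (2 * T + 1400 * X * F.P.Tp * F.P.L ^ 2)) := by
    rw [hM, hS]
    ring
  rw [e1]
  have e2 : S * (3 / 2 * r) * T + cy * (270 * (F.P.Tp * F.P.ε) * F.P.L ^ 2) +
      cψ * (30 * (F.P.Tp * F.P.ε) * ‖w‖ ^ 2) + cx * (270 * (F.P.Tp * F.P.ε) * F.P.L ^ 2) =
      M * (ρ * (270 * (F.P.Tp * F.P.ε) * F.P.L ^ 2) +
        (ρ⁻¹ + 1) * (30 * (F.P.Tp * F.P.ε) * ‖w‖ ^ 2)) +
      S * (3 / 2 * r * T + X * ((1 / (2 * r)) * (30 * (F.P.Tp * F.P.ε) * ‖w‖ ^ 2) +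
        (1 / (2 * r) + 1) * (270 * (F.P.Tp * F.P.ε) * F.P.L ^ 2) +
        (1 / (2 * r) + 1) * (270 * (F.P.Tp * F.P.ε) * F.P.L ^ 2))) := by
    rw [hcy, hcψ, hcx]
    ring
  linarith

end Pool.Agent.H31.QH
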