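import Pool.Agent.H31.QH.InG
import Pool.Agent.H31.QH.InH2
import Pool.Agent.H31.QH.InF

/-!
Row InK (MP_b924dd_QH): assembly of the insertion theorem.  Uses the statements of InC, InE, InF, InG, InH1, InH2 (and InA, proved).

From `hgood`: `B := max 1 (max B_l B_g)` is a common Lipschitz constant (`|t'-t|+‖x'-x‖ ≥ 0`).  Bounds: `g ≥ -tp t ≥ -M`, and
`mu ≥ Hf` gives `l ≤ -g - Hf ≤ M - Hf`: `Λ := M - Hf`... (any upper bound of `l`; take `Λ := max (M - Hf) 0`).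
Put `κ := B/G + B L > 0`.  Choose `ε > 0` with: `ε ≤ 1`, `κ ε ≤ 1`, `ε ≤ ξ`, `20 e^Λ κ ε ≤ ξ`, `270 a Tp L² ε ≤ ξ`,
`10 a κ (2T + 1400 e^Λ Tp L²) √ε ≤ ξ` (all the left sides tend to 0 as `ε → 0+`; e.g. `ε = min`-combination, or `Filter.Eventually.exists`
in `𝓝[>] 0`).  `F := ⟨⟨A, L, Tp, a, l1, Hf, ε⟩, D, S, C, c⟩`, `H : Hyp F B`, new configuration `F.new`.
 lip_l, lip_g: inF.    l_nonneg: `l ≥ 0`, `log(1+α²) ≥ 0`.
 supp: for `t ∉ [0,T]`, inE_triv gives `α = 0`, `drop = 0`; `Gm t x = x` (inC_zero), so `new.z t x = c.z t x = x`, `new.l = 0`, `new.g = -Hf`.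
 homeo: composition `(t,x) ↦ (t, Gm t x) ↦ (t, c.z t (Gm t x))`, inC_hom, `IsHomeomorph.comp`.
 disp: `‖c.z t x1 - x1‖ + ‖x1 - x‖ ≤ D0 + ε`.
 mu_lo, mu_hi: inE.      near: inG.
 slope: `exp(new.g s x) - exp(new.g s y) = (exp(g s x) - exp(g s y)) + (dth s x - dth s y)`; the second part vanishes for `s ∉ [0,T]`
   (inE_triv: `drop = 0`), so `|∫_0^t (dth s x - dth s y)| ≤ ∫_0^T |dth s x - dth s y|` for every real `t` (for `t < 0` it is 0, for `t > T` it is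
   the integral to `T`), and inH2.
 low: `drop ≥ 0` (inE_drop_nonneg).
 thick: `∫ (exp(new.g) - exp(-tp)) = ∫ dth + ∫ (exp(g) - exp(-tp)) ≤ 270 a Tp ε L² + D0` (inI; continuity of `tp` for integrability).
-/

namespace Pool.Agent.H31.QH

open Filter Topology MeasureTheory

variable {E : Type*} [NormedAddCommGroup E] [InnerProductSpace ℝ E] [CompleteSpace E]

theorem InK_eps (c1 c2 c3 c4 ξ : ℝ) (hξ : 0 < ξ) : ∃ ε : ℝ, 0 < ε ∧ ε ≤ 1 ∧ c1 * ε ≤ 1 ∧ ε ≤ ξ ∧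
    c2 * ε ≤ ξ ∧ c3 * ε ≤ ξ ∧ c4 * Real.sqrt ε ≤ ξ := by
  have t1 : ∀ c : ℝ, Tendsto (fun ε : ℝ => c * ε) (𝓝[>] 0) (𝓝 0) := by
    intro c
    have h : Tendsto (fun ε : ℝ => c * ε) (𝓝 0) (𝓝 (c * 0)) :=
      (continuous_const.mul continuous_id).tendsto 0
    rw [mul_zero] at h
    exact h.mono_left nhdsWithin_le_nhds
  have t2 : Tendsto (fun ε : ℝ => c4 * Real.sqrt ε) (𝓝[>] 0) (𝓝 0) := by
    have h : Tendsto (fun ε : ℝ => c4 * Real.sqrt ε) (𝓝 0) (𝓝 (c4 * Real.sqrt 0)) :=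
      (continuous_const.mul Real.continuous_sqrt).tendsto 0
    rw [Real.sqrt_zero, mul_zero] at h
    exact h.mono_left nhdsWithin_le_nhds
  have e0 : ∀ᶠ ε : ℝ in 𝓝[>] 0, 0 < ε := self_mem_nhdsWithin
  have e1 : ∀ᶠ ε : ℝ in 𝓝[>] 0, 1 * ε < 1 := (t1 1).eventually (gt_mem_nhds one_pos)
  have e2 : ∀ᶠ ε : ℝ in 𝓝[>] 0, c1 * ε < 1 := (t1 c1).eventually (gt_mem_nhds one_pos)
  have e3 : ∀ᶠ ε : ℝ in 𝓝[>] 0, 1 * ε < ξ := (t1 1).eventually (gt_mem_nhds hξ)
  have e4 : ∀ᶠ ε : ℝ in 𝓝[>] 0, c2 * ε < ξ := (t1 c2).eventually (gt_mem_nhds hξ)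
  have e5 : ∀ᶠ ε : ℝ in 𝓝[>] 0, c3 * ε < ξ := (t1 c3).eventually (gt_mem_nhds hξ)
  have e6 : ∀ᶠ ε : ℝ in 𝓝[>] 0, c4 * Real.sqrt ε < ξ := t2.eventually (gt_mem_nhds hξ)
  obtain ⟨ε, h0, h1, h2, h3, h4, h5, h6⟩ :=
    (e0.and (e1.and (e2.and (e3.and (e4.and (e5.and e6)))))).exists
  rw [one_mul] at h1 h3
  exact ⟨ε, h0, h1.le, h2.le, h3.le, h4.le, h5.le, h6.le⟩

theorem InK_int (f : ℝ → ℝ) (hf : Continuous f) (T : ℝ) (hT : 0 ≤ T)
    (h0 : ∀ s, s ∉ Set.Icc 0 T → f s = 0) (t : ℝ) :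
    |∫ s in (0:ℝ)..t, f s| ≤ ∫ s in (0:ℝ)..T, |f s| := by
  have hc : HasCompactSupport f := HasCompactSupport.intro isCompact_Icc h0
  have hi : Integrable f := hf.integrable_of_hasCompactSupport hc
  have h1 : |∫ s in (0:ℝ)..t, f s| ≤ ∫ s in Set.uIoc 0 t, |f s| := by
    have h := intervalIntegral.norm_integral_le_integral_norm_uIoc (a := 0) (b := t) (f := f)
      (μ := volume)
    simpa [Real.norm_eq_abs] using h
  have h2 : ∫ s in Set.uIoc 0 t, |f s| ≤ ∫ s, |f s| :=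
    setIntegral_le_integral hi.abs (ae_of_all _ (fun s => abs_nonneg _))
  have h3 : ∫ s in Set.Icc 0 T, |f s| = ∫ s, |f s| :=
    setIntegral_eq_integral_of_forall_compl_eq_zero (fun s hs => by rw [h0 s hs, abs_zero])
  rw [intervalIntegral.integral_of_le hT, ← integral_Icc_eq_integral_Ioc, h3]
  exact h1.trans h2

theorem insertion (D : Wd (XX E) E) (C : Col) (L : ℝ) (S : Sel E L) (c : Cfg (XX E))
    (A Tp a l1 Hf T D0 η q E0 E1 θ sm pm M G ξ : ℝ) (tp : ℝ → ℝ)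
    (hA : 0 < A) (hA' : A ≤ 1 / 2000) (hL : 100 ≤ L) (hTp : 1 ≤ Tp) (ha : 1 ≤ a) (hHf : 0 ≤ Hf)
    (hT : 0 ≤ T) (hG : G = Real.log (1 + A ^ 2) / 2) (hlf : Hf + G + 1 ≤ l1 - G)
    (hE0 : 0 ≤ E0) (hE1 : 2000 * A ≤ E1) (hE : E0 + E1 ≤ 1 / 2) (hq : 0 ≤ q) (hθ : θ ≤ l1 - G)
    (hlθ : Hf + G ≤ θ - 1) (hsm : 0 < sm) (hpm : 0 < pm) (hpm' : pm ≤ 1)
    (hdrop : l1 + G - Real.log (1 + a * sm * pm ^ 2) ≤ θ - 1)
    (htp : Continuous tp) (htpM : ∀ t, tp t ≤ M) (hξ : 0 < ξ)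
    (hgood : Good c T Hf (l1 + G) D0 η q (Eb E0 E1 θ) tp) :
    ∃ c' : Cfg (XX E), Good c' T Hf l1 (D0 + ξ) (η + 1800 * a * Real.exp (-(l1 - G)) * Tp * L + ξ)
      (q + 2000 * A * L / Tp + ξ) (Eb (E0 + 2000 * A * (1 / L + pm + sm) + ξ) E1 θ) tp := by
  subst hG
  obtain ⟨Bl, hBl⟩ := hgood.lip_l
  obtain ⟨Bg, hBg⟩ := hgood.lip_g
  obtain ⟨B, hB⟩ : ∃ B : ℝ, B = max 1 (max Bl Bg) := ⟨_, rfl⟩
  have hB1 : 1 ≤ B := by
    rw [hB]
    exact le_max_left _ _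
  have hBlB : Bl ≤ B := by
    rw [hB]
    exact (le_max_left _ _).trans (le_max_right _ _)
  have hBgB : Bg ≤ B := by
    rw [hB]
    exact (le_max_right _ _).trans (le_max_right _ _)
  have hΛ : ∀ t x, c.l t x ≤ M - Hf := by
    intro t x
    have h1 := hgood.mu_lo t x
    have h2 := hgood.low t x
    have h3 := htpM t
    unfold Cfg.mu at h1
    linarith
  obtain ⟨κ, hκ⟩ : ∃ κ : ℝ, κ = B / (Real.log (1 + A ^ 2) / 2) + B * L := ⟨_, rfl⟩
  obtain ⟨ε, hε0, hε1, hεκ, hεξ, hε2, hε3, hε4⟩ := InK_eps κ (20 * Real.exp (M - Hf) * κ)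
    (270 * a * Tp * L ^ 2) (10 * a * κ * (2 * T + 1400 * Real.exp (M - Hf) * Tp * L ^ 2)) ξ hξ
  obtain ⟨F, hF⟩ : ∃ F : Dat E, F = ⟨⟨A, L, Tp, a, l1, Hf, ε⟩, D, S, C, c⟩ := ⟨_, rfl⟩
  have fA : F.P.A = A := by rw [hF]
  have fL : F.P.L = L := by rw [hF]
  have fTp : F.P.Tp = Tp := by rw [hF]
  have fa : F.P.a = a := by rw [hF]
  have fε : F.P.ε = ε := by rw [hF]
  have fHf : F.P.Hf = Hf := by rw [hF]
  have fl1 : F.P.l1 = l1 := by rw [hF]
  have fc : F.c = c := by rw [hF]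
  have fG : F.P.G = Real.log (1 + A ^ 2) / 2 := by rw [hF]; rfl
  have fl0 : F.P.l0 = l1 - Real.log (1 + A ^ 2) / 2 := by rw [hF]; rfl
  have flf : F.P.lf = Hf + Real.log (1 + A ^ 2) / 2 := by rw [hF]; rfl
  have fκ : F.kap B = κ := by
    unfold Dat.kap
    rw [fG, fL, hκ]
  have H : Hyp F B := by
    refine ⟨by rw [fA]; exact hA, by rw [fA]; exact hA', by rw [fL]; exact hL,
      by rw [fTp]; exact hTp, by rw [fε]; exact hε0, by rw [fε]; exact hε1,
      by rw [fa]; exact ha, hB1, ?_, ?_, ?_, by rw [fκ, fε]; exact hεκ⟩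
    · intro t t' x x'
      rw [fc]
      exact (hBl t t' x x').trans (mul_le_mul_of_nonneg_right hBlB (by positivity))
    · intro t t' x x'
      rw [fc]
      exact (hBg t t' x x').trans (mul_le_mul_of_nonneg_right hBgB (by positivity))
    · intro t x
      rw [fc]
      exact hgood.l_nonneg t x
  have hlo : ∀ t x, F.P.Hf ≤ F.c.mu t x := by
    intro t x
    rw [fHf, fc]
    exact hgood.mu_lo t x
  have hhi : ∀ t x, F.c.mu t x ≤ F.P.l1 + F.P.G := by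
    intro t x
    rw [fl1, fG, fc]
    exact hgood.mu_hi t x
  have hlf' : F.P.lf + 1 ≤ F.P.l0 := by
    rw [flf, fl0]
    linarith
  have hΛ' : ∀ t x, F.c.l t x ≤ M - Hf := by
    intro t x
    rw [fc]
    exact hΛ t x
  have hHf' : 0 ≤ F.P.Hf := by
    rw [fHf]
    exact hHf
  have hl : ∀ t x, F.new.l t x = c.l t x + Real.log (1 + F.alp t x ^ 2) / 2 := by
    intro t x
    rw [← fc]
    rfl
  have hg : ∀ t x, F.new.g t x = c.g t x + F.drop t x := by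
    intro t x
    rw [← fc]
    rfl
  have hz : ∀ t x, F.new.z t x = c.z t (F.Gm t x) := by
    intro t x
    rw [← fc]
    rfl
  have htriv : ∀ t, t ∉ Set.Icc 0 T → ∀ x, F.alp t x = 0 ∧ F.drop t x = 0 := by
    intro t ht x
    obtain ⟨_, h2, h3⟩ := hgood.supp t ht x
    have h4 := inE_triv F B H hlf' t x (by rw [fc]; exact h2) (by rw [fc, fHf]; exact h3)
    exact h4.2
  have hgc : ∀ x, Continuous (fun s => c.g s x) := by
    intro x
    have h : LipschitzWith (Real.toNNReal Bg) (fun s => c.g s x) := by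
      apply LipschitzWith.of_dist_le_mul
      intro s s'
      have h1 := hBg s' s x x
      rw [sub_self, norm_zero, add_zero] at h1
      rw [Real.dist_eq, Real.dist_eq]
      have h2 : Bg ≤ (Real.toNNReal Bg : ℝ) := Real.le_coe_toNNReal Bg
      exact h1.trans (mul_le_mul_of_nonneg_right h2 (abs_nonneg _))
    exact h.continuous
  have hdc : ∀ x, Continuous (fun s => F.dth s x) := inH_cont F B H
  have hd : ∀ s x, Real.exp (F.new.g s x) = F.dth s x + Real.exp (c.g s x) := by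
    intro s x
    unfold Dat.dth
    rw [fc]
    ring
  have hd0 : ∀ s, s ∉ Set.Icc 0 T → ∀ x, F.dth s x = 0 := by
    intro s hs x
    have h1 := (htriv s hs x).2
    unfold Dat.dth
    rw [hg, h1, add_zero, fc, sub_self]
  obtain ⟨B', hB'l, hB'g⟩ := inF F B H
  refine ⟨F.new, ⟨⟨B', hB'l⟩, ⟨B', hB'g⟩, ?_, ?_, ?_, ?_, ?_, ?_, ?_, ?_, ?_, ?_⟩⟩
  · -- l_nonneg
    intro t x
    rw [hl]
    have h1 := hgood.l_nonneg t x
    have h2 : 0 ≤ Real.log (1 + F.alp t x ^ 2) := Real.log_nonneg (by nlinarith [sq_nonneg (F.alp t x)])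
    linarith
  · -- supp
    intro t ht x
    obtain ⟨h1, h2, h3⟩ := hgood.supp t ht x
    obtain ⟨h4, h5⟩ := htriv t ht x
    have h6 := inC_zero F B H t x h4
    rw [hz, hl, hg, h4, h5, h6, h1, h2, h3]
    refine ⟨rfl, by norm_num, by ring⟩
  · -- homeo
    have h1 := inC_hom F B H
    have h2 := hgood.homeo
    have h3 := h2.comp h1
    have h4 : ((fun p : ℝ × XX E => (p.1, c.z p.1 p.2)) ∘ fun p : ℝ × XX E => (p.1, F.Gm p.1 p.2)) =
        fun p : ℝ × XX E => (p.1, F.new.z p.1 p.2) := by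
      funext p
      simp only [Function.comp, hz]
    rw [h4] at h3
    exact h3
  · -- disp
    intro t x
    rw [hz]
    have h1 := hgood.disp t (F.Gm t x)
    have h2 := inC_size F B H t x
    rw [fε] at h2
    have h3 : c.z t (F.Gm t x) - x = (c.z t (F.Gm t x) - F.Gm t x) + (F.Gm t x - x) := by abel
    rw [h3]
    refine (norm_add_le _ _).trans ?_
    linarith
  · intro t x
    have h1 := (inE F B H hlo hhi hlf' t x).1
    rw [fHf] at h1
    exact h1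
  · intro t x
    have h1 := (inE F B H hlo hhi hlf' t x).2.1
    rw [fl1] at h1
    exact h1
  · -- near
    intro t x
    have h1 := inG F B H hlo hhi hlf' (M - Hf) hΛ' E0 E1 θ q hE0 (by rw [fA]; exact hE1) hE hq
      (by rw [fl0]; exact hθ) (by rw [flf]; exact hlθ) sm pm hsm hpm hpm'
      (by rw [fl1, fG, fa]; exact hdrop)
      (fun t x => by rw [fc]; exact hgood.near t x) ξ (by rw [fκ, fε]; exact hε2) t x
    rw [fA, fL, fTp] at h1
    exact h1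
  · -- slope
    intro t x y
    have h1 := hgood.slope t x y
    have h2 : ∫ s in (0:ℝ)..t, (Real.exp (F.new.g s x) - Real.exp (F.new.g s y)) =
        (∫ s in (0:ℝ)..t, (Real.exp (c.g s x) - Real.exp (c.g s y))) +
          ∫ s in (0:ℝ)..t, (F.dth s x - F.dth s y) := by
      rw [← intervalIntegral.integral_add]
      · congr 1
        funext s
        rw [hd, hd]
        ring
      · exact (((hgc x).rexp).sub ((hgc y).rexp)).intervalIntegrable _ _
      · exact ((hdc x).sub (hdc y)).intervalIntegrable _ _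
    rw [h2]
    have h3 := InK_int (fun s => F.dth s x - F.dth s y) ((hdc x).sub (hdc y)) T hT
      (fun s hs => by rw [hd0 s hs x, hd0 s hs y, sub_self]) t
    have h4 := inH2 F B H hlo hHf' hlf' (M - Hf) hΛ' T hT x y
    rw [fl0, fa, fTp, fL, fκ, fε] at h4
    have h5 : 10 * a * κ * (Real.sqrt ε * (2 * T + 1400 * Real.exp (M - Hf) * Tp * L ^ 2)) ≤ ξ := by
      refine le_trans (le_of_eq ?_) hε4
      ring
    have h6 : (1800 * a * Real.exp (-(l1 - Real.log (1 + A ^ 2) / 2)) * Tp * L +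
        10 * a * κ * (Real.sqrt ε * (2 * T + 1400 * Real.exp (M - Hf) * Tp * L ^ 2))) * ‖x - y‖ ≤
        (1800 * a * Real.exp (-(l1 - Real.log (1 + A ^ 2) / 2)) * Tp * L + ξ) * ‖x - y‖ :=
      mul_le_mul_of_nonneg_right (by linarith) (norm_nonneg _)
    refine (abs_add_le _ _).trans ?_
    have h7 : (η + 1800 * a * Real.exp (-(l1 - Real.log (1 + A ^ 2) / 2)) * Tp * L + ξ) * ‖x - y‖ =
        η * ‖x - y‖ + (1800 * a * Real.exp (-(l1 - Real.log (1 + A ^ 2) / 2)) * Tp * L + ξ) * ‖x - y‖ := by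
      ring
    rw [h7]
    exact add_le_add h1 (h3.trans (h4.trans h6))
  · -- low
    intro t x
    rw [hg]
    have h1 := hgood.low t x
    have h2 := inE_drop_nonneg F B H t x
    linarith
  · -- thick
    intro x
    have h1 := hgood.thick x
    have h2 : ∫ s in (0:ℝ)..T, (Real.exp (F.new.g s x) - Real.exp (- tp s)) =
        (∫ s in (0:ℝ)..T, F.dth s x) + ∫ s in (0:ℝ)..T, (Real.exp (c.g s x) - Real.exp (- tp s)) := by
      rw [← intervalIntegral.integral_add]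
      · congr 1
        funext s
        rw [hd]
        ring
      · exact (hdc x).intervalIntegrable _ _
      · exact (((hgc x).rexp).sub (htp.neg.rexp)).intervalIntegrable _ _
    rw [h2]
    have h3 := inI F B H hlo hHf' hlf' T hT x
    rw [fa, fTp, fε, fL] at h3
    have h4 : 270 * a * Tp * ε * L ^ 2 ≤ ξ := by
      refine le_trans (le_of_eq ?_) hε3
      ring
    linarith

end Pool.Agent.H31.QH
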