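import Pool.Agent.H31.QH.Dfs

/-!
Row Ini (MP_b924dd_QH): the initial configuration.

`Hf = H0 - 4`, `W = 4 + 16ρ`, `T = Λ + 2W`, `t1 = W`, `tp t = Hf + max 0 (min (min t (T - t)) W)`.  `tp` is 1-Lipschitz, `= Hf` off `[0,T]`,
`= Hf + W = H0 + 16ρ` on `[W, W+Λ]`, `Hf ≤ tp ≤ H0 + 16ρ`.
Configuration: `z t x = x`, `l = 0`, `g t x = - tp t`.  `mu = tp`.  `near`: `T = id`, `exp 0 = 1`, error 0.  `homeo`: identity.
`slope`, `thick`: the integrands are 0.
-/

namespace Pool.Agent.H31.QH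

open Filter Topology MeasureTheory

theorem ini (X : Type*) [NormedAddCommGroup X] [InnerProductSpace ℝ X] (H0 : ℝ) (ρ : ℕ) (Λ : ℝ) (hΛ : 0 ≤ Λ) :
    ∃ (T : ℝ) (tp : ℝ → ℝ) (c : Cfg X) (t1 : ℝ), 0 ≤ T ∧ Continuous tp ∧ (∀ t, tp t ≤ H0 + 16 * ρ) ∧
      0 ≤ t1 ∧ t1 + Λ ≤ T ∧ (∀ t ∈ Set.Icc t1 (t1 + Λ), tp t = H0 + 16 * ρ) ∧
      Good c T (H0 - 4) (H0 + 16 * ρ) 0 0 0 (fun _ => 0) tp := by
  have hρ : (0 : ℝ) ≤ ρ := Nat.cast_nonneg ρ
  obtain ⟨W, hW⟩ : ∃ W : ℝ, W = 4 + 16 * ρ := ⟨_, rfl⟩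
  have hW0 : 0 < W := by rw [hW]; linarith
  obtain ⟨T, hT⟩ : ∃ T : ℝ, T = Λ + 2 * W := ⟨_, rfl⟩
  obtain ⟨k, hk⟩ : ∃ k : ℝ → ℝ, k = fun t => max 0 (min (min t (T - t)) W) := ⟨_, rfl⟩
  have hkc : Continuous k := by rw [hk]; fun_prop
  have hk0 : ∀ t, 0 ≤ k t := fun t => by rw [hk]; exact le_max_left _ _
  have hkW : ∀ t, k t ≤ W := fun t => by rw [hk]; exact max_le hW0.le (min_le_right _ _)
  have hkl : ∀ t t', |k t' - k t| ≤ |t' - t| := by
    intro t t'
    rw [hk]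
    refine (abs_max_sub_max_le_max _ _ _ _).trans ?_
    refine max_le (by simp) ?_
    refine (abs_min_sub_min_le_max _ _ _ _).trans ?_
    refine max_le ?_ (by simp)
    refine (abs_min_sub_min_le_max _ _ _ _).trans ?_
    refine max_le le_rfl ?_
    rw [show T - t' - (T - t) = -(t' - t) by ring, abs_neg]
  have hkoff : ∀ t, t ∉ Set.Icc 0 T → k t = 0 := by
    intro t ht
    rw [hk]
    apply max_eq_left
    rw [Set.mem_Icc, not_and_or, not_le, not_le] at ht
    rcases ht with ht | ht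
    · exact (min_le_left _ _).trans ((min_le_left _ _).trans ht.le)
    · exact (min_le_left _ _).trans ((min_le_right _ _).trans (by linarith))
  refine ⟨T, fun t => H0 - 4 + k t, ⟨fun _ x => x, fun _ _ => 0, fun t _ => -(H0 - 4 + k t)⟩, W, by linarith,
    by fun_prop, ?_, hW0.le, by linarith, ?_, ?_⟩
  · intro t
    have := hkW t
    show H0 - 4 + k t ≤ _
    linarith
  · intro t ht
    show H0 - 4 + k t = _
    have h1 : k t = W := by
      rw [hk]
      show max 0 (min (min t (T - t)) W) = W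
      rw [min_eq_right (le_min ht.1 (by linarith [ht.2])), max_eq_right hW0.le]
    rw [h1, hW]
    ring
  · refine ⟨⟨0, ?_⟩, ⟨1, ?_⟩, ?_, ?_, ?_, ?_, ?_, ?_, ?_, ?_, ?_, ?_⟩
    · intro t t' x x'
      simp
    · intro t t' x x'
      show |-(H0 - 4 + k t') - -(H0 - 4 + k t)| ≤ 1 * (|t' - t| + ‖x' - x‖)
      rw [show -(H0 - 4 + k t') - -(H0 - 4 + k t) = -(k t' - k t) by ring, abs_neg]
      have := hkl t t'
      have := norm_nonneg (x' - x)
      linarith
    · intro t x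
      exact le_rfl
    · intro t ht x
      refine ⟨rfl, rfl, ?_⟩
      show -(H0 - 4 + k t) = -(H0 - 4)
      rw [hkoff t ht, add_zero]
    · exact (Homeomorph.refl (ℝ × X)).isHomeomorph
    · intro t x
      simp
    · intro t x
      have := hk0 t
      show H0 - 4 ≤ - -(H0 - 4 + k t) - 0
      linarith
    · intro t x
      have := hkW t
      show - -(H0 - 4 + k t) - 0 ≤ H0 + 16 * ρ
      linarith
    · intro t x
      refine ⟨ContinuousLinearMap.id ℝ X, fun h => by simp, Filter.Eventually.of_forall fun p => ?_⟩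
      simp
    · intro t x y
      simp
    · intro t x
      exact le_rfl
    · intro x
      simp

end Pool.Agent.H31.QH
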