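import Mathlib

/-!
Basic facts on `lp (fun _ : I => G) 2`: membership from square summability, norm as a sum of squares,
multiplication by weights (`mul`), the family of maps `Qa a : E → l2(I;E)`, `e ↦ (a_p e)_p`, and the
tensor product `ten` of two scalar `l2` vectors.
-/

namespace Pool.Agent.H31.QH

open Filter Topology

section basic

variable {I : Type*} {G : Type*} [NormedAddCommGroup G]

theorem two_toReal : (2 : ENNReal).toReal = 2 := by norm_num

theorem mem2 {f : I → G} (h : Summable fun i => ‖f i‖ ^ 2) : Memℓp f 2 := by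
  apply memℓp_gen
  have : (fun i => ‖f i‖ ^ (2 : ENNReal).toReal) = fun i => ‖f i‖ ^ 2 := by
    funext i
    rw [two_toReal]
    exact Real.rpow_two _
  rw [this]
  exact h

theorem hasSum_sq (z : lp (fun _ : I => G) 2) : HasSum (fun i => ‖z i‖ ^ 2) (‖z‖ ^ 2) := by
  have h := lp.hasSum_norm (p := 2) (E := fun _ : I => G) (by norm_num) z
  rw [two_toReal] at h
  have e : (fun i => ‖z i‖ ^ (2 : ℝ)) = fun i => ‖z i‖ ^ 2 := by
    funext i
    exact Real.rpow_two _
  rw [e, Real.rpow_two] at h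
  exact h

theorem summable_sq (z : lp (fun _ : I => G) 2) : Summable (fun i => ‖z i‖ ^ 2) :=
  (hasSum_sq z).summable

theorem norm_sq_eq (z : lp (fun _ : I => G) 2) : ‖z‖ ^ 2 = ∑' i, ‖z i‖ ^ 2 :=
  (hasSum_sq z).tsum_eq.symm

theorem apply_norm_le (z : lp (fun _ : I => G) 2) (i : I) : ‖z i‖ ≤ ‖z‖ :=
  lp.norm_apply_le_norm (by norm_num) z i

end basic

section mul

/-- clamp to `[-1,1]` -/
noncomputable def cl1 (r : ℝ) : ℝ := max (-1) (min r 1)

theorem cl1_of_abs_le {r : ℝ} (h : |r| ≤ 1) : cl1 r = r := by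
  unfold cl1
  rw [min_eq_left (abs_le.mp h).2, max_eq_right (abs_le.mp h).1]

theorem abs_cl1_le (r : ℝ) : |cl1 r| ≤ 1 := by
  unfold cl1
  rw [abs_le]
  exact ⟨le_max_left _ _, max_le (by norm_num) (min_le_right _ _)⟩

theorem abs_cl1_sub (r s : ℝ) : |cl1 r - cl1 s| ≤ |r - s| := by
  unfold cl1
  have h1 : |max (-1) (min r 1) - max (-1) (min s 1)| ≤ |min r 1 - min s 1| := by
    have := abs_max_sub_max_le_max (-1 : ℝ) (min r 1) (-1) (min s 1)
    simpa using this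
  have h2 : |min r 1 - min s 1| ≤ |r - s| := by
    have := abs_min_sub_min_le_max r 1 s 1
    simpa using this
  exact h1.trans h2

variable {I : Type*} {G : Type*} [NormedAddCommGroup G] [NormedSpace ℝ G]

theorem mul_mem (m : I → ℝ) (z : lp (fun _ : I => G) 2) :
    Memℓp (fun p => cl1 (m p) • z p) 2 := by
  apply mem2
  refine Summable.of_nonneg_of_le (fun i => by positivity) (fun i => ?_) (summable_sq z)
  rw [norm_smul, mul_pow]
  have h : ‖cl1 (m i)‖ ^ 2 ≤ 1 := by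
    have := abs_cl1_le (m i)
    rw [Real.norm_eq_abs]
    nlinarith [abs_nonneg (cl1 (m i))]
  nlinarith [sq_nonneg ‖z i‖]

/-- multiplication by the weights `m` (clamped to `[-1,1]`) -/
noncomputable def mul (m : I → ℝ) (z : lp (fun _ : I => G) 2) : lp (fun _ : I => G) 2 :=
  ⟨fun p => cl1 (m p) • z p, mul_mem m z⟩

@[simp] theorem mul_apply (m : I → ℝ) (z : lp (fun _ : I => G) 2) (p : I) :
    mul m z p = cl1 (m p) • z p := rfl

theorem mul_sub (m : I → ℝ) (z w : lp (fun _ : I => G) 2) : mul m (z - w) = mul m z - mul m w := by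
  apply lp.ext
  funext p
  simp [smul_sub]

theorem mul_add' (m : I → ℝ) (z w : lp (fun _ : I => G) 2) : mul m (z + w) = mul m z + mul m w := by
  apply lp.ext
  funext p
  simp [smul_add]

theorem mul_smul' (m : I → ℝ) (c : ℝ) (z : lp (fun _ : I => G) 2) : mul m (c • z) = c • mul m z := by
  apply lp.ext
  funext p
  simp [smul_comm c]

theorem norm_mul_le_of (m : I → ℝ) (z : lp (fun _ : I => G) 2) {c : ℝ} (hc : 0 ≤ c)
    (h : ∀ p, ‖cl1 (m p) • z p‖ ≤ c * ‖z p‖) : ‖mul m z‖ ≤ c * ‖z‖ := by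
  have h1 : ‖mul m z‖ ^ 2 ≤ (c * ‖z‖) ^ 2 := by
    rw [norm_sq_eq, mul_pow, norm_sq_eq, ← tsum_mul_left]
    refine Summable.tsum_le_tsum (fun p => ?_) (summable_sq _) ((summable_sq z).mul_left _)
    rw [mul_apply, ← mul_pow]
    exact pow_le_pow_left₀ (norm_nonneg _) (h p) 2
  exact le_of_sq_le_sq h1 (by positivity)

theorem norm_mul_le (m : I → ℝ) (z : lp (fun _ : I => G) 2) : ‖mul m z‖ ≤ ‖z‖ := by
  have := norm_mul_le_of m z (c := 1) (by norm_num) (fun p => by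
    rw [norm_smul]
    exact mul_le_mul_of_nonneg_right (abs_cl1_le _) (norm_nonneg _))
  simpa using this

/-- weights uniformly close: the products are close -/
theorem norm_mul_sub_mul_le (m m' : I → ℝ) (z : lp (fun _ : I => G) 2) {c : ℝ} (hc : 0 ≤ c)
    (h : ∀ p, |m p - m' p| ≤ c) : ‖mul m z - mul m' z‖ ≤ c * ‖z‖ := by
  have h1 : ‖mul m z - mul m' z‖ ^ 2 ≤ (c * ‖z‖) ^ 2 := by
    rw [norm_sq_eq, mul_pow, norm_sq_eq, ← tsum_mul_left]
    refine Summable.tsum_le_tsum (fun p => ?_) (summable_sq _) ((summable_sq z).mul_left _)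
    have e : (mul m z - mul m' z) p = (cl1 (m p) - cl1 (m' p)) • z p := by
      rw [lp.coeFn_sub, Pi.sub_apply, mul_apply, mul_apply, sub_smul]
    rw [e, ← mul_pow, norm_smul]
    refine pow_le_pow_left₀ (by positivity) ?_ 2
    exact mul_le_mul_of_nonneg_right ((abs_cl1_sub _ _).trans (h p)) (norm_nonneg _)
  exact le_of_sq_le_sq h1 (by positivity)

/-- composition of two weights in `[0,1]` -/
theorem mul_mul' (m m' : I → ℝ) (z : lp (fun _ : I => G) 2) (h : ∀ p, |m p| ≤ 1)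
    (h' : ∀ p, |m' p| ≤ 1) : mul m (mul m' z) = mul (fun p => m p * m' p) z := by
  apply lp.ext
  funext p
  simp only [mul_apply]
  rw [cl1_of_abs_le (h p), cl1_of_abs_le (h' p), cl1_of_abs_le, smul_smul]
  rw [abs_mul]
  nlinarith [abs_nonneg (m p), abs_nonneg (m' p), h p, h' p]

end mul

section Qa

variable {I : Type*} {G : Type*} [NormedAddCommGroup G] [InnerProductSpace ℝ G] [CompleteSpace G]

omit [CompleteSpace G] in
theorem Qa_mem (a : lp (fun _ : I => ℝ) 2) (e : G) : Memℓp (fun p => a p • e) 2 := by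
  apply mem2
  have : (fun p => ‖a p • e‖ ^ 2) = fun p => ‖a p‖ ^ 2 * ‖e‖ ^ 2 := by
    funext p
    rw [norm_smul, mul_pow]
  rw [this]
  exact (summable_sq a).mul_right _

/-- the element `(a_p e)_p` of `l2(I;G)` -/
noncomputable def Qv (a : lp (fun _ : I => ℝ) 2) (e : G) : lp (fun _ : I => G) 2 :=
  ⟨fun p => a p • e, Qa_mem a e⟩

@[simp] theorem Qv_apply (a : lp (fun _ : I => ℝ) 2) (e : G) (p : I) : Qv a e p = a p • e := rfl

theorem norm_Qv (a : lp (fun _ : I => ℝ) 2) (e : G) : ‖Qv a e‖ = ‖a‖ * ‖e‖ := by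
  have h : ‖Qv a e‖ ^ 2 = (‖a‖ * ‖e‖) ^ 2 := by
    rw [norm_sq_eq, mul_pow, norm_sq_eq, ← tsum_mul_right]
    congr 1
    funext p
    rw [Qv_apply, norm_smul, mul_pow]
  have h1 : 0 ≤ ‖Qv a e‖ := norm_nonneg _
  have h2 : 0 ≤ ‖a‖ * ‖e‖ := by positivity
  exact (pow_left_inj₀ h1 h2 two_ne_zero).mp h

/-- `Qv` as a continuous linear map in `e` -/
noncomputable def Qa (a : lp (fun _ : I => ℝ) 2) : G →L[ℝ] lp (fun _ : I => G) 2 :=
  LinearMap.mkContinuous
    { toFun := fun e => Qv a e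
      map_add' := fun e e' => by
        apply lp.ext
        funext p
        simp [smul_add]
      map_smul' := fun c e => by
        apply lp.ext
        funext p
        simp [smul_comm c] } ‖a‖ (fun e => le_of_eq (norm_Qv a e))

theorem Qa_apply (a : lp (fun _ : I => ℝ) 2) (e : G) : Qa a e = Qv a e := rfl

theorem norm_Qa_apply (a : lp (fun _ : I => ℝ) 2) (e : G) : ‖Qa a e‖ = ‖a‖ * ‖e‖ := norm_Qv a e

theorem Qa_sub (a b : lp (fun _ : I => ℝ) 2) :
    (Qa (a - b) : G →L[ℝ] lp (fun _ : I => G) 2) = Qa a - Qa b := by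
  ext e : 1
  rw [sub_apply, Qa_apply, Qa_apply, Qa_apply]
  apply lp.ext
  funext p
  simp [sub_smul]

theorem norm_Qa_le (a : lp (fun _ : I => ℝ) 2) :
    ‖(Qa a : G →L[ℝ] lp (fun _ : I => G) 2)‖ ≤ ‖a‖ :=
  ContinuousLinearMap.opNorm_le_bound _ (norm_nonneg _) (fun e => le_of_eq (norm_Qa_apply a e))

theorem norm_Qa_sub_le (a b : lp (fun _ : I => ℝ) 2) :
    ‖(Qa a : G →L[ℝ] lp (fun _ : I => G) 2) - Qa b‖ ≤ ‖a - b‖ := by
  rw [← Qa_sub]
  exact norm_Qa_le _

/-- the adjoint only sees the coordinates where `a` does not vanish -/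
theorem Qa_adj_mul (a : lp (fun _ : I => ℝ) 2) (m : I → ℝ) (z : lp (fun _ : I => G) 2)
    (h : ∀ p, a p ≠ 0 → m p = 1) :
    ContinuousLinearMap.adjoint (Qa a) (mul m z) = ContinuousLinearMap.adjoint (Qa a) z := by
  apply ext_inner_right ℝ
  intro e
  rw [ContinuousLinearMap.adjoint_inner_left, ContinuousLinearMap.adjoint_inner_left,
    lp.inner_eq_tsum, lp.inner_eq_tsum]
  congr 1
  funext p
  rw [mul_apply, Qa_apply, Qv_apply]
  by_cases hp : a p = 0
  · simp [hp]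
  · rw [h p hp, cl1_of_abs_le (by norm_num), one_smul]

theorem norm_adj_Qa_le (a : lp (fun _ : I => ℝ) 2) (z : lp (fun _ : I => G) 2) :
    ‖ContinuousLinearMap.adjoint (Qa a) z‖ ≤ ‖a‖ * ‖z‖ := by
  calc ‖ContinuousLinearMap.adjoint (Qa a) z‖
      ≤ ‖ContinuousLinearMap.adjoint (Qa a : G →L[ℝ] lp (fun _ : I => G) 2)‖ * ‖z‖ :=
        ContinuousLinearMap.le_opNorm _ _
    _ = ‖(Qa a : G →L[ℝ] lp (fun _ : I => G) 2)‖ * ‖z‖ := by
        rw [LinearIsometryEquiv.norm_map]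
    _ ≤ ‖a‖ * ‖z‖ := mul_le_mul_of_nonneg_right (norm_Qa_le a) (norm_nonneg _)

/-- hence it is controlled by the weighted norm -/
theorem norm_adj_Qa_le_mul (a : lp (fun _ : I => ℝ) 2) (m : I → ℝ) (z : lp (fun _ : I => G) 2)
    (h : ∀ p, a p ≠ 0 → m p = 1) :
    ‖ContinuousLinearMap.adjoint (Qa a) z‖ ≤ ‖a‖ * ‖mul m z‖ := by
  rw [← Qa_adj_mul a m z h]
  exact norm_adj_Qa_le _ _

end Qa

section ten

variable {I J : Type*}

theorem ten_hasSum (a : lp (fun _ : I => ℝ) 2) (b : lp (fun _ : J => ℝ) 2) :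
    HasSum (fun p : I × J => ‖a p.1 * b p.2‖ ^ 2) (‖a‖ ^ 2 * ‖b‖ ^ 2) := by
  have hs := (summable_sq a).mul_of_nonneg (summable_sq b) (fun i => by positivity)
    (fun j => by positivity)
  have h := (hasSum_sq a).mul (hasSum_sq b) hs
  have e : (fun p : I × J => ‖a p.1 * b p.2‖ ^ 2) = fun p : I × J => ‖a p.1‖ ^ 2 * ‖b p.2‖ ^ 2 := by
    funext p
    rw [norm_mul, mul_pow]
  rw [e]
  exact h

/-- tensor product of two scalar `l2` vectors -/
noncomputable def ten (a : lp (fun _ : I => ℝ) 2) (b : lp (fun _ : J => ℝ) 2) :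
    lp (fun _ : I × J => ℝ) 2 :=
  ⟨fun p => a p.1 * b p.2, mem2 (ten_hasSum a b).summable⟩

@[simp] theorem ten_apply (a : lp (fun _ : I => ℝ) 2) (b : lp (fun _ : J => ℝ) 2) (p : I × J) :
    ten a b p = a p.1 * b p.2 := rfl

theorem norm_ten (a : lp (fun _ : I => ℝ) 2) (b : lp (fun _ : J => ℝ) 2) :
    ‖ten a b‖ = ‖a‖ * ‖b‖ := by
  have h : ‖ten a b‖ ^ 2 = (‖a‖ * ‖b‖) ^ 2 := by
    rw [norm_sq_eq, mul_pow]
    exact (ten_hasSum a b).tsum_eq
  exact (pow_left_inj₀ (norm_nonneg _) (by positivity) two_ne_zero).mp h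

theorem ten_sub_left (a a' : lp (fun _ : I => ℝ) 2) (b : lp (fun _ : J => ℝ) 2) :
    ten (a - a') b = ten a b - ten a' b := by
  apply lp.ext
  funext p
  simp [sub_mul]

theorem ten_sub_right (a : lp (fun _ : I => ℝ) 2) (b b' : lp (fun _ : J => ℝ) 2) :
    ten a (b - b') = ten a b - ten a b' := by
  apply lp.ext
  funext p
  simp [_root_.mul_sub]

theorem norm_ten_sub_le (a a' : lp (fun _ : I => ℝ) 2) (b b' : lp (fun _ : J => ℝ) 2) :
    ‖ten a b - ten a' b'‖ ≤ ‖a - a'‖ * ‖b‖ + ‖a'‖ * ‖b - b'‖ := by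
  have e : ten a b - ten a' b' = ten (a - a') b + ten a' (b - b') := by
    rw [ten_sub_left, ten_sub_right]
    abel
  rw [e, ← norm_ten, ← norm_ten]
  exact norm_add_le _ _

end ten

end Pool.Agent.H31.QH
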