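import Mathlib

/-!
Row Par (MP_b924dd_QH): the parameters of the stages.  Mathlib only (real inequalities).

PROOF.  Put `A = 2^{-r}/64000`, `G = log(1+A²)/2`, `n = ⌈16/G⌉₊`, `N = 8·10^11·4^r`, `Tp = 2·10^11·4^r·N`, `a = e^{19} N³`,
`ξ = 2^{-r}/(100 n)`.
 `A²/4 ≤ G ≤ A²/2 ≤ 1/2` (`log(1+x) ≤ x`; `log(1+x) ≥ x/(1+x) ≥ x/2` for `0 ≤ x ≤ 1`).  `16/G ≤ n ≤ 16/G + 1`, so `16 ≤ nG ≤ 16+G`, and
 `n ≤ 64/A² + 1 ≤ 65/A²`, `n A ≤ 65·64000·2^r = 4.16·10^6·2^r`, `n ≤ 65·64000²·4^r ≤ 2.7·10^11·4^r`.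
 (i) `a (1/N)(1/N)² = e^{19}`, `log(1+e^{19}) ≥ 19`.
 (ii) `n ξ = 2^{-r}/100`.   (iii) `n·2000A·(3/N) = 6000 nA/N ≤ 2.496·10^10·2^r/(8·10^11·4^r) ≤ 2^{-r}/32`; `2000A = 2^{-r}/32`.
      Sum with `nξ`: `≤ 2^{-r}(1/32+1/32+1/100) ≤ 2^{-r}/8`.
 (iv) `n·2000·A·N/Tp ≤ 8.32·10^9·2^r/(2·10^11·4^r) ≤ 2^{-r}/24`, plus `nξ`: `≤ 2^{-r}/8`.
 (v) `n·1800·a·e^{1-H0-16(r-1)}·Tp·N = 1800 n e^{19} N³·2·10^11·4^r·N·N·e^{17-H0-16r} ≤ C·4^{7r} e^{-16r} e^{36-H0}` with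
     `C = 1800·2.7·10^11·2·10^11·(8·10^11)^5`; `2^r·4^{7r}·e^{-16r} = (32768/e^{16})^r ≤ 1` (`e^{16} ≥ 2^{16}`, `e ≥ 2`).  So it is
     `≤ 2^{-r} C e^{36-H0} ≤ 2^{-r}/16` if `H0 ≥ 36 + log(16 C)`.  Take `H0 = 36 + log(16 C)` (`≥ 5`).
-/

namespace Pool.Agent.H31.QH

/-- the parameters of stage `r` exist -/
def ParOK (H0 : ℝ) (r : ℕ) : Prop :=
  ∃ (A N Tp a ξ G : ℝ) (n : ℕ), 0 < A ∧ A ≤ 1 / 2000 ∧ 100 ≤ N ∧ 1 ≤ Tp ∧ 1 ≤ a ∧ 0 < ξ ∧
    G = Real.log (1 + A ^ 2) / 2 ∧ 0 < G ∧ G ≤ 1 / 2 ∧ 16 ≤ n * G ∧ n * G ≤ 16 + G ∧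
    19 ≤ Real.log (1 + a * (1 / N) * (1 / N) ^ 2) ∧
    n * (2000 * A * (1 / N + 1 / N + 1 / N) + ξ) + 2000 * A ≤ (1 / 2) ^ r / 8 ∧
    n * (1800 * a * Real.exp (1 - H0 - 16 * ((r : ℝ) - 1)) * Tp * N + ξ) ≤ (1 / 2) ^ r / 8 ∧
    n * (2000 * A * N / Tp + ξ) ≤ (1 / 2) ^ r / 8 ∧ n * ξ ≤ (1 / 2) ^ r / 8

theorem par : ∃ H0 : ℝ, 5 ≤ H0 ∧ ∀ r : ℕ, 1 ≤ r → ParOK H0 r := by
  obtain ⟨C, hC⟩ : ∃ C : ℝ, C = 1800 * (27 * 10 ^ 10) * (2 * 10 ^ 11) * (8 * 10 ^ 11) ^ 5 :=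
    ⟨_, rfl⟩
  have hC1 : 1 ≤ C := by rw [hC]; norm_num
  have hC0 : 0 < C := by linarith
  refine ⟨36 + Real.log (16 * C), ?_, ?_⟩
  · have : 0 ≤ Real.log (16 * C) := Real.log_nonneg (by linarith)
    linarith
  intro r hr
  obtain ⟨p, hp⟩ : ∃ p : ℝ, p = 2 ^ r := ⟨_, rfl⟩
  have hp2 : 2 ≤ p := by
    rw [hp]
    calc (2 : ℝ) = 2 ^ 1 := by norm_num
      _ ≤ 2 ^ r := pow_le_pow_right₀ (by norm_num) hr
  have hp0 : 0 < p := by linarith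
  have hhalf : (1 / 2 : ℝ) ^ r = 1 / p := by
    rw [hp, one_div_pow]
  obtain ⟨A, hA⟩ : ∃ A : ℝ, A = 1 / (64000 * p) := ⟨_, rfl⟩
  have hA0 : 0 < A := by rw [hA]; positivity
  have hAp : A * p = 1 / 64000 := by rw [hA]; field_simp
  have hA1 : A ≤ 1 / 2000 := by
    have h1 : A * 2 ≤ A * p := mul_le_mul_of_nonneg_left hp2 hA0.le
    linarith
  obtain ⟨s, hs⟩ : ∃ s : ℝ, s = A ^ 2 := ⟨_, rfl⟩
  have hs0 : 0 < s := by rw [hs]; positivity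
  have hs1 : s ≤ 1 / 4 := by
    rw [hs]
    have : A ^ 2 ≤ (1 / 2) ^ 2 := pow_le_pow_left₀ hA0.le (by linarith) 2
    linarith
  obtain ⟨G, hG⟩ : ∃ G : ℝ, G = Real.log (1 + A ^ 2) / 2 := ⟨_, rfl⟩
  have hG2 : G ≤ s / 2 := by
    have := Real.log_le_sub_one_of_pos (show 0 < 1 + s by linarith)
    rw [hG, ← hs]
    linarith
  have hG1 : s / 4 ≤ G := by
    have h1 := Real.one_sub_inv_le_log_of_pos (show 0 < 1 + s by linarith)
    have h2 : s / 2 ≤ 1 - (1 + s)⁻¹ := by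
      have h3 : 1 - (1 + s)⁻¹ = s / (1 + s) := by
        field_simp
        ring
      rw [h3, div_le_div_iff₀ (by norm_num) (by linarith)]
      nlinarith
    rw [hG, ← hs]
    linarith
  have hG0 : 0 < G := by linarith
  obtain ⟨n, hn⟩ : ∃ n : ℕ, n = ⌈16 / G⌉₊ := ⟨_, rfl⟩
  have hn1 : 16 / G ≤ (n : ℝ) := by rw [hn]; exact Nat.le_ceil _
  have hn2 : (n : ℝ) ≤ 16 / G + 1 := by
    rw [hn]; exact (Nat.ceil_lt_add_one (by positivity)).le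
  have hnG1 : 16 ≤ n * G := by
    rwa [div_le_iff₀ hG0] at hn1
  have hnG2 : n * G ≤ 16 + G := by
    have := mul_le_mul_of_nonneg_right hn2 hG0.le
    have h2 : (16 / G + 1) * G = 16 + G := by field_simp
    linarith
  have hn0 : (0 : ℝ) < n := lt_of_lt_of_le (by positivity) hn1
  have hns : n * s ≤ 65 := by
    have h1 : (n : ℝ) * (s / 4) ≤ n * G := mul_le_mul_of_nonneg_left hG1 hn0.le
    linarith
  -- `n ≤ 65 · 64000² p²`
  have hs2 : s * (p * p) = 1 / 64000 ^ 2 := by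
    have : s * (p * p) = (A * p) * (A * p) := by rw [hs]; ring
    rw [this, hAp]; norm_num
  have hnp : (n : ℝ) ≤ 27 * 10 ^ 10 * (p * p) := by
    have h1 : (n : ℝ) * s * (p * p) ≤ 65 * (p * p) :=
      mul_le_mul_of_nonneg_right hns (by positivity)
    have h2 : (n : ℝ) * s * (p * p) = n * (s * (p * p)) := by ring
    rw [h2, hs2] at h1
    have h3 : (n : ℝ) ≤ 65 * 64000 ^ 2 * (p * p) := by linarith
    have h4 : 0 ≤ p * p := by positivity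
    linarith
  have hnA : (n : ℝ) * A ≤ 416 * 10 ^ 4 * p := by
    have h1 : (n : ℝ) * A * (A * p) ≤ 65 * p := by
      have : (n : ℝ) * A * (A * p) = (n * s) * p := by rw [hs]; ring
      rw [this]
      exact mul_le_mul_of_nonneg_right hns hp0.le
    rw [hAp] at h1
    linarith
  obtain ⟨N, hN⟩ : ∃ N : ℝ, N = 8 * 10 ^ 11 * (p * p) := ⟨_, rfl⟩
  have hpp : 4 ≤ p * p := by nlinarith
  have hN100 : 100 ≤ N := by rw [hN]; linarith
  have hN0 : 0 < N := by linarith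
  obtain ⟨Tp, hTp⟩ : ∃ Tp : ℝ, Tp = 2 * 10 ^ 11 * (p * p) * N := ⟨_, rfl⟩
  have hT0 : 0 < Tp := by rw [hTp]; positivity
  have hT1 : 1 ≤ Tp := by
    rw [hTp]
    have h1 : (1 : ℝ) ≤ 2 * 10 ^ 11 * (p * p) := by linarith
    have h2 : (1 : ℝ) * 1 ≤ 2 * 10 ^ 11 * (p * p) * N :=
      mul_le_mul h1 (by linarith) (by norm_num) (by linarith)
    linarith
  obtain ⟨a, ha⟩ : ∃ a : ℝ, a = Real.exp 19 * N ^ 3 := ⟨_, rfl⟩
  have he19 : 1 ≤ Real.exp 19 := Real.one_le_exp (by norm_num)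
  have ha0 : 0 < a := by rw [ha]; positivity
  have ha1 : 1 ≤ a := by
    rw [ha]
    have h1 : (1 : ℝ) ≤ N ^ 3 := one_le_pow₀ (by linarith)
    have h2 : (1 : ℝ) * 1 ≤ Real.exp 19 * N ^ 3 :=
      mul_le_mul he19 h1 (by norm_num) (by linarith)
    linarith
  obtain ⟨ξ, hξ⟩ : ∃ ξ : ℝ, ξ = 1 / (100 * (n * p)) := ⟨_, rfl⟩
  have hξ0 : 0 < ξ := by rw [hξ]; positivity
  have hnξ : n * ξ = 1 / p / 100 := by rw [hξ]; field_simp
  obtain ⟨q, hq⟩ : ∃ q : ℝ, q = 1 / p := ⟨_, rfl⟩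
  have hq0 : 0 < q := by rw [hq]; positivity
  have hqp : q * p = 1 := by rw [hq]; field_simp
  rw [← hq] at hnξ
  have hAq : 2000 * A = q / 32 := by
    have h1 : A = A * p * q := by
      rw [mul_assoc, mul_comm p q, hqp, mul_one]
    rw [h1, hAp]; ring
  refine ⟨A, N, Tp, a, ξ, G, n, hA0, hA1, hN100, hT1, ha1, hξ0, hG, hG0, by linarith, hnG1,
    hnG2, ?_, ?_, ?_, ?_, ?_⟩
  · have h1 : a * (1 / N) * (1 / N) ^ 2 = Real.exp 19 := by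
      rw [ha]; field_simp
    rw [h1, Real.le_log_iff_exp_le (by positivity)]
    linarith
  · rw [hhalf, ← hq]
    have h1 : (n : ℝ) * (2000 * A * (1 / N + 1 / N + 1 / N) + ξ) + 2000 * A =
        6000 * (n * A) * (1 / N) + n * ξ + 2000 * A := by ring
    have h2 : 6000 * (n * A) * (1 / N) ≤ q / 32 := by
      rw [mul_one_div, div_le_iff₀ hN0, hN]
      have h3 : q / 32 * (8 * 10 ^ 11 * (p * p)) = 25 * 10 ^ 9 * p * (q * p) := by ring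
      rw [h3, hqp]
      linarith
    rw [h1, hnξ, hAq]
    linarith
  · rw [hhalf, ← hq]
    have h1 : (n : ℝ) * (1800 * a * Real.exp (1 - (36 + Real.log (16 * C)) - 16 * ((r : ℝ) - 1)) *
        Tp * N + ξ) = 1800 * n * a *
        Real.exp (1 - (36 + Real.log (16 * C)) - 16 * ((r : ℝ) - 1)) * Tp * N + n * ξ := by ring
    have h2 : Real.exp 19 * Real.exp (1 - (36 + Real.log (16 * C)) - 16 * ((r : ℝ) - 1)) =
        Real.exp (-(16 * r)) / (16 * C) := by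
      rw [← Real.exp_add]
      have e1 : 19 + (1 - (36 + Real.log (16 * C)) - 16 * ((r : ℝ) - 1)) =
          -(16 * r) - Real.log (16 * C) := by ring
      rw [e1, Real.exp_sub, Real.exp_log (by positivity)]
    have h3 : 1800 * n * a * Real.exp (1 - (36 + Real.log (16 * C)) - 16 * ((r : ℝ) - 1)) * Tp *
        N = 1800 * (2 * 10 ^ 11) * (n * ((p * p) * N ^ 5)) *
        (Real.exp (-(16 * r)) / (16 * C)) := by
      rw [← h2, ha, hTp]; ring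
    have hE : Real.exp (-(16 * (r : ℝ))) ≤ q ^ 15 := by
      have h4 : (2 : ℝ) ^ (15 * r) ≤ Real.exp (16 * r) := by
        have h5 : (2 : ℝ) ≤ Real.exp 1 := by
          have := Real.add_one_le_exp (1 : ℝ)
          linarith
        have h6 : Real.exp (16 * (r : ℝ)) = Real.exp 1 ^ (16 * r) := by
          rw [← Real.exp_nat_mul]
          push_cast
          ring_nf
        rw [h6]
        calc (2 : ℝ) ^ (15 * r) ≤ 2 ^ (16 * r) := pow_le_pow_right₀ (by norm_num) (by omega)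
          _ ≤ Real.exp 1 ^ (16 * r) := pow_le_pow_left₀ (by norm_num) h5 _
      have h7 : (2 : ℝ) ^ (15 * r) = p ^ 15 := by
        rw [hp, ← pow_mul, mul_comm]
      rw [h7] at h4
      rw [Real.exp_neg, hq, one_div, inv_pow]
      exact inv_anti₀ (by positivity) h4
    have h8 : 1800 * (2 * 10 ^ 11) * (n * ((p * p) * N ^ 5)) ≤ C * p ^ 14 := by
      have h9 : (n : ℝ) * ((p * p) * N ^ 5) ≤ 27 * 10 ^ 10 * (p * p) * ((p * p) * N ^ 5) :=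
        mul_le_mul_of_nonneg_right hnp (by positivity)
      calc 1800 * (2 * 10 ^ 11) * (n * ((p * p) * N ^ 5)) ≤
            1800 * (2 * 10 ^ 11) * (27 * 10 ^ 10 * (p * p) * ((p * p) * N ^ 5)) :=
            mul_le_mul_of_nonneg_left h9 (by norm_num)
        _ = C * p ^ 14 := by rw [hN, hC]; ring
    have h10 : 1800 * (2 * 10 ^ 11) * (n * ((p * p) * N ^ 5)) *
        (Real.exp (-(16 * (r : ℝ))) / (16 * C)) ≤ C * p ^ 14 * (q ^ 15 / (16 * C)) := by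
      refine mul_le_mul h8 ?_ (by positivity) (by positivity)
      exact div_le_div_of_nonneg_right hE (by positivity)
    have h11 : C * p ^ 14 * (q ^ 15 / (16 * C)) = q / 16 := by
      have h12 : C * p ^ 14 * (q ^ 15 / (16 * C)) = (q * p) ^ 14 * q / 16 := by
        field_simp
      rw [h12, hqp]; ring
    rw [h1, h3, hnξ]
    linarith
  · rw [hhalf, ← hq]
    have h1 : (n : ℝ) * (2000 * A * N / Tp + ξ) = 2000 * (n * A) * N / Tp + n * ξ := by ring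
    have h2 : 2000 * (n * A) * N / Tp ≤ q / 24 := by
      rw [div_le_iff₀ hT0, hTp]
      have h3 : q / 24 * (2 * 10 ^ 11 * (p * p) * N) = 10 ^ 11 / 12 * p * N * (q * p) := by ring
      rw [h3, hqp]
      have h4 : 2000 * (n * A) * N ≤ 2000 * (416 * 10 ^ 4 * p) * N :=
        mul_le_mul_of_nonneg_right (by linarith) hN0.le
      have h5 : 0 ≤ p * N := by positivity
      nlinarith
    rw [h1, hnξ]
    linarith
  · rw [hhalf, ← hq, hnξ]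
    linarith

end Pool.Agent.H31.QH
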