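import Pool.Agent.H31.QH.Dfs

/-!
Row SelA (MP_b924dd_QH): levels and tails in `l2(PI;E)`.

`sl n z` = part of level `n`, `tl n z` = part of levels `≥ n`.
PROOF.  Everything follows from `norm_sq_eq`/`hasSum_sq` (file L2): `‖mul m z‖^2 = Σ_p (cl1 (m p))^2 ‖z p‖^2` with `cl1 (m p) = m p`
for `|m p| ≤ 1`.
(1) `‖tl n z‖² = ‖sl n z‖² + ‖tl (n+1) z‖²`: the indicator of `n ≤ p.2` is the sum of the indicators of `p.2 = n` and `n+1 ≤ p.2`.
(2) `‖tl n z‖ → 0`: given `ε`, choose a finite set `s` with `Σ_{p ∉ s} ‖z p‖² < ε` (summability), `n` larger than all levels in `s`;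
    or `tendsto_tsum_of_dominated_convergence`.
(3) weights depending only on the level: `HasSum (fun n => w n ^ 2 * ‖sl n z‖^2) (‖mul (fun p => w p.2) z‖^2)`: regroup the sum
    `Σ_{(c,n)} w_n² ‖z (c,n)‖²` over `c` for fixed `n` (`HasSum.prod_fiberwise` / `HasSum.sigma` after `Prod.swap`;
    `‖sl n z‖² = Σ_c ‖z (c,n)‖²`).
-/

namespace Pool.Agent.H31.QH

open Filter Topology

variable {E : Type*} [NormedAddCommGroup E] [InnerProductSpace ℝ E] [CompleteSpace E]

/-- part of level `n` -/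
noncomputable def sl (n : ℕ) (z : XX E) : XX E := mul (fun p : PI => if p.2 = n then 1 else 0) z

/-- part of the levels `≥ n` -/
noncomputable def tl (n : ℕ) (z : XX E) : XX E := mul (fun p : PI => if n ≤ p.2 then 1 else 0) z

theorem selA_norm_mul (m : PI → ℝ) (hm : ∀ p, |m p| ≤ 1) (z : XX E) :
    HasSum (fun p => m p ^ 2 * ‖z p‖ ^ 2) (‖mul m z‖ ^ 2) := by
  have h := hasSum_sq (mul m z)
  have e : (fun p => ‖mul m z p‖ ^ 2) = fun p => m p ^ 2 * ‖z p‖ ^ 2 := by
    funext p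
    rw [mul_apply, cl1_of_abs_le (hm p), norm_smul, mul_pow, Real.norm_eq_abs, sq_abs]
  rw [e] at h
  exact h

theorem abs_ite_le (P : Prop) [Decidable P] : |(if P then (1 : ℝ) else 0)| ≤ 1 := by
  split <;> simp

theorem selA_split (n : ℕ) (z : XX E) : ‖tl n z‖ ^ 2 = ‖sl n z‖ ^ 2 + ‖tl (n + 1) z‖ ^ 2 := by
  have h1 := selA_norm_mul (fun p : PI => if n ≤ p.2 then 1 else 0) (fun p => abs_ite_le _) z
  have h2 := selA_norm_mul (fun p : PI => if p.2 = n then 1 else 0) (fun p => abs_ite_le _) z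
  have h3 := selA_norm_mul (fun p : PI => if n + 1 ≤ p.2 then 1 else 0) (fun p => abs_ite_le _) z
  have h := h2.add h3
  refine h1.unique ?_
  have e : (fun p : PI => (if p.2 = n then (1 : ℝ) else 0) ^ 2 * ‖z p‖ ^ 2 +
      (if n + 1 ≤ p.2 then (1 : ℝ) else 0) ^ 2 * ‖z p‖ ^ 2) =
      fun p : PI => (if n ≤ p.2 then (1 : ℝ) else 0) ^ 2 * ‖z p‖ ^ 2 := by
    funext p
    by_cases hp : p.2 = n
    · have : ¬ n + 1 ≤ p.2 := by omega
      have h' : n ≤ p.2 := by omega
      rw [if_pos hp, if_neg this, if_pos h']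
      ring
    · by_cases hq : n ≤ p.2
      · have : n + 1 ≤ p.2 := by omega
        rw [if_neg hp, if_pos this, if_pos hq]
        ring
      · have : ¬ n + 1 ≤ p.2 := by omega
        rw [if_neg hp, if_neg this, if_neg hq]
        ring
  rw [e] at h
  exact h

theorem selA_zero (z : XX E) : tl 0 z = z := by
  apply lp.ext
  funext p
  unfold tl
  rw [mul_apply, if_pos (Nat.zero_le _), cl1_of_abs_le (by norm_num), one_smul]

theorem selA_tendsto (z : XX E) : Tendsto (fun n => ‖tl n z‖) atTop (𝓝 0) := by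
  have h0 : Tendsto (fun n => ‖tl n z‖ ^ 2) atTop (𝓝 0) := by
    have e : (fun n => ‖tl n z‖ ^ 2) =
        fun n => ∑' p : PI, (if n ≤ p.2 then (1 : ℝ) else 0) ^ 2 * ‖z p‖ ^ 2 := by
      funext n
      exact (selA_norm_mul (fun p : PI => if n ≤ p.2 then 1 else 0)
        (fun p => abs_ite_le _) z).tsum_eq.symm
    rw [e]
    have := tendsto_tsum_of_dominated_convergence (𝓕 := atTop)
      (f := fun (n : ℕ) (p : PI) => (if n ≤ p.2 then (1 : ℝ) else 0) ^ 2 * ‖z p‖ ^ 2)
      (g := fun _ => 0) (bound := fun p => ‖z p‖ ^ 2) (summable_sq z) (fun p => ?_) ?_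
    · simpa using this
    · apply tendsto_const_nhds.congr'
      filter_upwards [eventually_gt_atTop p.2] with n hn
      rw [if_neg (by omega)]
      ring
    · filter_upwards with n p
      by_cases hp : n ≤ p.2
      · rw [if_pos hp]
        simp
      · rw [if_neg hp]
        simp
  have h1 := h0.sqrt
  rw [Real.sqrt_zero] at h1
  refine h1.congr (fun n => ?_)
  exact Real.sqrt_sq (norm_nonneg _)

theorem selA_hasSum (w : ℕ → ℝ) (hw : ∀ n, |w n| ≤ 1) (z : XX E) :
    HasSum (fun n => w n ^ 2 * ‖sl n z‖ ^ 2) (‖mul (fun p : PI => w p.2) z‖ ^ 2) := by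
  have h := selA_norm_mul (fun p : PI => w p.2) (fun p => hw _) z
  have hs : HasSum (fun q : ℕ × _ => w q.1 ^ 2 * ‖z (q.2, q.1)‖ ^ 2)
      (‖mul (fun p : PI => w p.2) z‖ ^ 2) := by
    have := (Equiv.prodComm ℕ _).hasSum_iff.mpr h
    exact this
  refine hs.prod_fiberwise (fun n => ?_)
  have hz : Summable (fun c => ‖z (c, n)‖ ^ 2) :=
    (summable_sq z).comp_injective (i := fun c => (c, n)) (fun a b hab => (Prod.mk.inj hab).1)
  have h2 := selA_norm_mul (fun p : PI => if p.2 = n then 1 else 0) (fun p => abs_ite_le _) z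
  have h3 : HasSum (fun q : ℕ × _ => (if q.1 = n then (1 : ℝ) else 0) ^ 2 * ‖z (q.2, q.1)‖ ^ 2)
      (‖sl n z‖ ^ 2) := by
    have := (Equiv.prodComm ℕ _).hasSum_iff.mpr h2
    exact this
  have h4 : HasSum (fun c => ‖z (c, n)‖ ^ 2) (∑' c, ‖z (c, n)‖ ^ 2) := hz.hasSum
  have h5 := h3.prod_fiberwise (g := fun k => if k = n then ∑' c, ‖z (c, n)‖ ^ 2 else 0)
    (fun k => by
      by_cases hk : k = n
      · subst hk
        simpa using h4
      · simpa [hk] using (hasSum_zero : HasSum (fun _ => (0 : ℝ)) 0))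
  have h6 : ‖sl n z‖ ^ 2 = ∑' c, ‖z (c, n)‖ ^ 2 := by
    refine h5.unique ?_
    have := hasSum_ite_eq n (∑' c, ‖z (c, n)‖ ^ 2)
    exact this
  rw [h6]
  exact h4.mul_left _

end Pool.Agent.H31.QH
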