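import Mathlib

/-!
Row SelB (MP_b924dd_QH): the raw selection weights, bounds.  Mathlib only.

`us s = max (1 - s^2) 0`, `bt r τ 0 = us (τ 0)`, `bt r τ (n+1) = us (τ (n+1)) * min (r n) 1`.
Here `r n, τ n ≥ 0`, `τ n ^ 2 = r n ^ 2 + τ (n+1) ^ 2` and `τ n → 0`; so `τ` is decreasing.

PROOF.  Let `N` be the first `n` with `τ n < 1` (exists because `τ → 0`).  `bt n = 0` for `n < N` (`τ n ≥ 1`, so `us = 0`).
(upper bound) `bt N ≤ 1`; for `n ≥ N`: `bt (n+1)² ≤ r n² = τ n² - τ (n+1)²`, telescoping: `Σ_{n=N}^{M} ≤ τ N² ≤ 1`.  So the series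
  of squares is summable with sum `≤ 2`.
(lower bound) put `s n = τ n²`, for `n ≥ N` `0 ≤ s (n+1) ≤ s n < 1`, `r n ≤ 1`, so `bt (n+1)² = (1 - s (n+1))² (s n - s (n+1))
  ≥ ((1 - s (n+1))³ - (1 - s n)³)/3` (because `a³ - b³ = (a-b)(a²+ab+b²) ≤ 3 (a-b) a²` for `a ≥ b ≥ 0`).  Telescoping,
  `Σ_{n ≥ N} bt (n+1)² ≥ (1 - (1 - s N)³)/3` (limit `s → 0`).
  `bt N² ≥ (1 - s N)³`: if `N = 0` it is `(1 - s 0)² ≥ (1 - s 0)³`.  If `N = M+1`: `τ M ≥ 1`, `r M² = τ M² - s N ≥ 1 - s N`, so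
  `min (r M) 1 ^2 ≥ 1 - s N` and `bt N² ≥ (1 - s N)² (1 - s N)`.
  Total `≥ (1 - s N)³ + (1 - (1 - s N)³)/3 ≥ 1/3`.
(third claim) `us (τ n) ≠ 0` implies `τ n < 1`.
(fourth claim, used in SelC) `Σ_n [us (τ (n+1)) ≠ 0] min (r n) 1 ^ 2 ≤ 2`: the condition means `τ (n+1) < 1`, i.e. `n + 1 ≥ N`; the
  term `n = N-1` is `≤ 1`, the rest is `≤ Σ_{n≥N} r n² ≤ τ N² ≤ 1`.
-/

namespace Pool.Agent.H31.QH

open Filter Topology

noncomputable def us (s : ℝ) : ℝ := max (1 - s ^ 2) 0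

noncomputable def bt (r τ : ℕ → ℝ) : ℕ → ℝ
  | 0 => us (τ 0)
  | (n + 1) => us (τ (n + 1)) * min (r n) 1


theorem SelB_us_nonneg (s : ℝ) : 0 ≤ us s := le_max_right _ _

theorem SelB_us_le (s : ℝ) : us s ≤ 1 := by
  unfold us
  refine max_le ?_ zero_le_one
  have := sq_nonneg s
  linarith

theorem SelB_us_zero {s : ℝ} (h : 1 ≤ s) : us s = 0 := by
  unfold us
  refine max_eq_right ?_
  have : 1 ^ 2 ≤ s ^ 2 := pow_le_pow_left₀ zero_le_one h 2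
  linarith

theorem SelB_us_eq {s : ℝ} (h0 : 0 ≤ s) (h : s < 1) : us s = 1 - s ^ 2 := by
  unfold us
  refine max_eq_left ?_
  have : s ^ 2 ≤ 1 ^ 2 := pow_le_pow_left₀ h0 h.le 2
  linarith

theorem SelB_anti {r τ : ℕ → ℝ} (hτ : ∀ n, 0 ≤ τ n)
    (h : ∀ n, τ n ^ 2 = r n ^ 2 + τ (n + 1) ^ 2) (n : ℕ) : τ (n + 1) ≤ τ n := by
  refine (pow_le_pow_iff_left₀ (hτ (n + 1)) (hτ n) two_ne_zero).1 ?_
  rw [h n]
  have := sq_nonneg (r n)
  linarith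

theorem SelB_min_sq {a : ℝ} (ha : 0 ≤ a) : min a 1 ^ 2 ≤ a ^ 2 ∧ min a 1 ^ 2 ≤ 1 := by
  have h0 : 0 ≤ min a 1 := le_min ha zero_le_one
  refine ⟨pow_le_pow_left₀ h0 (min_le_left _ _) 2, ?_⟩
  have := pow_le_pow_left₀ h0 (min_le_right a 1) 2
  linarith

/-- the potential of the partial sums, upper bound -/
theorem SelB_upper {r τ : ℕ → ℝ} (hr : ∀ n, 0 ≤ r n) (hτ : ∀ n, 0 ≤ τ n)
    (h : ∀ n, τ n ^ 2 = r n ^ 2 + τ (n + 1) ^ 2) (M : ℕ) :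
    (1 ≤ τ M → ∑ i ∈ Finset.range (M + 1), bt r τ i ^ 2 ≤ 0) ∧
    (τ M < 1 → ∑ i ∈ Finset.range (M + 1), bt r τ i ^ 2 ≤ 2 - τ M ^ 2) := by
  induction M with
  | zero =>
    have e : ∑ i ∈ Finset.range (0 + 1), bt r τ i ^ 2 = us (τ 0) ^ 2 := by
      rw [Finset.sum_range_one]
      rfl
    rw [e]
    refine ⟨fun h1 => ?_, fun h1 => ?_⟩
    · rw [SelB_us_zero h1]
      norm_num
    · have h2 : us (τ 0) ^ 2 ≤ 1 ^ 2 := pow_le_pow_left₀ (SelB_us_nonneg _) (SelB_us_le _) 2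
      have h3 : τ 0 ^ 2 ≤ 1 ^ 2 := pow_le_pow_left₀ (hτ 0) h1.le 2
      linarith
  | succ M ih =>
    have hs : bt r τ (M + 1) ^ 2 = us (τ (M + 1)) ^ 2 * min (r M) 1 ^ 2 := by
      show (us (τ (M + 1)) * min (r M) 1) ^ 2 = _
      rw [mul_pow]
    have ha := SelB_anti hτ h M
    rw [Finset.sum_range_succ, hs]
    refine ⟨fun h1 => ?_, fun h1 => ?_⟩
    · have h2 := ih.1 (h1.trans ha)
      rw [SelB_us_zero h1]
      linarith
    · have hu : us (τ (M + 1)) ^ 2 ≤ 1 := by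
        have := pow_le_pow_left₀ (SelB_us_nonneg (τ (M + 1))) (SelB_us_le (τ (M + 1))) 2
        linarith
      obtain ⟨hm1, hm2⟩ := SelB_min_sq (hr M)
      have hm0 : 0 ≤ min (r M) 1 ^ 2 := sq_nonneg _
      have hmul : us (τ (M + 1)) ^ 2 * min (r M) 1 ^ 2 ≤ min (r M) 1 ^ 2 :=
        mul_le_of_le_one_left hm0 hu
      rcases le_or_gt 1 (τ M) with h2 | h2
      · have h3 := ih.1 h2
        have h4 : τ (M + 1) ^ 2 ≤ 1 ^ 2 := pow_le_pow_left₀ (hτ _) h1.le 2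
        linarith
      · have h3 := ih.2 h2
        have h4 := h M
        linarith

theorem SelB_lower {r τ : ℕ → ℝ} (hr : ∀ n, 0 ≤ r n) (hτ : ∀ n, 0 ≤ τ n)
    (h : ∀ n, τ n ^ 2 = r n ^ 2 + τ (n + 1) ^ 2) (M : ℕ) (hM : τ M < 1) :
    (1 - τ M ^ 2) ^ 3 / 3 ≤ ∑ i ∈ Finset.range (M + 1), bt r τ i ^ 2 := by
  induction M with
  | zero =>
    have e : ∑ i ∈ Finset.range (0 + 1), bt r τ i ^ 2 = us (τ 0) ^ 2 := by
      rw [Finset.sum_range_one]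
      rfl
    rw [e, SelB_us_eq (hτ 0) hM]
    have h3 : τ 0 ^ 2 ≤ 1 ^ 2 := pow_le_pow_left₀ (hτ 0) hM.le 2
    have h4 : 0 ≤ 1 - τ 0 ^ 2 := by linarith
    have h5 : 1 - τ 0 ^ 2 ≤ 1 := by
      have := sq_nonneg (τ 0)
      linarith
    have h6 : (1 - τ 0 ^ 2) ^ 3 ≤ (1 - τ 0 ^ 2) ^ 2 := pow_le_pow_of_le_one h4 h5 (by norm_num)
    have h7 : 0 ≤ (1 - τ 0 ^ 2) ^ 3 := pow_nonneg h4 3
    linarith
  | succ M ih =>
    have hs : bt r τ (M + 1) ^ 2 = us (τ (M + 1)) ^ 2 * min (r M) 1 ^ 2 := by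
      show (us (τ (M + 1)) * min (r M) 1) ^ 2 = _
      rw [mul_pow]
    have hsum0 : 0 ≤ ∑ i ∈ Finset.range (M + 1), bt r τ i ^ 2 :=
      Finset.sum_nonneg fun i _ => sq_nonneg _
    have hr2 := h M
    have h3 : τ (M + 1) ^ 2 ≤ 1 ^ 2 := pow_le_pow_left₀ (hτ _) hM.le 2
    have h4 : 0 ≤ 1 - τ (M + 1) ^ 2 := by linarith
    rw [Finset.sum_range_succ, hs, SelB_us_eq (hτ (M + 1)) hM]
    obtain ⟨c, hc⟩ : ∃ c, c = 1 - τ (M + 1) ^ 2 := ⟨_, rfl⟩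
    rw [← hc]
    rw [← hc] at h4
    rcases le_or_gt 1 (τ M) with h2 | h2
    · have h5 : 1 ^ 2 ≤ τ M ^ 2 := pow_le_pow_left₀ zero_le_one h2 2
      have h6 : c ≤ min (r M) 1 ^ 2 := by
        rcases le_total (r M) 1 with h7 | h7
        · rw [min_eq_left h7]
          linarith
        · rw [min_eq_right h7]
          have := sq_nonneg (τ (M + 1))
          linarith
      have h7 : c ^ 2 * c ≤ c ^ 2 * min (r M) 1 ^ 2 := mul_le_mul_of_nonneg_left h6 (sq_nonneg c)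
      have h8 : c ^ 2 * c = c ^ 3 := by ring
      have h9 : 0 ≤ c ^ 3 := pow_nonneg h4 3
      linarith
    · have h5 := ih h2
      have h6 : τ M ^ 2 ≤ 1 ^ 2 := pow_le_pow_left₀ (hτ _) h2.le 2
      have h7 : r M ≤ 1 := by
        refine (pow_le_pow_iff_left₀ (hr M) zero_le_one two_ne_zero).1 ?_
        have := sq_nonneg (τ (M + 1))
        linarith
      rw [min_eq_left h7]
      obtain ⟨b, hb⟩ : ∃ b, b = 1 - τ M ^ 2 := ⟨_, rfl⟩
      have hb0 : 0 ≤ b := by linarith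
      have hbc : b ≤ c := by
        have := sq_nonneg (r M)
        linarith
      have hrr : r M ^ 2 = c - b := by linarith
      rw [← hb] at h5
      rw [hrr]
      have h8 : (c - b) * (c ^ 2 + c * b + b ^ 2) ≤ (c - b) * (3 * c ^ 2) := by
        refine mul_le_mul_of_nonneg_left ?_ (by linarith)
        have e1 : c * b ≤ c * c := mul_le_mul_of_nonneg_left hbc h4
        have e2 : b * b ≤ c * c := mul_le_mul hbc hbc hb0 h4
        have e3 : c ^ 2 = c * c := sq c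
        have e4 : b ^ 2 = b * b := sq b
        linarith
      have h9 : (c - b) * (c ^ 2 + c * b + b ^ 2) = c ^ 3 - b ^ 3 := by ring
      have h10 : (c - b) * (3 * c ^ 2) = 3 * (c ^ 2 * (c - b)) := by ring
      linarith

theorem SelB_four {r τ : ℕ → ℝ} (hr : ∀ n, 0 ≤ r n) (hτ : ∀ n, 0 ≤ τ n)
    (h : ∀ n, τ n ^ 2 = r n ^ 2 + τ (n + 1) ^ 2) (M : ℕ) :
    (1 ≤ τ M → ∑ i ∈ Finset.range M, (if τ (i + 1) < 1 then min (r i) 1 ^ 2 else 0) ≤ 0) ∧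
    (τ M < 1 → ∑ i ∈ Finset.range M, (if τ (i + 1) < 1 then min (r i) 1 ^ 2 else 0) ≤ 2 - τ M ^ 2) := by
  induction M with
  | zero =>
    rw [Finset.sum_range_zero]
    refine ⟨fun _ => le_refl _, fun h1 => ?_⟩
    have h3 : τ 0 ^ 2 ≤ 1 ^ 2 := pow_le_pow_left₀ (hτ 0) h1.le 2
    linarith
  | succ M ih =>
    have ha := SelB_anti hτ h M
    rw [Finset.sum_range_succ]
    refine ⟨fun h1 => ?_, fun h1 => ?_⟩
    · have h2 := ih.1 (h1.trans ha)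
      rw [if_neg (not_lt.2 h1)]
      linarith
    · obtain ⟨hm1, hm2⟩ := SelB_min_sq (hr M)
      rw [if_pos h1]
      rcases le_or_gt 1 (τ M) with h2 | h2
      · have h3 := ih.1 h2
        have h4 : τ (M + 1) ^ 2 ≤ 1 ^ 2 := pow_le_pow_left₀ (hτ _) h1.le 2
        linarith
      · have h3 := ih.2 h2
        have h4 := h M
        linarith

theorem selB (r τ : ℕ → ℝ) (hr : ∀ n, 0 ≤ r n) (hτ : ∀ n, 0 ≤ τ n)
    (h : ∀ n, τ n ^ 2 = r n ^ 2 + τ (n + 1) ^ 2) (ht : Tendsto τ atTop (𝓝 0)) :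
    (Summable fun n => bt r τ n ^ 2) ∧ 1 / 3 ≤ ∑' n, bt r τ n ^ 2 ∧ ∑' n, bt r τ n ^ 2 ≤ 2 ∧
    (∀ n, bt r τ n ≠ 0 → τ n < 1) ∧
    (Summable fun n => (if τ (n + 1) < 1 then min (r n) 1 ^ 2 else 0)) ∧
    ∑' n, (if τ (n + 1) < 1 then min (r n) 1 ^ 2 else 0) ≤ 2 := by
  have hb0 : ∀ n, 0 ≤ bt r τ n ^ 2 := fun n => sq_nonneg _
  have hb1 : ∀ M, ∑ i ∈ Finset.range M, bt r τ i ^ 2 ≤ 2 := by
    intro M
    rcases M with _ | M
    · simp
    · obtain ⟨h1, h2⟩ := SelB_upper hr hτ h M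
      rcases le_or_gt 1 (τ M) with h3 | h3
      · have := h1 h3
        linarith
      · have := h2 h3
        have h4 := sq_nonneg (τ M)
        linarith
  have hq0 : ∀ n, 0 ≤ (if τ (n + 1) < 1 then min (r n) 1 ^ 2 else 0) := by
    intro n
    split_ifs
    · exact sq_nonneg _
    · exact le_refl _
  have hq1 : ∀ M, ∑ i ∈ Finset.range M, (if τ (i + 1) < 1 then min (r i) 1 ^ 2 else 0) ≤ 2 := by
    intro M
    obtain ⟨h1, h2⟩ := SelB_four hr hτ h M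
    rcases le_or_gt 1 (τ M) with h3 | h3
    · have := h1 h3
      linarith
    · have := h2 h3
      have h4 := sq_nonneg (τ M)
      linarith
  have hsum : Summable fun n => bt r τ n ^ 2 := summable_of_sum_range_le hb0 hb1
  refine ⟨hsum, ?_, Real.tsum_le_of_sum_range_le hb0 hb1, ?_,
    summable_of_sum_range_le hq0 hq1, Real.tsum_le_of_sum_range_le hq0 hq1⟩
  · have h1 : Tendsto (fun M => ∑ i ∈ Finset.range (M + 1), bt r τ i ^ 2) atTop (𝓝 (∑' n, bt r τ n ^ 2)) :=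
      (hsum.hasSum.tendsto_sum_nat).comp (tendsto_add_atTop_nat 1)
    have h2 : Tendsto (fun M => (1 - τ M ^ 2) ^ 3 / 3) atTop (𝓝 (1 / 3)) := by
      have h3 : Tendsto (fun M => (1 - τ M ^ 2) ^ 3 / 3) atTop (𝓝 ((1 - 0 ^ 2) ^ 3 / 3)) :=
        ((tendsto_const_nhds.sub (ht.pow 2)).pow 3).div_const 3
      have e : ((1 : ℝ) - 0 ^ 2) ^ 3 / 3 = 1 / 3 := by norm_num
      rw [e] at h3
      exact h3
    refine le_of_tendsto_of_tendsto h2 h1 ?_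
    have h4 : ∀ᶠ M in atTop, τ M < 1 := ht.eventually (gt_mem_nhds zero_lt_one)
    filter_upwards [h4] with M hM
    exact SelB_lower hr hτ h M hM
  · intro n hn
    by_contra hc
    rw [not_lt] at hc
    apply hn
    rcases n with _ | n
    · exact SelB_us_zero hc
    · show us (τ (n + 1)) * min (r n) 1 = 0
      rw [SelB_us_zero hc, zero_mul]

end Pool.Agent.H31.QH
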