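import Pool.Agent.H31.QH.SelB

/-!
Row SelC (MP_b924dd_QH): the raw selection weights are Lipschitz.  Uses only the statement of SelB.

PROOF.  `us` is 2-Lipschitz in `s ≥ 0` with values in `[0,1]` and `us s = 0` for `s ≥ 1`.  Let `m n = min (r n) 1`, `m' n = min (r' n) 1`,
`|m n - m' n| ≤ |r n - r' n|`.  Put `e n = |bt r τ n - bt r' τ' n|`.
`e 0 ≤ 2d`.  `e (n+1) ≤ 2 d M n + |r n - r' n|` where `M n ^2 = [τ (n+1) < 1] m n ² + [τ' (n+1) < 1] m' n ²`:
 * if `τ (n+1) < 1`: `u m - u' m' = (u - u') m + u' (m - m')`, `|u - u'| ≤ 2d`, `m ≤ M`;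
 * if `τ (n+1) ≥ 1` and `τ' (n+1) < 1`: `u = 0` and `e = u' m' = |u - u'| m' ≤ 2 d m' ≤ 2 d M`;
 * otherwise `e = 0`.
`(a+b)² ≤ (5/4) a² + 5 b²`, so `e (n+1)² ≤ 5 d² M n² + 5 (r n - r' n)²`; `Σ M n² ≤ 4` (SelB), `Σ (r n - r' n)² ≤ d²`.
Total `Σ e² ≤ 4d² + 20 d² + 5 d² = 29 d² ≤ 49 d²`.
-/

namespace Pool.Agent.H31.QH

open Filter Topology

private theorem us_nonneg (s : ℝ) : 0 ≤ us s := le_max_right _ _

private theorem us_le_one (s : ℝ) : us s ≤ 1 := max_le (by nlinarith [sq_nonneg s]) zero_le_one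

private theorem us_zero {s : ℝ} (hs : 1 ≤ s) : us s = 0 := by
  unfold us
  exact max_eq_right (by nlinarith)

private theorem us_le (s t : ℝ) (hs : 0 ≤ s) (ht : 0 ≤ t) : us s - us t ≤ 2 * |t - s| := by
  rcases le_or_gt 1 s with h | h
  · rw [us_zero h]
    have := us_nonneg t
    have := abs_nonneg (t - s)
    linarith
  · have h1 : us s = 1 - s ^ 2 := by
      unfold us
      exact max_eq_left (by nlinarith)
    rw [h1]
    rcases le_or_gt 1 t with h2 | h2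
    · rw [us_zero h2]
      have h3 := le_abs_self (t - s)
      nlinarith
    · have h4 : us t = 1 - t ^ 2 := by
        unfold us
        exact max_eq_left (by nlinarith)
      rw [h4]
      rcases le_total s t with h5 | h5
      · rw [abs_of_nonneg (by linarith)]
        nlinarith
      · have := abs_nonneg (t - s)
        nlinarith

private theorem us_lip (s t d : ℝ) (hs : 0 ≤ s) (ht : 0 ≤ t) (h : |t - s| ≤ d) :
    |us t - us s| ≤ 2 * d := by
  rw [abs_le]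
  constructor
  · have := us_le s t hs ht
    linarith
  · have := us_le t s ht hs
    rw [abs_sub_comm] at this
    linarith

private theorem sq_le_of_abs {a b : ℝ} (h : |a| ≤ b) : a ^ 2 ≤ b ^ 2 := by
  rw [← sq_abs]
  exact pow_le_pow_left₀ (abs_nonneg _) h 2

private theorem step (r r' s s' d : ℝ) (hr : 0 ≤ r) (hr' : 0 ≤ r') (hs : 0 ≤ s) (hs' : 0 ≤ s')
    (h : |s' - s| ≤ d) :
    (us s' * min r' 1 - us s * min r 1) ^ 2 ≤
      5 * d ^ 2 * ((if s < 1 then min r 1 ^ 2 else 0) + (if s' < 1 then min r' 1 ^ 2 else 0)) +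
        5 * (r' - r) ^ 2 := by
  have hu := us_lip s s' d hs hs' h
  have hd : 0 ≤ d := (abs_nonneg _).trans h
  have hm : 0 ≤ min r 1 := le_min hr zero_le_one
  have hm' : 0 ≤ min r' 1 := le_min hr' zero_le_one
  have hmm : |min r' 1 - min r 1| ≤ |r' - r| := by
    have := abs_min_sub_min_le_max r' 1 r 1
    simpa using this
  by_cases h1 : s < 1
  · rw [if_pos h1]
    have h2 : |us s' * min r' 1 - us s * min r 1| ≤ 2 * d * min r 1 + |r' - r| := by
      have e1 : us s' * min r' 1 - us s * min r 1 =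
          (us s' - us s) * min r 1 + us s' * (min r' 1 - min r 1) := by ring
      rw [e1]
      refine (abs_add_le _ _).trans (add_le_add ?_ ?_)
      · rw [abs_mul, abs_of_nonneg hm]
        exact mul_le_mul_of_nonneg_right hu hm
      · rw [abs_mul, abs_of_nonneg (us_nonneg _)]
        calc us s' * |min r' 1 - min r 1| ≤ 1 * |r' - r| :=
              mul_le_mul (us_le_one _) hmm (abs_nonneg _) zero_le_one
          _ = |r' - r| := one_mul _
    have h3 := sq_le_of_abs h2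
    have h4 : 0 ≤ (if s' < 1 then min r' 1 ^ 2 else 0) := by
      split_ifs
      · positivity
      · exact le_rfl
    have h5 : 0 ≤ 5 * d ^ 2 * (if s' < 1 then min r' 1 ^ 2 else 0) := by positivity
    have h6 : (2 * d * min r 1 + |r' - r|) ^ 2 ≤ 5 * d ^ 2 * min r 1 ^ 2 + 5 * (r' - r) ^ 2 := by
      rw [← sq_abs (r' - r)]
      nlinarith [sq_nonneg (d * min r 1 - 2 * |r' - r|)]
    calc _ ≤ _ := h3
      _ ≤ _ := h6
      _ ≤ _ := by rw [mul_add]; linarith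
  · rw [if_neg h1, us_zero (not_lt.1 h1), zero_mul, sub_zero, zero_add]
    rw [us_zero (not_lt.1 h1), sub_zero, abs_of_nonneg (us_nonneg _)] at hu
    by_cases h2 : s' < 1
    · rw [if_pos h2]
      have h3 : us s' * min r' 1 ≤ 2 * d * min r' 1 := mul_le_mul_of_nonneg_right hu hm'
      have h4 : (us s' * min r' 1) ^ 2 ≤ (2 * d * min r' 1) ^ 2 :=
        pow_le_pow_left₀ (mul_nonneg (us_nonneg _) hm') h3 2
      have h5 : 0 ≤ 5 * (r' - r) ^ 2 := by positivity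
      have h6 : 0 ≤ d ^ 2 * min r' 1 ^ 2 := by positivity
      nlinarith
    · rw [if_neg h2, us_zero (not_lt.1 h2)]
      have h5 : 0 ≤ 5 * (r' - r) ^ 2 := by positivity
      simpa using h5

theorem selC (r τ r' τ' : ℕ → ℝ) (hr : ∀ n, 0 ≤ r n) (hτ : ∀ n, 0 ≤ τ n)
    (h : ∀ n, τ n ^ 2 = r n ^ 2 + τ (n + 1) ^ 2) (ht : Tendsto τ atTop (𝓝 0))
    (hr' : ∀ n, 0 ≤ r' n) (hτ' : ∀ n, 0 ≤ τ' n)
    (h' : ∀ n, τ' n ^ 2 = r' n ^ 2 + τ' (n + 1) ^ 2) (ht' : Tendsto τ' atTop (𝓝 0))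
    (d : ℝ) (hd : 0 ≤ d) (hd1 : ∀ n, |τ' n - τ n| ≤ d) (hs : Summable fun n => (r' n - r n) ^ 2)
    (hd2 : ∑' n, (r' n - r n) ^ 2 ≤ d ^ 2) :
    (Summable fun n => (bt r' τ' n - bt r τ n) ^ 2) ∧
    ∑' n, (bt r' τ' n - bt r τ n) ^ 2 ≤ (7 * d) ^ 2 := by
  obtain ⟨-, -, -, -, a1, a2⟩ := selB r τ hr hτ h ht
  obtain ⟨-, -, -, -, b1, b2⟩ := selB r' τ' hr' hτ' h' ht'
  have hst : ∀ n, (bt r' τ' (n + 1) - bt r τ (n + 1)) ^ 2 ≤
      5 * d ^ 2 * ((if τ (n + 1) < 1 then min (r n) 1 ^ 2 else 0) +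
        (if τ' (n + 1) < 1 then min (r' n) 1 ^ 2 else 0)) + 5 * (r' n - r n) ^ 2 :=
    fun n => step (r n) (r' n) (τ (n + 1)) (τ' (n + 1)) d (hr n) (hr' n) (hτ _) (hτ' _) (hd1 _)
  have hsum : Summable fun n => 5 * d ^ 2 * ((if τ (n + 1) < 1 then min (r n) 1 ^ 2 else 0) +
        (if τ' (n + 1) < 1 then min (r' n) 1 ^ 2 else 0)) + 5 * (r' n - r n) ^ 2 :=
    ((a1.add b1).mul_left _).add (hs.mul_left _)
  have hS : Summable fun n => (bt r' τ' (n + 1) - bt r τ (n + 1)) ^ 2 :=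
    Summable.of_nonneg_of_le (fun n => sq_nonneg _) hst hsum
  have hSS : Summable fun n => (bt r' τ' n - bt r τ n) ^ 2 := (summable_nat_add_iff 1).1 hS
  refine ⟨hSS, ?_⟩
  rw [hSS.tsum_eq_zero_add]
  have h0 : (bt r' τ' 0 - bt r τ 0) ^ 2 ≤ (2 * d) ^ 2 :=
    sq_le_of_abs (us_lip (τ 0) (τ' 0) d (hτ 0) (hτ' 0) (hd1 0))
  have h1 : ∑' n, (bt r' τ' (n + 1) - bt r τ (n + 1)) ^ 2 ≤ 25 * d ^ 2 := by
    refine (hS.tsum_le_tsum hst hsum).trans ?_
    rw [((a1.add b1).mul_left _).tsum_add (hs.mul_left _), tsum_mul_left, tsum_mul_left,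
      a1.tsum_add b1]
    have : 0 ≤ d ^ 2 := sq_nonneg d
    nlinarith
  nlinarith [sq_nonneg d]

end Pool.Agent.H31.QH
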