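import Pool.Agent.H31.QH.SelA

/-!
Row SelD (MP_b924dd_QH): the truncation `hat`.  Uses only the statements of SelA (and file L2).

`kw L z n = min 1 (5/2 - ‖tl n z‖/L)` clamped at 0: `1` if `‖tl n z‖ ≤ (3/2) L`, `0` if `‖tl n z‖ ≥ (5/2)L`.
PROOF.  `0 ≤ kw ≤ 1`, `|kw L z' n - kw L z n| ≤ |‖tl n z'‖ - ‖tl n z‖|/L ≤ ‖z'-z‖/L` (`tl n z' - tl n z = tl n (z'-z)` by `mul_sub`,
`norm_mul_le`).
Let `N(z)` be the first `n` with `‖tl n z‖ < (5/2) L` (exists, selA_tendsto).  For `n < N(z)`: `kw L z n = 0`.  Hence for every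
`m ≤ N(z)`: `mul (kw z) z = mul (kw z) (tl m z)` (coordinatewise: for level `n ≥ m` the coordinate of `tl m z` is that of `z`, for level
`n < m` both sides are 0).
Norm: with `m = N(z)`: `‖mul (kw z) z‖ ≤ ‖tl m z‖ ≤ (5/2) L ≤ 3 L`.
Lipschitz: let `m = min (N z) (N z')`.  If `m = N z'`: `mul (kw z') z' - mul (kw z) z = (mul (kw z') - mul (kw z)) (tl m z') +
mul (kw z) (tl m z' - tl m z)`, norm `≤ (‖z'-z‖/L)(5/2)L + ‖z'-z‖ ≤ 5‖z'-z‖` (`norm_mul_sub_mul_le`, `norm_mul_le`).  If `m = N z`: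
`= (mul (kw z') - mul (kw z)) (tl m z) + mul (kw z') (tl m z' - tl m z)`, the same bound.
(third claim) `‖tl n z‖ < L`, `‖z'-z‖ ≤ L/2` give `‖tl n z'‖ ≤ (3/2)L`.
-/

namespace Pool.Agent.H31.QH

open Filter Topology

variable {E : Type*} [NormedAddCommGroup E] [InnerProductSpace ℝ E] [CompleteSpace E]

/-- the cut-off weights -/
noncomputable def kw (L : ℝ) (z : XX E) (n : ℕ) : ℝ := c01 (5 / 2 - ‖tl n z‖ / L)

theorem SelD_tl_sub (n : ℕ) (z z' : XX E) : tl n z' - tl n z = tl n (z' - z) := by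
  unfold tl
  exact (mul_sub _ _ _).symm

theorem SelD_tl_lip (n : ℕ) (z z' : XX E) : |‖tl n z'‖ - ‖tl n z‖| ≤ ‖z' - z‖ := by
  refine (abs_norm_sub_norm_le _ _).trans ?_
  rw [SelD_tl_sub]
  exact norm_mul_le _ _

theorem SelD_c01_lip (r s : ℝ) : |c01 r - c01 s| ≤ |r - s| := by
  unfold c01
  have h1 : |max 0 (min r 1) - max 0 (min s 1)| ≤ |min r 1 - min s 1| := by
    have := abs_max_sub_max_le_max (0 : ℝ) (min r 1) 0 (min s 1)
    simpa using this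
  have h2 : |min r 1 - min s 1| ≤ |r - s| := by
    have := abs_min_sub_min_le_max r 1 s 1
    simpa using this
  exact h1.trans h2

theorem SelD_kw_lip (L : ℝ) (hL : 0 < L) (z z' : XX E) (n : ℕ) :
    |kw L z' n - kw L z n| ≤ ‖z' - z‖ / L := by
  unfold kw
  refine (SelD_c01_lip _ _).trans ?_
  have e : 5 / 2 - ‖tl n z'‖ / L - (5 / 2 - ‖tl n z‖ / L) = -((‖tl n z'‖ - ‖tl n z‖) / L) := by ring
  rw [e, abs_neg, abs_div, abs_of_pos hL]
  exact div_le_div_of_nonneg_right (SelD_tl_lip n z z') hL.le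

theorem SelD_ex (L : ℝ) (hL : 0 < L) (z : XX E) :
    ∃ N : ℕ, ‖tl N z‖ ≤ 5 / 2 * L ∧ ∀ n < N, kw L z n = 0 := by
  classical
  have h0 : ∃ N : ℕ, ‖tl N z‖ < 5 / 2 * L := by
    have h := selA_tendsto z
    have h1 : ∀ᶠ n in atTop, ‖tl n z‖ < 5 / 2 * L :=
      h.eventually (gt_mem_nhds (by positivity))
    exact h1.exists
  refine ⟨Nat.find h0, (Nat.find_spec h0).le, fun n hn => ?_⟩
  have h1 := Nat.find_min h0 hn
  rw [not_lt] at h1
  have h2 : 5 / 2 ≤ ‖tl n z‖ / L := by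
    rw [le_div_iff₀ hL]
    exact h1
  unfold kw c01
  apply max_eq_left
  exact (min_le_left _ _).trans (by linarith)

theorem SelD_eq (w : ℕ → ℝ) (m : ℕ) (h : ∀ n < m, w n = 0) (z : XX E) :
    mul (fun p : PI => w p.2) z = mul (fun p : PI => w p.2) (tl m z) := by
  apply lp.ext
  funext p
  unfold tl
  simp only [mul_apply]
  by_cases hp : m ≤ p.2
  · rw [if_pos hp, cl1_of_abs_le (r := 1) (by norm_num), one_smul]
  · rw [h _ (not_le.mp hp), cl1_of_abs_le (r := 0) (by norm_num), zero_smul, zero_smul]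

theorem SelD_lip_aux (L : ℝ) (hL : 0 < L) (z z' : XX E) (m : ℕ) (h : ∀ n < m, kw L z n = 0)
    (h' : ∀ n < m, kw L z' n = 0) (hm : ‖tl m z'‖ ≤ 5 / 2 * L) :
    ‖mul (fun p : PI => kw L z' p.2) z' - mul (fun p : PI => kw L z p.2) z‖ ≤ 5 * ‖z' - z‖ := by
  have e1 := SelD_eq (kw L z') m h' z'
  have e2 := SelD_eq (kw L z) m h z
  rw [e1, e2]
  have e3 : mul (fun p : PI => kw L z' p.2) (tl m z') - mul (fun p : PI => kw L z p.2) (tl m z) =
      (mul (fun p : PI => kw L z' p.2) (tl m z') - mul (fun p : PI => kw L z p.2) (tl m z')) +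
        mul (fun p : PI => kw L z p.2) (tl m z' - tl m z) := by
    rw [mul_sub]
    abel
  rw [e3]
  refine (norm_add_le _ _).trans ?_
  have h1 : ‖mul (fun p : PI => kw L z' p.2) (tl m z') -
      mul (fun p : PI => kw L z p.2) (tl m z')‖ ≤ ‖z' - z‖ / L * ‖tl m z'‖ :=
    norm_mul_sub_mul_le _ _ _ (by positivity) (fun p => SelD_kw_lip L hL z z' p.2)
  have h2 : ‖mul (fun p : PI => kw L z p.2) (tl m z' - tl m z)‖ ≤ ‖z' - z‖ := by
    refine (norm_mul_le _ _).trans ?_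
    rw [SelD_tl_sub]
    exact norm_mul_le _ _
  have h3 : ‖z' - z‖ / L * ‖tl m z'‖ ≤ ‖z' - z‖ / L * (5 / 2 * L) :=
    mul_le_mul_of_nonneg_left hm (by positivity)
  have h4 : ‖z' - z‖ / L * (5 / 2 * L) = 5 / 2 * ‖z' - z‖ := by
    field_simp
  have h5 := norm_nonneg (z' - z)
  linarith

theorem selD_norm (L : ℝ) (hL : 0 < L) (z : XX E) : ‖mul (fun p : PI => kw L z p.2) z‖ ≤ 3 * L := by
  obtain ⟨N, h1, h2⟩ := SelD_ex L hL z
  rw [SelD_eq (kw L z) N h2 z]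
  refine (norm_mul_le _ _).trans (h1.trans ?_)
  linarith

theorem selD_lip (L : ℝ) (hL : 0 < L) (z z' : XX E) :
    ‖mul (fun p : PI => kw L z' p.2) z' - mul (fun p : PI => kw L z p.2) z‖ ≤ 5 * ‖z' - z‖ := by
  obtain ⟨N, h1, h2⟩ := SelD_ex L hL z
  obtain ⟨N', h1', h2'⟩ := SelD_ex L hL z'
  rcases le_total N' N with h | h
  · exact SelD_lip_aux L hL z z' N' (fun n hn => h2 n (lt_of_lt_of_le hn h)) h2' h1'
  · have := SelD_lip_aux L hL z' z N (fun n hn => h2' n (lt_of_lt_of_le hn h)) h2 h1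
    rw [norm_sub_rev, norm_sub_rev z' z]
    exact this

theorem selD_marg (L : ℝ) (hL : 0 < L) (z z' : XX E) (n : ℕ) (h : ‖tl n z‖ < L) (h' : ‖z' - z‖ ≤ L / 2) :
    kw L z' n = 1 := by
  have h1 := SelD_tl_lip n z z'
  have h2 := (abs_le.mp h1).2
  have h3 : ‖tl n z'‖ / L ≤ 3 / 2 := by
    rw [div_le_iff₀ hL]
    linarith
  unfold kw c01
  rw [min_eq_right (by linarith)]
  norm_num

end Pool.Agent.H31.QH
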