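import Pool.Agent.H31.QH.SelC
import Pool.Agent.H31.QH.SelD

/-!
Row SelE (MP_b924dd_QH): assembly of the level selection.  Uses only the statements of SelA, SelB, SelC, SelD.

PROOF.  For `z : XX E` let `r n = ‖sl n z‖/L`, `τ n = ‖tl n z‖/L`: hypotheses of selB (selA_split, selA_tendsto).
`B z : l2R ℕ := ⟨bt r τ, mem2 ..⟩`, `‖B z‖² = Σ' bt² ∈ [1/3, 2]` (norm_sq_eq), in particular `‖B z‖ ≥ 1/√3 > 0`.
`b z := ‖B z‖⁻¹ • B z`, unit.  `‖B z' - B z‖ ≤ 7 d` with `d = ‖z'-z‖/L` by selC: `|τ' n - τ n| ≤ ‖tl n (z'-z)‖/L ≤ d`, and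
`Σ (r' n - r n)² ≤ Σ ‖sl n (z'-z)‖²/L² = d²` (selA_hasSum with `w = 1`: `mul (fun _ => 1) z = z`).
`‖b z' - b z‖ ≤ 2‖B z' - B z‖/‖B z‖ ≤ 2·7·√3·d ≤ 28 d`  (`√3 ≤ 2`).  [`x'/‖x'‖ - x/‖x‖ = (x'-x)/‖x‖ + x'(1/‖x'‖ - 1/‖x‖)`.]
`k := kw L`.  `marg`: `b z n ≠ 0` gives `bt r τ n ≠ 0`, so `τ n < 1`, `‖tl n z‖ < L`, and selD_marg.
-/

namespace Pool.Agent.H31.QH

open Filter Topology

section SelE

variable {E : Type*} [NormedAddCommGroup E] [InnerProductSpace ℝ E] [CompleteSpace E]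

private noncomputable def SelE_r (L : ℝ) (z : XX E) (n : ℕ) : ℝ := ‖sl n z‖ / L

private noncomputable def SelE_t (L : ℝ) (z : XX E) (n : ℕ) : ℝ := ‖tl n z‖ / L

private theorem SelE_r_nonneg {L : ℝ} (hL : 0 < L) (z : XX E) (n : ℕ) : 0 ≤ SelE_r L z n := by
  unfold SelE_r; positivity

private theorem SelE_t_nonneg {L : ℝ} (hL : 0 < L) (z : XX E) (n : ℕ) : 0 ≤ SelE_t L z n := by
  unfold SelE_t; positivity

private theorem SelE_split {L : ℝ} (z : XX E) (n : ℕ) :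
    SelE_t L z n ^ 2 = SelE_r L z n ^ 2 + SelE_t L z (n + 1) ^ 2 := by
  unfold SelE_t SelE_r
  rw [div_pow, div_pow, div_pow, selA_split, add_div]

private theorem SelE_tendsto {L : ℝ} (z : XX E) : Tendsto (SelE_t L z) atTop (𝓝 0) := by
  have h := (selA_tendsto z).div_const L
  rw [zero_div] at h
  exact h

private theorem SelE_sl_sub (n : ℕ) (z z' : XX E) : sl n (z' - z) = sl n z' - sl n z := by
  unfold sl
  rw [mul_sub]

private theorem SelE_tl_sub (n : ℕ) (z z' : XX E) : tl n (z' - z) = tl n z' - tl n z := by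
  unfold tl
  rw [mul_sub]

private theorem SelE_dt {L : ℝ} (hL : 0 < L) (z z' : XX E) (n : ℕ) :
    |SelE_t L z' n - SelE_t L z n| ≤ ‖z' - z‖ / L := by
  unfold SelE_t
  rw [← sub_div, abs_div, abs_of_pos hL]
  apply div_le_div_of_nonneg_right _ hL.le
  refine (abs_norm_sub_norm_le _ _).trans ?_
  rw [← SelE_tl_sub]
  exact norm_mul_le _ _

private theorem SelE_one (z : XX E) : mul (fun _ : PI => (1 : ℝ)) z = z := by
  apply lp.ext
  funext p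
  rw [mul_apply, cl1_of_abs_le (by norm_num), one_smul]

private theorem SelE_dr_le {L : ℝ} (hL : 0 < L) (z z' : XX E) (n : ℕ) :
    (SelE_r L z' n - SelE_r L z n) ^ 2 ≤ ‖sl n (z' - z)‖ ^ 2 / L ^ 2 := by
  unfold SelE_r
  rw [← sub_div, div_pow]
  apply div_le_div_of_nonneg_right _ (by positivity)
  rw [← sq_abs]
  apply pow_le_pow_left₀ (abs_nonneg _)
  rw [SelE_sl_sub]
  exact abs_norm_sub_norm_le _ _

private theorem SelE_hasSum {L : ℝ} (z : XX E) :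
    HasSum (fun n => ‖sl n z‖ ^ 2 / L ^ 2) (‖z‖ ^ 2 / L ^ 2) := by
  have h := selA_hasSum (E := E) (fun _ => 1) (fun n => by norm_num) z
  rw [SelE_one] at h
  have h2 := h.div_const (L ^ 2)
  refine h2.congr_fun ?_
  intro n
  simp

private theorem SelE_dr_sum {L : ℝ} (hL : 0 < L) (z z' : XX E) :
    (Summable fun n => (SelE_r L z' n - SelE_r L z n) ^ 2) ∧
    ∑' n, (SelE_r L z' n - SelE_r L z n) ^ 2 ≤ (‖z' - z‖ / L) ^ 2 := by
  have h := SelE_hasSum (L := L) (z' - z)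
  have hs : Summable fun n => (SelE_r L z' n - SelE_r L z n) ^ 2 :=
    Summable.of_nonneg_of_le (fun n => by positivity) (SelE_dr_le hL z z') h.summable
  refine ⟨hs, ?_⟩
  rw [div_pow, ← h.tsum_eq]
  exact Summable.tsum_le_tsum (SelE_dr_le hL z z') hs h.summable

private theorem SelE_B {L : ℝ} (hL : 0 < L) (z : XX E) :
    (Summable fun n => bt (SelE_r L z) (SelE_t L z) n ^ 2) ∧
    1 / 3 ≤ ∑' n, bt (SelE_r L z) (SelE_t L z) n ^ 2 ∧
    (∀ n, bt (SelE_r L z) (SelE_t L z) n ≠ 0 → SelE_t L z n < 1) := by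
  have h := selB (SelE_r L z) (SelE_t L z) (SelE_r_nonneg hL z) (SelE_t_nonneg hL z)
    (SelE_split z) (SelE_tendsto z)
  exact ⟨h.1, h.2.1, h.2.2.2.1⟩

private theorem SelE_mem {L : ℝ} (hL : 0 < L) (z : XX E) :
    Memℓp (bt (SelE_r L z) (SelE_t L z)) 2 := by
  apply mem2
  have h := (SelE_B hL z).1
  refine h.congr ?_
  intro n
  rw [Real.norm_eq_abs, sq_abs]

private noncomputable def SelE_v (L : ℝ) (hL : 0 < L) (z : XX E) : l2R ℕ :=
  ⟨bt (SelE_r L z) (SelE_t L z), SelE_mem hL z⟩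

private theorem SelE_v_apply (L : ℝ) (hL : 0 < L) (z : XX E) (n : ℕ) :
    SelE_v L hL z n = bt (SelE_r L z) (SelE_t L z) n := rfl

private theorem SelE_v_norm {L : ℝ} (hL : 0 < L) (z : XX E) : 1 / 2 ≤ ‖SelE_v L hL z‖ := by
  have h : 1 / 3 ≤ ‖SelE_v L hL z‖ ^ 2 := by
    rw [norm_sq_eq]
    have h2 := (SelE_B hL z).2.1
    refine h2.trans (le_of_eq ?_)
    congr 1
    funext n
    rw [SelE_v_apply, Real.norm_eq_abs, sq_abs]
  nlinarith [norm_nonneg (SelE_v L hL z)]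

private theorem SelE_v_lip {L : ℝ} (hL : 0 < L) (z z' : XX E) :
    ‖SelE_v L hL z' - SelE_v L hL z‖ ≤ 7 * (‖z' - z‖ / L) := by
  have h := selC (SelE_r L z) (SelE_t L z) (SelE_r L z') (SelE_t L z')
    (SelE_r_nonneg hL z) (SelE_t_nonneg hL z) (SelE_split z) (SelE_tendsto z)
    (SelE_r_nonneg hL z') (SelE_t_nonneg hL z') (SelE_split z') (SelE_tendsto z')
    (‖z' - z‖ / L) (by positivity) (SelE_dt hL z z') (SelE_dr_sum hL z z').1 (SelE_dr_sum hL z z').2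
  apply le_of_sq_le_sq _ (by positivity)
  rw [norm_sq_eq]
  refine le_trans (le_of_eq ?_) h.2
  congr 1
  funext n
  rw [lp.coeFn_sub, Pi.sub_apply, SelE_v_apply, SelE_v_apply, Real.norm_eq_abs, sq_abs]

private theorem SelE_unit {V : Type*} [NormedAddCommGroup V] [NormedSpace ℝ V] (x y : V)
    (hx : 1 / 2 ≤ ‖x‖) (hy : 1 / 2 ≤ ‖y‖) :
    ‖‖y‖⁻¹ • y - ‖x‖⁻¹ • x‖ ≤ 4 * ‖y - x‖ := by
  have hx0 : 0 < ‖x‖ := by linarith
  have hy0 : 0 < ‖y‖ := by linarith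
  have e : ‖y‖⁻¹ • y - ‖x‖⁻¹ • x = ‖x‖⁻¹ • (y - x) + (‖y‖⁻¹ - ‖x‖⁻¹) • y := by
    rw [smul_sub, sub_smul]
    abel
  rw [e]
  refine (norm_add_le _ _).trans ?_
  rw [norm_smul, norm_smul]
  have h1 : ‖(‖x‖⁻¹ : ℝ)‖ ≤ 2 := by
    rw [Real.norm_eq_abs, abs_of_pos (by positivity)]
    rw [inv_le_comm₀ hx0 (by norm_num)]
    linarith
  have h2 : ‖(‖y‖⁻¹ - ‖x‖⁻¹ : ℝ)‖ * ‖y‖ ≤ 2 * ‖y - x‖ := by
    have e2 : (‖y‖⁻¹ - ‖x‖⁻¹ : ℝ) = (‖x‖ - ‖y‖) / (‖x‖ * ‖y‖) := by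
      field_simp
    rw [e2, Real.norm_eq_abs, abs_div, abs_of_pos (mul_pos hx0 hy0)]
    have e3 : |‖x‖ - ‖y‖| / (‖x‖ * ‖y‖) * ‖y‖ = |‖x‖ - ‖y‖| * ‖x‖⁻¹ := by
      field_simp
    rw [e3]
    have h3 : |‖x‖ - ‖y‖| ≤ ‖y - x‖ := by
      rw [norm_sub_rev]
      exact abs_norm_sub_norm_le _ _
    have h4 : ‖x‖⁻¹ ≤ 2 := by
      rw [inv_le_comm₀ hx0 (by norm_num)]
      linarith
    calc |‖x‖ - ‖y‖| * ‖x‖⁻¹ ≤ ‖y - x‖ * 2 := by
          apply mul_le_mul h3 h4 (by positivity) (norm_nonneg _)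
      _ = 2 * ‖y - x‖ := by ring
  have h5 : ‖(‖x‖⁻¹ : ℝ)‖ * ‖y - x‖ ≤ 2 * ‖y - x‖ :=
    mul_le_mul_of_nonneg_right h1 (norm_nonneg _)
  linarith

end SelE

theorem selE (E : Type*) [NormedAddCommGroup E] [InnerProductSpace ℝ E] [CompleteSpace E] (L : ℝ)
    (hL : 0 < L) : Nonempty (Sel E L) := by
  have key : ∀ z : XX E, 0 < ‖SelE_v L hL z‖ := fun z => by
    have := SelE_v_norm hL z
    linarith
  refine ⟨⟨fun z => ‖SelE_v L hL z‖⁻¹ • SelE_v L hL z, fun z n => kw L z n, ?_, ?_, ?_, ?_, ?_, ?_, ?_⟩⟩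
  · intro z
    rw [norm_smul, norm_inv, norm_norm]
    exact inv_mul_cancel₀ (key z).ne'
  · intro z z'
    have h1 := SelE_unit (SelE_v L hL z) (SelE_v L hL z') (SelE_v_norm hL z) (SelE_v_norm hL z')
    have h2 := SelE_v_lip hL z z'
    calc _ ≤ 4 * ‖SelE_v L hL z' - SelE_v L hL z‖ := h1
      _ ≤ 4 * (7 * (‖z' - z‖ / L)) := by linarith
      _ = 28 / L * ‖z' - z‖ := by ring
  · intro z n
    unfold kw c01
    exact le_max_left _ _
  · intro z n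
    unfold kw c01
    exact max_le (by norm_num) (min_le_right _ _)
  · intro z
    exact selD_norm L hL z
  · intro z z'
    exact selD_lip L hL z z'
  · intro z z' n hb hz
    apply selD_marg L hL z z' n _ hz
    have h1 : bt (SelE_r L z) (SelE_t L z) n ≠ 0 := by
      intro h0
      apply hb
      rw [lp.coeFn_smul, Pi.smul_apply, SelE_v_apply, h0, smul_zero]
    have h2 := (SelE_B hL z).2.2 n h1
    unfold SelE_t at h2
    rwa [div_lt_one hL] at h2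

end Pool.Agent.H31.QH
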