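import Pool.Agent.H31.QH.Dfs

/-!
Definitions for the final part: slabs of constant total thickness, and the glued configuration.
-/

namespace Pool.Agent.H31.QH

open Filter Topology MeasureTheory

/-- a slab: family `z`, thickness `th`, trivial outside `[0,T]` (`th = hf` there), total thickness `cc` -/
structure Slab {X : Type*} [NormedAddCommGroup X] [InnerProductSpace ℝ X] (H0 hf T cc : ℝ)
    (z : ℝ → X → X) (th : ℝ → X → ℝ) : Prop where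
  T_nonneg : 0 ≤ T
  cont : Continuous (fun p : ℝ × X => th p.1 p.2)
  pos : ∀ t x, 0 < th t x
  supp : ∀ t, t ∉ Set.Icc 0 T → ∀ x, z t x = x ∧ th t x = hf
  homeo : IsHomeomorph (fun p : ℝ × X => (p.1, z p.1 p.2))
  disp : ∀ t x, ‖z t x - x‖ ≤ 1 / 8
  near : ∀ t x, ∃ lam : ℝ, 0 < lam ∧ NearLin z t x lam (1 / 8) (1 / 8) ∧ lam * th t x ≤ 1 ∧
    Real.exp (-H0) ≤ lam * th t x
  total : ∀ x, ∫ s in (0:ℝ)..T, th s x = cc
  slope : ∀ t x y, |∫ s in (0:ℝ)..t, (th s x - th s y)| ≤ 1 / 8 * ‖x - y‖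

/-- the glued configuration on all times -/
structure Glob {X : Type*} [NormedAddCommGroup X] [InnerProductSpace ℝ X] (H0 : ℝ)
    (z : ℝ → X → X) (th : ℝ → X → ℝ) : Prop where
  cont : Continuous (fun p : ℝ × X => th p.1 p.2)
  pos : ∀ t x, 0 < th t x
  homeo : IsHomeomorph (fun p : ℝ × X => (p.1, z p.1 p.2))
  disp : ∀ t x, ‖z t x - x‖ ≤ 1 / 8
  near : ∀ t x, ∃ lam : ℝ, 0 < lam ∧ NearLin z t x lam (1 / 8) (1 / 8) ∧ lam * th t x ≤ 1 ∧
    Real.exp (-H0) ≤ lam * th t x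
  slope : ∀ t x y, |∫ s in (0:ℝ)..t, (th s x - th s y)| ≤ 1 / 8 * ‖x - y‖
  top : ∀ x, Tendsto (fun t => ∫ s in (0:ℝ)..t, th s x) atTop atTop
  bot : ∀ x, Tendsto (fun t => ∫ s in (0:ℝ)..t, th s x) atBot atBot
  plateau : ∀ R0 : ℝ, ∃ R t1 : ℝ, R0 ≤ R ∧ ∫ s in t1..(t1 + R * (R - 1)), th s 0 ≤ R - 1 / 2

end Pool.Agent.H31.QH
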