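import Pool.Agent.H31.QH.InK
import Pool.Agent.H31.QH.Par

/-!
Row StA (MP_b924dd_QH): one stage.  Uses the statement of InK (`insertion`), `good_mono` (proved here), `ParOK`.

PROOF of stageA.  Take `A N Tp a ξ G n` from `ParOK H0 r`.  `Hf = H0 - 4`, `Hr = H0 + 16 r`, `θ = H0 + 16(r-1) - 2`, `E1 = 2000A`, `sm = pm = 1/N`, `L = N`.
Let `e = 2000A(1/N+1/N+1/N) + ξ`, `S = 1800 a exp(1 - H0 - 16(r-1)) Tp N + ξ`, `Q = 2000AN/Tp + ξ`.
CLAIM by induction on `i ≤ n`: there is `c_i` with `Good c_i T Hf (Hr - iG) (D0 + iξ) (η + iS) (q + iQ) (Eb (e0 + i e) E1 θ) tp`.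
 `i = 0`: good_mono, since `Eb e0 E1 θ u ≥ e0` (`c01 ≥ 0`).
 `i → i+1` (`i < n`): insertion with `l1 = Hr - (i+1)G` (so `l1 + G = Hr - iG`).  Conditions: since `(i+1) G ≤ nG ≤ 16+G`,
   `l1 - G ≥ Hr - 16 - 2G = H0 + 16(r-1) - 2G ≥ H0 + 16(r-1) - 1`.  Hence `Hf + G + 1 = H0 - 3 + G ≤ l1 - G` (`r ≥ 1`, `G ≤ 1/2`),
   `θ ≤ l1 - G`, `Hf + G ≤ θ - 1` (`H0 - 4 + G ≤ H0 + 16(r-1) - 3`), and hdrop: `l1 + G ≤ Hr`, `log(..) ≥ 19`, `Hr - 19 = θ - 1`.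
   `E0 + E1 = e0 + i e + 2000A ≤ 1/4 + 1/8 ≤ 1/2` (third inequality of ParOK: `n e + 2000A ≤ (1/2)^r/8`).  `q + iQ ≥ 0`.  `0 ≤ Hf` as `H0 ≥ 5`.
   `exp(-(l1-G)) ≤ exp(1 - H0 - 16(r-1))`, so the slope increases by at most `S`: good_mono.
 `i = n`: `Hr - nG ≤ Hr - 16 = H0 + 16(r-1)`, `nξ, nS, nQ ≤ (1/2)^r/8`, `Eb (e0 + n e) E1 θ u ≤ e0 + n e + E1 ≤ e0 + (1/2)^r/8`.
-/

namespace Pool.Agent.H31.QH

open Filter Topology MeasureTheory

theorem good_mono {X : Type*} [NormedAddCommGroup X] [InnerProductSpace ℝ X] {c : Cfg X}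
    {T Hf U D η q U' D' η' q' : ℝ} {Er Er' tp : ℝ → ℝ} (h : Good c T Hf U D η q Er tp)
    (hU : U ≤ U') (hD : D ≤ D') (hη : η ≤ η') (hq : q ≤ q') (hE : ∀ u, Er u ≤ Er' u) :
    Good c T Hf U' D' η' q' Er' tp where
  lip_l := h.lip_l
  lip_g := h.lip_g
  l_nonneg := h.l_nonneg
  supp := h.supp
  homeo := h.homeo
  disp := fun t x => (h.disp t x).trans hD
  mu_lo := h.mu_lo
  mu_hi := fun t x => (h.mu_hi t x).trans hU
  near := fun t x => nea_mono (h.near t x) (Real.exp_pos _).le (hE _) hq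
  slope := fun t x y => (h.slope t x y).trans (mul_le_mul_of_nonneg_right hη (norm_nonneg _))
  low := h.low
  thick := fun x => (h.thick x).trans hD

theorem StA_Eb_le (E0 E1 θ u : ℝ) (hE1 : 0 ≤ E1) : E0 ≤ Eb E0 E1 θ u := by
  unfold Eb c01
  have h : 0 ≤ max 0 (min (θ - u) 1) := le_max_left _ _
  nlinarith [mul_nonneg hE1 h]

theorem StA_Eb_le' (E0 E1 θ u : ℝ) (hE1 : 0 ≤ E1) : Eb E0 E1 θ u ≤ E0 + E1 := by
  unfold Eb c01
  have h : max 0 (min (θ - u) 1) ≤ 1 := max_le (by norm_num) (min_le_right _ _)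
  nlinarith [mul_le_mul_of_nonneg_left h hE1]

variable {E : Type*} [NormedAddCommGroup E] [InnerProductSpace ℝ E] [CompleteSpace E]

theorem StA_ind (D : Wd (XX E) E) (C : Col) (Sf : ∀ L : ℝ, 0 < L → Sel E L) (H0 : ℝ) (hH0 : 5 ≤ H0)
    (r : ℕ) (hr : 1 ≤ r) (c : Cfg (XX E)) (T D0 η q e0 M : ℝ) (tp : ℝ → ℝ)
    (hT : 0 ≤ T) (he0 : 0 ≤ e0) (he0' : e0 ≤ 1 / 4) (hq : 0 ≤ q)
    (htp : Continuous tp) (htpM : ∀ t, tp t ≤ M)
    (hgood : Good c T (H0 - 4) (H0 + 16 * r) D0 η q (fun _ => e0) tp)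
    (A N Tp a ξ G : ℝ) (n : ℕ) (hA : 0 < A) (hA' : A ≤ 1 / 2000) (hN : 100 ≤ N) (hTp : 1 ≤ Tp)
    (ha : 1 ≤ a) (hξ : 0 < ξ) (hG : G = Real.log (1 + A ^ 2) / 2) (hG0 : 0 < G) (hG1 : G ≤ 1 / 2)
    (hn2 : n * G ≤ 16 + G) (hlog : 19 ≤ Real.log (1 + a * (1 / N) * (1 / N) ^ 2))
    (e S Q : ℝ) (he : e = 2000 * A * (1 / N + 1 / N + 1 / N) + ξ)
    (hS : S = 1800 * a * Real.exp (1 - H0 - 16 * ((r : ℝ) - 1)) * Tp * N + ξ)
    (hQ : Q = 2000 * A * N / Tp + ξ)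
    (h3 : n * e + 2000 * A ≤ (1 / 2) ^ r / 8) :
    ∀ i : ℕ, i ≤ n → ∃ c' : Cfg (XX E), Good c' T (H0 - 4) (H0 + 16 * r - i * G) (D0 + i * ξ)
      (η + i * S) (q + i * Q) (Eb (e0 + i * e) (2000 * A) (H0 + 16 * ((r : ℝ) - 1) - 2)) tp := by
  have hr' : (1 : ℝ) ≤ r := by exact_mod_cast hr
  have hN0 : 0 < N := by linarith
  have hTp0 : 0 < Tp := by linarith
  have ha0 : 0 < a := by linarith
  have hN1 : 0 < 1 / N := by positivity
  have he' : 0 ≤ e := by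
    rw [he]
    positivity
  have hQ' : 0 ≤ Q := by
    rw [hQ]
    positivity
  have hp8 : ((1 : ℝ) / 2) ^ r / 8 ≤ 1 / 8 := by
    have h := pow_le_one₀ (n := r) (by norm_num : (0:ℝ) ≤ 1 / 2) (by norm_num)
    linarith
  intro i
  induction i with
  | zero =>
    intro _
    refine ⟨c, ?_⟩
    refine good_mono hgood ?_ ?_ ?_ ?_ ?_
    · simp
    · simp
    · simp
    · simp
    · intro u
      have h := StA_Eb_le e0 (2000 * A) (H0 + 16 * ((r : ℝ) - 1) - 2) u (by linarith)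
      simpa using h
  | succ i ih =>
    intro hi
    obtain ⟨c1, hc1⟩ := ih (by omega)
    have hi1 : ((i : ℝ) + 1) ≤ n := by exact_mod_cast hi
    have hi0 : (0 : ℝ) ≤ i := Nat.cast_nonneg i
    have hiG : ((i : ℝ) + 1) * G ≤ n * G := mul_le_mul_of_nonneg_right hi1 hG0.le
    have hiG0 : 0 ≤ (i : ℝ) * G := mul_nonneg hi0 hG0.le
    have hie : (i : ℝ) * e ≤ n * e := mul_le_mul_of_nonneg_right (by linarith) he'
    have hie0 : 0 ≤ (i : ℝ) * e := mul_nonneg hi0 he'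
    have hiQ0 : 0 ≤ (i : ℝ) * Q := mul_nonneg hi0 hQ'
    obtain ⟨l1, hl1⟩ : ∃ l1 : ℝ, l1 = H0 + 16 * r - ((i : ℝ) + 1) * G := ⟨_, rfl⟩
    have hl1G : H0 + 16 * (r : ℝ) - i * G = l1 + G := by
      rw [hl1]
      ring
    have hl1' : H0 + 16 * ((r : ℝ) - 1) - 1 ≤ l1 - G := by
      rw [hl1]
      linarith
    rw [hl1G] at hc1
    have hins := insertion D C N (Sf N hN0) c1 A Tp a l1 (H0 - 4) T (D0 + i * ξ) (η + i * S)
      (q + i * Q) (e0 + i * e) (2000 * A) (H0 + 16 * ((r : ℝ) - 1) - 2) (1 / N) (1 / N) M G ξ tp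
      hA hA' hN hTp ha (by linarith) hT hG (by linarith) (by linarith) le_rfl (by linarith)
      (by linarith) (by linarith) (by linarith) hN1 hN1 (by rw [div_le_one hN0]; linarith)
      (by linarith) htp htpM hξ hc1
    obtain ⟨c2, hc2⟩ := hins
    refine ⟨c2, good_mono hc2 ?_ ?_ ?_ ?_ ?_⟩
    · rw [hl1]
      push_cast
      exact le_rfl
    · push_cast
      linarith
    · have hexp : Real.exp (-(l1 - G)) ≤ Real.exp (1 - H0 - 16 * ((r : ℝ) - 1)) :=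
        Real.exp_le_exp.2 (by linarith)
      have hm : 1800 * a * Real.exp (-(l1 - G)) * Tp * N
          ≤ 1800 * a * Real.exp (1 - H0 - 16 * ((r : ℝ) - 1)) * Tp * N := by
        have h1 : 1800 * a * Real.exp (-(l1 - G))
            ≤ 1800 * a * Real.exp (1 - H0 - 16 * ((r : ℝ) - 1)) :=
          mul_le_mul_of_nonneg_left hexp (by positivity)
        exact mul_le_mul_of_nonneg_right (mul_le_mul_of_nonneg_right h1 hTp0.le) hN0.le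
      push_cast
      have h2 : ((i : ℝ) + 1) * S = i * S + S := by ring
      rw [h2]
      linarith [hS.symm.le, hS.le]
    · push_cast
      have h2 : ((i : ℝ) + 1) * Q = i * Q + Q := by ring
      rw [h2, hQ]
      linarith
    · intro u
      push_cast
      have h2 : ((i : ℝ) + 1) * e = i * e + e := by ring
      rw [h2]
      unfold Eb
      linarith [he.symm.le, he.le]

theorem stageA (D : Wd (XX E) E) (C : Col) (Sf : ∀ L : ℝ, 0 < L → Sel E L) (H0 : ℝ) (hH0 : 5 ≤ H0)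
    (r : ℕ) (hr : 1 ≤ r) (hpar : ParOK H0 r) (c : Cfg (XX E)) (T D0 η q e0 M : ℝ) (tp : ℝ → ℝ)
    (hT : 0 ≤ T) (he0 : 0 ≤ e0) (he0' : e0 ≤ 1 / 4) (hq : 0 ≤ q)
    (htp : Continuous tp) (htpM : ∀ t, tp t ≤ M)
    (hgood : Good c T (H0 - 4) (H0 + 16 * r) D0 η q (fun _ => e0) tp) :
    ∃ c' : Cfg (XX E), Good c' T (H0 - 4) (H0 + 16 * ((r : ℝ) - 1)) (D0 + (1 / 2) ^ r / 8)
      (η + (1 / 2) ^ r / 8) (q + (1 / 2) ^ r / 8) (fun _ => e0 + (1 / 2) ^ r / 8) tp := by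
  obtain ⟨A, N, Tp, a, ξ, G, n, hA, hA', hN, hTp, ha, hξ, hG, hG0, hG1, hn1, hn2, hlog, h3, h4, h5,
    h6⟩ := hpar
  obtain ⟨c', hc'⟩ := StA_ind D C Sf H0 hH0 r hr c T D0 η q e0 M tp hT he0 he0' hq htp htpM hgood
    A N Tp a ξ G n hA hA' hN hTp ha hξ hG hG0 hG1 hn2 hlog _ _ _ rfl rfl rfl h3 n le_rfl
  refine ⟨c', good_mono hc' ?_ ?_ ?_ ?_ ?_⟩
  · linarith
  · linarith
  · linarith
  · linarith
  · intro u
    refine (StA_Eb_le' _ _ _ _ (by linarith)).trans ?_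
    linarith

end Pool.Agent.H31.QH
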