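import Pool.Agent.H31.QH.WdC
import Pool.Agent.H31.QH.HilB

/-!
Row WdD (MP_b924dd_QH): the map `W : l2(PI;E) → E` for every infinite-dimensional Hilbert space `E`.
Uses only the statements of WdC (`wdC`) and HilB (`hilB`).

PROOF.  Let `b : HilbertBasis w ℝ E` (`exists_hilbertBasis`), `w` infinite (if `w` were finite, `E` would be finite-dimensional:
e.g. `b.toOrthonormalBasis`).
(1) `hilB b` gives a Hilbert basis of `XX E` indexed by `PI × w`, and its `repr` a linear isometry `u : XX E →ₗᵢ[ℝ] l2R (PI × w)`.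
(2) `Finset (PI × w)` has the cardinality of `w`: `Cardinal.mk_finset_of_infinite`, `Cardinal.mk_prod`/`Cardinal.mul_eq_right` for
    infinite cardinals (`PI` countable; universes: `w : Set E`, `PI : Type`, use `Cardinal.lift` lemmas).  So there is an injection
    `j : Finset (PI × w) → w`, and the family `F ↦ b (j F)` is orthonormal in `E` (`Orthonormal.comp`).  Its
    `OrthogonalFamily.linearIsometry` is a linear isometry `i : l2R (Finset (PI × w)) →ₗᵢ[ℝ] E` (`Orthonormal.orthogonalFamily`).
(3) With `D0 : Wd (l2R κ) (l2R (Finset κ))`, `κ = PI × w`, put `W v = i (D0.W (u v))`, `J v = i ∘ D0.J (u v) ∘ u`.  All the fields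
    follow from those of `D0` and `‖u v' - u v‖ = ‖v' - v‖`.
-/

namespace Pool.Agent.H31.QH

open Filter Topology

theorem wdD (E : Type*) [NormedAddCommGroup E] [InnerProductSpace ℝ E] [CompleteSpace E]
    (hE : ¬ FiniteDimensional ℝ E) : Nonempty (Wd (XX E) E) := by
  classical
  obtain ⟨w, b, -⟩ := exists_hilbertBasis ℝ E
  have hw : Infinite w := by
    by_contra hfin
    rw [not_infinite_iff_finite] at hfin
    have := Fintype.ofFinite w
    exact hE (Module.Finite.of_basis b.toOrthonormalBasis.toBasis)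
  obtain ⟨b'⟩ := hilB b
  have hinf : Infinite (PI × w) := inferInstance
  have hcard : Nonempty (Finset (PI × w) ↪ w) := by
    refine Cardinal.lift_mk_le'.1 ?_
    rw [Cardinal.mk_finset_of_infinite, Cardinal.mk_prod]
    have h1 : Cardinal.mk PI = Cardinal.aleph0 := Cardinal.mk_eq_aleph0 PI
    have h2 : Cardinal.aleph0 ≤ Cardinal.mk w := Cardinal.aleph0_le_mk w
    rw [h1, Cardinal.lift_aleph0, Cardinal.lift_uzero, Cardinal.lift_id, Cardinal.aleph0_mul_eq h2]
    exact (Cardinal.lift_id _).ge
  obtain ⟨j⟩ := hcard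
  have hon : Orthonormal ℝ (fun F => (b (j F) : E)) := b.orthonormal.comp j j.injective
  obtain ⟨D0⟩ := wdC (PI × w)
  obtain ⟨i, -⟩ : ∃ i : l2R (Finset (PI × w)) →ₗᵢ[ℝ] E, True :=
    ⟨hon.orthogonalFamily.linearIsometry, trivial⟩
  obtain ⟨u, -⟩ : ∃ u : XX E →ₗᵢ[ℝ] l2R (PI × w), True := ⟨b'.repr.toLinearIsometry, trivial⟩
  have hu : ∀ v v' : XX E, ‖u v' - u v‖ = ‖v' - v‖ := fun v v' => by
    rw [← map_sub, u.norm_map]
  refine ⟨{ W := fun v => i (D0.W (u v))
            J := fun v => i.toContinuousLinearMap ∘L (D0.J (u v)) ∘L u.toContinuousLinearMap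
            iso := fun v h => ?_
            bd := fun v => ?_
            lipW := fun v v' => ?_
            lipJ := fun v v' => ?_
            tay := fun v v' => ?_ }⟩
  · change ‖i (D0.J (u v) (u h))‖ = ‖h‖
    rw [i.norm_map, D0.iso, u.norm_map]
  · rw [i.norm_map]
    exact D0.bd _
  · rw [← map_sub, i.norm_map]
    exact (D0.lipW _ _).trans (hu v v').le
  · refine ContinuousLinearMap.opNorm_le_bound _ (by positivity) fun h => ?_
    have e : (i.toContinuousLinearMap ∘L (D0.J (u v')) ∘L u.toContinuousLinearMap -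
        i.toContinuousLinearMap ∘L (D0.J (u v)) ∘L u.toContinuousLinearMap) h =
        i ((D0.J (u v') - D0.J (u v)) (u h)) := by
      change i (D0.J (u v') (u h)) - i (D0.J (u v) (u h)) = _
      rw [← map_sub]
      rfl
    rw [e, i.norm_map]
    refine ((D0.J (u v') - D0.J (u v)).le_opNorm (u h)).trans ?_
    rw [u.norm_map]
    refine mul_le_mul_of_nonneg_right ?_ (norm_nonneg _)
    rw [← hu v v']
    exact D0.lipJ _ _
  · change ‖i (D0.W (u v')) - i (D0.W (u v)) - i (D0.J (u v) (u (v' - v)))‖ ≤ _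
    rw [← map_sub, ← map_sub, i.norm_map, ← hu v v', map_sub u]
    exact D0.tay _ _

end Pool.Agent.H31.QH
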