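import Pool.Agent.H31.QH.StA
import Pool.Agent.H31.QH.Ini
import Pool.Agent.H31.QH.WdD
import Pool.Agent.H31.QH.SelE
import Pool.Agent.H31.QH.ColB

/-!
Row StB (MP_b924dd_QH): all stages.  Uses the statements of StA, Ini, Par, WdD, SelE, ColB.

PROOF.  `D`, `C`, `Sf` from wdD, colB, selE (`Classical.choice`); Given `ρ`, `Λ`: initial configuration (ini).  CLAIM by
downward induction: for `r ≤ ρ` there is `c` with `Good c T (H0-4) (H0+16 r) δ δ δ (fun _ => δ) tp`, `δ = (1/2)^r/8`.  For `r = ρ`: good_mono from ini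
(`0 ≤ δ`).  From `r ≥ 1` to `r-1`: stageA with `e0 = δ ≤ 1/8`; `(1/2)^r/8 + (1/2)^r/8 = (1/2)^(r-1)/8`.  (Induct on `k`, `r = ρ - k`, or
`Nat.decreasingInduction`.)  Take `r = 0`.
-/

namespace Pool.Agent.H31.QH

open Filter Topology MeasureTheory

theorem stB (H0 : ℝ) (hH0 : 5 ≤ H0) (hpar : ∀ r : ℕ, 1 ≤ r → ParOK H0 r)
    (E : Type*) [NormedAddCommGroup E] [InnerProductSpace ℝ E] [CompleteSpace E]
    (hE : ¬ FiniteDimensional ℝ E) :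
    ∀ (ρ : ℕ) (Λ : ℝ), 0 ≤ Λ →
      ∃ (T : ℝ) (tp : ℝ → ℝ) (c : Cfg (XX E)) (t1 : ℝ), 0 ≤ T ∧ Continuous tp ∧
        (∀ t, tp t ≤ H0 + 16 * ρ) ∧ 0 ≤ t1 ∧ t1 + Λ ≤ T ∧
        (∀ t ∈ Set.Icc t1 (t1 + Λ), tp t = H0 + 16 * ρ) ∧
        Good c T (H0 - 4) H0 (1 / 8) (1 / 8) (1 / 8) (fun _ => 1 / 8) tp := by
  obtain ⟨D⟩ := wdD E hE
  obtain ⟨C⟩ := colB
  intro ρ Λ hΛ
  obtain ⟨T, tp, c0, t1, hT, htp, htpM, ht1, ht2, ht3, hg⟩ := ini (XX E) H0 ρ Λ hΛ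
  have claim : ∀ k : ℕ, ∀ r : ℕ, r + k = ρ → ∃ c : Cfg (XX E),
      Good c T (H0 - 4) (H0 + 16 * r) ((1 / 2) ^ r / 8) ((1 / 2) ^ r / 8) ((1 / 2) ^ r / 8)
        (fun _ => (1 / 2) ^ r / 8) tp := by
    intro k
    induction k with
    | zero =>
      intro r hr
      rw [add_zero] at hr
      rw [hr]
      have h0 : (0 : ℝ) ≤ (1 / 2) ^ ρ / 8 := by positivity
      exact ⟨c0, good_mono hg le_rfl h0 h0 h0 fun _ => h0⟩
    | succ k ih =>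
      intro r hr
      obtain ⟨c, hc⟩ := ih (r + 1) (by omega)
      have h0 : (0 : ℝ) ≤ (1 / 2) ^ (r + 1) / 8 := by positivity
      have h1 : (1 / 2 : ℝ) ^ (r + 1) ≤ 1 := pow_le_one₀ (by norm_num) (by norm_num)
      obtain ⟨c', hc'⟩ := stageA D C (fun L hL => Classical.choice (selE E L hL)) H0 hH0 (r + 1)
        (by omega) (hpar (r + 1) (by omega)) c T ((1 / 2) ^ (r + 1) / 8) ((1 / 2) ^ (r + 1) / 8)
        ((1 / 2) ^ (r + 1) / 8) ((1 / 2) ^ (r + 1) / 8) (H0 + 16 * ρ) tp hT h0 (by linarith) h0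
        htp htpM hc
      have e1 : (1 / 2 : ℝ) ^ (r + 1) / 8 + (1 / 2) ^ (r + 1) / 8 = (1 / 2) ^ r / 8 := by
        rw [pow_succ]
        ring
      have e2 : H0 + 16 * (((r + 1 : ℕ) : ℝ) - 1) = H0 + 16 * r := by
        push_cast
        ring
      rw [e1, e2] at hc'
      exact ⟨c', hc'⟩
  obtain ⟨c, hc⟩ := claim ρ 0 (by omega)
  have e1 : (1 / 2 : ℝ) ^ 0 / 8 = 1 / 8 := by norm_num
  have e2 : H0 + 16 * ((0 : ℕ) : ℝ) = H0 := by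
    push_cast
    ring
  rw [e1, e2] at hc
  exact ⟨T, tp, c, t1, hT, htp, htpM, ht1, ht2, ht3, hc⟩

end Pool.Agent.H31.QH
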