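import Pool.Agent.H31.QH.Dfs

/-!
Row WdA (MP_b924dd_QH): the finite tensor products.

For a finite `S ⊆ κ` and `v : κ → ℝ` put
`WS S v = Σ_{F ⊆ S} (∏_{j∈F} sin v_j) (∏_{j∈S\F} cos v_j) · δ_F ∈ l2(Finset κ)`.

PROOF.
(1) `⟪WS S v, WS S w⟫ = Σ_{F⊆S} ∏_{F} sin v_j sin w_j ∏_{S\F} cos v_j cos w_j = ∏_{j∈S} (sin v_j sin w_j + cos v_j cos w_j)
    = ∏_{j∈S} cos (v_j - w_j)` by `Finset.prod_add` and `Real.cos_sub`.  (The vectors `lp.single 2 F 1` are orthonormal:
    expand with `inner_sum`, `sum_inner`, `lp.inner_single_left`, `lp.single_apply`; or compute the coordinate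
    `(WS S v) F = if F ⊆ S then ... else 0` and use `lp.inner_eq_tsum`, `tsum_eq_sum`.)
(2) If `S ⊆ S'` and `v_j = 0` for `j ∈ S' \ S` then `WS S' v = WS S v`: the terms with `F ⊄ S` contain a factor
    `sin 0 = 0`, and for `F ⊆ S` the extra cosines are `1`.  Also `WS S v` depends only on `v` on `S`.
    Hence `WS S v = WS S' (fun j => if j ∈ S then v j else 0)`.
-/

namespace Pool.Agent.H31.QH

open Filter Topology
open scoped RealInnerProductSpace

/-- the coordinates -/
noncomputable def wdc {κ : Type*} [DecidableEq κ] (S : Finset κ) (v : κ → ℝ) (F : Finset κ) : ℝ :=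
  if F ⊆ S then (∏ j ∈ F, Real.sin (v j)) * ∏ j ∈ S \ F, Real.cos (v j) else 0

theorem wdc_mem {κ : Type*} [DecidableEq κ] (S : Finset κ) (v : κ → ℝ) :
    Memℓp (wdc S v) 2 := by
  apply mem2
  apply summable_of_ne_finset_zero (s := S.powerset)
  intro F hF
  have h : ¬ F ⊆ S := fun h => hF (Finset.mem_powerset.mpr h)
  simp [wdc, h]

theorem wdA (κ : Type*) [DecidableEq κ] :
    ∃ WS : Finset κ → (κ → ℝ) → l2R (Finset κ),
      (∀ S v w, ⟪WS S v, WS S w⟫ = ∏ j ∈ S, Real.cos (v j - w j)) ∧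
      (∀ S S' v, S ⊆ S' → WS S v = WS S' (fun j => if j ∈ S then v j else 0)) := by
  refine ⟨fun S v => ⟨wdc S v, wdc_mem S v⟩, ?_, ?_⟩
  · intro S v w
    rw [lp.inner_eq_tsum]
    have h1 : (∑' F : Finset κ, ⟪(⟨wdc S v, wdc_mem S v⟩ : l2R (Finset κ)) F,
        (⟨wdc S w, wdc_mem S w⟩ : l2R (Finset κ)) F⟫)
        = ∑ F ∈ S.powerset, wdc S w F * wdc S v F := by
      apply tsum_eq_sum
      intro F hF
      have h : ¬ F ⊆ S := fun h => hF (Finset.mem_powerset.mpr h)
      simp [wdc, h]
    rw [h1]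
    have h2 : ∀ j ∈ S, Real.cos (v j - w j)
        = Real.sin (v j) * Real.sin (w j) + Real.cos (v j) * Real.cos (w j) := by
      intro j _
      rw [Real.cos_sub]
      ring
    rw [Finset.prod_congr rfl h2, Finset.prod_add]
    apply Finset.sum_congr rfl
    intro F hF
    have h : F ⊆ S := Finset.mem_powerset.mp hF
    simp only [wdc, h, if_true, Finset.prod_mul_distrib]
    ring
  · intro S S' v hSS
    apply Subtype.ext
    funext F
    show wdc S v F = wdc S' (fun j => if j ∈ S then v j else 0) F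
    by_cases hF : F ⊆ S
    · have hF' : F ⊆ S' := hF.trans hSS
      simp only [wdc, hF, hF', if_true]
      have e1 : ∏ j ∈ F, Real.sin (if j ∈ S then v j else 0) = ∏ j ∈ F, Real.sin (v j) := by
        apply Finset.prod_congr rfl
        intro j hj
        rw [if_pos (hF hj)]
      have e2 : ∏ j ∈ S' \ F, Real.cos (if j ∈ S then v j else 0) = ∏ j ∈ S \ F, Real.cos (v j) := by
        symm
        have hsub : S \ F ⊆ S' \ F := Finset.sdiff_subset_sdiff hSS (Finset.Subset.refl F)
        have e3 : ∏ j ∈ S \ F, Real.cos (v j)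
            = ∏ j ∈ S \ F, Real.cos (if j ∈ S then v j else 0) := by
          apply Finset.prod_congr rfl
          intro j hj
          rw [if_pos (Finset.mem_sdiff.mp hj).1]
        rw [e3]
        apply Finset.prod_subset hsub
        intro j hj hj'
        have hjS : j ∉ S := fun h => hj' (Finset.mem_sdiff.mpr ⟨h, (Finset.mem_sdiff.mp hj).2⟩)
        rw [if_neg hjS, Real.cos_zero]
      rw [e1, e2]
    · have h0 : wdc S v F = 0 := by simp [wdc, hF]
      rw [h0]
      by_cases hF' : F ⊆ S'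
      · simp only [wdc, hF', if_true]
        obtain ⟨j, hjF, hjS⟩ := Finset.not_subset.mp hF
        have : ∏ j ∈ F, Real.sin (if j ∈ S then v j else 0) = 0 := by
          apply Finset.prod_eq_zero hjF
          rw [if_neg hjS, Real.sin_zero]
        rw [this, zero_mul]
      · simp [wdc, hF']

end Pool.Agent.H31.QH
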