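import Pool.Agent.H31.QH.Dfs

/-!
Row WdB (MP_b924dd_QH): consequences of the kernel identity `⟪W v, W w⟫ = ∏_{j∈S} cos (v_j - w_j)` (`S` finite).

Symbols: `δ_j = Pi.single j 1`, `D_j v = W (v + (π/2) δ_j)`, `J v h = Σ_{j∈S} h_j D_j v`, `d = v' - v`, `|d|² = Σ_{j∈S} d_j²`,
`k(d) = ∏_{j∈S} cos d_j`.

(0) `0 ≤ 1 - k(d) ≤ |d|²/2`:  `1 - ∏ cos d_j ≤ Σ (1 - cos d_j) ≤ Σ d_j²/2` (`Real.one_sub_sq_div_two_le_cos`).  The first
    inequality for numbers `c_j ∈ [-1,1]`: by induction `1 - c∏ = (1-c) + c(1-∏)` if `c ≥ 0`; if `c < 0`, then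
    `1 - c∏ ≤ 1 + |c| = 1 - c` because `|∏| ≤ 1`.  `k ≤ 1` because `|∏| ≤ 1`.
(1) `‖W v‖² = k(0) = 1`.   (2) `‖W v' - W v‖² = 2 - 2k(d) ≤ |d|²`.
(3) `⟪D_j v, D_l v'⟫ = k(v + (π/2)δ_j - v' - (π/2)δ_l)`.  For `v = v'`, `j ≠ l` in `S` it contains `cos(π/2) = 0`: so `0`; for
    `j = l` it is `1`.  Hence `‖J v h‖² = Σ_{j∈S} h_j²`.
(4) `J` Lipschitz: `‖J v' h - J v h‖² = 2|h|² - 2 Σ_{j,l} h_j h_l ⟪D_j v', D_l v⟫`.  For `j = l` the inner product is `k(d)`; for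
    `j ≠ l` it is `cos(d_j + π/2) cos(d_l - π/2) ∏_{i≠j,l} cos d_i = - sin d_j sin d_l ∏_{i≠j,l} cos d_i`, absolute value
    `≤ |d_j||d_l|`.  So `Σ_{j,l} ... ≥ |h|² k(d) - (Σ|h_j d_j|)² ≥ |h|²(1 - |d|²/2) - |h|²|d|²` (Cauchy–Schwarz), and
    `‖J v' h - J v h‖² ≤ 3 |d|²|h|² ≤ 4|d|²|h|²`.
(5) Taylor: if `|d|² ≥ 1`: `‖W v' - W v‖ + ‖J v d‖ ≤ 2|d| ≤ 2|d|²`.  If `|d|² < 1`:
    `‖W v' - W v - J v d‖² = (2-2k(d)) - 2 Σ_j d_j ⟪W v' - W v, D_j v⟫ + |d|²`, where `⟪W v, D_j v⟫ = cos(-π/2)·... = 0` and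
    `⟪W v', D_j v⟫ = cos(d_j - π/2) ∏_{i≠j} cos d_i = sin d_j ∏_{i≠j} cos d_i`.  Since `|d_j| ≤ 1`, `d_j sin d_j ≥ d_j² - d_j⁴/4 ≥ 0`
    (`Real.sin_gt_sub_cube` for `0 < d_j ≤ 1`, evenness) and `∏_{i≠j} cos d_i ≥ 1 - |d|²/2 ≥ 1/2` by (0):
    `d_j sin d_j ∏_{i≠j} ≥ (d_j² - d_j⁴/4)(1 - |d|²/2) ≥ d_j² (1 - |d|²/4)(1-|d|²/2) ≥ d_j²(1 - |d|²)`.
    Sum: `≤ |d|² - 2|d|²(1-|d|²) + |d|² = 2|d|⁴ ≤ 4|d|⁴`.
-/

namespace Pool.Agent.H31.QH

open Filter Topology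
open scoped RealInnerProductSpace

variable {κ : Type*} [DecidableEq κ] {E : Type*} [NormedAddCommGroup E] [InnerProductSpace ℝ E]

/-- the differential, by a shift of `π/2` -/
noncomputable def JS (S : Finset κ) (W : (κ → ℝ) → E) (v h : κ → ℝ) : E :=
  ∑ j ∈ S, h j • W (v + Pi.single j (Real.pi / 2))

theorem WdB_abs {ι : Type*} (S : Finset ι) (a : ι → ℝ) (h : ∀ j ∈ S, |a j| ≤ 1) : |∏ j ∈ S, a j| ≤ 1 := by
  rw [Finset.abs_prod]
  exact Finset.prod_le_one (fun j _ => abs_nonneg _) h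

theorem WdB_one_sub {ι : Type*} [DecidableEq ι] (S : Finset ι) (a : ι → ℝ) (h : ∀ j ∈ S, |a j| ≤ 1) :
    1 - ∏ j ∈ S, a j ≤ ∑ j ∈ S, (1 - a j) := by
  induction S using Finset.induction_on with
  | empty => simp
  | insert j S hj ih =>
    have hS : ∀ i ∈ S, |a i| ≤ 1 := fun i hi => h i (Finset.mem_insert_of_mem hi)
    have h1 := ih hS
    have h2 := abs_le.1 (h j (Finset.mem_insert_self j S))
    have h3 := abs_le.1 (WdB_abs S a hS)
    have h4 : 0 ≤ ∑ i ∈ S, (1 - a i) := Finset.sum_nonneg fun i hi => by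
      have := (abs_le.1 (hS i hi)).2
      linarith
    rw [Finset.prod_insert hj, Finset.sum_insert hj]
    rcases le_or_gt 0 (a j) with h5 | h5
    · nlinarith [mul_nonneg (sub_nonneg.2 h2.2) (sub_nonneg.2 h3.2)]
    · nlinarith [mul_nonneg (neg_nonneg.2 h5.le) (by linarith [h3.1] : 0 ≤ 1 + ∏ i ∈ S, a i)]

theorem WdB_k {ι : Type*} [DecidableEq ι] (S : Finset ι) (d : ι → ℝ) :
    1 - (∑ j ∈ S, d j ^ 2) / 2 ≤ ∏ j ∈ S, Real.cos (d j) := by
  have h1 := WdB_one_sub S (fun j => Real.cos (d j)) (fun j _ => Real.abs_cos_le_one _)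
  have h2 : ∑ j ∈ S, (1 - Real.cos (d j)) ≤ ∑ j ∈ S, d j ^ 2 / 2 := by
    refine Finset.sum_le_sum fun j _ => ?_
    have := Real.one_sub_sq_div_two_le_cos (x := d j)
    linarith
  rw [← Finset.sum_div] at h2
  linarith

theorem WdB_two {ι : Type*} [DecidableEq ι] (S : Finset ι) (a : ι → ℝ) (h : ∀ j ∈ S, |a j| ≤ 1) {j l : ι}
    (hj : j ∈ S) (hl : l ∈ S) (hjl : j ≠ l) : |∏ i ∈ S, a i| ≤ |a j| * |a l| := by
  have hl' : l ∈ S.erase j := Finset.mem_erase.2 ⟨hjl.symm, hl⟩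
  rw [← Finset.mul_prod_erase S a hj, ← Finset.mul_prod_erase (S.erase j) a hl', abs_mul, abs_mul]
  have h1 : |∏ i ∈ (S.erase j).erase l, a i| ≤ 1 :=
    WdB_abs _ a fun i hi => h i (Finset.mem_of_mem_erase (Finset.mem_of_mem_erase hi))
  refine mul_le_mul_of_nonneg_left ?_ (abs_nonneg _)
  exact mul_le_of_le_one_right (abs_nonneg _) h1

theorem WdB_same (S : Finset κ) (W : (κ → ℝ) → E)
    (hW : ∀ v w, ⟪W v, W w⟫ = ∏ j ∈ S, Real.cos (v j - w j)) (v v' : κ → ℝ) (j : κ) :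
    ⟪W (v' + Pi.single j (Real.pi / 2)), W (v + Pi.single j (Real.pi / 2))⟫ =
      ∏ i ∈ S, Real.cos (v' i - v i) := by
  rw [hW]
  refine Finset.prod_congr rfl fun i _ => ?_
  rw [Pi.add_apply, Pi.add_apply, add_sub_add_right_eq_sub]

theorem WdB_neg_le_sin {x : ℝ} (h : 0 ≤ x) : -x ≤ Real.sin x := by
  rcases le_or_gt x 1 with h1 | h1
  · have h2 : 0 ≤ Real.sin x := Real.sin_nonneg_of_nonneg_of_le_pi h (by linarith [Real.pi_gt_three])
    linarith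
  · linarith [Real.neg_one_le_sin x]

theorem WdB_abs_sin (x : ℝ) : |Real.sin x| ≤ |x| := by
  rcases le_or_gt 0 x with h | h
  · rw [abs_of_nonneg h]
    exact abs_le.2 ⟨WdB_neg_le_sin h, Real.sin_le h⟩
  · rw [abs_of_neg h, ← abs_neg, ← Real.sin_neg]
    exact abs_le.2 ⟨WdB_neg_le_sin (by linarith), Real.sin_le (by linarith)⟩

theorem WdB_diff (S : Finset κ) (W : (κ → ℝ) → E)
    (hW : ∀ v w, ⟪W v, W w⟫ = ∏ j ∈ S, Real.cos (v j - w j)) (v v' : κ → ℝ) {j l : κ}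
    (hj : j ∈ S) (hl : l ∈ S) (hjl : j ≠ l) :
    |⟪W (v' + Pi.single j (Real.pi / 2)), W (v + Pi.single l (Real.pi / 2))⟫| ≤
      |v' j - v j| * |v' l - v l| := by
  rw [hW]
  refine (WdB_two S _ (fun i _ => Real.abs_cos_le_one _) hj hl hjl).trans ?_
  have e1 : (v' + Pi.single j (Real.pi / 2) : κ → ℝ) j - (v + Pi.single l (Real.pi / 2) : κ → ℝ) j =
      (v' j - v j) + Real.pi / 2 := by
    rw [Pi.add_apply, Pi.add_apply, Pi.single_eq_same, Pi.single_eq_of_ne hjl]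
    ring
  have e2 : (v' + Pi.single j (Real.pi / 2) : κ → ℝ) l - (v + Pi.single l (Real.pi / 2) : κ → ℝ) l =
      (v' l - v l) - Real.pi / 2 := by
    rw [Pi.add_apply, Pi.add_apply, Pi.single_eq_same, Pi.single_eq_of_ne hjl.symm]
    ring
  rw [e1, e2, Real.cos_add_pi_div_two, Real.cos_sub_pi_div_two, abs_neg]
  exact mul_le_mul (WdB_abs_sin _) (WdB_abs_sin _) (abs_nonneg _) (abs_nonneg _)

theorem WdB_inner (S : Finset κ) (W : (κ → ℝ) → E) (v v' h h' : κ → ℝ) :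
    ⟪JS S W v' h', JS S W v h⟫ = ∑ j ∈ S, ∑ l ∈ S, h' j * h l *
      ⟪W (v' + Pi.single j (Real.pi / 2)), W (v + Pi.single l (Real.pi / 2))⟫ := by
  unfold JS
  rw [sum_inner]
  refine Finset.sum_congr rfl fun j _ => ?_
  rw [inner_sum]
  refine Finset.sum_congr rfl fun l _ => ?_
  rw [real_inner_smul_left, real_inner_smul_right]
  ring

theorem WdB_norm (S : Finset κ) (W : (κ → ℝ) → E)
    (hW : ∀ v w, ⟪W v, W w⟫ = ∏ j ∈ S, Real.cos (v j - w j)) (v h : κ → ℝ) :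
    ‖JS S W v h‖ ^ 2 = ∑ j ∈ S, h j ^ 2 := by
  rw [← real_inner_self_eq_norm_sq, WdB_inner]
  refine Finset.sum_congr rfl fun j hj => ?_
  rw [Finset.sum_eq_single_of_mem j hj]
  · rw [WdB_same S W hW v v j]
    simp
    ring
  · intro l hl hlj
    have h1 := WdB_diff S W hW v v hj hl hlj.symm
    rw [sub_self, abs_zero, zero_mul] at h1
    rw [abs_eq_zero.1 (le_antisymm h1 (abs_nonneg _)), mul_zero]

theorem WdB_lower (S : Finset κ) (W : (κ → ℝ) → E)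
    (hW : ∀ v w, ⟪W v, W w⟫ = ∏ j ∈ S, Real.cos (v j - w j)) (v v' h : κ → ℝ) :
    (∏ i ∈ S, Real.cos (v' i - v i)) * (∑ j ∈ S, h j ^ 2) -
      (∑ j ∈ S, (v' j - v j) ^ 2) * (∑ j ∈ S, h j ^ 2) ≤ ⟪JS S W v' h, JS S W v h⟫ := by
  rw [WdB_inner]
  have h1 : ∀ j ∈ S, ∀ l ∈ S, (if j = l then (∏ i ∈ S, Real.cos (v' i - v i)) * h j ^ 2 else 0) -
      |h j * (v' j - v j)| * |h l * (v' l - v l)| ≤ h j * h l *
      ⟪W (v' + Pi.single j (Real.pi / 2)), W (v + Pi.single l (Real.pi / 2))⟫ := by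
    intro j hj l hl
    by_cases hjl : j = l
    · subst hjl
      rw [if_pos rfl, WdB_same S W hW v v' j]
      nlinarith [abs_mul_abs_self (h j * (v' j - v j)), mul_self_nonneg (h j * (v' j - v j))]
    · rw [if_neg hjl, zero_sub]
      have h2 := WdB_diff S W hW v v' hj hl hjl
      have h3 : |h j * h l * ⟪W (v' + Pi.single j (Real.pi / 2)), W (v + Pi.single l (Real.pi / 2))⟫| ≤
          |h j * (v' j - v j)| * |h l * (v' l - v l)| := by
        rw [abs_mul, abs_mul, abs_mul, abs_mul]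
        calc |h j| * |h l| * |⟪W (v' + Pi.single j (Real.pi / 2)), W (v + Pi.single l (Real.pi / 2))⟫|
            ≤ |h j| * |h l| * (|v' j - v j| * |v' l - v l|) :=
              mul_le_mul_of_nonneg_left h2 (by positivity)
          _ = _ := by ring
      exact (abs_le.1 h3).1
  have h2 := Finset.sum_le_sum fun j hj => Finset.sum_le_sum fun l hl => h1 j hj l hl
  refine le_trans ?_ h2
  simp only [Finset.sum_sub_distrib]
  have e1 : ∑ j ∈ S, ∑ l ∈ S, (if j = l then (∏ i ∈ S, Real.cos (v' i - v i)) * h j ^ 2 else 0) =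
      (∏ i ∈ S, Real.cos (v' i - v i)) * (∑ j ∈ S, h j ^ 2) := by
    rw [Finset.mul_sum]
    refine Finset.sum_congr rfl fun j hj => ?_
    rw [Finset.sum_ite_eq, if_pos hj]
  have e2 : ∑ j ∈ S, ∑ l ∈ S, |h j * (v' j - v j)| * |h l * (v' l - v l)| =
      (∑ j ∈ S, |h j * (v' j - v j)|) ^ 2 := by
    rw [sq, Finset.sum_mul_sum]
  rw [e1, e2]
  have h3 : (∑ j ∈ S, |h j * (v' j - v j)|) ^ 2 ≤ (∑ j ∈ S, (v' j - v j) ^ 2) * (∑ j ∈ S, h j ^ 2) := by
    have h4 := Finset.sum_mul_sq_le_sq_mul_sq S (fun j => |v' j - v j|) (fun j => |h j|)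
    simp only [sq_abs] at h4
    refine le_trans (le_of_eq ?_) h4
    congr 1
    refine Finset.sum_congr rfl fun j _ => ?_
    rw [abs_mul, mul_comm]
  linarith

theorem WdB_sin {x : ℝ} (h : |x| ≤ 1) : x ^ 2 - x ^ 4 / 4 ≤ x * Real.sin x := by
  rcases lt_trichotomy x 0 with h1 | h1 | h1
  · have h2 := Real.sin_gt_sub_cube (neg_pos.2 h1)
    rw [Real.sin_neg] at h2
    have h3 : Real.sin x < x - x ^ 3 / 6 := by
      have : (-x) ^ 3 = - x ^ 3 := by ring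
      rw [this] at h2
      linarith
    have h4 := mul_le_mul_of_nonpos_left h3.le h1.le
    nlinarith [pow_nonneg (sq_nonneg x) 2]
  · subst h1
    simp
  · have h2 := Real.sin_gt_sub_cube h1
    have h4 := mul_le_mul_of_nonneg_left h2.le h1.le
    nlinarith [pow_nonneg (sq_nonneg x) 2]

theorem wdB (S : Finset κ) (W : (κ → ℝ) → E)
    (hW : ∀ v w, ⟪W v, W w⟫ = ∏ j ∈ S, Real.cos (v j - w j)) :
    (∀ v, ‖W v‖ = 1) ∧
    (∀ v v', ‖W v' - W v‖ ^ 2 ≤ ∑ j ∈ S, (v' j - v j) ^ 2) ∧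
    (∀ v h, ‖JS S W v h‖ ^ 2 = ∑ j ∈ S, h j ^ 2) ∧
    (∀ v v' h, ‖JS S W v' h - JS S W v h‖ ^ 2 ≤ 4 * (∑ j ∈ S, (v' j - v j) ^ 2) * ∑ j ∈ S, h j ^ 2) ∧
    (∀ v v', ‖W v' - W v - JS S W v (v' - v)‖ ≤ 2 * ∑ j ∈ S, (v' j - v j) ^ 2) := by
  have hn2 : ∀ v, ‖W v‖ ^ 2 = 1 := by
    intro v
    rw [← real_inner_self_eq_norm_sq, hW]
    simp
  have hn : ∀ v, ‖W v‖ = 1 := by
    intro v
    have h1 := hn2 v
    have h2 := norm_nonneg (W v)
    nlinarith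
  have hsub : ∀ v v', ‖W v' - W v‖ ^ 2 = 2 - 2 * ∏ j ∈ S, Real.cos (v' j - v j) := by
    intro v v'
    rw [norm_sub_sq_real, hn2, hn2, hW]
    ring
  have hL : ∀ v v', ‖W v' - W v‖ ^ 2 ≤ ∑ j ∈ S, (v' j - v j) ^ 2 := by
    intro v v'
    rw [hsub]
    have h1 := WdB_k S (fun j => v' j - v j)
    linarith
  refine ⟨hn, hL, WdB_norm S W hW, ?_, ?_⟩
  · intro v v' h
    have h1 := WdB_lower S W hW v v' h
    have h2 := WdB_k S (fun j => v' j - v j)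
    have hD : 0 ≤ ∑ j ∈ S, (v' j - v j) ^ 2 := Finset.sum_nonneg fun j _ => sq_nonneg _
    have hH : 0 ≤ ∑ j ∈ S, h j ^ 2 := Finset.sum_nonneg fun j _ => sq_nonneg _
    rw [norm_sub_sq_real, WdB_norm S W hW, WdB_norm S W hW]
    nlinarith [mul_le_mul_of_nonneg_right h2 hH, mul_nonneg hD hH]
  · intro v v'
    set D2 : ℝ := ∑ j ∈ S, (v' j - v j) ^ 2 with hD2
    have hD : 0 ≤ D2 := Finset.sum_nonneg fun j _ => sq_nonneg _
    have hB2 : ‖JS S W v (v' - v)‖ ^ 2 = D2 := by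
      rw [WdB_norm S W hW]
      rfl
    have hA2 : ‖W v' - W v‖ ^ 2 ≤ D2 := hL v v'
    rcases le_or_gt 1 D2 with h1 | h1
    · have hA : ‖W v' - W v‖ ≤ D2 := by
        refine abs_le_of_sq_le_sq' ?_ hD |>.2
        nlinarith
      have hB : ‖JS S W v (v' - v)‖ ≤ D2 := by
        refine abs_le_of_sq_le_sq' ?_ hD |>.2
        nlinarith
      have := norm_sub_le (W v' - W v) (JS S W v (v' - v))
      linarith
    · have hin : D2 * (1 - D2) ≤ ⟪W v' - W v, JS S W v (v' - v)⟫ := by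
        unfold JS
        rw [inner_sum, hD2, Finset.sum_mul]
        refine Finset.sum_le_sum fun j hj => ?_
        rw [← hD2, real_inner_smul_right, inner_sub_left]
        have h0 : ⟪W v, W (v + Pi.single j (Real.pi / 2))⟫ = 0 := by
          rw [hW, Finset.prod_eq_zero hj]
          rw [Pi.add_apply, Pi.single_eq_same, show v j - (v j + Real.pi / 2) = -(Real.pi / 2) by ring,
            Real.cos_neg, Real.cos_pi_div_two]
        have h2 : ⟪W v', W (v + Pi.single j (Real.pi / 2))⟫ =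
            Real.sin (v' j - v j) * ∏ i ∈ S.erase j, Real.cos (v' i - v i) := by
          rw [hW, ← Finset.mul_prod_erase S _ hj]
          congr 1
          · rw [Pi.add_apply, Pi.single_eq_same, show v' j - (v j + Real.pi / 2) = (v' j - v j) - Real.pi / 2 by ring,
              Real.cos_sub_pi_div_two]
          · refine Finset.prod_congr rfl fun i hi => ?_
            rw [Pi.add_apply, Pi.single_eq_of_ne (Finset.ne_of_mem_erase hi), add_zero]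
        rw [h0, h2, sub_zero, Pi.sub_apply]
        have hsq : (v' j - v j) ^ 2 ≤ D2 :=
          Finset.single_le_sum (f := fun j => (v' j - v j) ^ 2) (fun i _ => sq_nonneg _) hj
        have habs : |v' j - v j| ≤ 1 := by
          rw [← sq_le_one_iff_abs_le_one]
          linarith
        have h3 := WdB_sin habs
        have h4 := WdB_k (S.erase j) (fun i => v' i - v i)
        have h5 : ∑ i ∈ S.erase j, (v' i - v i) ^ 2 ≤ D2 :=
          Finset.sum_le_sum_of_subset_of_nonneg (Finset.erase_subset j S) fun i _ _ => sq_nonneg _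
        have h6 : 1 - D2 / 2 ≤ ∏ i ∈ S.erase j, Real.cos (v' i - v i) := by linarith
        set y : ℝ := v' j - v j with hy
        set p : ℝ := ∏ i ∈ S.erase j, Real.cos (v' i - v i) with hp
        have h7 : y ^ 2 * (1 - D2 / 4) ≤ y * Real.sin y := by
          nlinarith [mul_le_mul_of_nonneg_left hsq (sq_nonneg y)]
        have h8 : y ^ 2 * (1 - D2 / 4) * (1 - D2 / 2) ≤ y * Real.sin y * p := by
          refine mul_le_mul h7 h6 (by linarith) (le_trans ?_ h7)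
          exact mul_nonneg (sq_nonneg y) (by linarith)
        have h9 : y ^ 2 * (1 - D2) ≤ y ^ 2 * (1 - D2 / 4) * (1 - D2 / 2) := by
          rw [mul_assoc]
          refine mul_le_mul_of_nonneg_left ?_ (sq_nonneg y)
          nlinarith
        calc y ^ 2 * (1 - D2) ≤ y * Real.sin y * p := h9.trans h8
          _ = y * (Real.sin y * p) := by ring
      have hfin : ‖W v' - W v - JS S W v (v' - v)‖ ^ 2 ≤ (2 * D2) ^ 2 := by
        rw [norm_sub_sq_real, hB2]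
        nlinarith
      exact abs_le_of_sq_le_sq' hfin (by linarith) |>.2

end Pool.Agent.H31.QH
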