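import Pool.Agent.H31.QH.WdA
import Pool.Agent.H31.QH.WdB

/-!
Row WdC (MP_b924dd_QH): the limit over finite sets.  Uses only the statements of WdA, WdB.

Let `κ` be a type, `X = l2R κ`, `E = l2R (Finset κ)`; take `WS` from wdA (classical decidability), `JS` from WdB.
For `v : X` (a function `κ → ℝ` with summable squares), `h : X`, consider the nets `S ↦ WS S v`, `S ↦ JS S (WS S) v h` along
`atTop : Filter (Finset κ)`.
(1) For `S ⊆ S'`: `WS S v = WS S' (v 1_S)`, so by wdB for `S'`: `‖WS S' v - WS S v‖² ≤ Σ_{j∈S'\S} v_j²`.  The tails of a summable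
    series tend to 0, so the net is Cauchy, and converges (`E` complete); call the limit `W v`.  (`cauchySeq_finset...`-like
    argument: for `ε > 0` choose `S0` with `Σ_{j∈T} v_j² < ε` for all finite `T` disjoint from `S0`; compare `S`, `S'` with `S ∪ S'`.)
(2) `JS S (WS S) v h = JS S' (WS S') (v 1_S) (h 1_S)` for `S ⊆ S'` (for `j ∈ S`: `WS S (v + (π/2)δ_j) = WS S' ((v + (π/2) δ_j) 1_S) =
    WS S' (v 1_S + (π/2) δ_j)`; terms `j ∈ S' \ S` have coefficient 0), so with wdB for `S'`: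
    `‖JS S' v h - JS S v h‖ ≤ ‖JS S' v (h - h 1_S)‖ + ‖JS S' v (h1_S) - JS S' (v 1_S)(h 1_S)‖ ≤ |h|_{S'\S} + 2 |v|_{S'\S} |h|_{S'}`:
    Cauchy.  Limit `J v h`, linear in `h` (limit of linear maps), with `‖J v h‖² = lim Σ_S h_j² = ‖h‖²`: gives `J v : X →L[ℝ] E`.
(3) All inequalities pass to the limit: `‖W v‖ = 1`, `‖W v' - W v‖ ≤ ‖v'-v‖`, `‖J v' h - J v h‖ ≤ 2‖v'-v‖‖h‖`,
    `‖W v' - W v - J v (v'-v)‖ ≤ 2‖v'-v‖²` (`hasSum_sq` gives `Σ_S d_j² → ‖d‖²`; `le_of_tendsto_of_tendsto'`).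
-/

namespace Pool.Agent.H31.QH

open Filter Topology
open scoped RealInnerProductSpace

/-- limits over finite sets -/
theorem wdC_lim {κ : Type*} [DecidableEq κ] {E : Type*} [NormedAddCommGroup E] [CompleteSpace E]
    (F : Finset κ → E) (a : κ → ℝ) (ha0 : ∀ j, 0 ≤ a j) (ha : Summable a) (C : ℝ) (hC : 0 ≤ C)
    (h : ∀ S S', S ⊆ S' → ‖F S' - F S‖ ≤ C * √(∑ j ∈ S' \ S, a j)) : ∃ y, Tendsto F atTop (𝓝 y) := by
  set b : Finset κ → ℝ := fun S => 2 * (C * √(∑' j, a j - ∑ j ∈ S, a j)) with hb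
  have hS : ∀ S S', S ⊆ S' → ‖F S' - F S‖ ≤ C * √(∑' j, a j - ∑ j ∈ S, a j) := by
    intro S S' hSS
    refine (h S S' hSS).trans (mul_le_mul_of_nonneg_left (Real.sqrt_le_sqrt ?_) hC)
    have h1 := Finset.sum_sdiff (f := a) hSS
    have h2 : ∑ j ∈ S', a j ≤ ∑' j, a j := ha.sum_le_tsum S' (fun j _ => ha0 j)
    linarith
  have hcau : CauchySeq F := by
    refine cauchySeq_of_le_tendsto_0 b (fun n m N hn hm => ?_) ?_
    · have h1 := hS N n hn
      have h2 := hS N m hm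
      rw [dist_eq_norm]
      have h3 : F n - F m = (F n - F N) - (F m - F N) := by abel
      rw [h3, hb]
      refine (norm_sub_le _ _).trans ?_
      show _ ≤ 2 * (C * √(∑' j, a j - ∑ j ∈ N, a j))
      linarith
    · have h1 : Tendsto (fun S : Finset κ => ∑ j ∈ S, a j) atTop (𝓝 (∑' j, a j)) := ha.hasSum
      have h2 : Tendsto (fun S : Finset κ => ∑' j, a j - ∑ j ∈ S, a j) atTop (𝓝 0) := by
        simpa using h1.const_sub (∑' j, a j)
      have h3 : Tendsto (fun S : Finset κ => 2 * (C * √(∑' j, a j - ∑ j ∈ S, a j))) atTop (𝓝 (2 * (C * √0))) :=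
        ((Real.continuous_sqrt.tendsto 0).comp h2 |>.const_mul C).const_mul 2
      simpa [hb] using h3
  exact cauchySeq_tendsto_of_complete hcau

/-- restriction to `S` -/
def wdC_cut {κ : Type*} [DecidableEq κ] (S : Finset κ) (v : κ → ℝ) : κ → ℝ := fun j => if j ∈ S then v j else 0

theorem wdC_sum {κ : Type*} [DecidableEq κ] {S S' : Finset κ} (_ : S ⊆ S') (v : κ → ℝ) :
    ∑ j ∈ S', (v j - wdC_cut S v j) ^ 2 = ∑ j ∈ S' \ S, v j ^ 2 := by
  symm
  have h1 : ∑ j ∈ S' \ S, v j ^ 2 = ∑ j ∈ S' \ S, (v j - wdC_cut S v j) ^ 2 := by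
    refine Finset.sum_congr rfl fun j hj => ?_
    rw [Finset.mem_sdiff] at hj
    simp [wdC_cut, hj.2]
  rw [h1]
  refine Finset.sum_subset Finset.sdiff_subset fun j hj hj' => ?_
  rw [Finset.mem_sdiff, not_and, not_not] at hj'
  simp [wdC_cut, hj' hj]

theorem wdC_sum_le {κ : Type*} [DecidableEq κ] (S S' : Finset κ) (v : κ → ℝ) :
    ∑ j ∈ S', wdC_cut S v j ^ 2 ≤ ∑ j ∈ S', v j ^ 2 := by
  refine Finset.sum_le_sum fun j _ => ?_
  unfold wdC_cut
  split_ifs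
  · exact le_rfl
  · simpa using sq_nonneg (v j)

theorem wdC_norm {κ : Type*} (v : l2R κ) (S : Finset κ) : ∑ j ∈ S, v j ^ 2 ≤ ‖v‖ ^ 2 := by
  have h := hasSum_sq v
  have h1 : ∑ j ∈ S, ‖v j‖ ^ 2 ≤ ‖v‖ ^ 2 := sum_le_hasSum S (fun j _ => by positivity) h
  simpa [Real.norm_eq_abs, sq_abs] using h1

theorem wdC_summable {κ : Type*} (v : l2R κ) : Summable fun j => v j ^ 2 := by
  have h := summable_sq v
  simpa [Real.norm_eq_abs, sq_abs] using h

theorem wdC_tendsto {κ : Type*} (v : l2R κ) : Tendsto (fun S : Finset κ => ∑ j ∈ S, v j ^ 2) atTop (𝓝 (‖v‖ ^ 2)) := by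
  have h : HasSum (fun j => ‖v j‖ ^ 2) (‖v‖ ^ 2) := hasSum_sq v
  have h1 : HasSum (fun j => v j ^ 2) (‖v‖ ^ 2) := by simpa [Real.norm_eq_abs, sq_abs] using h
  exact h1

section js

variable {κ : Type*} [DecidableEq κ] {E : Type*} [NormedAddCommGroup E] [InnerProductSpace ℝ E]

theorem wdC_JS_add (S : Finset κ) (W : (κ → ℝ) → E) (v h h' : κ → ℝ) :
    JS S W v (h + h') = JS S W v h + JS S W v h' := by
  unfold JS
  rw [← Finset.sum_add_distrib]
  refine Finset.sum_congr rfl fun j _ => ?_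
  rw [Pi.add_apply, add_smul]

theorem wdC_JS_smul (S : Finset κ) (W : (κ → ℝ) → E) (v h : κ → ℝ) (c : ℝ) :
    JS S W v (c • h) = c • JS S W v h := by
  unfold JS
  rw [Finset.smul_sum]
  refine Finset.sum_congr rfl fun j _ => ?_
  rw [Pi.smul_apply, smul_assoc]

theorem wdC_JS_sub (S : Finset κ) (W : (κ → ℝ) → E) (v h h' : κ → ℝ) :
    JS S W v (h - h') = JS S W v h - JS S W v h' := by
  unfold JS
  rw [← Finset.sum_sub_distrib]
  refine Finset.sum_congr rfl fun j _ => ?_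
  rw [Pi.sub_apply, sub_smul]

theorem wdC_JS_cut (WS : Finset κ → (κ → ℝ) → E)
    (hA2 : ∀ S S' v, S ⊆ S' → WS S v = WS S' (fun j => if j ∈ S then v j else 0))
    {S S' : Finset κ} (hS : S ⊆ S') (v h : κ → ℝ) :
    JS S (WS S) v h = JS S' (WS S') (wdC_cut S v) (wdC_cut S h) := by
  unfold JS
  have h1 : ∑ j ∈ S, h j • WS S (v + Pi.single j (Real.pi / 2)) =
      ∑ j ∈ S, wdC_cut S h j • WS S' (wdC_cut S v + Pi.single j (Real.pi / 2)) := by
    refine Finset.sum_congr rfl fun j hj => ?_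
    rw [hA2 S S' _ hS]
    congr 1
    · simp [wdC_cut, hj]
    · congr 1
      funext i
      simp only [wdC_cut, Pi.add_apply]
      by_cases hi : i ∈ S
      · simp [hi]
      · have hij : i ≠ j := by
          rintro rfl
          exact hi hj
        simp [hi, Pi.single_eq_of_ne hij]
  rw [h1]
  refine Finset.sum_subset hS fun j _ hj => ?_
  simp [wdC_cut, hj]

end js

theorem wdC (κ : Type*) : Nonempty (Wd (l2R κ) (l2R (Finset κ))) := by
  classical
  obtain ⟨WS, hA1, hA2⟩ := wdA κ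
  have hB := fun S => wdB S (WS S) (hA1 S)
  have hA3 : ∀ (S S' : Finset κ) (v : κ → ℝ), S ⊆ S' → WS S v = WS S' (wdC_cut S v) := fun S S' v h => hA2 S S' v h
  -- the limit of `WS`
  have hWlim : ∀ v : l2R κ, ∃ y, Tendsto (fun S => WS S v) atTop (𝓝 y) := by
    intro v
    refine wdC_lim _ (fun j => v j ^ 2) (fun j => sq_nonneg _) (wdC_summable v) 1 zero_le_one
      fun S S' hS => ?_
    rw [one_mul, hA3 S S' v hS]
    refine Real.le_sqrt_of_sq_le ?_
    have h1 := (hB S').2.1 (wdC_cut S v) v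
    rwa [wdC_sum hS] at h1
  choose W hW using hWlim
  -- the limit of `JS`
  have hJlim : ∀ v h : l2R κ, ∃ y, Tendsto (fun S => JS S (WS S) v h) atTop (𝓝 y) := by
    intro v h
    refine wdC_lim _ (fun j => v j ^ 2 + h j ^ 2) (fun j => by positivity)
      ((wdC_summable v).add (wdC_summable h)) (1 + 2 * ‖h‖) (by positivity) fun S S' hS => ?_
    rw [wdC_JS_cut WS hA2 hS]
    have e1 : JS S' (WS S') v h - JS S' (WS S') (wdC_cut S v) (wdC_cut S h) =
        JS S' (WS S') v (⇑h - wdC_cut S h) +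
          (JS S' (WS S') v (wdC_cut S h) - JS S' (WS S') (wdC_cut S v) (wdC_cut S h)) := by
      rw [wdC_JS_sub]
      abel
    have h1 : ‖JS S' (WS S') v (⇑h - wdC_cut S h)‖ ≤ √(∑ j ∈ S' \ S, h j ^ 2) := by
      refine Real.le_sqrt_of_sq_le ?_
      rw [(hB S').2.2.1]
      exact (wdC_sum hS h).le
    have h2 : ‖JS S' (WS S') v (wdC_cut S h) - JS S' (WS S') (wdC_cut S v) (wdC_cut S h)‖ ≤
        2 * ‖h‖ * √(∑ j ∈ S' \ S, v j ^ 2) := by
      refine le_of_sq_le_sq ?_ (by positivity)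
      refine ((hB S').2.2.2.1 (wdC_cut S v) v (wdC_cut S h)).trans ?_
      rw [wdC_sum hS, mul_pow, Real.sq_sqrt (Finset.sum_nonneg fun j _ => sq_nonneg _)]
      have h3 := (wdC_sum_le S S' h).trans (wdC_norm h S')
      have h4 : 0 ≤ ∑ j ∈ S' \ S, v j ^ 2 := Finset.sum_nonneg fun j _ => sq_nonneg _
      calc 4 * (∑ j ∈ S' \ S, v j ^ 2) * ∑ j ∈ S', wdC_cut S h j ^ 2
          ≤ 4 * (∑ j ∈ S' \ S, v j ^ 2) * ‖h‖ ^ 2 := mul_le_mul_of_nonneg_left h3 (by positivity)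
        _ = _ := by ring
    have h5 : √(∑ j ∈ S' \ S, h j ^ 2) ≤ √(∑ j ∈ S' \ S, (v j ^ 2 + h j ^ 2)) :=
      Real.sqrt_le_sqrt (Finset.sum_le_sum fun j _ => by nlinarith [sq_nonneg (v j)])
    have h6 : √(∑ j ∈ S' \ S, v j ^ 2) ≤ √(∑ j ∈ S' \ S, (v j ^ 2 + h j ^ 2)) :=
      Real.sqrt_le_sqrt (Finset.sum_le_sum fun j _ => by nlinarith [sq_nonneg (h j)])
    rw [e1]
    refine (norm_add_le _ _).trans ?_
    have h7 : 2 * ‖h‖ * √(∑ j ∈ S' \ S, v j ^ 2) ≤ 2 * ‖h‖ * √(∑ j ∈ S' \ S, (v j ^ 2 + h j ^ 2)) :=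
      mul_le_mul_of_nonneg_left h6 (by positivity)
    linarith
  choose J hJ using hJlim
  have hJnorm : ∀ v h : l2R κ, ‖J v h‖ = ‖h‖ := by
    intro v h
    have h1 : Tendsto (fun S => ‖JS S (WS S) v h‖ ^ 2) atTop (𝓝 (‖J v h‖ ^ 2)) := (hJ v h).norm.pow 2
    have h2 : (fun S => ‖JS S (WS S) v h‖ ^ 2) = fun S : Finset κ => ∑ j ∈ S, h j ^ 2 := by
      funext S
      exact (hB S).2.2.1 _ _
    rw [h2] at h1
    have h3 := tendsto_nhds_unique h1 (wdC_tendsto h)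
    exact (pow_left_inj₀ (norm_nonneg _) (norm_nonneg _) two_ne_zero).mp h3
  set JL : l2R κ → l2R κ →L[ℝ] l2R (Finset κ) := fun v => LinearMap.mkContinuous
    { toFun := J v
      map_add' := fun h h' => by
        have h1 := hJ v (h + h')
        have h2 := (hJ v h).add (hJ v h')
        refine tendsto_nhds_unique h1 (h2.congr fun S => ?_)
        rw [lp.coeFn_add, wdC_JS_add]
      map_smul' := fun c h => by
        have h1 := hJ v (c • h)
        have h2 := (hJ v h).const_smul c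
        refine tendsto_nhds_unique h1 (h2.congr fun S => ?_)
        rw [lp.coeFn_smul, wdC_JS_smul] } 1 (fun h => by
          rw [one_mul]
          exact (hJnorm v h).le) with hJL
  have hJLa : ∀ v h, JL v h = J v h := fun v h => rfl
  refine ⟨⟨W, JL, fun v h => hJnorm v h, fun v => ?_, fun v v' => ?_, fun v v' => ?_, fun v v' => ?_⟩⟩
  · refine le_of_tendsto' (hW v).norm fun S => ?_
    exact ((hB S).1 v).le
  · refine le_of_sq_le_sq ?_ (norm_nonneg _)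
    have h1 : Tendsto (fun S => ‖WS S v' - WS S v‖ ^ 2) atTop (𝓝 (‖W v' - W v‖ ^ 2)) :=
      ((hW v').sub (hW v)).norm.pow 2
    refine le_of_tendsto_of_tendsto' h1 (wdC_tendsto (v' - v)) fun S => ?_
    exact (hB S).2.1 v v'
  · refine ContinuousLinearMap.opNorm_le_bound _ (by positivity) fun h => ?_
    rw [ContinuousLinearMap.sub_apply, hJLa, hJLa]
    refine le_of_sq_le_sq ?_ (by positivity)
    have h1 : Tendsto (fun S => ‖JS S (WS S) v' h - JS S (WS S) v h‖ ^ 2) atTop (𝓝 (‖J v' h - J v h‖ ^ 2)) :=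
      ((hJ v' h).sub (hJ v h)).norm.pow 2
    have h2 : Tendsto (fun S : Finset κ => 4 * (∑ j ∈ S, (v' - v) j ^ 2) * ∑ j ∈ S, h j ^ 2) atTop
        (𝓝 (4 * ‖v' - v‖ ^ 2 * ‖h‖ ^ 2)) := ((wdC_tendsto (v' - v)).const_mul 4).mul (wdC_tendsto h)
    have h3 : (2 * ‖v' - v‖ * ‖h‖) ^ 2 = 4 * ‖v' - v‖ ^ 2 * ‖h‖ ^ 2 := by ring
    rw [h3]
    refine le_of_tendsto_of_tendsto' h1 h2 fun S => ?_
    exact (hB S).2.2.2.1 v v' h
  · have h1 : Tendsto (fun S => ‖WS S v' - WS S v - JS S (WS S) v (v' - v : l2R κ)‖) atTop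
        (𝓝 (‖W v' - W v - J v (v' - v)‖)) :=
      (((hW v').sub (hW v)).sub (hJ v (v' - v))).norm
    have h2 : Tendsto (fun S : Finset κ => 2 * ∑ j ∈ S, (v' - v) j ^ 2) atTop (𝓝 (2 * ‖v' - v‖ ^ 2)) :=
      (wdC_tendsto (v' - v)).const_mul 2
    rw [hJLa]
    refine le_of_tendsto_of_tendsto' h1 h2 fun S => ?_
    exact (hB S).2.2.2.2 v v'

end Pool.Agent.H31.QH
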